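import Mathlib

/-! # Integer powers -/

set_option autoImplicit false

namespace Pool.Agent.Lib.MP_dbb03c_co.Gen

private theorem two_le_add_inv {y : ℝ} (hy : 0 < y) : 2 ≤ y + y⁻¹ := by
  have h : y + y⁻¹ - 2 = (y - 1) ^ 2 / y := by
    field_simp
    ring
  have h2 : 0 ≤ (y - 1) ^ 2 / y := by positivity
  linarith

/-- `x ^ k + x ^ (-k)` is smallest for `k = 0`, and for `k = ±1` among the odd `k` -/
theorem zpow_even {x : ℝ} (hx : 0 < x) (m : ℤ) : x ^ (0 : ℤ) + x ^ (-0 : ℤ) ≤ x ^ m + x ^ (-m) := by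
  have h := two_le_add_inv (zpow_pos hx m)
  rw [zpow_neg x m]
  simp only [neg_zero, zpow_zero]
  linarith

private theorem zpow_odd_nat {x : ℝ} (hx : 0 < x) (n : ℕ) :
    x ^ (-1 : ℤ) + x ^ (1 : ℤ) ≤ x ^ ((n + 1 : ℕ) : ℤ) + x ^ (-((n + 1 : ℕ) : ℤ)) := by
  rw [zpow_neg, zpow_neg, zpow_natCast, zpow_one]
  have h : x ^ (n + 1) + (x ^ (n + 1))⁻¹ - (x⁻¹ + x) =
      (x ^ n - 1) * (x ^ (n + 2) - 1) / x ^ (n + 1) := by
    have hx' := hx.ne'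
    field_simp
    ring
  have h2 : 0 ≤ (x ^ n - 1) * (x ^ (n + 2) - 1) := by
    rcases le_total 1 x with h1 | h1
    · exact mul_nonneg (sub_nonneg.2 (one_le_pow₀ h1)) (sub_nonneg.2 (one_le_pow₀ h1))
    · exact mul_nonneg_of_nonpos_of_nonpos (sub_nonpos.2 (pow_le_one₀ hx.le h1))
        (sub_nonpos.2 (pow_le_one₀ hx.le h1))
  have h3 : 0 ≤ (x ^ n - 1) * (x ^ (n + 2) - 1) / x ^ (n + 1) := div_nonneg h2 (pow_pos hx _).le
  linarith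

theorem zpow_odd {x : ℝ} (hx : 0 < x) {m : ℤ} (hm : m ≠ 0) :
    x ^ (-1 : ℤ) + x ^ (1 : ℤ) ≤ x ^ m + x ^ (-m) := by
  rcases lt_or_gt_of_ne hm with h | h
  · obtain ⟨n, hn⟩ : ∃ n : ℕ, -m = ((n + 1 : ℕ) : ℤ) := ⟨(-m).toNat - 1, by omega⟩
    have h1 := zpow_odd_nat hx n
    rw [← hn, neg_neg] at h1
    linarith
  · obtain ⟨n, hn⟩ : ∃ n : ℕ, m = ((n + 1 : ℕ) : ℤ) := ⟨m.toNat - 1, by omega⟩
    have h1 := zpow_odd_nat hx n
    rw [← hn] at h1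
    exact h1

end Pool.Agent.Lib.MP_dbb03c_co.Gen
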