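import Pool.Agent.Lib.MP_dbb03c_co.Gen.ABi1
import Pool.Agent.Lib.MP_dbb03c_co.Gen.ABiP

/-! # Targets without a gain (regular or biregular components): the path is minimal -/

set_option autoImplicit false

namespace Pool.Agent.Lib.MP_dbb03c_co.Gen

variable {V : Type} [Fintype V] {A : V → V → Prop}

/-- `2 * ∑ r ^ (m + 1) = ∑ r * (r ^ m + r ^ (-m))` -/
theorem bi_min {l : ℝ} {φ : V → ℝ} (hA : ∀ a b, A a b → A b a) (he : ∀ a, ∃ b, A a b)
    (hl : 0 < l) (hφ : ∀ v, 0 < φ v)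
    (hb : ∀ v w, A v w → AO A (fun _ => 1) v * φ w = l * φ v) (t : RT) :
    ∑ v, hv A (pt (t.sz - 1)) v ≤ ∑ v, hv A t v := by
  classical
  set r : V → ℝ := fun v => AO A (fun _ => 1) v / l with hrdef
  have hr : ∀ v, 0 < r v := fun v => div_pos (AO_pos he (fun _ => one_pos) v) hl
  have hd : ∀ v, AO A (fun _ => 1) v = l * r v := fun v => by
    rw [hrdef]
    field_simp
  have hrr : ∀ v w, A v w → r v * r w = 1 := by
    intro v w hvw
    have h1 := hb v w hvw
    have h2 := hb w v (hA _ _ hvw)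
    rw [hd, mul_assoc] at h1 h2
    have h3 : r v * φ w = φ v := mul_left_cancel₀ hl.ne' h1
    have h4 : r w * φ v = φ w := mul_left_cancel₀ hl.ne' h2
    have h5 : r v * r w * φ v = 1 * φ v := by
      rw [mul_assoc, h4, h3, one_mul]
    exact mul_right_cancel₀ (hφ v).ne' h5
  have hsum : ∀ u : RT, 2 * ∑ v, hv A u v =
      l ^ (u.sz - 1) * ∑ v, r v * (r v ^ (ex u) + r v ^ (-ex u)) := by
    intro u
    have h1 : ∑ v, hv A u v = l ^ (u.sz - 1) * ∑ v, r v ^ (ex u + 1) := by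
      rw [Finset.mul_sum]
      exact Finset.sum_congr rfl fun v _ => hv_bi hl hr hd hrr u v
    have h2 := sum_symm hA hl hr hd hrr (ex u)
    have h3 : ∑ v, r v * (r v ^ (ex u) + r v ^ (-ex u)) =
        ∑ v, r v ^ (ex u + 1) + ∑ v, r v ^ (1 - ex u) := by
      rw [← Finset.sum_add_distrib]
      refine Finset.sum_congr rfl fun v _ => ?_
      rw [zpow_add₀ (hr v).ne', zpow_one, sub_eq_add_neg, zpow_add₀ (hr v).ne', zpow_one]
      ring
    rw [h3, h1, ← h2]
    ring
  have hsz : (pt (t.sz - 1)).sz = t.sz := by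
    rw [sz_pt]
    have := t.sz_pos
    omega
  have h1 := hsum t
  have h2 := hsum (pt (t.sz - 1))
  rw [hsz] at h2
  have key : ∑ v, r v * (r v ^ (ex (pt (t.sz - 1))) + r v ^ (-ex (pt (t.sz - 1)))) ≤
      ∑ v, r v * (r v ^ (ex t) + r v ^ (-ex t)) := by
    refine Finset.sum_le_sum fun v _ => mul_le_mul_of_nonneg_left ?_ (hr v).le
    rcases ex_pt (t.sz - 1) with h0 | h0
    · rw [h0]
      exact zpow_even (hr v) _
    · rw [h0, neg_neg]
      refine zpow_odd (hr v) ?_
      intro h3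
      obtain ⟨k, hk⟩ := ex_parity t
      obtain ⟨k', hk'⟩ := ex_parity (pt (t.sz - 1))
      rw [hsz] at hk'
      omega
  have h4 := mul_le_mul_of_nonneg_left key (pow_pos hl (t.sz - 1)).le
  linarith

end Pool.Agent.Lib.MP_dbb03c_co.Gen
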