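import Pool.Agent.Lib.MP_dbb03c_co.Gen.HomG

/-! # Targets without a gain (regular or biregular components): the path is minimal -/

set_option autoImplicit false

namespace Pool.Agent.Lib.MP_dbb03c_co.Gen

variable {V : Type} [Fintype V] {A : V → V → Prop}

/-- (number of vertices of the class of the root's neighbours) - (size of the class of the root) -/
def ex : RT → ℤ
  | .one => -1
  | .gr s t => ex s - ex t

theorem ex_parity (t : RT) : ∃ k : ℤ, ex t = t.sz + 2 * k := by
  induction t with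
  | one => exact ⟨-1, by simp [ex, RT.sz]⟩
  | gr s t ihs iht =>
    obtain ⟨k, hk⟩ := ihs
    obtain ⟨k', hk'⟩ := iht
    refine ⟨k - k' - t.sz, ?_⟩
    simp only [ex, RT.sz]
    rw [hk, hk']
    push_cast
    ring

theorem ex_pt (n : ℕ) : ex (pt n) = 0 ∨ ex (pt n) = -1 := by
  induction n with
  | zero => exact Or.inr rfl
  | succ n ih =>
    have h : ex (pt (n + 1)) = -1 - ex (pt n) := rfl
    rw [h]
    rcases ih with ih | ih
    · right
      rw [ih]
      norm_num
    · left
      rw [ih]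
      norm_num

/-- the operator on the powers of `r` -/
private theorem AO_zpow {l : ℝ} {r : V → ℝ} (hr : ∀ v, 0 < r v)
    (hd : ∀ v, AO A (fun _ => 1) v = l * r v) (hb : ∀ v w, A v w → r v * r w = 1) (j : ℤ) (v : V) :
    AO A (fun w => r w ^ j) v = l * r v ^ (1 - j) := by
  classical
  have hv : r v ≠ 0 := (hr v).ne'
  have h1 : AO A (fun w => r w ^ j) v = r v ^ (-j) * AO A (fun _ => 1) v := by
    unfold AO
    rw [Finset.mul_sum]
    refine Finset.sum_congr rfl fun w _ => ?_
    split_ifs with h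
    · have h2 : r w = (r v)⁻¹ := eq_inv_of_mul_eq_one_right (hb v w h)
      change r w ^ j = r v ^ (-j) * 1
      rw [h2, inv_zpow, ← zpow_neg, mul_one]
    · simp
  rw [h1, hd, sub_eq_add_neg, zpow_add₀ hv, zpow_one]
  ring

/-- the closed form, by induction on the tree. Here `r v = AO A 1 v / l` is the degree divided by `l`. -/
theorem hv_bi {l : ℝ} {r : V → ℝ} (hl : 0 < l) (hr : ∀ v, 0 < r v)
    (hd : ∀ v, AO A (fun _ => 1) v = l * r v) (hb : ∀ v w, A v w → r v * r w = 1) (t : RT) (v : V) :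
    hv A t v = l ^ (t.sz - 1) * r v ^ (ex t + 1) := by
  induction t generalizing v with
  | one => simp [hv, ex, RT.sz]
  | gr s t ihs iht =>
    have hv0 : r v ≠ 0 := (hr v).ne'
    have e1 : hv A (RT.gr s t) v = hv A s v * AO A (hv A t) v := rfl
    have e2 : hv A t = l ^ (t.sz - 1) • (fun w => r w ^ (ex t + 1)) := by
      funext w
      rw [iht w]
      rfl
    have e3 : AO A (hv A t) v = l ^ (t.sz - 1) * (l * r v ^ (1 - (ex t + 1))) := by
      rw [e2, AO_smul]
      change l ^ (t.sz - 1) * AO A (fun w => r w ^ (ex t + 1)) v = _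
      rw [AO_zpow hr hd hb]
    have e4 : (RT.gr s t).sz - 1 = (s.sz - 1) + ((t.sz - 1) + 1) := by
      have h1 := s.sz_pos
      have h2 := t.sz_pos
      have h3 : (RT.gr s t).sz = s.sz + t.sz := rfl
      omega
    have e5 : ex (RT.gr s t) + 1 = (ex s + 1) + (1 - (ex t + 1)) := by
      simp only [ex]
      ring
    rw [e1, ihs v, e3, e4, e5, zpow_add₀ hv0 (ex s + 1) (1 - (ex t + 1)), pow_add,
      pow_succ l (t.sz - 1)]
    ring

/-- double counting: `l * ∑ v, r v ^ (m + 1) = ∑ v, AO A 1 v * r v ^ m = ∑ v, AO A (r ^ m) v` and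
`AO A (fun w => r w ^ m) v = l * r v * r v ^ (-m)` -/
theorem sum_symm {l : ℝ} {r : V → ℝ} (hA : ∀ a b, A a b → A b a) (hl : 0 < l) (hr : ∀ v, 0 < r v)
    (hd : ∀ v, AO A (fun _ => 1) v = l * r v) (hb : ∀ v w, A v w → r v * r w = 1) (m : ℤ) :
    ∑ v, r v ^ (m + 1) = ∑ v, r v ^ (1 - m) := by
  have h1 : l * ∑ v, r v ^ (m + 1) = l * ∑ v, r v ^ (1 - m) := by
    have h2 := AO_self_adj hA (fun _ => (1 : ℝ)) (fun w => r w ^ m)
    have h3 : ∀ v, AO A (fun _ => 1) v * r v ^ m = l * r v ^ (m + 1) := by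
      intro v
      rw [hd, zpow_add₀ (hr v).ne', zpow_one]
      ring
    have h4 : ∀ v, (1 : ℝ) * AO A (fun w => r w ^ m) v = l * r v ^ (1 - m) := by
      intro v
      rw [AO_zpow hr hd hb, one_mul]
    simp only [h3, h4] at h2
    rw [Finset.mul_sum, Finset.mul_sum]
    exact h2.symm
  exact mul_left_cancel₀ hl.ne' h1

end Pool.Agent.Lib.MP_dbb03c_co.Gen
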