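import Pool.Agent.Lib.MP_dbb03c_co.Gen.AO

/-! # Restriction to a closed set of vertices -/

set_option autoImplicit false

namespace Pool.Agent.Lib.MP_dbb03c_co.Gen

variable {V : Type} [Fintype V] {A : V → V → Prop}

/-- restriction to a set of vertices which is closed under adjacency (induction on the tree) -/
theorem hv_restrict (C : Finset V) (hC : ∀ a ∈ C, ∀ b, A a b → b ∈ C) (t : RT) (v : C) :
    hv (fun a b : C => A a.1 b.1) t v = hv A t v.1 := by
  classical
  induction t generalizing v with
  | one => rfl
  | gr s t ihs iht =>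
    have h1 : AO (fun a b : C => A a.1 b.1) (hv (fun a b : C => A a.1 b.1) t) v =
        AO A (hv A t) v.1 := by
      unfold AO
      have h2 : ∑ w, (if A v.1 w then hv A t w else 0) =
          ∑ w ∈ C, (if A v.1 w then hv A t w else 0) := by
        refine (Finset.sum_subset (Finset.subset_univ C) fun w _ hw => ?_).symm
        exact if_neg fun h => hw (hC v.1 v.2 w h)
      rw [h2, ← Finset.sum_coe_sort C]
      refine Finset.sum_congr rfl fun w _ => ?_
      rw [iht w]
    change hv (fun a b : C => A a.1 b.1) s v *
      AO (fun a b : C => A a.1 b.1) (hv (fun a b : C => A a.1 b.1) t) v =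
      hv A s v.1 * AO A (hv A t) v.1
    rw [h1, ihs v]

end Pool.Agent.Lib.MP_dbb03c_co.Gen
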