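import Pool.Agent.Lib.MP_dbb03c_co.Gen.AConn
import Pool.Agent.Lib.MP_dbb03c_co.Gen.ARes

/-! # Arbitrary targets: sum over the components -/

set_option autoImplicit false

namespace Pool.Agent.Lib.MP_dbb03c_co.Gen

variable {V : Type} [Fintype V] {A : V → V → Prop}

/-- Strong induction on the number of elements of the closed set `C`: split off the component
`{b | ReflTransGen A a b}` of some `a ∈ C` (closed, contained in `C`); on it use `conn` for the subtype
and `hv_restrict`; the rest is closed because `A` is symmetric. -/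
theorem closed (hA : ∀ a b, A a b → A b a) : ∀ (k : ℕ) (C : Finset V), C.card = k →
    (∀ a ∈ C, ∀ b, A a b → b ∈ C) →
    ∃ L : ℕ, ∀ t : RT, L ≤ t.lv → ∑ v ∈ C, hv A (pt (t.sz - 1)) v ≤ ∑ v ∈ C, hv A t v := by
  classical
  intro k
  induction k using Nat.strong_induction_on with
  | _ k ih =>
    intro C hk hC
    rcases C.eq_empty_or_nonempty with rfl | ⟨a, ha⟩
    · exact ⟨0, fun t _ => by simp⟩
    · -- the component of `a`
      set D : Finset V := C.filter (fun b => Relation.ReflTransGen A a b) with hD
      have haD : a ∈ D := by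
        rw [hD, Finset.mem_filter]
        exact ⟨ha, Relation.ReflTransGen.refl⟩
      have hDC : D ⊆ C := Finset.filter_subset _ _
      have hDcl : ∀ x ∈ D, ∀ y, A x y → y ∈ D := by
        intro x hx y hxy
        rw [hD, Finset.mem_filter] at hx ⊢
        exact ⟨hC x hx.1 y hxy, hx.2.tail hxy⟩
      have hEcl : ∀ x ∈ C \ D, ∀ y, A x y → y ∈ C \ D := by
        intro x hx y hxy
        rw [Finset.mem_sdiff] at hx ⊢
        refine ⟨hC x hx.1 y hxy, fun hy => hx.2 ?_⟩
        exact hDcl y hy x (hA x y hxy)
      have hcard : (C \ D).card < k := by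
        rw [← hk]
        refine Finset.card_lt_card ⟨Finset.sdiff_subset, fun h => ?_⟩
        exact (Finset.mem_sdiff.1 (h ha)).2 haD
      obtain ⟨L2, hL2⟩ := ih _ hcard (C \ D) rfl hEcl
      -- connectedness of the component
      have hreach : ∀ b, Relation.ReflTransGen A a b → ∀ hb : b ∈ D,
          Relation.ReflTransGen (fun x y : D => A x.1 y.1) ⟨a, haD⟩ ⟨b, hb⟩ := by
        intro b hab
        induction hab with
        | refl => exact fun _ => Relation.ReflTransGen.refl
        | @tail c d hac hcd ih2 =>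
          intro hd
          have hc : c ∈ D := hDcl d hd c (hA c d hcd)
          exact (ih2 hc).tail hcd
      have hsym : ∀ x y : D, A x.1 y.1 → A y.1 x.1 := fun x y h => hA _ _ h
      have hconn : ∀ x y : D, Relation.ReflTransGen (fun x y : D => A x.1 y.1) x y := by
        intro x y
        have h0 : ∀ z ∈ D, Relation.ReflTransGen A a z := fun z hz =>
          (Finset.mem_filter.1 hz).2
        have h1 := hreach x.1 (h0 x.1 x.2) x.2
        have h2 := hreach y.1 (h0 y.1 y.2) y.2
        have : Std.Symm (fun x y : D => A x.1 y.1) := ⟨fun x y h => hsym x y h⟩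
        exact (Relation.ReflTransGen.stdSymm.symm _ _ h1).trans h2
      obtain ⟨L1, hL1⟩ := conn hsym hconn
      refine ⟨max L1 L2, fun t ht => ?_⟩
      have e : ∀ t : RT, ∑ v ∈ C, hv A t v = (∑ v : D, hv (fun x y : D => A x.1 y.1) t v) +
          ∑ v ∈ C \ D, hv A t v := by
        intro t
        rw [← Finset.sum_sdiff hDC, add_comm]
        congr 1
        rw [← Finset.sum_coe_sort D]
        exact Finset.sum_congr rfl fun v _ => (hv_restrict D hDcl t v).symm
      rw [e, e]
      exact add_le_add (hL1 t (le_trans (le_max_left _ _) ht))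
        (hL2 t (le_trans (le_max_right _ _) ht))

theorem general (hA : ∀ a b, A a b → A b a) :
    ∃ L : ℕ, ∀ t : RT, L ≤ t.lv → ∑ v, hv A (pt (t.sz - 1)) v ≤ ∑ v, hv A t v := by
  classical
  obtain ⟨L, hL⟩ := closed hA _ Finset.univ rfl (fun _ _ _ _ => Finset.mem_univ _)
  exact ⟨L, hL⟩

end Pool.Agent.Lib.MP_dbb03c_co.Gen
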