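import Pool.Agent.Lib.MP_dbb03c_co.Gen.ALow1

/-! # The gain of a leaf, continued -/

set_option autoImplicit false

namespace Pool.Agent.Lib.MP_dbb03c_co.Gen

open Real

variable {V : Type} [Fintype V] {A : V → V → Prop}

/-- induction on the tree, as `LP_vec` in `Pi4` -/
theorem LF_hv [Nonempty V] {l : ℝ} {φ : V → ℝ} (h : Eig A l φ) (t : RT) :
    ((t.sz : ℝ) - 1) * log l + gam A l φ * t.lv ≤ LF φ (hv A t) := by
  induction t with
  | one => simp [RT.sz, RT.lv, hv, LF]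
  | gr s t hs ht =>
    have h1 : LF φ (hv A (.gr s t)) = LF φ (hv A s) + LF φ (AO A (hv A t)) :=
      LF_mul (hv_pos h.nbr s) (AO_pos h.nbr (hv_pos h.nbr t))
    have h2 : (t.sz : ℝ) * log l + gam A l φ * ((max 1 t.lv : ℕ) : ℝ) ≤
        LF φ (AO A (hv A t)) := by
      cases t with
      | one =>
        have e : LF φ (AO A (hv A RT.one)) = LF φ (AO A fun _ => 1) := rfl
        rw [e]
        simp only [RT.lv, RT.sz, gam]
        norm_num
      | gr a b =>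
        have h3 : max 1 (RT.gr a b).lv = (RT.gr a b).lv := by
          simp only [RT.lv]
          omega
        rw [h3]
        have h4 := LF_AO h (hv_pos h.nbr (RT.gr a b))
        linarith
    rw [h1]
    simp only [RT.lv, RT.sz, Nat.cast_add]
    linarith

/-- `exp_le_mean` with `w = φ ^ 2`, and `φ v ^ 2 * x v ≤ m ^ 2 * x v` -/
theorem sum_ge [Nonempty V] {φ x : V → ℝ} {m : ℝ} (hφ : ∀ v, 0 < φ v) (hm : ∀ v, φ v ≤ m)
    (hx : ∀ v, 0 < x v) : (∑ v, φ v ^ 2) * exp (LF φ x) ≤ m ^ 2 * ∑ v, x v := by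
  refine (exp_le_mean (fun v => φ v ^ 2) x (fun v => pow_pos (hφ v) 2) hx).trans ?_
  rw [Finset.mul_sum]
  exact Finset.sum_le_sum fun v _ =>
    mul_le_mul_of_nonneg_right (pow_le_pow_left₀ (hφ v).le (hm v) 2) (hx v).le

/-- `1 ≤ K • φ`, so `AO^[n] 1 ≤ K * l ^ n • φ` -/
theorem path_le {l : ℝ} {φ : V → ℝ} (h : Eig A l φ) :
    ∃ K : ℝ, 0 < K ∧ ∀ n, ∑ v, hv A (pt n) v ≤ K * l ^ n := by
  classical
  set c : ℝ := ∑ v, (φ v)⁻¹ with hc
  have hc0 : 0 ≤ c := Finset.sum_nonneg fun v _ => (inv_pos.2 (h.pos v)).le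
  have hcv : ∀ v, 1 ≤ c * φ v := by
    intro v
    have h1 : (φ v)⁻¹ ≤ c :=
      Finset.single_le_sum (f := fun v => (φ v)⁻¹) (fun v _ => (inv_pos.2 (h.pos v)).le)
        (Finset.mem_univ v)
    calc (1 : ℝ) = (φ v)⁻¹ * φ v := (inv_mul_cancel₀ (h.pos v).ne').symm
      _ ≤ c * φ v := mul_le_mul_of_nonneg_right h1 (h.pos v).le
  have hn : ∀ n v, hv A (pt n) v ≤ c * l ^ n * φ v := by
    intro n
    induction n with
    | zero =>
      intro v
      have e : hv A (pt 0) v = 1 := rfl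
      rw [e, pow_zero, mul_one]
      exact hcv v
    | succ n ih =>
      intro v
      have e : hv A (pt (n + 1)) v = 1 * AO A (hv A (pt n)) v := rfl
      rw [e, one_mul]
      have h1 := AO_mono (A := A) (y := (c * l ^ n) • φ) (fun v => ih v) v
      rw [AO_smul, Pi.smul_apply, smul_eq_mul, h.eq v] at h1
      refine h1.trans (le_of_eq ?_)
      rw [pow_succ]
      ring
  refine ⟨c * ∑ v, φ v + 1, ?_, fun n => ?_⟩
  · have h1 : 0 ≤ c * ∑ v, φ v := mul_nonneg hc0 (Finset.sum_nonneg fun v _ => (h.pos v).le)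
    linarith
  · calc ∑ v, hv A (pt n) v ≤ ∑ v, c * l ^ n * φ v := Finset.sum_le_sum fun v _ => hn n v
      _ = c * l ^ n * ∑ v, φ v := by rw [Finset.mul_sum]
      _ ≤ (c * ∑ v, φ v + 1) * l ^ n := by
        have h1 : 0 ≤ l ^ n := (pow_pos h.lpos n).le
        nlinarith

/-- `LF_hv`, `sum_ge`, `path_le`; `exp ((sz - 1) * log l) = l ^ (sz - 1)` -/
theorem many_leaves [Nonempty V] {l : ℝ} {φ : V → ℝ} (h : Eig A l φ) (hg : 0 < gam A l φ) :
    ∃ L : ℕ, ∀ t : RT, L ≤ t.lv → ∑ v, hv A (pt (t.sz - 1)) v ≤ ∑ v, hv A t v := by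
  classical
  obtain ⟨K, hK, hKn⟩ := path_le h
  set m : ℝ := ∑ v, φ v with hm
  have hm0 : 0 < m := Finset.sum_pos (fun v _ => h.pos v) Finset.univ_nonempty
  have hmv : ∀ v, φ v ≤ m := fun v =>
    Finset.single_le_sum (f := φ) (fun v _ => (h.pos v).le) (Finset.mem_univ v)
  set S : ℝ := ∑ v, φ v ^ 2 with hS
  have hS0 : 0 < S := Finset.sum_pos (fun v _ => pow_pos (h.pos v) 2) Finset.univ_nonempty
  obtain ⟨L, hL⟩ := exists_nat_ge (log (K * m ^ 2 / S) / gam A l φ)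
  refine ⟨L, fun t ht => (hKn (t.sz - 1)).trans ?_⟩
  have h1 := LF_hv h t
  have h2 := sum_ge h.pos hmv (hv_pos h.nbr t)
  have h3 : log (K * m ^ 2 / S) ≤ gam A l φ * t.lv := by
    rw [div_le_iff₀ hg] at hL
    have h4 : (L : ℝ) ≤ t.lv := by exact_mod_cast ht
    nlinarith
  have h5 : K * m ^ 2 / S ≤ exp (gam A l φ * t.lv) := by
    rw [← log_le_iff_le_exp (by positivity)]
    exact h3
  have h6 : exp (((t.sz : ℝ) - 1) * log l) = l ^ (t.sz - 1) := by
    have e : ((t.sz : ℝ) - 1) = ((t.sz - 1 : ℕ) : ℝ) := by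
      rw [Nat.cast_sub t.sz_pos, Nat.cast_one]
    rw [e, mul_comm, exp_mul, exp_log h.lpos, rpow_natCast]
  have h7 : l ^ (t.sz - 1) * (K * m ^ 2 / S) ≤ exp (LF φ (hv A t)) := by
    calc l ^ (t.sz - 1) * (K * m ^ 2 / S) ≤ l ^ (t.sz - 1) * exp (gam A l φ * t.lv) :=
          mul_le_mul_of_nonneg_left h5 (pow_pos h.lpos _).le
      _ = exp (((t.sz : ℝ) - 1) * log l + gam A l φ * t.lv) := by rw [exp_add, h6]
      _ ≤ _ := exp_le_exp.2 h1
  have h8 : S * (l ^ (t.sz - 1) * (K * m ^ 2 / S)) ≤ m ^ 2 * ∑ v, hv A t v :=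
    (mul_le_mul_of_nonneg_left h7 hS0.le).trans h2
  have h9 : S * (l ^ (t.sz - 1) * (K * m ^ 2 / S)) = m ^ 2 * (K * l ^ (t.sz - 1)) := by
    field_simp
  rw [h9] at h8
  exact le_of_mul_le_mul_left h8 (pow_pos hm0 2)

end Pool.Agent.Lib.MP_dbb03c_co.Gen
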