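import Pool.Agent.Lib.MP_dbb03c_co.Gen.PFG
import Pool.Agent.Lib.MP_dbb03c_co.Gen.ALow
import Pool.Agent.Lib.MP_dbb03c_co.Gen.ABi

/-! # Connected targets -/

set_option autoImplicit false

namespace Pool.Agent.Lib.MP_dbb03c_co.Gen

variable {V : Type} [Fintype V] {A : V → V → Prop}

theorem sz_ge_two {t : RT} (h : 1 ≤ t.lv) : 2 ≤ t.sz := by
  cases t with
  | one => simp [RT.lv] at h
  | gr s t =>
    have h1 := RT.sz_pos s
    have h2 := RT.sz_pos t
    simp only [RT.sz]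
    omega

theorem no_edge (h : ∀ a b, ¬ A a b) (n : ℕ) (v : V) : hv A (pt (n + 1)) v = 0 := by
  have h1 : hv A (pt (n + 1)) v = 1 * AO A (hv A (pt n)) v := rfl
  rw [h1]
  simp [AO, h]

theorem conn (hA : ∀ a b, A a b → A b a) (hc : ∀ a b, Relation.ReflTransGen A a b) :
    ∃ L : ℕ, ∀ t : RT, L ≤ t.lv → ∑ v, hv A (pt (t.sz - 1)) v ≤ ∑ v, hv A t v := by
  classical
  by_cases h : ∃ a b, A a b
  · obtain ⟨a0, b0, h0⟩ := h
    haveI : Nonempty V := ⟨a0⟩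
    have he : ∀ a, ∃ b, A a b := by
      intro a
      rcases (Relation.ReflTransGen.cases_head (hc a a0)) with h1 | ⟨c, h1, _⟩
      · exact ⟨b0, h1 ▸ h0⟩
      · exact ⟨c, h1⟩
    obtain ⟨l, φ, hl, hφ, heq⟩ := pf_adj hc he
    have hE : Eig A l φ := ⟨hA, he, hl, hφ, heq⟩
    rcases (gam_nonneg hE).lt_or_eq with hg | hg
    · exact many_leaves hE hg
    · exact ⟨0, fun t _ => bi_min hA he hl hφ (gam_zero hE hg.symm) t⟩
  · push Not at h
    refine ⟨1, fun t ht => ?_⟩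
    have h1 := sz_ge_two ht
    obtain ⟨n, hn⟩ : ∃ n, t.sz - 1 = n + 1 := ⟨t.sz - 2, by omega⟩
    rw [hn]
    refine Finset.sum_le_sum fun v _ => ?_
    rw [no_edge h]
    exact hv_nonneg t v

end Pool.Agent.Lib.MP_dbb03c_co.Gen
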