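import Pool.Agent.Lib.MP_dbb03c_co.Gen.Jen

/-! # Equality in Jensen's inequality for a symmetrizable nonnegative matrix with a positive eigenvector -/

set_option autoImplicit false

namespace Pool.Agent.Lib.MP_dbb03c_co.Gen

open Real

/-- The case of equality (strict concavity of the logarithm in each row). -/
theorem jensen_eq {ι : Type} [Fintype ι] (m : ι → ι → ℝ) (r φ : ι → ℝ) (l : ℝ)
    (hm : ∀ i j, 0 ≤ m i j) (hr : ∀ i, 0 < r i) (hs : ∀ i j, r i * m i j = r j * m j i)
    (hφ : ∀ i, 0 < φ i) (hl : 0 < l) (he : ∀ i, ∑ j, m i j * φ j = l * φ i)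
    (x : ι → ℝ) (hx : ∀ i, 0 < x i)
    (h : ∑ i, r i * φ i ^ 2 * log (∑ j, m i j * x j) =
      (∑ i, r i * φ i ^ 2) * log l + ∑ i, r i * φ i ^ 2 * log (x i)) :
    ∀ i j, 0 < m i j → (∑ k, m i k * x k) * φ j = l * φ i * x j := by
  classical
  have hl0 : l ≠ 0 := hl.ne'
  have hφ0 : ∀ i, φ i ≠ 0 := fun i => (hφ i).ne'
  obtain ⟨W, hW⟩ : ∃ W : ι → ι → ℝ, ∀ i j, W i j = r i * m i j * φ i * φ j / l := ⟨_, fun _ _ => rfl⟩
  have hsym : ∀ i j, W i j = W j i := by
    intro i j
    rw [hW, hW]
    have := hs i j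
    calc r i * m i j * φ i * φ j / l = (r i * m i j) * (φ i * φ j) / l := by ring
      _ = (r j * m j i) * (φ i * φ j) / l := by rw [this]
      _ = _ := by ring
  have hsum : ∀ i, ∑ j, W i j = r i * φ i ^ 2 := by
    intro i
    calc ∑ j, W i j = ∑ j, (r i * φ i / l) * (m i j * φ j) := by
          refine Finset.sum_congr rfl fun j _ => ?_
          rw [hW]; ring
      _ = (r i * φ i / l) * (l * φ i) := by rw [← Finset.mul_sum, he i]
      _ = r i * φ i ^ 2 := by field_simp
  have hrow : ∀ i, ∑ j, W i j * (log l + (log (φ i) - log (φ j)) + log (x j)) ≤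
      r i * φ i ^ 2 * log (∑ j, m i j * x j) := by
    intro i
    have hp0 : ∀ j ∈ (Finset.univ : Finset ι), 0 ≤ m i j * φ j / (l * φ i) := fun j _ =>
      div_nonneg (mul_nonneg (hm i j) (hφ j).le) (mul_pos hl (hφ i)).le
    have hp1 : ∑ j, m i j * φ j / (l * φ i) = 1 := by
      rw [← Finset.sum_div, he i]
      exact div_self (mul_pos hl (hφ i)).ne'
    have hy : ∀ j ∈ (Finset.univ : Finset ι), l * φ i * x j / φ j ∈ Set.Ioi (0 : ℝ) := fun j _ =>
      div_pos (mul_pos (mul_pos hl (hφ i)) (hx j)) (hφ j)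
    have key := strictConcaveOn_log_Ioi.concaveOn.le_map_sum hp0 hp1 hy
    simp only [smul_eq_mul] at key
    have h1 : ∑ j, m i j * φ j / (l * φ i) * (l * φ i * x j / φ j) = ∑ j, m i j * x j := by
      refine Finset.sum_congr rfl fun j _ => ?_
      have := hφ0 i
      have := hφ0 j
      field_simp
    rw [h1] at key
    have h2 : ∑ j, W i j * (log l + (log (φ i) - log (φ j)) + log (x j)) =
        r i * φ i ^ 2 * ∑ j, m i j * φ j / (l * φ i) * log (l * φ i * x j / φ j) := by
      rw [Finset.mul_sum]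
      refine Finset.sum_congr rfl fun j _ => ?_
      have h3 : log (l * φ i * x j / φ j) = log l + (log (φ i) - log (φ j)) + log (x j) := by
        rw [Real.log_div (mul_pos (mul_pos hl (hφ i)) (hx j)).ne' (hφ0 j),
          Real.log_mul (mul_pos hl (hφ i)).ne' (hx j).ne', Real.log_mul hl0 (hφ0 i)]
        ring
      rw [h3, hW]
      have := hφ0 i
      field_simp
    rw [h2]
    exact mul_le_mul_of_nonneg_left key (mul_nonneg (hr i).le (sq_nonneg _))
  have htot : ∑ i, ∑ j, W i j * (log l + (log (φ i) - log (φ j)) + log (x j)) =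
      ∑ i, r i * φ i ^ 2 * log (∑ j, m i j * x j) := by
    rw [h]
    have e1 : ∑ i, ∑ j, W i j * (log l + (log (φ i) - log (φ j)) + log (x j)) =
        ∑ i, (∑ j, W i j) * log l + ((∑ i, (∑ j, W i j) * log (φ i)) -
          ∑ i, ∑ j, W i j * log (φ j)) + ∑ i, ∑ j, W i j * log (x j) := by
      rw [← Finset.sum_sub_distrib, ← Finset.sum_add_distrib, ← Finset.sum_add_distrib]
      refine Finset.sum_congr rfl fun i _ => ?_
      rw [Finset.sum_mul, Finset.sum_mul, ← Finset.sum_sub_distrib, ← Finset.sum_add_distrib,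
        ← Finset.sum_add_distrib]
      refine Finset.sum_congr rfl fun j _ => ?_
      ring
    have e2 : ∀ f : ι → ℝ, ∑ i, ∑ j, W i j * f j = ∑ j, r j * φ j ^ 2 * f j := by
      intro f
      rw [Finset.sum_comm]
      refine Finset.sum_congr rfl fun j _ => ?_
      rw [← hsum j, Finset.sum_mul]
      exact Finset.sum_congr rfl fun i _ => by rw [hsym i j]
    rw [e1, e2 (fun j => log (φ j)), e2 (fun j => log (x j))]
    simp only [hsum]
    rw [← Finset.sum_mul, sub_self, add_zero]
  have hrow_eq : ∀ i, ∑ j, W i j * (log l + (log (φ i) - log (φ j)) + log (x j)) =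
      r i * φ i ^ 2 * log (∑ j, m i j * x j) := fun i =>
    (Finset.sum_eq_sum_iff_of_le fun i _ => hrow i).1 htot i (Finset.mem_univ i)
  intro i j hij
  set X := ∑ k, m i k * x k with hX
  have hXpos : 0 < X := by
    refine Finset.sum_pos' (fun k _ => mul_nonneg (hm i k) (hx k).le) ⟨j, Finset.mem_univ j, ?_⟩
    exact mul_pos hij (hx j)
  have hWnn : ∀ k, 0 ≤ W i k := by
    intro k
    rw [hW]
    have := hm i k
    have := (hr i).le
    have := (hφ i).le
    have := (hφ k).le
    positivity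
  -- t k = l * φ i * x k / (φ k * X)
  have hlog : ∀ k, log (l * φ i * x k / (φ k * X)) =
      (log l + (log (φ i) - log (φ k)) + log (x k)) - log X := by
    intro k
    rw [Real.log_div (mul_pos (mul_pos hl (hφ i)) (hx k)).ne' (mul_pos (hφ k) hXpos).ne',
      Real.log_mul (mul_pos hl (hφ i)).ne' (hx k).ne', Real.log_mul hl0 (hφ0 i),
      Real.log_mul (hφ0 k) hXpos.ne']
    ring
  have hs1 : ∑ k, W i k * log (l * φ i * x k / (φ k * X)) = 0 := by
    have e3 : ∑ k, W i k * log (l * φ i * x k / (φ k * X)) =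
        ∑ k, W i k * (log l + (log (φ i) - log (φ k)) + log (x k)) - (∑ k, W i k) * log X := by
      rw [Finset.sum_mul, ← Finset.sum_sub_distrib]
      refine Finset.sum_congr rfl fun k _ => ?_
      rw [hlog k]
      ring
    rw [e3, hrow_eq i, hsum i]
    ring
  have hs2 : ∑ k, W i k * (l * φ i * x k / (φ k * X) - 1) = 0 := by
    have e3 : ∑ k, W i k * (l * φ i * x k / (φ k * X) - 1) =
        (r i * φ i ^ 2 / X) * (∑ k, m i k * x k) - ∑ k, W i k := by
      rw [Finset.mul_sum, ← Finset.sum_sub_distrib]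
      refine Finset.sum_congr rfl fun k _ => ?_
      rw [hW]
      have := hφ0 k
      have := hXpos.ne'
      field_simp
    rw [e3, ← hX, hsum i]
    have := hXpos.ne'
    field_simp
    ring
  have hs3 : ∑ k, W i k * ((l * φ i * x k / (φ k * X) - 1) - log (l * φ i * x k / (φ k * X))) = 0 := by
    have e3 : ∑ k, W i k * ((l * φ i * x k / (φ k * X) - 1) - log (l * φ i * x k / (φ k * X))) =
        ∑ k, W i k * (l * φ i * x k / (φ k * X) - 1) -
          ∑ k, W i k * log (l * φ i * x k / (φ k * X)) := by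
      rw [← Finset.sum_sub_distrib]
      exact Finset.sum_congr rfl fun k _ => by ring
    rw [e3, hs1, hs2, sub_zero]
  have htpos : ∀ k, 0 < l * φ i * x k / (φ k * X) := fun k =>
    div_pos (mul_pos (mul_pos hl (hφ i)) (hx k)) (mul_pos (hφ k) hXpos)
  have hz := (Finset.sum_eq_zero_iff_of_nonneg (fun k _ => mul_nonneg (hWnn k)
    (sub_nonneg.2 (Real.log_le_sub_one_of_pos (htpos k))))).1 hs3 j (Finset.mem_univ j)
  have hWj : 0 < W i j := by
    rw [hW]
    exact div_pos (mul_pos (mul_pos (mul_pos (hr i) hij) (hφ i)) (hφ j)) hl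
  have h4 : (l * φ i * x j / (φ j * X) - 1) - log (l * φ i * x j / (φ j * X)) = 0 := by
    rcases mul_eq_zero.1 hz with h5 | h5
    · exact absurd h5 hWj.ne'
    · exact h5
  have h5 : l * φ i * x j / (φ j * X) = 1 := by
    by_contra hne
    have := Real.log_lt_sub_one_of_pos (htpos j) hne
    linarith
  rw [div_eq_one_iff_eq (mul_pos (hφ j) hXpos).ne'] at h5
  rw [h5]
  ring

end Pool.Agent.Lib.MP_dbb03c_co.Gen
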