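import Pool.Agent.Lib.MP_dbb03c_co.Gen.HomG
import Pool.Agent.Lib.MP_dbb03c_co.Gen.Jen2

/-! # The gain of a leaf -/

set_option autoImplicit false

namespace Pool.Agent.Lib.MP_dbb03c_co.Gen

open Real

variable {V : Type} [Fintype V] {A : V → V → Prop}

/-- a target in which every vertex has a neighbour, with a positive eigenvector -/
structure Eig (A : V → V → Prop) (l : ℝ) (φ : V → ℝ) : Prop where
  symm : ∀ a b, A a b → A b a
  nbr : ∀ a, ∃ b, A a b
  lpos : 0 < l
  pos : ∀ v, 0 < φ v
  eq : ∀ v, AO A φ v = l * φ v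

/-- the logarithmic mean with the weights `φ ^ 2` -/
noncomputable def LF (φ x : V → ℝ) : ℝ := (∑ v, φ v ^ 2 * log (x v)) / ∑ v, φ v ^ 2

/-- the gain of a leaf -/
noncomputable def gam (A : V → V → Prop) (l : ℝ) (φ : V → ℝ) : ℝ :=
  LF φ (AO A fun _ => 1) - log l

theorem LF_mul {φ x y : V → ℝ} (hx : ∀ v, 0 < x v) (hy : ∀ v, 0 < y v) :
    LF φ (x * y) = LF φ x + LF φ y := by
  unfold LF
  rw [← add_div, ← Finset.sum_add_distrib]
  congr 1
  refine Finset.sum_congr rfl fun v _ => ?_
  rw [Pi.mul_apply, log_mul (hx v).ne' (hy v).ne', mul_add]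

private theorem sum_sq_pos [Nonempty V] {φ : V → ℝ} (hφ : ∀ v, 0 < φ v) : 0 < ∑ v, φ v ^ 2 :=
  Finset.sum_pos (fun v _ => pow_pos (hφ v) 2) Finset.univ_nonempty

open Classical in
private theorem AO_ite (x : V → ℝ) (v : V) :
    (∑ w, (if A v w then (1 : ℝ) else 0) * x w) = AO A x v := by
  unfold AO
  refine Finset.sum_congr rfl fun w _ => ?_
  split_ifs <;> simp

/-- `jensen` with `m v w = if A v w then 1 else 0`, `r = 1` -/
theorem LF_AO [Nonempty V] {l : ℝ} {φ : V → ℝ} (h : Eig A l φ) {x : V → ℝ} (hx : ∀ v, 0 < x v) :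
    log l + LF φ x ≤ LF φ (AO A x) := by
  classical
  have hS := sum_sq_pos h.pos
  have h1 := jensen (fun v w => if A v w then (1 : ℝ) else 0) (fun _ => 1) φ l
    (fun i j => by split_ifs <;> norm_num) (fun _ => one_pos)
    (fun i j => by
      by_cases hij : A i j
      · simp [hij, h.symm _ _ hij]
      · have hji : ¬ A j i := fun h' => hij (h.symm _ _ h')
        simp [hij, hji])
    h.pos h.lpos
    (fun i => by
      have h2 := AO_ite (A := A) φ i
      rw [h.eq i] at h2
      convert h2) x hx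
  have h2 : ∀ v, (∑ w, (if A v w then (1 : ℝ) else 0) * x w) = AO A x v := by
    intro v
    have h3 := AO_ite (A := A) x v
    convert h3
  simp only [one_mul, h2] at h1
  unfold LF
  rw [le_div_iff₀ hS, add_mul, div_mul_cancel₀ _ hS.ne']
  linarith

theorem gam_nonneg [Nonempty V] {l : ℝ} {φ : V → ℝ} (h : Eig A l φ) : 0 ≤ gam A l φ := by
  have h1 := LF_AO h (x := fun _ => 1) (fun _ => one_pos)
  have h2 : LF φ (fun _ => 1) = 0 := by
    unfold LF
    simp
  rw [h2, add_zero] at h1
  unfold gam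
  linarith

/-- `jensen_eq` -/
theorem gam_zero [Nonempty V] {l : ℝ} {φ : V → ℝ} (h : Eig A l φ) (h0 : gam A l φ = 0) :
    ∀ v w, A v w → AO A (fun _ => 1) v * φ w = l * φ v := by
  classical
  have hS := sum_sq_pos h.pos
  have h2 : ∀ (x : V → ℝ) (v : V), (∑ w, (if A v w then (1 : ℝ) else 0) * x w) = AO A x v := by
    intro x v
    have h3 := AO_ite (A := A) x v
    convert h3
  have h1 := jensen_eq (fun v w => if A v w then (1 : ℝ) else 0) (fun _ => 1) φ l
    (fun i j => by split_ifs <;> norm_num) (fun _ => one_pos)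
    (fun i j => by
      by_cases hij : A i j
      · simp [hij, h.symm _ _ hij]
      · have hji : ¬ A j i := fun h' => hij (h.symm _ _ h')
        simp [hij, hji])
    h.pos h.lpos (fun i => by rw [h2, h.eq i]) (fun _ => 1) (fun _ => one_pos)
    (by
      have h3 : LF φ (AO A fun _ => 1) = log l := by
        unfold gam at h0
        linarith
      unfold LF at h3
      rw [div_eq_iff hS.ne'] at h3
      simp only [one_mul, h2 (fun _ => 1), log_one, mul_zero, Finset.sum_const_zero, add_zero]
      rw [h3]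
      ring)
  intro v w hvw
  have h4 := h1 v w (by simp [hvw])
  rw [h2 (fun _ => 1)] at h4
  simpa using h4

end Pool.Agent.Lib.MP_dbb03c_co.Gen
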