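import Pool.Agent.Lib.MP_dbb03c_co.Gr1

/-! # The number of leaves -/

set_option autoImplicit false

namespace Pool.Agent.Lib.MP_dbb03c_co.Gen

/-- the number of leaves (vertices with exactly one neighbour) of a graph -/
noncomputable def leaves {W : Type} (G : SimpleGraph W) : ℕ :=
  Nat.card {v : W // Nat.card {w : W // G.Adj v w} = 1}

theorem leaves_congr {W W' : Type} {G : SimpleGraph W} {G' : SimpleGraph W'}
    (e : W ≃ W') (h : ∀ a b, G'.Adj (e a) (e b) ↔ G.Adj a b) : leaves G = leaves G' := by
  have hd : ∀ v, Nat.card {w : W // G.Adj v w} = Nat.card {w : W' // G'.Adj (e v) w} := fun v =>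
    Nat.card_congr (e.subtypeEquiv (fun w => (h v w).symm))
  refine Nat.card_congr (e.subtypeEquiv (fun v => ?_))
  rw [hd v]

private theorem deg_inl (s t : RT) (a : s.V) :
    Nat.card {w : (RT.gr s t).V // (RT.gr s t).G.Adj (Sum.inl a) w}
      = Nat.card {w : s.V // s.G.Adj a w} + Nat.card {b : t.V // a = s.root ∧ b = t.root} := by
  have e : {w : s.V ⊕ t.V // (RT.gr s t).G.Adj (Sum.inl a) w} ≃
      {w : s.V // s.G.Adj a w} ⊕ {b : t.V // a = s.root ∧ b = t.root} := Equiv.subtypeSum
  have h := Nat.card_congr e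
  rw [Nat.card_sum] at h
  exact h

private theorem deg_inr (s t : RT) (b : t.V) :
    Nat.card {w : (RT.gr s t).V // (RT.gr s t).G.Adj (Sum.inr b) w}
      = Nat.card {a : s.V // a = s.root ∧ b = t.root} + Nat.card {w : t.V // t.G.Adj b w} := by
  have e : {w : s.V ⊕ t.V // (RT.gr s t).G.Adj (Sum.inr b) w} ≃
      {a : s.V // a = s.root ∧ b = t.root} ⊕ {w : t.V // t.G.Adj b w} := Equiv.subtypeSum
  have h := Nat.card_congr e
  rw [Nat.card_sum] at h
  exact h

private theorem card_imp {α : Type} [Finite α] {P Q : α → Prop} (h : ∀ a, P a → Q a) :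
    Nat.card {a // P a} ≤ Nat.card {a // Q a} :=
  Nat.card_le_card_of_injective (Subtype.map id h) (Subtype.map_injective h Function.injective_id)

private theorem card_empty {α : Type} {P : α → Prop} (h : ∀ a, ¬ P a) :
    Nat.card {a // P a} = 0 := by
  haveI : IsEmpty {a // P a} := ⟨fun x => h x.1 x.2⟩
  exact Nat.card_of_isEmpty

private theorem card_pos' {α : Type} [Finite α] {P : α → Prop} {a : α} (h : P a) :
    1 ≤ Nat.card {a // P a} := by
  haveI : Nonempty {a // P a} := ⟨⟨a, h⟩⟩
  exact Nat.card_pos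

/-- Induction on the tree for the number of leaves different from the root (it is at most `t.lv`):
a leaf of `gr s t` different from the root is a leaf of `s` different from the root, or a leaf of `t`
different from the root of `t`, or the root of `t` (only if `t = one`). -/
theorem leaves_ne_root (t : RT) :
    Nat.card {v : t.V // v ≠ t.root ∧ Nat.card {w : t.V // t.G.Adj v w} = 1} ≤ t.lv := by
  induction t with
  | one =>
    rw [card_empty]
    · exact Nat.zero_le _
    · rintro a ⟨h, -⟩
      exact h (Subsingleton.elim (α := Unit) _ _)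
  | gr s t ihs iht =>
    have e : {v : s.V ⊕ t.V // (v : (RT.gr s t).V) ≠ (RT.gr s t).root ∧
        Nat.card {w : (RT.gr s t).V // (RT.gr s t).G.Adj v w} = 1} ≃
        {a : s.V // (Sum.inl a : (RT.gr s t).V) ≠ (RT.gr s t).root ∧
        Nat.card {w : (RT.gr s t).V // (RT.gr s t).G.Adj (Sum.inl a) w} = 1} ⊕
        {b : t.V // (Sum.inr b : (RT.gr s t).V) ≠ (RT.gr s t).root ∧
        Nat.card {w : (RT.gr s t).V // (RT.gr s t).G.Adj (Sum.inr b) w} = 1} := Equiv.subtypeSum
    have h := Nat.card_congr e
    rw [Nat.card_sum] at h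
    refine le_trans (le_of_eq h) ?_
    have h1 : Nat.card {a : s.V // (Sum.inl a : (RT.gr s t).V) ≠ (RT.gr s t).root ∧
        Nat.card {w : (RT.gr s t).V // (RT.gr s t).G.Adj (Sum.inl a) w} = 1} ≤ s.lv := by
      refine le_trans (card_imp ?_) ihs
      rintro a ⟨ha, hd⟩
      have ha' : a ≠ s.root := fun hh => ha (congrArg Sum.inl hh)
      rw [deg_inl, card_empty (P := fun b : t.V => a = s.root ∧ b = t.root)
        (fun b hb => ha' hb.1), Nat.add_zero] at hd
      exact ⟨ha', hd⟩
    have h2 : Nat.card {b : t.V // (Sum.inr b : (RT.gr s t).V) ≠ (RT.gr s t).root ∧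
        Nat.card {w : (RT.gr s t).V // (RT.gr s t).G.Adj (Sum.inr b) w} = 1} ≤ max 1 t.lv := by
      cases t with
      | one =>
        refine le_trans (Finite.card_subtype_le _) (le_trans (le_of_eq ?_) (le_max_left _ _))
        exact Nat.card_unique (α := Unit)
      | gr t1 t2 =>
        refine le_trans (le_trans (card_imp ?_) iht) (le_max_right _ _)
        rintro b ⟨-, hd⟩
        rw [deg_inr] at hd
        by_cases hb : b = (RT.gr t1 t2).root
        · exfalso
          have h3 : 1 ≤ Nat.card {a : s.V // a = s.root ∧ b = (RT.gr t1 t2).root} :=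
            card_pos' (a := s.root) ⟨rfl, hb⟩
          have h4 : 1 ≤ Nat.card {w : (RT.gr t1 t2).V // (RT.gr t1 t2).G.Adj b w} := by
            refine card_pos' (a := (Sum.inr t2.root : (RT.gr t1 t2).V)) ?_
            rw [hb]
            exact (RT.adj_lr t1 t2 t1.root t2.root).mpr ⟨rfl, rfl⟩
          omega
        · rw [card_empty (P := fun a : s.V => a = s.root ∧ b = (RT.gr t1 t2).root)
            (fun a ha => hb ha.2), Nat.zero_add] at hd
          exact ⟨hb, hd⟩
    exact Nat.add_le_add h1 h2

theorem leaves_le (t : RT) : leaves t.G ≤ t.lv + 1 := by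
  classical
  have h := leaves_ne_root t
  have h1 : leaves t.G ≤
      (insert t.root {v : t.V | v ≠ t.root ∧ Nat.card {w : t.V // t.G.Adj v w} = 1}).ncard := by
    have h2 : leaves t.G = {v : t.V | Nat.card {w : t.V // t.G.Adj v w} = 1}.ncard := rfl
    rw [h2]
    refine Set.ncard_le_ncard ?_ (Set.toFinite _)
    intro v hv
    by_cases hr : v = t.root
    · exact Or.inl hr
    · exact Or.inr ⟨hr, hv⟩
  have h3 := Set.ncard_insert_le t.root
    {v : t.V | v ≠ t.root ∧ Nat.card {w : t.V // t.G.Adj v w} = 1}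
  have h4 : {v : t.V | v ≠ t.root ∧ Nat.card {w : t.V // t.G.Adj v w} = 1}.ncard
      = Nat.card {v : t.V // v ≠ t.root ∧ Nat.card {w : t.V // t.G.Adj v w} = 1} := rfl
  omega

end Pool.Agent.Lib.MP_dbb03c_co.Gen
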