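import Pool.Agent.Lib.MP_dbb03c_co.Gen.AClosed
import Pool.Agent.Lib.MP_dbb03c_co.Gen.Leaf
import Pool.Agent.Lib.MP_dbb03c_co.Comb
import Pool.Agent.Lib.MP_dbb03c_co.Gr2
import Pool.Agent.Lib.MP_dbb03c_co.Gr4
import Pool.Agent.Lib.MP_dbb03c_co.Rep4

/-! # Every target: `d_H(n) ≥ c n` -/

set_option autoImplicit false

namespace Pool.Agent.Lib.MP_dbb03c_co.Gen

variable {V : Type} [Fintype V] {A : V → V → Prop}

/-- the comparison for a tree on `Fin n` in terms of a rooted representation -/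
theorem tree_of_rt (hA : ∀ a b, A a b → A b a) {L : ℕ}
    (hL : ∀ t : RT, L ≤ t.lv → ∑ v, hv A (pt (t.sz - 1)) v ≤ ∑ v, hv A t v)
    {n : ℕ} (T : SimpleGraph (Fin n)) (t : RT) (e : Fin n ≃ t.V)
    (he : ∀ a b, t.G.Adj (e a) (e b) ↔ T.Adj a b) (ht : L ≤ t.lv) :
    hom (SimpleGraph.pathGraph n) A ≤ hom T A := by
  have hsz : t.sz = n := by
    rw [← RT.card_V, ← Fintype.card_congr e, Fintype.card_fin]
  have hn : 0 < n := hsz ▸ RT.sz_pos t
  have h1 : hom T A = hom t.G A := hom_congr _ e he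
  have h2 := hom_path hA (n - 1)
  rw [Nat.sub_add_cancel hn] at h2
  have h3 : (hom (SimpleGraph.pathGraph n) A : ℝ) ≤ hom t.G A := by
    rw [h2, hom_eq hA t, ← hsz]
    exact hL t ht
  rw [h1]
  exact_mod_cast h3

theorem trees (hA : ∀ a b, A a b → A b a) :
    ∃ L : ℕ, ∀ (n : ℕ) (T : SimpleGraph (Fin n)), T.IsTree → L ≤ leaves T →
      hom (SimpleGraph.pathGraph n) A ≤ hom T A := by
  obtain ⟨L, hL⟩ := general hA
  refine ⟨L + 1, fun n T hT hl => ?_⟩
  haveI : Nonempty (Fin n) := hT.connected.nonempty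
  obtain ⟨t, e, he, _⟩ := exists_rt n T hT (Fintype.card_fin n) (Classical.arbitrary _)
  refine tree_of_rt hA hL T t e he ?_
  have h1 := leaves_le t
  rw [← leaves_congr e he] at h1
  omega

/-- If the diameter is at most `D` and `D * L + 1 < n` then there are at least `L` leaves below any root
(`sz_le`). -/
theorem small_diam (hA : ∀ a b, A a b → A b a) : ∃ L : ℕ, ∀ (n D : ℕ), 1 + D * L < n →
    ∀ T : SimpleGraph (Fin n), T.IsTree → (∀ a b, T.dist a b ≤ D) →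
      hom (SimpleGraph.pathGraph n) A ≤ hom T A := by
  obtain ⟨L, hL⟩ := general hA
  refine ⟨L, fun n D hn T hT hD => ?_⟩
  haveI : Nonempty (Fin n) := hT.connected.nonempty
  obtain ⟨t, e, he, her⟩ := exists_rt n T hT (Fintype.card_fin n) (Classical.arbitrary _)
  refine tree_of_rt hA hL T t e he ?_
  have hsz : t.sz = n := by
    rw [← RT.card_V, ← Fintype.card_congr e, Fintype.card_fin]
  have hdep : t.dep ≤ D := by
    obtain ⟨v, hv⟩ := t.exists_dist_dep
    have h2 := dist_congr e he (Classical.arbitrary _) (e.symm v)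
    rw [e.apply_symm_apply, her] at h2
    have := hD (Classical.arbitrary _) (e.symm v)
    omega
  by_contra hcon
  push Not at hcon
  have h3 := sz_le t
  have h4 : t.dep * t.lv ≤ D * L := Nat.mul_le_mul hdep hcon.le
  omega

theorem linear (hA : ∀ a b, A a b → A b a) :
    ∃ c : ℝ, 0 < c ∧ ∃ N : ℕ, ∀ n : ℕ, N ≤ n → c * n ≤ dH A n := by
  obtain ⟨L, hL⟩ := small_diam (V := V) hA
  refine ⟨1 / (2 * (L + 1)), by positivity, 8 * (L + 1), fun n hn => ?_⟩
  have hn8 : 8 ≤ n := by nlinarith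
  -- the number d = (n - 2) / (L + 1)
  have hmem : (n - 2) / (L + 1) ∈ {d | 2 ≤ d ∧ d ≤ n - 1 ∧ ∀ T : SimpleGraph (Fin n), T.IsTree →
      (∀ a b, T.dist a b ≤ d) → hom (SimpleGraph.pathGraph n) A ≤ hom T A} := by
    refine ⟨?_, ?_, fun T hT hD => hL n _ ?_ T hT hD⟩
    · rw [Nat.le_div_iff_mul_le (Nat.succ_pos L)]
      omega
    · exact (Nat.div_le_self _ _).trans (by omega)
    · have h1 : (n - 2) / (L + 1) * L ≤ (n - 2) / (L + 1) * (L + 1) :=
        Nat.mul_le_mul_left _ (Nat.le_succ L)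
      have h2 := Nat.div_mul_le_self (n - 2) (L + 1)
      omega
  have hb : BddAbove {d | 2 ≤ d ∧ d ≤ n - 1 ∧ ∀ T : SimpleGraph (Fin n), T.IsTree →
      (∀ a b, T.dist a b ≤ d) → hom (SimpleGraph.pathGraph n) A ≤ hom T A} :=
    ⟨n - 1, fun d hd => hd.2.1⟩
  have h1 : (n - 2) / (L + 1) ≤ dH A n := le_csSup hb hmem
  have h2 : n - 2 < ((n - 2) / (L + 1) + 1) * (L + 1) := by
    have h6 := Nat.div_add_mod (n - 2) (L + 1)
    have h7 := Nat.mod_lt (n - 2) (Nat.succ_pos L)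
    have h8 : ((n - 2) / (L + 1) + 1) * (L + 1) = (L + 1) * ((n - 2) / (L + 1)) + (L + 1) := by
      ring
    rw [h8]
    calc n - 2 = (L + 1) * ((n - 2) / (L + 1)) + (n - 2) % (L + 1) := h6.symm
      _ < (L + 1) * ((n - 2) / (L + 1)) + (L + 1) := Nat.add_lt_add_left h7 _
  have h3 : (n : ℝ) - 2 < (((n - 2) / (L + 1) : ℕ) + 1 : ℝ) * (L + 1) := by
    have : ((n - 2 : ℕ) : ℝ) < ((((n - 2) / (L + 1) + 1) * (L + 1) : ℕ) : ℝ) := by exact_mod_cast h2
    rw [Nat.cast_sub (by omega)] at this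
    push_cast at this ⊢
    linarith
  have h4 : (((n - 2) / (L + 1) : ℕ) : ℝ) ≤ dH A n := by exact_mod_cast h1
  have h5 : (8 : ℝ) * (L + 1) ≤ n := by exact_mod_cast hn
  have hL0 : (0 : ℝ) < L + 1 := by positivity
  rw [div_mul_eq_mul_div, one_mul, div_le_iff₀ (by positivity)]
  nlinarith

end Pool.Agent.Lib.MP_dbb03c_co.Gen
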