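import Mathlib

/-! # Definitions for the threshold formula -/

set_option autoImplicit false

namespace Pool.Agent.Lib.MP_dbb03c_co.Gen

open Filter Topology

open Classical in
/-- the adjacency operator of the target with adjacency relation `A` -/
noncomputable def AO {V : Type} [Fintype V] (A : V → V → Prop) (x : V → ℝ) : V → ℝ :=
  fun v => ∑ w, if A v w then x w else 0

variable {V : Type} [Fintype V]

/-- the adjacency operator divided by `l` -/
noncomputable def bG (A : V → V → Prop) (l : ℝ) (x : V → ℝ) : V → ℝ := fun v => AO A x v / l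

/-- `z` is the limit of `B ^ (2 m + s) y` as `m → ∞`, where `B = bG A l` is the adjacency operator
divided by `l` -/
def limV (A : V → V → Prop) (l : ℝ) (s : ℕ) (y z : V → ℝ) : Prop :=
  ∀ v, Tendsto (fun m : ℕ => (bG A l)^[2 * m + s] y v) atTop (𝓝 (z v))

/-- `MVp A l k e x`: `x` is the limiting vector of a rooted tree with `k` infinitely long legs, and `e`
is its number of edges, where only the parity `s` of a long leg is counted. `one`: a single vertex;
`leg`: a new root with a long leg which ends at the root of a finite tree; `mul`: identify two roots;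
`step`: a new root above the old one. -/
inductive MVp (A : V → V → Prop) (l : ℝ) : ℕ → ℕ → (V → ℝ) → Prop
  | one : MVp A l 0 0 (fun _ => 1)
  | leg {e s : ℕ} {y z : V → ℝ} : MVp A l 0 e y → limV A l s y z → MVp A l 1 (e + s) z
  | mul {a b e f : ℕ} {x y : V → ℝ} : MVp A l a e x → MVp A l b f y →
      MVp A l (a + b) (e + f) (x * y)
  | step {a e : ℕ} {x : V → ℝ} : MVp A l a e x → MVp A l a (e + 1) (bG A l x)

/-- the infimum of the limiting weights of trees with `k` long legs and number of edges of the parity
of `p` -/
noncomputable def thrP (A : V → V → Prop) (l : ℝ) (k p : ℕ) : ℝ :=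
  sInf {s | ∃ (e : ℕ) (x : V → ℝ), MVp A l k e x ∧ e % 2 = p % 2 ∧ s = ∑ v, x v}

end Pool.Agent.Lib.MP_dbb03c_co.Gen
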