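import Pool.Agent.Lib.MP_dbb03c_co.Gr1
import Pool.Agent.Lib.MP_dbb03c_co.Gen.GDefs

/-! # The adjacency operator of a target graph -/

set_option autoImplicit false

namespace Pool.Agent.Lib.MP_dbb03c_co.Gen

/-- the number of colourings of a rooted tree with the root at a given vertex -/
noncomputable def hv {V : Type} [Fintype V] (A : V → V → Prop) : RT → V → ℝ
  | .one => fun _ => 1
  | .gr s t => hv A s * AO A (hv A t)

variable {V : Type} [Fintype V] {A : V → V → Prop}

theorem AO_add (x y : V → ℝ) : AO A (x + y) = AO A x + AO A y := by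
  classical
  funext v
  simp only [AO, Pi.add_apply]
  rw [← Finset.sum_add_distrib]
  refine Finset.sum_congr rfl fun w _ => ?_
  split_ifs <;> simp

theorem AO_smul (c : ℝ) (x : V → ℝ) : AO A (c • x) = c • AO A x := by
  classical
  funext v
  simp only [AO, Pi.smul_apply, smul_eq_mul, Finset.mul_sum]
  refine Finset.sum_congr rfl fun w _ => ?_
  split_ifs <;> simp

theorem AO_mono {x y : V → ℝ} (h : ∀ v, x v ≤ y v) (v : V) : AO A x v ≤ AO A y v := by
  classical
  unfold AO
  refine Finset.sum_le_sum fun w _ => ?_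
  split_ifs
  · exact h w
  · exact le_rfl

theorem AO_nonneg {x : V → ℝ} (h : ∀ v, 0 ≤ x v) (v : V) : 0 ≤ AO A x v := by
  classical
  unfold AO
  refine Finset.sum_nonneg fun w _ => ?_
  split_ifs
  · exact h w
  · exact le_rfl

theorem AO_pos (he : ∀ v, ∃ w, A v w) {x : V → ℝ} (h : ∀ v, 0 < x v) (v : V) : 0 < AO A x v := by
  classical
  unfold AO
  obtain ⟨w, hw⟩ := he v
  refine Finset.sum_pos' (fun u _ => ?_) ⟨w, Finset.mem_univ w, ?_⟩
  · split_ifs
    · exact (h u).le
    · exact le_rfl
  · rw [if_pos hw]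
    exact h w

theorem AO_self_adj (hA : ∀ a b, A a b → A b a) (x y : V → ℝ) :
    ∑ v, x v * AO A y v = ∑ v, AO A x v * y v := by
  classical
  unfold AO
  simp only [Finset.mul_sum, Finset.sum_mul]
  rw [Finset.sum_comm]
  refine Finset.sum_congr rfl fun v _ => Finset.sum_congr rfl fun w _ => ?_
  by_cases h : A v w
  · rw [if_pos h, if_pos (hA _ _ h)]
  · rw [if_neg h, if_neg (fun h' => h (hA _ _ h'))]
    simp

theorem hv_nonneg (t : RT) (v : V) : 0 ≤ hv A t v := by
  induction t generalizing v with
  | one => exact zero_le_one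
  | gr s t ihs iht => exact mul_nonneg (ihs v) (AO_nonneg iht v)

theorem hv_pos (he : ∀ v, ∃ w, A v w) (t : RT) (v : V) : 0 < hv A t v := by
  induction t generalizing v with
  | one => exact zero_lt_one
  | gr s t ihs iht => exact mul_pos (ihs v) (AO_pos he iht v)

end Pool.Agent.Lib.MP_dbb03c_co.Gen
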