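import Pool.Agent.Lib.MP_dbb03c_co.Gen.HomG

/-! # Rooted trees with infinitely long legs; the threshold numbers -/

set_option autoImplicit false

namespace Pool.Agent.Lib.MP_dbb03c_co.Gen

variable {V : Type} [Fintype V]

/-- The vectors of rooted trees with `k` infinitely long legs, for the target with adjacency relation `A`
and Perron eigenvector `φ`, eigenvalue `l`: `one` is a single vertex, `leg` is a vertex with one
infinitely long leg (each such leg contributes the factor `φ v`), `mul` identifies two roots and `step`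
adds a new root above the old one (both normalised by the eigenvalue). -/
inductive MV (A : V → V → Prop) (l : ℝ) (φ : V → ℝ) : ℕ → (V → ℝ) → Prop
  | one : MV A l φ 0 (fun _ => 1)
  | leg : MV A l φ 1 φ
  | mul {a b : ℕ} {x y : V → ℝ} : MV A l φ a x → MV A l φ b y → MV A l φ (a + b) (x * y)
  | step {a : ℕ} {x : V → ℝ} : MV A l φ a x → MV A l φ a (fun v => AO A x v / l)

/-- the infimum of the total weight over all hubs with `k` legs -/
noncomputable def hubInf (A : V → V → Prop) (l : ℝ) (φ : V → ℝ) (k : ℕ) : ℝ :=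
  sInf {s | ∃ x, MV A l φ k x ∧ s = ∑ v, x v}

/-- the infimum of the weight of a finite end of a leg -/
noncomputable def endInf (A : V → V → Prop) (l : ℝ) (φ : V → ℝ) : ℝ :=
  sInf {s | ∃ x, MV A l φ 0 x ∧ s = ∑ v, φ v * x v}

/-- the infimum of the weights of all trees with `k` long legs; the path has weight `(∑ v, φ v) ^ 2` -/
noncomputable def thr (A : V → V → Prop) (l : ℝ) (φ : V → ℝ) (k : ℕ) : ℝ :=
  hubInf A l φ k * endInf A l φ ^ k

/-- a connected target with its normalised Perron eigenvector; `κ`, `N` witness primitivity -/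
structure PD (A : V → V → Prop) (l : ℝ) (φ : V → ℝ) : Prop where
  symm : ∀ a b, A a b → A b a
  nbr : ∀ a, ∃ b, A a b
  lpos : 0 < l
  pos : ∀ v, 0 < φ v
  eq : ∀ v, AO A φ v = l * φ v
  norm : ∑ v, φ v ^ 2 = 1
  prim : ∃ N : ℕ, ∀ x : V → ℝ, (∀ v, 0 ≤ x v) → (∃ v, 0 < x v) → ∀ v, 0 < (AO A)^[N] x v

/-- the normalised vector of a rooted tree -/
noncomputable def vG (A : V → V → Prop) (l : ℝ) : RT → V → ℝ
  | .one => fun _ => 1
  | .gr s t => vG A l s * bG A l (vG A l t)

/-- the pairing with the Perron vector -/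
def iP (φ x : V → ℝ) : ℝ := ∑ v, φ v * x v

variable {A : V → V → Prop} {l : ℝ} {φ : V → ℝ}

theorem bG_mono (h : PD A l φ) {x y : V → ℝ} (hxy : ∀ v, x v ≤ y v) (v : V) :
    bG A l x v ≤ bG A l y v :=
  div_le_div_of_nonneg_right (AO_mono hxy v) h.lpos.le

theorem bG_pos (h : PD A l φ) {x : V → ℝ} (hx : ∀ v, 0 < x v) (v : V) : 0 < bG A l x v :=
  div_pos (AO_pos h.nbr hx v) h.lpos

theorem bG_nonneg (h : PD A l φ) {x : V → ℝ} (hx : ∀ v, 0 ≤ x v) (v : V) : 0 ≤ bG A l x v :=
  div_nonneg (AO_nonneg hx v) h.lpos.le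

theorem bG_add (x y : V → ℝ) : bG A l (x + y) = bG A l x + bG A l y := by
  funext v
  simp only [bG, AO_add, Pi.add_apply, add_div]

theorem bG_smul (c : ℝ) (x : V → ℝ) : bG A l (c • x) = c • bG A l x := by
  funext v
  simp only [bG, AO_smul, Pi.smul_apply, smul_eq_mul, mul_div_assoc]

theorem bG_ph (h : PD A l φ) : bG A l φ = φ := by
  funext v
  rw [bG, h.eq, mul_div_cancel_left₀ _ h.lpos.ne']

/-- self-adjointness -/
theorem iP_bG (h : PD A l φ) (x : V → ℝ) : iP φ (bG A l x) = iP φ x := by
  unfold iP bG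
  have h1 := AO_self_adj h.symm φ x
  have h2 : ∑ v, φ v * (AO A x v / l) = (∑ v, φ v * AO A x v) / l := by
    rw [Finset.sum_div]
    exact Finset.sum_congr rfl fun v _ => by ring
  rw [h2, h1, div_eq_iff h.lpos.ne', Finset.sum_mul]
  refine Finset.sum_congr rfl fun v _ => ?_
  rw [h.eq]
  ring

theorem itG_mono (h : PD A l φ) (n : ℕ) {x y : V → ℝ} (hxy : ∀ v, x v ≤ y v) (v : V) :
    (bG A l)^[n] x v ≤ (bG A l)^[n] y v := by
  induction n generalizing v with
  | zero => exact hxy v
  | succ n ih =>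
    rw [Function.iterate_succ_apply', Function.iterate_succ_apply']
    exact bG_mono h ih v

theorem itG_pos (h : PD A l φ) (n : ℕ) {x : V → ℝ} (hx : ∀ v, 0 < x v) (v : V) :
    0 < (bG A l)^[n] x v := by
  induction n generalizing v with
  | zero => exact hx v
  | succ n ih =>
    rw [Function.iterate_succ_apply']
    exact bG_pos h ih v

theorem itG_nonneg (h : PD A l φ) (n : ℕ) {x : V → ℝ} (hx : ∀ v, 0 ≤ x v) (v : V) :
    0 ≤ (bG A l)^[n] x v := by
  induction n generalizing v with
  | zero => exact hx v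
  | succ n ih =>
    rw [Function.iterate_succ_apply']
    exact bG_nonneg h ih v

theorem itG_add (n : ℕ) (x y : V → ℝ) :
    (bG A l)^[n] (x + y) = (bG A l)^[n] x + (bG A l)^[n] y := by
  induction n with
  | zero => rfl
  | succ n ih => rw [Function.iterate_succ_apply', Function.iterate_succ_apply',
      Function.iterate_succ_apply', ih, bG_add]

theorem itG_smul (n : ℕ) (c : ℝ) (x : V → ℝ) :
    (bG A l)^[n] (c • x) = c • (bG A l)^[n] x := by
  induction n with
  | zero => rfl
  | succ n ih => rw [Function.iterate_succ_apply', Function.iterate_succ_apply', ih, bG_smul]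

theorem itG_ph (h : PD A l φ) (n : ℕ) : (bG A l)^[n] φ = φ := by
  induction n with
  | zero => rfl
  | succ n ih => rw [Function.iterate_succ_apply', ih, bG_ph h]

theorem iP_itG (h : PD A l φ) (n : ℕ) (x : V → ℝ) : iP φ ((bG A l)^[n] x) = iP φ x := by
  induction n with
  | zero => rfl
  | succ n ih => rw [Function.iterate_succ_apply', iP_bG h, ih]

theorem vG_pos (h : PD A l φ) (t : RT) (v : V) : 0 < vG A l t v := by
  induction t generalizing v with
  | one => exact zero_lt_one
  | gr s t ihs iht => exact mul_pos (ihs v) (bG_pos h iht v)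

theorem hv_vG (h : PD A l φ) (t : RT) : hv A t = l ^ (t.sz - 1) • vG A l t := by
  induction t with
  | one =>
    funext v
    simp [hv, vG, RT.sz]
  | gr s t ihs iht =>
    have h1 := RT.sz_pos s
    have h2 := RT.sz_pos t
    have e : (RT.gr s t).sz - 1 = (s.sz - 1) + ((t.sz - 1) + 1) := by
      simp only [RT.sz]
      omega
    have hl := h.lpos.ne'
    funext v
    rw [hv, vG, ihs, iht, AO_smul, e, pow_add, pow_succ]
    simp only [Pi.mul_apply, Pi.smul_apply, smul_eq_mul, bG]
    field_simp

theorem sum_hv (h : PD A l φ) (t : RT) :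
    ∑ v, hv A t v = l ^ (t.sz - 1) * ∑ v, vG A l t v := by
  rw [hv_vG h, Finset.mul_sum]
  rfl

theorem vG_pt (n : ℕ) : vG A l (pt n) = (bG A l)^[n] (fun _ => 1) := by
  induction n with
  | zero => rfl
  | succ n ih =>
    rw [Function.iterate_succ_apply', ← ih]
    have h1 : vG A l (pt (n + 1)) = vG A l RT.one * bG A l (vG A l (pt n)) := rfl
    rw [h1]
    funext i
    simp [vG]

end Pool.Agent.Lib.MP_dbb03c_co.Gen
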