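import Pool.Agent.Lib.MP_dbb03c_co.Gen.PFa
import Pool.Agent.Lib.MP_21cf63_al.PF

/-! # The Perron eigenvector of a connected target -/

set_option autoImplicit false

namespace Pool.Agent.Lib.MP_dbb03c_co.Gen

variable {V : Type} [Fintype V] {A : V → V → Prop}

/-- `pf_exists` for `P = (1 + adjM A) ^ N` gives a positive eigenvector `h` of `P`; the vector `AO A h` is
an eigenvector of `P` for the same eigenvalue (`P` commutes with `adjM A`), so it is a multiple of `h`
(`pf_unique`), and the factor is positive because `AO A h > 0`. -/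
theorem pf_adj [Nonempty V] (hc : ∀ a b, Relation.ReflTransGen A a b) (he : ∀ a, ∃ b, A a b) :
    ∃ (l : ℝ) (φ : V → ℝ), 0 < l ∧ (∀ v, 0 < φ v) ∧ ∀ v, AO A φ v = l * φ v := by
  classical
  obtain ⟨N, hN⟩ := exists_pos_pow (A := A) hc
  set M : Matrix V V ℝ := (1 + adjM A) ^ N with hM
  obtain ⟨lam, h, hpos, hh⟩ := Pool.Agent.Lib.MP_21cf63_al.pf_exists (fun a b => M a b) hN
  have hAO : ∀ x : V → ℝ, AO A x = (adjM A).mulVec x := by
    intro x
    funext v
    simp only [AO, Matrix.mulVec, dotProduct, adjM]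
    refine Finset.sum_congr rfl fun w _ => ?_
    split_ifs <;> simp
  have hMh : M.mulVec h = lam • h := by
    funext v
    exact hh v
  have hcomm : M * adjM A = adjM A * M := by
    have h1 : Commute (1 + adjM A) (adjM A) := (Commute.one_left _).add_left (Commute.refl _)
    exact (h1.pow_left N).eq
  have hv : ∀ i, ∑ k, (fun a b => M a b) i k * AO A h k = lam * AO A h i := by
    intro i
    have e : M.mulVec (AO A h) = lam • AO A h := by
      rw [hAO, Matrix.mulVec_mulVec, hcomm, ← Matrix.mulVec_mulVec, hMh, Matrix.mulVec_smul]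
    exact congrFun e i
  obtain ⟨c, hcc⟩ := Pool.Agent.Lib.MP_21cf63_al.pf_unique (fun a b => M a b) hN hpos hh hv
  refine ⟨c, h, ?_, hpos, hcc⟩
  obtain ⟨v⟩ := ‹Nonempty V›
  have h1 : 0 < AO A h v := AO_pos he hpos v
  rw [hcc v] at h1
  exact (pos_iff_pos_of_mul_pos h1).mpr (hpos v)

end Pool.Agent.Lib.MP_dbb03c_co.Gen
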