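import Pool.Agent.Lib.MP_dbb03c_co.Gen.CPrim
import Pool.Agent.Lib.MP_dbb03c_co.Gen.CDef
import Pool.Agent.Lib.MP_dbb03c_co.Gen.PFG
import Pool.Agent.Lib.MP_dbb03c_co.Gen.ALow

/-! # The Perron data of a connected target which is not 2-colourable -/

set_option autoImplicit false

namespace Pool.Agent.Lib.MP_dbb03c_co.Gen

variable {V : Type} [Fintype V] {A : V → V → Prop} {l : ℝ} {φ : V → ℝ}

private theorem nonempty_of_nb (hb : ¬ ∃ c : V → Bool, ∀ a b, A a b → c a ≠ c b) : Nonempty V := by
  by_contra h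
  rw [not_nonempty_iff] at h
  exact hb ⟨fun _ => true, fun a => (h.false a).elim⟩

private theorem nbr_of_nb (hA : ∀ a b, A a b → A b a) (hc : ∀ a b, Relation.ReflTransGen A a b)
    (hb : ¬ ∃ c : V → Bool, ∀ a b, A a b → c a ≠ c b) (a : V) : ∃ b, A a b := by
  by_contra h
  push Not at h
  have h1 : ∀ b, b = a := by
    intro b
    rcases Relation.ReflTransGen.cases_head (hc a b) with h2 | ⟨c, h2, _⟩
    · exact h2.symm
    · exact (h c h2).elim
  refine hb ⟨fun _ => true, fun x y hxy => ?_⟩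
  rw [h1 x, h1 y] at hxy
  exact (h a hxy).elim

/-- `pf_adj`, normalised; every vertex has a neighbour because otherwise (connectedness) there is a single
vertex without loop, which is 2-colourable -/
theorem exists_PD (hA : ∀ a b, A a b → A b a) (hc : ∀ a b, Relation.ReflTransGen A a b)
    (hb : ¬ ∃ c : V → Bool, ∀ a b, A a b → c a ≠ c b) : ∃ (l : ℝ) (φ : V → ℝ), PD A l φ := by
  have hne := nonempty_of_nb hb
  have hn := nbr_of_nb hA hc hb
  obtain ⟨l, φ, hl, hφ, he⟩ := pf_adj hc hn
  have hS : 0 < ∑ v, φ v ^ 2 :=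
    Finset.sum_pos (fun v _ => pow_pos (hφ v) 2) Finset.univ_nonempty
  have hq : 0 < (Real.sqrt (∑ v, φ v ^ 2))⁻¹ := inv_pos.2 (Real.sqrt_pos.2 hS)
  refine ⟨l, (Real.sqrt (∑ v, φ v ^ 2))⁻¹ • φ, hA, hn, hl, fun v => mul_pos hq (hφ v),
    fun v => ?_, ?_, prim_of hA hc hb⟩
  · rw [AO_smul, Pi.smul_apply, Pi.smul_apply, smul_eq_mul, smul_eq_mul, he v]
    ring
  · simp only [Pi.smul_apply, smul_eq_mul, mul_pow]
    rw [← Finset.mul_sum, inv_pow, Real.sq_sqrt hS.le, inv_mul_cancel₀ hS.ne']

theorem PD.eig (h : PD A l φ) : Eig A l φ := ⟨h.symm, h.nbr, h.lpos, h.pos, h.eq⟩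

/-- If the gain of a leaf is zero then `r v = AO A 1 v / l` satisfies `r v * r w = 1` for adjacent `v, w`
(`gam_zero`). If some `r v ≠ 1` then all are (connectedness) and `v ↦ (1 < r v)` is a proper 2-colouring.
So `AO A 1 v = l` for all `v`: all vertices have the same number of neighbours. -/
theorem gam_pos (h : PD A l φ) (hc : ∀ a b, Relation.ReflTransGen A a b)
    (hb : ¬ ∃ c : V → Bool, ∀ a b, A a b → c a ≠ c b)
    (hr : ¬ ∃ d : ℕ, ∀ v, Nat.card {w // A v w} = d) : 0 < gam A l φ := by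
  classical
  have hne := nonempty_of_nb hb
  rcases (gam_nonneg h.eig).lt_or_eq with h1 | h1
  · exact h1
  exfalso
  have h0 := gam_zero h.eig h1.symm
  set D : V → ℝ := AO A (fun _ => 1) with hD
  have hDpos : ∀ v, 0 < D v := fun v => AO_pos h.nbr (fun _ => one_pos) v
  have hl := h.lpos
  have hmul : ∀ v w, A v w → D v * D w = l * l := by
    intro v w hvw
    have e1 := h0 v w hvw
    have e2 := h0 w v (h.symm _ _ hvw)
    have hv := h.pos v
    have hw := h.pos w
    have e3 : (D v * D w) * (φ v * φ w) = (l * l) * (φ v * φ w) := by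
      calc (D v * D w) * (φ v * φ w) = (D v * φ w) * (D w * φ v) := by ring
        _ = (l * φ v) * (l * φ w) := by rw [e1, e2]
        _ = _ := by ring
    exact mul_right_cancel₀ (mul_pos hv hw).ne' e3
  by_cases hall : ∀ v, D v = l
  · obtain ⟨v0⟩ := hne
    refine hr ⟨Nat.card {w // A v0 w}, fun v => ?_⟩
    have hcard : ∀ v, ((Nat.card {w // A v w} : ℕ) : ℝ) = D v := by
      intro v
      rw [hD]
      unfold AO
      rw [Finset.sum_ite, Finset.sum_const_zero, add_zero, Finset.sum_const, nsmul_eq_mul, mul_one,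
        Nat.card_eq_fintype_card, Fintype.card_subtype]
    have e : ((Nat.card {w // A v w} : ℕ) : ℝ) = ((Nat.card {w // A v0 w} : ℕ) : ℝ) := by
      rw [hcard, hcard, hall, hall]
    exact_mod_cast e
  · push Not at hall
    obtain ⟨v0, hv0⟩ := hall
    have hne' : ∀ v, D v ≠ l := by
      intro v
      induction hc v0 v with
      | refl => exact hv0
      | tail _ hbc ih =>
        intro hcl
        have e := hmul _ _ hbc
        rw [hcl] at e
        exact ih (mul_right_cancel₀ hl.ne' e)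
    refine hb ⟨fun v => decide (l < D v), fun a b hab hcc => ?_⟩
    have e := hmul a b hab
    have ha := hDpos a
    have hb' := hDpos b
    have hiff : (l < D a) ↔ (l < D b) := by
      simpa using hcc
    rcases lt_or_gt_of_ne (hne' a) with h2 | h2
    · have h3 : ¬ l < D b := fun h4 => absurd (hiff.2 h4) (not_lt.2 h2.le)
      have h4 : D b < l := lt_of_le_of_ne (not_lt.1 h3) (hne' b)
      nlinarith
    · have h3 : l < D b := hiff.1 h2
      nlinarith

end Pool.Agent.Lib.MP_dbb03c_co.Gen
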