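import Pool.Agent.Lib.MP_dbb03c_co.Gen.CReal
import Pool.Agent.Lib.MP_dbb03c_co.Gen.CPD

/-! # The threshold numbers grow exponentially -/

set_option autoImplicit false

namespace Pool.Agent.Lib.MP_dbb03c_co.Gen

open Real

variable {V : Type} [Fintype V] {A : V → V → Prop} {l : ℝ} {φ : V → ℝ}

/-- `LF_hv`, `sum_ge` with `m = 1` (`φ v ≤ 1` because `∑ φ ^ 2 = 1`), `sum_hv`, and
`exp ((sz - 1) * log l) = l ^ (sz - 1)` -/
theorem vG_low (h : PD A l φ) (t : RT) : exp (gam A l φ * t.lv) ≤ ∑ v, vG A l t v := by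
  sorry

/-- If `thr j < Q` then `thr_lt`, `MV_tree` and `realize` (with `ε = 1`) give a tree with at least `j`
leaves and total weight at most `2 * Q`; so `exp (gam * j) ≤ 2 * Q`. -/
theorem thr_big (h : PD A l φ) (hg : 0 < gam A l φ) (Q : ℝ) :
    ∃ J : ℕ, ∀ j : ℕ, J ≤ j → Q ≤ thr A l φ j := by
  sorry

end Pool.Agent.Lib.MP_dbb03c_co.Gen
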