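import Pool.Agent.Lib.MP_dbb03c_co.Comb

/-! # Deep branches -/

set_option autoImplicit false

namespace Pool.Agent.Lib.MP_dbb03c_co.Gen

/-- the maximal number of disjoint branches of depth at least `K` -/
def BtK (K : ℕ) : RT → ℕ
  | .one => 0
  | .gr s t => BtK K s + max (BtK K t) (if K ≤ t.dep then 1 else 0)

theorem BtK_le_lv (K : ℕ) (t : RT) : BtK K t ≤ t.lv := by
  induction t with
  | one => simp [BtK]
  | gr s t ihs iht =>
    simp only [BtK, RT.lv]
    have h : (if K ≤ t.dep then 1 else 0) ≤ 1 := by split_ifs <;> omega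
    omega

/-- Induction. For `gr s t`: if `K ≤ t.dep`, let `b = max (BtK K t) 1`; then
`b * max s.dep (t.dep + 1) ≥ b * t.dep + 1`. If `t.dep < K` use `sz_le`:
`t.sz ≤ 1 + t.dep * t.lv ≤ (K + 1) * max 1 t.lv`. -/
theorem sz_le_BtK (K : ℕ) (t : RT) : t.sz ≤ 1 + (K + 1) * t.lv + BtK K t * t.dep := by
  induction t with
  | one =>
    simp only [RT.sz]
    omega
  | gr s t ihs iht =>
    have hzt := sz_le t
    simp only [RT.sz, RT.dep, RT.lv, BtK]
    have h1 : s.dep ≤ max s.dep (t.dep + 1) := le_max_left _ _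
    have h2 : t.dep + 1 ≤ max s.dep (t.dep + 1) := le_max_right _ _
    have h3 : 1 ≤ max 1 t.lv := le_max_left _ _
    have h4 : t.lv ≤ max 1 t.lv := le_max_right _ _
    generalize max s.dep (t.dep + 1) = d at *
    generalize max 1 t.lv = l at *
    have h5 : BtK K s * s.dep ≤ BtK K s * d := Nat.mul_le_mul_left _ h1
    rw [mul_add, add_mul (BtK K s)]
    split_ifs with hK
    · have h6 : BtK K t ≤ max (BtK K t) 1 := le_max_left _ _
      have h7 : 1 ≤ max (BtK K t) 1 := le_max_right _ _
      generalize max (BtK K t) 1 = b at *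
      have h8 : b * (t.dep + 1) ≤ b * d := Nat.mul_le_mul_left _ h2
      have h9 : BtK K t * t.dep ≤ b * t.dep := Nat.mul_le_mul_right _ h6
      have h10 : (K + 1) * t.lv ≤ (K + 1) * l := Nat.mul_le_mul_left _ h4
      rw [mul_add, mul_one] at h8
      omega
    · have h6 : t.dep * t.lv ≤ K * l := Nat.mul_le_mul (by omega) h4
      rw [add_mul K 1 l, one_mul]
      omega

theorem rd_le_dep (t : RT) : t.rd ≤ 2 * t.dep := by
  induction t with
  | one => simp [RT.rd]
  | gr s t ihs iht =>
    simp only [RT.rd, RT.dep]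
    omega

end Pool.Agent.Lib.MP_dbb03c_co.Gen
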