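import Pool.Agent.Lib.MP_dbb03c_co.Gen.CDef

/-! # Convergence of the iterates to the Perron projection -/

set_option autoImplicit false

namespace Pool.Agent.Lib.MP_dbb03c_co.Gen

open Filter Topology

variable {V : Type} [Fintype V] {A : V → V → Prop} {l : ℝ} {φ : V → ℝ}

theorem nonempty_of_PD (h : PD A l φ) : Nonempty V := by
  by_contra hne
  rw [not_nonempty_iff] at hne
  have := h.norm
  simp at this

private theorem ph_le_one (h : PD A l φ) (v : V) : φ v ≤ 1 := by
  have h1 : φ v ^ 2 ≤ ∑ u, φ u ^ 2 :=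
    Finset.single_le_sum (f := fun u => φ u ^ 2) (fun u _ => sq_nonneg _) (Finset.mem_univ v)
  rw [h.norm] at h1
  nlinarith [h.pos v]

private theorem bG_it (n : ℕ) (x : V → ℝ) (v : V) :
    (bG A l)^[n] x v = (AO A)^[n] x v / l ^ n := by
  induction n generalizing v with
  | zero => simp
  | succ n ih =>
    have e : (bG A l)^[n] x = (1 / l ^ n) • (AO A)^[n] x := by
      funext u
      rw [ih u]
      simp only [Pi.smul_apply, smul_eq_mul]
      ring
    rw [Function.iterate_succ_apply', Function.iterate_succ_apply', bG, e, AO_smul]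
    simp only [Pi.smul_apply, smul_eq_mul]
    rw [pow_succ, div_mul_eq_div_div]
    ring

private theorem iP_nonneg (h : PD A l φ) {x : V → ℝ} (hx : ∀ v, 0 ≤ x v) : 0 ≤ iP φ x :=
  Finset.sum_nonneg fun v _ => mul_nonneg (h.pos v).le (hx v)

private theorem iP_ph (h : PD A l φ) : iP φ φ = 1 := by
  rw [← h.norm]
  exact Finset.sum_congr rfl fun v _ => by ring

private theorem iP_add (x y : V → ℝ) : iP φ (x + y) = iP φ x + iP φ y := by
  unfold iP
  rw [← Finset.sum_add_distrib]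
  exact Finset.sum_congr rfl fun v _ => by simp [mul_add]

private theorem iP_smul (c : ℝ) (x : V → ℝ) : iP φ (c • x) = c * iP φ x := by
  unfold iP
  rw [Finset.mul_sum]
  exact Finset.sum_congr rfl fun v _ => by simp [mul_left_comm]

/-- Primitivity: `bG^[N + 1] (indicator of b) v > 0` for all `b, v`; let `m` be the minimum. Then
`bG^[N + 1] x v ≥ m * ∑ x` and `iP φ x * φ v ≤ (max φ) ^ 2 * ∑ x`. -/
theorem doeblin (h : PD A l φ) : ∃ (N : ℕ) (κ : ℝ), 0 < N ∧ 0 < κ ∧ κ ≤ 1 ∧
    ∀ x : V → ℝ, (∀ v, 0 ≤ x v) → ∀ v, κ * iP φ x * φ v ≤ (bG A l)^[N] x v := by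
  classical
  have := nonempty_of_PD h
  obtain ⟨N, hN⟩ := h.prim
  obtain ⟨p, hp⟩ := Finite.exists_min
    (fun p : V × V => (bG A l)^[N + 1] (fun u => if u = p.1 then 1 else 0) p.2)
  have hpos : ∀ b v : V, 0 < (bG A l)^[N + 1] (fun u => if u = b then 1 else 0) v := by
    intro b v
    rw [Function.iterate_succ_apply']
    apply bG_pos h
    intro u
    rw [bG_it]
    refine div_pos (hN _ (fun w => ?_) ⟨b, ?_⟩ u) (pow_pos h.lpos _)
    · split_ifs
      · exact zero_le_one
      · exact le_rfl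
    · rw [if_pos rfl]
      exact zero_lt_one
  set m : ℝ := (bG A l)^[N + 1] (fun u => if u = p.1 then 1 else 0) p.2 with hm
  have hm0 : 0 < m := hpos p.1 p.2
  have hc : (0 : ℝ) < Fintype.card V := by exact_mod_cast Fintype.card_pos
  refine ⟨N + 1, min 1 (m / Fintype.card V), Nat.succ_pos N, lt_min one_pos (div_pos hm0 hc),
    min_le_left _ _, fun x hx v => ?_⟩
  have h1 : ∀ b, x b * m ≤ (bG A l)^[N + 1] x v := by
    intro b
    have h2 : (bG A l)^[N + 1] (x b • fun u => if u = b then 1 else 0) v ≤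
        (bG A l)^[N + 1] x v := by
      apply itG_mono h
      intro u
      simp only [Pi.smul_apply, smul_eq_mul]
      split_ifs with hu
      · rw [hu, mul_one]
      · rw [mul_zero]
        exact hx u
    rw [itG_smul] at h2
    refine le_trans ?_ h2
    simp only [Pi.smul_apply, smul_eq_mul]
    exact mul_le_mul_of_nonneg_left (hp (b, v)) (hx b)
  have h3 : (∑ b, x b) * m ≤ Fintype.card V * (bG A l)^[N + 1] x v := by
    rw [Finset.sum_mul]
    calc ∑ b, x b * m ≤ ∑ _b : V, (bG A l)^[N + 1] x v := Finset.sum_le_sum fun b _ => h1 b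
      _ = _ := by rw [Finset.sum_const, Finset.card_univ, nsmul_eq_mul]
  have h4 : iP φ x ≤ ∑ b, x b := by
    unfold iP
    refine Finset.sum_le_sum fun b _ => ?_
    have := mul_le_mul_of_nonneg_right (ph_le_one h b) (hx b)
    rwa [one_mul] at this
  have h5 := iP_nonneg h hx
  have h6 : min 1 (m / Fintype.card V) * iP φ x * φ v ≤ m / Fintype.card V * (∑ b, x b) := by
    have h7 : 0 ≤ m / (Fintype.card V : ℝ) := (div_pos hm0 hc).le
    calc min 1 (m / Fintype.card V) * iP φ x * φ v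
        ≤ m / Fintype.card V * iP φ x * φ v :=
          mul_le_mul_of_nonneg_right (mul_le_mul_of_nonneg_right (min_le_right _ _) h5)
            (h.pos v).le
      _ ≤ m / Fintype.card V * iP φ x * 1 :=
          mul_le_mul_of_nonneg_left (ph_le_one h v) (mul_nonneg h7 h5)
      _ ≤ m / Fintype.card V * (∑ b, x b) := by
          rw [mul_one]
          exact mul_le_mul_of_nonneg_left h4 h7
  refine h6.trans ?_
  rw [div_mul_eq_mul_div, div_le_iff₀ hc]
  linarith

private theorem one_side (h : PD A l φ) {N : ℕ} {κ : ℝ}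
    (hd : ∀ x : V → ℝ, (∀ v, 0 ≤ x v) → ∀ v, κ * iP φ x * φ v ≤ (bG A l)^[N] x v)
    {f : V → ℝ} {K : ℝ} (h0 : iP φ f = 0) (hf : ∀ v, |f v| ≤ K * φ v) (v : V) :
    -((1 - κ) * K * φ v) ≤ (bG A l)^[N] f v := by
  have hx : ∀ v, 0 ≤ (K • φ + f) v := by
    intro v
    have := neg_le_of_abs_le (hf v)
    simp only [Pi.add_apply, Pi.smul_apply, smul_eq_mul]
    linarith
  have h1 := hd (K • φ + f) hx v
  rw [iP_add, iP_smul, iP_ph h, h0, itG_add, itG_smul, itG_ph h] at h1
  simp only [Pi.add_apply, Pi.smul_apply, smul_eq_mul] at h1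
  linarith

private theorem contract (h : PD A l φ) {N : ℕ} {κ : ℝ}
    (hd : ∀ x : V → ℝ, (∀ v, 0 ≤ x v) → ∀ v, κ * iP φ x * φ v ≤ (bG A l)^[N] x v)
    {f : V → ℝ} {K : ℝ} (h0 : iP φ f = 0) (hf : ∀ v, |f v| ≤ K * φ v) (v : V) :
    |(bG A l)^[N] f v| ≤ (1 - κ) * K * φ v := by
  rw [abs_le]
  refine ⟨one_side h hd h0 hf v, ?_⟩
  have h1 : iP φ ((-1 : ℝ) • f) = 0 := by rw [iP_smul, h0, mul_zero]
  have h2 : ∀ v, |((-1 : ℝ) • f) v| ≤ K * φ v := by
    intro v
    simp only [Pi.smul_apply, smul_eq_mul, neg_mul, one_mul, abs_neg]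
    exact hf v
  have h3 := one_side h hd h1 h2 v
  rw [itG_smul] at h3
  simp only [Pi.smul_apply, smul_eq_mul, neg_mul, one_mul] at h3
  linarith

private theorem it_bound (h : PD A l φ) {f : V → ℝ} {K : ℝ} (hf : ∀ v, |f v| ≤ K * φ v) (j : ℕ)
    (v : V) : |(bG A l)^[j] f v| ≤ K * φ v := by
  have h1 : ∀ v, f v ≤ (K • φ) v := fun v => le_of_abs_le (hf v)
  have h2 : ∀ v, ((-K) • φ) v ≤ f v := by
    intro v
    have := neg_le_of_abs_le (hf v)
    simp only [Pi.smul_apply, smul_eq_mul]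
    linarith
  have h3 := itG_mono h j h1 v
  have h4 := itG_mono h j h2 v
  rw [itG_smul, itG_ph h] at h3 h4
  simp only [Pi.smul_apply, smul_eq_mul] at h3 h4
  rw [abs_le]
  constructor <;> linarith

private theorem it_pow (h : PD A l φ) {N : ℕ} {κ : ℝ}
    (hd : ∀ x : V → ℝ, (∀ v, 0 ≤ x v) → ∀ v, κ * iP φ x * φ v ≤ (bG A l)^[N] x v)
    {f : V → ℝ} {K : ℝ} (h0 : iP φ f = 0) (hf : ∀ v, |f v| ≤ K * φ v) (k : ℕ) :
    ∀ v, |(bG A l)^[N * k] f v| ≤ (1 - κ) ^ k * K * φ v := by
  induction k with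
  | zero =>
    intro v
    simpa using hf v
  | succ k ih =>
    intro v
    have e : N * (k + 1) = N + N * k := by ring
    rw [e, Function.iterate_add_apply]
    have := contract h hd (f := (bG A l)^[N * k] f) (by rw [iP_itG h, h0]) ih v
    refine this.trans (le_of_eq ?_)
    rw [pow_succ]
    ring

/-- As `it22_contract` and `it_zero_tendsto` in `Conv`: for `x ≥ 0` put `f = x - iP φ x • φ`; then
`iP φ f = 0` and `|f| ≤ C * iP φ x * φ` with `C` depending only on `φ` (`x v ≤ iP φ x / φ v`); `doeblin` for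
`C • φ ± f` shows that `bG^[N]` contracts such bounds by the factor `1 - κ`. -/
theorem conv (h : PD A l φ) : ∀ ε : ℝ, 0 < ε → ∃ M0 : ℕ, ∀ m : ℕ, M0 ≤ m → ∀ x : V → ℝ,
    (∀ v, 0 ≤ x v) → ∀ v, (1 - ε) * iP φ x * φ v ≤ (bG A l)^[m] x v ∧
      (bG A l)^[m] x v ≤ (1 + ε) * iP φ x * φ v := by
  intro ε hε
  have := nonempty_of_PD h
  obtain ⟨N, κ, hN, hκ, hκ1, hd⟩ := doeblin h
  obtain ⟨w, hw⟩ := Finite.exists_min φ
  set C : ℝ := 1 / φ w ^ 2 with hC
  have hw0 := h.pos w
  have hCv : ∀ v, 1 ≤ C * φ v ^ 2 := by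
    intro v
    rw [hC, one_div, ← div_eq_inv_mul, one_le_div (by positivity)]
    exact pow_le_pow_left₀ hw0.le (hw v) 2
  have hC1 : 1 ≤ C := by
    rw [hC, one_le_div (by positivity)]
    nlinarith [ph_le_one h w]
  have ht : Tendsto (fun n : ℕ => (1 - κ) ^ (n / N) * C) atTop (𝓝 0) := by
    have h1 : Tendsto (fun n : ℕ => n / N) atTop atTop := Nat.tendsto_div_const_atTop hN.ne'
    have h2 : Tendsto (fun k : ℕ => (1 - κ) ^ k) atTop (𝓝 0) :=
      tendsto_pow_atTop_nhds_zero_of_lt_one (by linarith) (by linarith)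
    have h3 := (h2.comp h1).mul_const C
    simpa using h3
  obtain ⟨M0, hM0⟩ := eventually_atTop.1 (ht.eventually (gt_mem_nhds hε))
  refine ⟨M0, fun m hm x hx v => ?_⟩
  set P := iP φ x with hP
  have hP0 : 0 ≤ P := iP_nonneg h hx
  set f : V → ℝ := x + (-P) • φ with hf
  have h0 : iP φ f = 0 := by
    rw [hf, iP_add, iP_smul, iP_ph h]
    ring
  have hb : ∀ v, |f v| ≤ C * P * φ v := by
    intro v
    have hv := h.pos v
    have h1 : φ v * x v ≤ P :=
      Finset.single_le_sum (f := fun v => φ v * x v)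
        (fun u _ => mul_nonneg (h.pos u).le (hx u)) (Finset.mem_univ v)
    have h2 : x v ≤ C * P * φ v := by
      have h3 : P ≤ C * P * φ v * φ v := by
        have := mul_le_mul_of_nonneg_left (hCv v) hP0
        nlinarith
      have h4 : φ v * x v ≤ φ v * (C * P * φ v) := by nlinarith
      exact le_of_mul_le_mul_left h4 hv
    have h5 : P * φ v ≤ C * P * φ v := by
      have := mul_le_mul_of_nonneg_right hC1 (mul_nonneg hP0 hv.le)
      nlinarith
    rw [abs_le, hf]
    simp only [Pi.add_apply, Pi.smul_apply, smul_eq_mul]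
    have := hx v
    have := mul_nonneg hP0 hv.le
    constructor <;> nlinarith
  have e : m = m % N + N * (m / N) := (Nat.mod_add_div m N).symm
  have h1 : |(bG A l)^[m] f v| ≤ (1 - κ) ^ (m / N) * (C * P) * φ v := by
    conv_lhs => rw [e, Function.iterate_add_apply]
    exact it_bound h (it_pow h hd h0 hb (m / N)) (m % N) v
  have h2 : (1 - κ) ^ (m / N) * (C * P) * φ v ≤ ε * P * φ v := by
    have h3 := (hM0 m hm).le
    have h4 := mul_le_mul_of_nonneg_right h3 (mul_nonneg hP0 (h.pos v).le)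
    nlinarith
  have h3 : (bG A l)^[m] x v = (bG A l)^[m] f v + P * φ v := by
    have hx' : x = f + P • φ := by
      rw [hf]
      funext u
      simp only [Pi.add_apply, Pi.smul_apply, smul_eq_mul]
      ring
    conv_lhs => rw [hx']
    rw [itG_add, itG_smul, itG_ph h]
    rfl
  have h4 := abs_le.1 (h1.trans h2)
  rw [h3]
  constructor
  · linarith [h4.1]
  · linarith [h4.2]

/-- from `conv` with `x = 1` -/
theorem path_tendsto (h : PD A l φ) :
    Tendsto (fun n : ℕ => ∑ v, (bG A l)^[n] (fun _ => 1) v) atTop (𝓝 ((∑ v, φ v) ^ 2)) := by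
  have hP : iP φ (fun _ => 1) = ∑ v, φ v := by
    unfold iP
    exact Finset.sum_congr rfl fun v _ => mul_one _
  have e : (∑ v, φ v) ^ 2 = ∑ v, (∑ u, φ u) * φ v := by
    rw [← Finset.mul_sum, sq]
  rw [e]
  refine tendsto_finsetSum _ fun v _ => ?_
  rw [Metric.tendsto_atTop]
  intro δ hδ
  have hS : 0 ≤ (∑ u, φ u) * φ v :=
    mul_nonneg (Finset.sum_nonneg fun u _ => (h.pos u).le) (h.pos v).le
  obtain ⟨M0, hM0⟩ := conv h (δ / ((∑ u, φ u) * φ v + 1)) (by positivity)
  refine ⟨M0, fun n hn => ?_⟩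
  have h1 := hM0 n hn (fun _ => 1) (fun _ => zero_le_one) v
  rw [hP] at h1
  have h2 : δ / ((∑ u, φ u) * φ v + 1) * ((∑ u, φ u) * φ v) < δ := by
    rw [div_mul_eq_mul_div, div_lt_iff₀ (by positivity)]
    nlinarith
  rw [Real.dist_eq, abs_lt]
  constructor
  · nlinarith [h1.1]
  · nlinarith [h1.2]

end Pool.Agent.Lib.MP_dbb03c_co.Gen
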