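import Pool.Agent.Lib.MP_dbb03c_co.Gen.SCen1

/-! # Rooting at a center -/

set_option autoImplicit false

namespace Pool.Agent.Lib.MP_dbb03c_co.Gen

/-- Strong induction on `t.dep`. If `t ≠ one` take `gr s t'` from `reorder`. If `t'.dep ≤ s.dep` then
`(gr s t').rd ≥ s.dep + t'.dep + 1 ≥ 2 * (gr s t').dep - 1`. Otherwise `Iso.swap` gives
`(gr t' s).dep = max t'.dep (s.dep + 1) = t'.dep < t.dep`. -/
theorem exists_center (t : RT) : ∃ t' : RT, Iso t t' ∧ 2 * t'.dep ≤ t'.rd + 1 := by
  induction hn : t.dep using Nat.strong_induction_on generalizing t with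
  | _ n ih =>
    by_cases h1 : t = RT.one
    · subst h1
      exact ⟨RT.one, Iso.refl _, by simp only [RT.dep, RT.rd]; omega⟩
    · obtain ⟨s, t1, h2, h3, h4⟩ := reorder t h1
      by_cases h5 : t1.dep ≤ s.dep
      · refine ⟨RT.gr s t1, h2.iso, ?_⟩
        simp only [RT.dep, RT.rd]
        omega
      · have h6 : (RT.gr t1 s).dep < n := by
          simp only [RT.dep]
          omega
        obtain ⟨t', h7, h8⟩ := ih _ h6 (RT.gr t1 s) rfl
        exact ⟨t', (h2.iso.trans (Iso.swap s t1)).trans h7, h8⟩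

end Pool.Agent.Lib.MP_dbb03c_co.Gen
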