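import Pool.Agent.Lib.MP_dbb03c_co.Gen.CLow
import Pool.Agent.Lib.MP_dbb03c_co.Gen.CConv
import Pool.Agent.Lib.MP_dbb03c_co.Gen.CPD
import Pool.Agent.Lib.MP_dbb03c_co.Gen.SCen
import Pool.Agent.Lib.MP_dbb03c_co.Gr2
import Pool.Agent.Lib.MP_dbb03c_co.Gr4
import Pool.Agent.Lib.MP_dbb03c_co.Rep4

/-! # Trees of small diameter are at least the path -/

set_option autoImplicit false

namespace Pool.Agent.Lib.MP_dbb03c_co.Gen

open Filter Topology

variable {V : Type} [Fintype V] {A : V → V → Prop} {l : ℝ} {φ : V → ℝ}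

/-- finitely many `j` with `k < j ≤ L`, each by continuity at `c = 1` -/
theorem exists_c (h : PD A l φ) {k : ℕ}
    (hk : ∀ j, k < j → (∑ v, φ v) ^ 2 < thr A l φ j) (L : ℕ) :
    ∃ c : ℝ, 0 < c ∧ c < 1 ∧ ∀ j, k < j → j ≤ L → (∑ v, φ v) ^ 2 < c ^ j * thr A l φ j := by
  have h1 : ∀ j ∈ Finset.Ioc k L, ∀ᶠ c : ℝ in 𝓝[<] 1, (∑ v, φ v) ^ 2 < c ^ j * thr A l φ j := by
    intro j hj
    rw [Finset.mem_Ioc] at hj
    have h2 : Tendsto (fun c : ℝ => c ^ j * thr A l φ j) (𝓝[<] 1) (𝓝 (1 ^ j * thr A l φ j)) :=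
      ((continuous_id.pow j).mul continuous_const).continuousAt.tendsto.mono_left
        nhdsWithin_le_nhds
    have h3 : (∑ v, φ v) ^ 2 < 1 ^ j * thr A l φ j := by
      rw [one_pow, one_mul]
      exact hk j hj.1
    exact h2.eventually_const_lt h3
  have h2 : ∀ᶠ c : ℝ in 𝓝[<] 1, ∀ j ∈ Finset.Ioc k L, (∑ v, φ v) ^ 2 < c ^ j * thr A l φ j :=
    (Filter.eventually_all_finset _).2 h1
  have h3 : ∀ᶠ c : ℝ in 𝓝[<] 1, c ∈ Set.Ioo (0 : ℝ) 1 :=
    Ioo_mem_nhdsLT zero_lt_one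
  obtain ⟨c, hc1, hc2⟩ := (h2.and h3).exists
  exact ⟨c, hc2.1, hc2.2, fun j hj1 hj2 => hc1 j (Finset.mem_Ioc.2 ⟨hj1, hj2⟩)⟩

/-- Rooted trees with more than `k` deep branches: `tree_low`, `hubInf_le`, `exists_c`, and `path_tendsto`
for the path (finitely many strict inequalities hold for all large `n`). -/
theorem rooted_ge (h : PD A l φ) {k : ℕ}
    (hk : ∀ j, k < j → (∑ v, φ v) ^ 2 < thr A l φ j) (L : ℕ) (hL : 1 ≤ L) :
    ∃ K N : ℕ, ∀ t : RT, N ≤ t.sz → t.lv ≤ L → k < BtK K t →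
      ∑ v, hv A (pt (t.sz - 1)) v ≤ ∑ v, hv A t v := by
  obtain ⟨c, hc0, hc1, hcj⟩ := exists_c h hk L
  obtain ⟨M1, hM1⟩ := conv h (1 - c) (by linarith)
  set M0 : ℕ := max M1 1 with hM0
  have hM : ∀ x : V → ℝ, (∀ v, 0 ≤ x v) → ∀ v, c * iP φ x * φ v ≤ (bG A l)^[M0] x v := by
    intro x hx v
    have h1 := (hM1 M0 (le_max_left _ _) x hx v).1
    have e : 1 - (1 - c) = c := by ring
    rwa [e] at h1
  have h2 : ∀ᶠ n : ℕ in atTop, ∀ j ∈ Finset.Ioc k L,
      ∑ v, (bG A l)^[n] (fun _ => 1) v < c ^ j * thr A l φ j := by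
    refine (Filter.eventually_all_finset _).2 fun j hj => ?_
    rw [Finset.mem_Ioc] at hj
    exact (path_tendsto h).eventually_lt_const (hcj j hj.1 hj.2)
  obtain ⟨N, hN⟩ := Filter.eventually_atTop.1 h2
  refine ⟨M0 * L, N + 1, fun t ht hlv hb => ?_⟩
  obtain ⟨x, hx, hxv⟩ := tree_low h hc0.le (le_max_right _ _) hM L hL t hlv
  have hjL : BtK (M0 * L) t ≤ L := (BtK_le_lv _ t).trans hlv
  have h3 := hN (t.sz - 1) (by omega) (BtK (M0 * L) t) (Finset.mem_Ioc.2 ⟨hb, hjL⟩)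
  have h4 : c ^ (BtK (M0 * L) t) * thr A l φ (BtK (M0 * L) t) ≤ ∑ v, vG A l t v := by
    have h5 := hubInf_le h hx
    have h6 : 0 ≤ (c * endInf A l φ) ^ (BtK (M0 * L) t) :=
      pow_nonneg (mul_nonneg hc0.le (endInf_nonneg h)) _
    calc c ^ (BtK (M0 * L) t) * thr A l φ (BtK (M0 * L) t)
        = (c * endInf A l φ) ^ (BtK (M0 * L) t) * hubInf A l φ (BtK (M0 * L) t) := by
          unfold thr
          rw [mul_pow]
          ring
      _ ≤ (c * endInf A l φ) ^ (BtK (M0 * L) t) * ∑ v, x v := mul_le_mul_of_nonneg_left h5 h6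
      _ = ∑ v, (c * endInf A l φ) ^ (BtK (M0 * L) t) * x v := by rw [Finset.mul_sum]
      _ ≤ ∑ v, vG A l t v := Finset.sum_le_sum fun v _ => hxv v
  have hsz := t.sz_pos
  rw [sum_hv h, sum_hv h, vG_pt, sz_pt]
  have e : t.sz - 1 + 1 - 1 = t.sz - 1 := by omega
  rw [e]
  exact mul_le_mul_of_nonneg_left (h3.le.trans h4) (pow_pos h.lpos _).le

/-- `many_leaves`, `rooted_ge`, `sz_le_BtK`, rooting at a center (`exists_center`), as `SFin.tree_ge` -/
theorem trees_ge (h : PD A l φ) (hg : 0 < gam A l φ) {k : ℕ}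
    (hk : ∀ j, k < j → (∑ v, φ v) ^ 2 < thr A l φ j) :
    ∃ C : ℕ, ∀ (n : ℕ) (T : SimpleGraph (Fin n)), T.IsTree → ∀ d : ℕ, (∀ a b, T.dist a b ≤ d) →
      k * d + C < 2 * n → hom (SimpleGraph.pathGraph n) A ≤ hom T A := by
  haveI : Nonempty V := by
    by_contra hne
    rw [not_nonempty_iff] at hne
    have := h.norm
    simp at this
  obtain ⟨L0, hL0⟩ := many_leaves h.eig hg
  obtain ⟨K, N, hKN⟩ := rooted_ge h hk (L0 + 1) (by omega)
  refine ⟨2 + 2 * ((K + 1) * (L0 + 1)) + k + 2 * N, fun n T hT d hd hn => ?_⟩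
  haveI : Nonempty (Fin n) := hT.connected.nonempty
  obtain ⟨t0, e0, he0, _⟩ := exists_rt n T hT (Fintype.card_fin n) (Classical.arbitrary _)
  obtain ⟨t, ⟨e1, he1⟩, hc⟩ := exists_center t0
  let e : Fin n ≃ t.V := e0.trans e1
  have he : ∀ a b, t.G.Adj (e a) (e b) ↔ T.Adj a b := fun a b => (he1 _ _).trans (he0 _ _)
  have hsz : t.sz = n := by
    rw [← RT.card_V, ← Fintype.card_congr e, Fintype.card_fin]
  have hrd : t.rd ≤ d := by
    obtain ⟨u, v, huv⟩ := t.exists_dist_rd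
    have h2 := dist_congr e he (e.symm u) (e.symm v)
    rw [e.apply_symm_apply, e.apply_symm_apply] at h2
    have := hd (e.symm u) (e.symm v)
    omega
  have key : ∑ v, hv A (pt (t.sz - 1)) v ≤ ∑ v, hv A t v := by
    rcases Nat.lt_or_ge t.lv L0 with hl | hl
    · rcases Nat.lt_or_ge k (BtK K t) with hb | hb
      · exact hKN t (by omega) (by omega) hb
      · exfalso
        have h2 := sz_le_BtK K t
        have h3 : BtK K t * t.dep ≤ k * t.dep := Nat.mul_le_mul_right _ hb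
        have h4 : k * (2 * t.dep) ≤ k * (d + 1) := Nat.mul_le_mul_left _ (by omega)
        have h5 : 2 * (k * t.dep) = k * (2 * t.dep) := by ring
        have h6 : k * (d + 1) = k * d + k := by ring
        have h7 : (K + 1) * t.lv ≤ (K + 1) * (L0 + 1) := Nat.mul_le_mul_left _ (by omega)
        omega
    · exact hL0 t hl
  have h2 := hom_path h.symm (n - 1)
  have hn1 : n - 1 + 1 = n := by omega
  rw [hn1] at h2
  rw [hom_congr A e he]
  have h3 : (hom (SimpleGraph.pathGraph n) A : ℝ) ≤ hom t.G A := by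
    rw [h2, hom_eq h.symm t, ← hsz]
    exact key
  exact_mod_cast h3

end Pool.Agent.Lib.MP_dbb03c_co.Gen
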