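import Pool.Agent.Lib.MP_dbb03c_co.Gen.CReal
import Pool.Agent.Lib.MP_dbb03c_co.Gen.CBt
import Pool.Agent.Lib.MP_dbb03c_co.Gr2
import Pool.Agent.Lib.MP_dbb03c_co.Gr4

/-! # Spiders beat the path if the threshold number is small -/

set_option autoImplicit false

namespace Pool.Agent.Lib.MP_dbb03c_co.Gen

variable {V : Type} [Fintype V] {A : V → V → Prop} {l : ℝ} {φ : V → ℝ}

/-- a list of `k` almost equal numbers with given sum: `s = k * m + r`, `r < k` -/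
theorem exists_list {k : ℕ} (hk : 1 ≤ k) (s : ℕ) : ∃ L : List ℕ, L.length = k ∧ L.sum = s ∧
    (∀ i ∈ L, s / k ≤ i) ∧ ∀ i ∈ L, i ≤ s / k + 1 := by
  sorry

/-- `thr_lt`, `MV_tree`, `realize`, `exists_list` (with `s = n - a`), `path_tendsto`, `hom_eq`, `hom_path`,
`sum_hv`, `vG_pt`; the graph on `Fin n` as in `SFin.spider_lt`, its distances are at most
`rd ≤ 2 * dep ≤ 2 * (b + (n - a) / k + 1)`. -/
theorem spiders (h : PD A l φ) {k : ℕ} (hk : 1 ≤ k)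
    (hlt : thr A l φ k < (∑ v, φ v) ^ 2) : ∃ N C : ℕ, ∀ n : ℕ, N ≤ n →
    ∃ (d : ℕ) (T : SimpleGraph (Fin n)), T.IsTree ∧ (∀ a b, T.dist a b ≤ d) ∧
      k * d ≤ 2 * n + C ∧ hom T A < hom (SimpleGraph.pathGraph n) A := by
  sorry

end Pool.Agent.Lib.MP_dbb03c_co.Gen
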