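import Pool.Agent.Lib.MP_dbb03c_co.Stmt

/-! # The trivial upper bound -/

set_option autoImplicit false

namespace Pool.Agent.Lib.MP_dbb03c_co.Gen

variable {V : Type} {A : V → V → Prop}

theorem dH_le (n : ℕ) : dH A n ≤ n - 1 := by
  unfold dH
  rcases Set.eq_empty_or_nonempty {d | 2 ≤ d ∧ d ≤ n - 1 ∧ ∀ T : SimpleGraph (Fin n),
      T.IsTree → (∀ a b, T.dist a b ≤ d) → hom (SimpleGraph.pathGraph n) A ≤ hom T A} with h0 | h0
  · rw [h0, csSup_empty]
    exact Nat.zero_le _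
  · exact csSup_le h0 fun d hd => hd.2.1

end Pool.Agent.Lib.MP_dbb03c_co.Gen
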