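import Pool.Agent.Lib.MP_dbb03c_co.Gen.CBig
import Pool.Agent.Lib.MP_dbb03c_co.Gen.CUp
import Pool.Agent.Lib.MP_dbb03c_co.Gen.CLo
import Pool.Agent.Lib.MP_dbb03c_co.Gen.DdH

/-! # The threshold of a connected non-bipartite non-regular target without coincidences -/

set_option autoImplicit false

namespace Pool.Agent.Lib.MP_dbb03c_co.Gen

variable {V : Type} [Fintype V] {A : V → V → Prop} {l : ℝ} {φ : V → ℝ}

theorem upper_k (h : PD A l φ) {k : ℕ} (hk : 2 ≤ k)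
    (h1 : k = 2 ∨ thr A l φ k < (∑ v, φ v) ^ 2) :
    ∃ C : ℕ, ∀ n : ℕ, 3 ≤ n → k * dH A n ≤ 2 * n + C := by
  rcases h1 with rfl | h1
  · refine ⟨0, fun n hn => ?_⟩
    have := dH_le (A := A) n
    omega
  · obtain ⟨N, C, hNC⟩ := spiders h (by omega) h1
    refine ⟨k * N + C, fun n hn => ?_⟩
    rcases Nat.lt_or_ge n N with hnN | hnN
    · have h2 := dH_le (A := A) n
      have h3 : k * dH A n ≤ k * N := Nat.mul_le_mul_left _ (by omega)
      omega
    · obtain ⟨d, T, hT, hd, hkd, hlt⟩ := hNC n hnN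
      have h3 : dH A n ≤ d := by
        unfold dH
        rcases Set.eq_empty_or_nonempty {d | 2 ≤ d ∧ d ≤ n - 1 ∧ ∀ T : SimpleGraph (Fin n),
            T.IsTree → (∀ a b, T.dist a b ≤ d) →
            hom (SimpleGraph.pathGraph n) A ≤ hom T A} with h0 | h0
        · rw [h0, csSup_empty]
          exact Nat.zero_le _
        · refine csSup_le h0 fun d' hd' => ?_
          by_contra hcon
          push Not at hcon
          have := hd'.2.2 T hT (fun a b => (hd a b).trans hcon.le)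
          omega
      have h4 : k * dH A n ≤ k * d := Nat.mul_le_mul_left _ h3
      have h5 : 0 ≤ k * N := Nat.zero_le _
      omega

theorem lower_k (h : PD A l φ) (hg : 0 < gam A l φ) {k : ℕ} (hk : 2 ≤ k)
    (h2 : ∀ j, k < j → (∑ v, φ v) ^ 2 < thr A l φ j) :
    ∃ C : ℕ, ∀ n : ℕ, 3 ≤ n → 2 * n ≤ k * dH A n + C := by
  obtain ⟨C, hC⟩ := trees_ge h hg h2
  refine ⟨C + 3 * k + 1, fun n hn => ?_⟩
  have hb : BddAbove {d | 2 ≤ d ∧ d ≤ n - 1 ∧ ∀ T : SimpleGraph (Fin n), T.IsTree →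
      (∀ a b, T.dist a b ≤ d) → hom (SimpleGraph.pathGraph n) A ≤ hom T A} :=
    ⟨n - 1, fun d hd => hd.2.1⟩
  rcases Nat.lt_or_ge (2 * n) (3 * k + C + 1) with hnk | hnk
  · omega
  · have hk0 : 0 < k := by omega
    obtain ⟨d, hdef⟩ : ∃ d, d = (2 * n - C - 2) / k := ⟨_, rfl⟩
    have hd1 : k * d ≤ 2 * n - C - 2 := hdef ▸ Nat.mul_div_le _ _
    have hd2 : 2 * n - C - 2 < k * d + k := by
      have h3 := Nat.div_add_mod (2 * n - C - 2) k
      have h4 := Nat.mod_lt (2 * n - C - 2) hk0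
      rw [hdef]
      calc 2 * n - C - 2 = k * ((2 * n - C - 2) / k) + (2 * n - C - 2) % k := h3.symm
        _ < k * ((2 * n - C - 2) / k) + k := Nat.add_lt_add_left h4 _
    have hd3 : 2 ≤ d := by
      by_contra hcon
      push Not at hcon
      have : k * d ≤ k * 1 := Nat.mul_le_mul_left _ (by omega)
      omega
    have hd4 : d ≤ n - 1 := by
      by_contra hcon
      push Not at hcon
      have h5 : 2 * d ≤ k * d := Nat.mul_le_mul_right _ hk
      omega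
    have hmem : d ∈ {d | 2 ≤ d ∧ d ≤ n - 1 ∧ ∀ T : SimpleGraph (Fin n), T.IsTree →
        (∀ a b, T.dist a b ≤ d) → hom (SimpleGraph.pathGraph n) A ≤ hom T A} :=
      ⟨hd3, hd4, fun T hT hD => hC n T hT d hD (by omega)⟩
    have h6 : d ≤ dH A n := le_csSup hb hmem
    have h7 : k * d ≤ k * dH A n := Nat.mul_le_mul_left _ h6
    omega

/-- the index `k_H` exists if there is no coincidence -/
theorem exists_k (h : PD A l φ) (hg : 0 < gam A l φ)
    (h3 : ∀ j, 3 ≤ j → thr A l φ j ≠ (∑ v, φ v) ^ 2) :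
    ∃ k, 2 ≤ k ∧ (k = 2 ∨ thr A l φ k < (∑ v, φ v) ^ 2) ∧
      ∀ j, k < j → (∑ v, φ v) ^ 2 < thr A l φ j := by
  classical
  obtain ⟨J, hJ⟩ := thr_big h hg ((∑ v, φ v) ^ 2)
  let S : Finset ℕ := (Finset.range (J + 3)).filter fun j =>
    j = 2 ∨ (3 ≤ j ∧ thr A l φ j < (∑ v, φ v) ^ 2)
  have h2S : 2 ∈ S := Finset.mem_filter.2 ⟨Finset.mem_range.2 (by omega), Or.inl rfl⟩
  have hne : S.Nonempty := ⟨2, h2S⟩
  refine ⟨S.max' hne, S.le_max' 2 h2S, ?_, fun j hj => ?_⟩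
  · have := (Finset.mem_filter.1 (S.max'_mem hne)).2
    rcases this with h4 | ⟨_, h4⟩
    · exact Or.inl h4
    · exact Or.inr h4
  · have h5 : 2 ≤ S.max' hne := S.le_max' 2 h2S
    have h6 : 3 ≤ j := by omega
    rcases lt_trichotomy (thr A l φ j) ((∑ v, φ v) ^ 2) with h7 | h7 | h7
    · exfalso
      rcases Nat.lt_or_ge j (J + 3) with h8 | h8
      · have : j ∈ S := by
          simp only [S, Finset.mem_filter, Finset.mem_range]
          exact ⟨h8, Or.inr ⟨h6, h7⟩⟩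
        have := S.le_max' j this
        omega
      · have := hJ j (by omega)
        linarith
    · exact absurd h7 (h3 j h6)
    · exact h7

theorem structure_thm (hA : ∀ a b, A a b → A b a) (hc : ∀ a b, Relation.ReflTransGen A a b)
    (hb : ¬ ∃ c : V → Bool, ∀ a b, A a b → c a ≠ c b)
    (hr : ¬ ∃ d : ℕ, ∀ v, Nat.card {w // A v w} = d) :
    ∃ (l : ℝ) (φ : V → ℝ), 0 < l ∧ (∀ v, 0 < φ v) ∧ (∀ v, AO A φ v = l * φ v) ∧
      ∑ v, φ v ^ 2 = 1 ∧ ((∀ j, 3 ≤ j → thr A l φ j ≠ (∑ v, φ v) ^ 2) →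
        ∃ k, 2 ≤ k ∧ (k = 2 ∨ thr A l φ k < (∑ v, φ v) ^ 2) ∧
          (∀ j, k < j → (∑ v, φ v) ^ 2 < thr A l φ j) ∧
          ∃ C : ℕ, ∀ n : ℕ, 3 ≤ n → k * dH A n ≤ 2 * n + C ∧ 2 * n ≤ k * dH A n + C) := by
  obtain ⟨l, φ, h⟩ := exists_PD hA hc hb
  have hg := gam_pos h hc hb hr
  refine ⟨l, φ, h.lpos, h.pos, h.eq, h.norm, fun h3 => ?_⟩
  obtain ⟨k, hk, h1, h2⟩ := exists_k h hg h3
  obtain ⟨C1, hC1⟩ := upper_k h hk h1
  obtain ⟨C2, hC2⟩ := lower_k h hg hk h2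
  refine ⟨k, hk, h1, h2, C1 + C2, fun n hn => ⟨?_, ?_⟩⟩
  · have := hC1 n hn
    omega
  · have := hC2 n hn
    omega

end Pool.Agent.Lib.MP_dbb03c_co.Gen
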