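import Pool.Agent.Lib.MP_dbb03c_co.Gen.CMV
import Pool.Agent.Lib.MP_dbb03c_co.Gen.CBt

/-! # Lower bound for the vector of a tree with few leaves by the vector of a hub with long legs -/

set_option autoImplicit false

namespace Pool.Agent.Lib.MP_dbb03c_co.Gen

variable {V : Type} [Fintype V] {A : V → V → Prop} {l : ℝ} {φ : V → ℝ}

private theorem lv_pos {t : RT} (ht : t ≠ RT.one) : 1 ≤ t.lv := by
  cases t with
  | one => exact absurd rfl ht
  | gr s t =>
    have : 1 ≤ max 1 t.lv := le_max_left _ _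
    simp only [RT.lv]
    omega

private theorem MV_it {k : ℕ} {x : V → ℝ} (hx : MV A l φ k x) (j : ℕ) :
    MV A l φ k ((bG A l)^[j] x) := by
  induction j with
  | zero => exact hx
  | succ j ih =>
    rw [Function.iterate_succ_apply']
    exact MV.step ih

private theorem it_low (h : PD A l φ) {e : ℝ} {x y : V → ℝ} (hxy : ∀ v, e * x v ≤ y v) (j : ℕ)
    (v : V) : e * (bG A l)^[j] x v ≤ (bG A l)^[j] y v := by
  have h1 := itG_mono h j (x := e • x) (y := y) (fun v => by simpa using hxy v) v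
  rw [itG_smul] at h1
  simpa using h1

/-- cut a bare path above the root -/
private theorem path_low (h : PD A l φ) {c : ℝ} (hc0 : 0 ≤ c) {M0 : ℕ}
    (hM : ∀ x : V → ℝ, (∀ v, 0 ≤ x v) → ∀ v, c * iP φ x * φ v ≤ (bG A l)^[M0] x v) (t : RT)
    (j : ℕ) (hj : M0 ≤ j) : ∃ x, MV A l φ 1 x ∧
      ∀ v, c * endInf A l φ * x v ≤ (bG A l)^[j] (vG A l t) v := by
  refine ⟨φ, MV.leg, fun v => ?_⟩
  obtain ⟨i, rfl⟩ := Nat.exists_eq_add_of_le hj
  rw [Function.iterate_add_apply]
  have h1 := hM ((bG A l)^[i] (vG A l t)) (fun v => (itG_pos h i (fun w => vG_pos h t w) v).le) v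
  rw [iP_itG h] at h1
  refine le_trans ?_ h1
  have h2 := endInf_le h (tree_MV (φ := φ) t)
  have h3 := h.pos v
  exact mul_le_mul_of_nonneg_right (mul_le_mul_of_nonneg_left h2 hc0) h3.le

/-- one step of the cutting argument -/
private theorem gr_low (h : PD A l φ) {e : ℝ} (s t : RT)
    (hst : (∃ x, MV A l φ 1 x ∧ ∀ v, e * x v ≤ bG A l (vG A l t) v) ∨
      (∃ x, MV A l φ 1 x ∧ ∀ v, e * x v ≤ vG A l s v)) :
    ∃ x, MV A l φ 1 x ∧ ∀ v, e * x v ≤ vG A l (RT.gr s t) v := by
  rcases hst with ⟨x, hx, hxy⟩ | ⟨x, hx, hxy⟩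
  · refine ⟨vG A l s * x, ?_, fun v => ?_⟩
    · have h4 : MV A l φ (0 + 1) (vG A l s * x) := MV.mul (tree_MV (φ := φ) s) hx
      simpa using h4
    · have h1 : vG A l (RT.gr s t) v = vG A l s v * bG A l (vG A l t) v := rfl
      rw [h1, Pi.mul_apply]
      have h2 := mul_le_mul_of_nonneg_left (hxy v) (vG_pos h s v).le
      nlinarith [h2]
  · refine ⟨x * bG A l (vG A l t), ?_, fun v => ?_⟩
    · have h4 : MV A l φ (1 + 0) (x * bG A l (vG A l t)) :=
        MV.mul hx (MV.step (tree_MV (φ := φ) t))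
      exact h4
    · have h1 : vG A l (RT.gr s t) v = vG A l s v * bG A l (vG A l t) v := rfl
      rw [h1, Pi.mul_apply]
      have h2 := mul_le_mul_of_nonneg_right (hxy v) (bG_pos h (fun w => vG_pos h t w) v).le
      nlinarith [h2]

/-- A deep branch contains a bare path of length `M0`, which can be cut. Both claims together by induction
on `t`. First claim, `M0 ≤ j`: `bG^[j] (vG t) = bG^[M0] (bG^[j - M0] (vG t)) ≥ c * endInf * φ` (`iP_itG`,
`endInf_le`, `tree_MV`). If `j < M0` then `t = gr s t'`. If `s = one` use the first claim for `t'`, `j + 1`.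
If `s ≠ one` then `1 ≤ s.lv`; if `s.dep ≤ t'.dep + 1` use the first claim for `t'` and `j = 1`, otherwise
the second claim for `s`; multiply and apply `bG^[j]`. The second claim in the same way. -/
theorem branch_low (h : PD A l φ) {c : ℝ} (hc0 : 0 ≤ c) {M0 : ℕ} (hM0 : 1 ≤ M0)
    (hM : ∀ x : V → ℝ, (∀ v, 0 ≤ x v) → ∀ v, c * iP φ x * φ v ≤ (bG A l)^[M0] x v) (t : RT) :
    (∀ j, 1 ≤ j → M0 * max 1 t.lv ≤ t.dep + j → ∃ x, MV A l φ 1 x ∧
      ∀ v, c * endInf A l φ * x v ≤ (bG A l)^[j] (vG A l t) v) ∧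
    (1 ≤ t.lv → M0 * t.lv ≤ t.dep → ∃ x, MV A l φ 1 x ∧
      ∀ v, c * endInf A l φ * x v ≤ vG A l t v) := by
  induction t with
  | one =>
    refine ⟨fun j hj1 hj => path_low h hc0 hM _ j ?_, fun h1 => ?_⟩
    · simpa [RT.lv, RT.dep] using hj
    · simp [RT.lv] at h1
  | gr s t ihs iht =>
    have iht1 := iht.1
    have ihs2 := ihs.2
    have hm1 : 1 ≤ max 1 t.lv := le_max_left _ _
    have hmt : M0 ≤ M0 * max 1 t.lv := Nat.le_mul_of_pos_right _ hm1
    constructor
    · intro j hj1 hj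
      rcases Nat.lt_or_ge j M0 with hjM | hjM
      · simp only [RT.lv, RT.dep] at hj
        have hmx : max 1 (s.lv + max 1 t.lv) = s.lv + max 1 t.lv := max_eq_right (by omega)
        rw [hmx, Nat.mul_add] at hj
        by_cases hs : s = RT.one
        · subst hs
          simp only [RT.lv, RT.dep, Nat.mul_zero, Nat.zero_add, Nat.zero_max] at hj
          obtain ⟨x, hx, hxy⟩ := iht1 (j + 1) (by omega) (by omega)
          refine ⟨x, hx, fun v => ?_⟩
          have e : vG A l (RT.gr RT.one t) = bG A l (vG A l t) := by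
            funext w
            simp [vG]
          rw [e, ← Function.iterate_succ_apply]
          exact hxy v
        · have hs1 := lv_pos hs
          have hms : M0 ≤ M0 * s.lv := Nat.le_mul_of_pos_right _ hs1
          have hst : (∃ x, MV A l φ 1 x ∧ ∀ v, c * endInf A l φ * x v ≤ bG A l (vG A l t) v) ∨
              (∃ x, MV A l φ 1 x ∧ ∀ v, c * endInf A l φ * x v ≤ vG A l s v) := by
            rcases Nat.lt_or_ge (t.dep + 1) s.dep with hd | hd
            · rw [max_eq_left hd.le] at hj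
              exact Or.inr (ihs2 hs1 (by omega))
            · rw [max_eq_right hd] at hj
              exact Or.inl (iht1 1 le_rfl (by omega))
          obtain ⟨x, hx, hxy⟩ := gr_low h s t hst
          exact ⟨(bG A l)^[j] x, MV_it hx j, it_low h hxy j⟩
      · exact path_low h hc0 hM _ j hjM
    · intro hl hd0
      simp only [RT.lv, RT.dep] at hd0
      rw [Nat.mul_add] at hd0
      refine gr_low h s t ?_
      by_cases hs : s = RT.one
      · subst hs
        simp only [RT.lv, RT.dep, Nat.mul_zero, Nat.zero_add, Nat.zero_max] at hd0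
        exact Or.inl (iht1 1 le_rfl (by omega))
      · have hs1 := lv_pos hs
        rcases Nat.lt_or_ge (t.dep + 1) s.dep with hd | hd
        · rw [max_eq_left hd.le] at hd0
          exact Or.inr (ihs2 hs1 (by omega))
        · rw [max_eq_right hd] at hd0
          exact Or.inl (iht1 1 le_rfl (by omega))

/-- induction on `t`, using the first claim of `branch_low` with `j = 1` for deep branches without a deeper
branch; `K = M0 * L` -/
theorem tree_low (h : PD A l φ) {c : ℝ} (hc0 : 0 ≤ c) {M0 : ℕ} (hM0 : 1 ≤ M0)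
    (hM : ∀ x : V → ℝ, (∀ v, 0 ≤ x v) → ∀ v, c * iP φ x * φ v ≤ (bG A l)^[M0] x v)
    (L : ℕ) (hL : 1 ≤ L) (t : RT) (ht : t.lv ≤ L) :
    ∃ x, MV A l φ (BtK (M0 * L) t) x ∧
      ∀ v, (c * endInf A l φ) ^ (BtK (M0 * L) t) * x v ≤ vG A l t v := by
  have he0 : 0 ≤ c * endInf A l φ := mul_nonneg hc0 (endInf_nonneg h)
  induction t with
  | one =>
    refine ⟨fun _ => 1, MV.one, fun v => ?_⟩
    simp [BtK, vG]
  | gr s t ihs iht =>
    simp only [RT.lv] at ht
    have hm1 : 1 ≤ max 1 t.lv := le_max_left _ _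
    have hm2 : t.lv ≤ max 1 t.lv := le_max_right _ _
    obtain ⟨x, hx, hxy⟩ := ihs (by omega)
    have hxp : ∀ v, 0 ≤ x v := fun v => (MV.pos h hx v).le
    have main : ∃ y, MV A l φ (max (BtK (M0 * L) t) (if M0 * L ≤ t.dep then 1 else 0)) y ∧
        ∀ v, (c * endInf A l φ) ^ (max (BtK (M0 * L) t) (if M0 * L ≤ t.dep then 1 else 0)) * y v ≤
          bG A l (vG A l t) v := by
      by_cases hb : BtK (M0 * L) t = 0 ∧ M0 * L ≤ t.dep
      · have e : max (BtK (M0 * L) t) (if M0 * L ≤ t.dep then 1 else 0) = 1 := by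
          rw [hb.1, if_pos hb.2]
          rfl
        rw [e]
        have h3 : M0 * max 1 t.lv ≤ M0 * L := Nat.mul_le_mul_left _ (by omega)
        obtain ⟨y, hy, hyy⟩ := (branch_low h hc0 hM0 hM t).1 1 le_rfl (by omega)
        refine ⟨y, hy, fun v => ?_⟩
        rw [pow_one]
        exact hyy v
      · have e : max (BtK (M0 * L) t) (if M0 * L ≤ t.dep then 1 else 0) = BtK (M0 * L) t := by
          split_ifs with h5
          · have : BtK (M0 * L) t ≠ 0 := fun h6 => hb ⟨h6, h5⟩
            exact max_eq_left (by omega)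
          · exact max_eq_left (by omega)
        rw [e]
        obtain ⟨y, hy, hyy⟩ := iht (by omega)
        refine ⟨bG A l y, MV.step hy, fun v => ?_⟩
        exact it_low h hyy 1 v
    obtain ⟨y, hy, hyy⟩ := main
    refine ⟨x * y, MV.mul hx hy, fun v => ?_⟩
    have h1 : vG A l (RT.gr s t) v = vG A l s v * bG A l (vG A l t) v := rfl
    have h2 : BtK (M0 * L) (RT.gr s t) =
        BtK (M0 * L) s + max (BtK (M0 * L) t) (if M0 * L ≤ t.dep then 1 else 0) := rfl
    rw [h1, h2, pow_add, Pi.mul_apply]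
    have h3 := mul_le_mul (hxy v) (hyy v)
      (mul_nonneg (pow_nonneg he0 _) (MV.pos h hy v).le) (vG_pos h s v).le
    calc _ = ((c * endInf A l φ) ^ BtK (M0 * L) s * x v) *
          ((c * endInf A l φ) ^ (max (BtK (M0 * L) t) (if M0 * L ≤ t.dep then 1 else 0)) * y v) := by
          ring
      _ ≤ _ := h3

end Pool.Agent.Lib.MP_dbb03c_co.Gen
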