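import Pool.Agent.Lib.MP_dbb03c_co.Gen.CDef

/-! # Basic facts on the vectors `MV` and the threshold numbers -/

set_option autoImplicit false

namespace Pool.Agent.Lib.MP_dbb03c_co.Gen

variable {V : Type} [Fintype V] {A : V → V → Prop} {l : ℝ} {φ : V → ℝ}

theorem MV.pos (h : PD A l φ) {k : ℕ} {x : V → ℝ} (hx : MV A l φ k x) (v : V) : 0 < x v := by
  induction hx generalizing v with
  | one => exact zero_lt_one
  | leg => exact h.pos v
  | mul _ _ iha ihb => exact mul_pos (iha v) (ihb v)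
  | step _ ih => exact bG_pos h ih v

theorem tree_MV (t : RT) : MV A l φ 0 (vG A l t) := by
  induction t with
  | one => exact MV.one
  | gr s t ihs iht => exact MV.mul ihs (MV.step iht)

/-- identify the roots of two rooted trees -/
def mrg : RT → RT → RT
  | s, .one => s
  | s, .gr t u => .gr (mrg s t) u

theorem mrg_sz (s t : RT) : (mrg s t).sz + 1 = s.sz + t.sz := by
  induction t with
  | one => rfl
  | gr t u iht _ =>
    simp only [mrg, RT.sz]
    omega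

theorem mrg_dep (s t : RT) : (mrg s t).dep = max s.dep t.dep := by
  induction t with
  | one => simp [mrg, RT.dep]
  | gr t u iht _ =>
    simp only [mrg, RT.dep]
    omega

theorem mrg_lv (s t : RT) : (mrg s t).lv = s.lv + t.lv := by
  induction t with
  | one => simp [mrg, RT.lv]
  | gr t u iht _ =>
    simp only [mrg, RT.lv]
    omega

theorem mrg_vG (s t : RT) : vG A l (mrg s t) = vG A l s * vG A l t := by
  induction t with
  | one =>
    funext v
    simp [mrg, vG]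
  | gr t u iht _ => simp only [mrg, vG, iht, mul_assoc]

private theorem MV_tree_aux {k : ℕ} {x : V → ℝ} (hx : MV A l φ k x) :
    k = 0 → ∃ t : RT, vG A l t = x := by
  induction hx with
  | one => exact fun _ => ⟨RT.one, rfl⟩
  | leg => exact fun h => absurd h one_ne_zero
  | mul _ _ iha ihb =>
    intro h
    obtain ⟨s, hs⟩ := iha (by omega)
    obtain ⟨t, ht⟩ := ihb (by omega)
    exact ⟨mrg s t, by rw [mrg_vG, hs, ht]⟩
  | step _ ih =>
    intro h
    obtain ⟨t, ht⟩ := ih h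
    refine ⟨RT.gr RT.one t, ?_⟩
    funext v
    simp [vG, bG, ht]

/-- induction on `MV` for all `k` with `k = 0` (`mul`: `mrg`, `step`: `gr one _`) -/
theorem MV_tree {x : V → ℝ} (hx : MV A l φ 0 x) : ∃ t : RT, vG A l t = x :=
  MV_tree_aux hx rfl

/-- `φ ^ k` -/
theorem exists_MV (k : ℕ) : ∃ x, MV A l φ k x := by
  induction k with
  | zero => exact ⟨_, MV.one⟩
  | succ k ih =>
    obtain ⟨x, hx⟩ := ih
    exact ⟨_, MV.mul hx MV.leg⟩

private theorem sum_MV_nonneg (h : PD A l φ) {k : ℕ} {x : V → ℝ} (hx : MV A l φ k x) :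
    0 ≤ ∑ v, x v :=
  Finset.sum_nonneg fun v _ => (MV.pos h hx v).le

private theorem iP_MV_nonneg (h : PD A l φ) {k : ℕ} {x : V → ℝ} (hx : MV A l φ k x) :
    0 ≤ ∑ v, φ v * x v :=
  Finset.sum_nonneg fun v _ => (mul_pos (h.pos v) (MV.pos h hx v)).le

theorem hubInf_le (h : PD A l φ) {k : ℕ} {x : V → ℝ} (hx : MV A l φ k x) :
    hubInf A l φ k ≤ ∑ v, x v := by
  refine csInf_le ⟨0, ?_⟩ ⟨x, hx, rfl⟩
  rintro _ ⟨y, hy, rfl⟩
  exact sum_MV_nonneg h hy

theorem endInf_le (h : PD A l φ) {x : V → ℝ} (hx : MV A l φ 0 x) :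
    endInf A l φ ≤ iP φ x := by
  refine csInf_le ⟨0, ?_⟩ ⟨x, hx, rfl⟩
  rintro _ ⟨y, hy, rfl⟩
  exact iP_MV_nonneg h hy

theorem hubInf_nonneg (h : PD A l φ) (k : ℕ) : 0 ≤ hubInf A l φ k := by
  refine Real.sInf_nonneg ?_
  rintro _ ⟨y, hy, rfl⟩
  exact sum_MV_nonneg h hy

theorem endInf_nonneg (h : PD A l φ) : 0 ≤ endInf A l φ := by
  refine Real.sInf_nonneg ?_
  rintro _ ⟨y, hy, rfl⟩
  exact iP_MV_nonneg h hy

/-- choose `x`, `y` close to the two infima (continuity of `(s, e) ↦ s * e ^ k`) -/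
theorem thr_lt (h : PD A l φ) {k : ℕ} {Q : ℝ} (hQ : thr A l φ k < Q) :
    ∃ x y, MV A l φ k x ∧ MV A l φ 0 y ∧ (∑ v, x v) * iP φ y ^ k < Q := by
  have hs := hubInf_nonneg (A := A) (l := l) (φ := φ) h k
  have he := endInf_nonneg (A := A) (l := l) (φ := φ) h
  have hc : Continuous fun d : ℝ => (hubInf A l φ k + d) * (endInf A l φ + d) ^ k := by
    fun_prop
  have h0 : (hubInf A l φ k + 0) * (endInf A l φ + 0) ^ k < Q := by
    simpa [thr] using hQ
  have hev : ∀ᶠ d : ℝ in nhds 0, (hubInf A l φ k + d) * (endInf A l φ + d) ^ k < Q :=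
    (hc.tendsto 0).eventually (gt_mem_nhds h0)
  obtain ⟨d, hd1, hd2⟩ := ((hev.filter_mono nhdsWithin_le_nhds).and
    (self_mem_nhdsWithin (a := (0 : ℝ)) (s := Set.Ioi 0))).exists
  have hd : 0 < d := hd2
  obtain ⟨x0, hx0⟩ := exists_MV (A := A) (l := l) (φ := φ) k
  have hne1 : {s | ∃ x, MV A l φ k x ∧ s = ∑ v, x v}.Nonempty := ⟨_, x0, hx0, rfl⟩
  have hne2 : {s | ∃ x, MV A l φ 0 x ∧ s = ∑ v, φ v * x v}.Nonempty := ⟨_, _, MV.one, rfl⟩
  obtain ⟨_, ⟨x, hx, rfl⟩, hx1⟩ := Real.lt_sInf_add_pos hne1 hd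
  obtain ⟨_, ⟨y, hy, rfl⟩, hy1⟩ := Real.lt_sInf_add_pos hne2 hd
  refine ⟨x, y, hx, hy, lt_of_le_of_lt ?_ hd1⟩
  have h1 : iP φ y ≤ endInf A l φ + d := le_of_lt hy1
  have h2 : 0 ≤ iP φ y := iP_MV_nonneg h hy
  exact mul_le_mul (le_of_lt hx1) (pow_le_pow_left₀ h2 h1 k) (pow_nonneg h2 k) (by positivity)

end Pool.Agent.Lib.MP_dbb03c_co.Gen
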