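import Pool.Agent.Lib.MP_dbb03c_co.Gen.AO

/-! # A connected target which is not 2-colourable is primitive -/

set_option autoImplicit false

namespace Pool.Agent.Lib.MP_dbb03c_co.Gen

/-- walks of length `n` -/
inductive Wk {V : Type} (A : V → V → Prop) : ℕ → V → V → Prop
  | nil (a : V) : Wk A 0 a a
  | cons {a b c : V} {n : ℕ} : A a b → Wk A n b c → Wk A (n + 1) a c

variable {V : Type} {A : V → V → Prop}

theorem Wk.append {m n : ℕ} {a b c : V} (h : Wk A m a b) (h' : Wk A n b c) :
    Wk A (m + n) a c := by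
  induction h with
  | nil a => rw [Nat.zero_add]; exact h'
  | cons h1 _ ih =>
    rw [Nat.add_right_comm]
    exact Wk.cons h1 (ih h')

theorem Wk.rev (hA : ∀ a b, A a b → A b a) {n : ℕ} {a b : V} (h : Wk A n a b) : Wk A n b a := by
  induction h with
  | nil a => exact Wk.nil a
  | cons h1 _ ih => exact ih.append (Wk.cons (hA _ _ h1) (Wk.nil _))

theorem exists_wk (hc : ∀ a b, Relation.ReflTransGen A a b) (a b : V) : ∃ n, Wk A n a b := by
  induction hc a b using Relation.ReflTransGen.head_induction_on with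
  | refl => exact ⟨0, Wk.nil _⟩
  | head h1 _ ih =>
    obtain ⟨n, hn⟩ := ih
    exact ⟨n + 1, Wk.cons h1 hn⟩

/-- Fix `a`. If no vertex is joined to `a` by walks of both parities then colour `v` by the parity of the
walks from `a` to `v`: adjacent vertices have different colours. -/
theorem exists_odd (hA : ∀ a b, A a b → A b a) (hc : ∀ a b, Relation.ReflTransGen A a b)
    (hb : ¬ ∃ c : V → Bool, ∀ a b, A a b → c a ≠ c b) (a : V) : ∃ n, Wk A (2 * n + 1) a a := by
  classical
  by_contra hno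
  apply hb
  refine ⟨fun v => decide (∃ n, Wk A (2 * n + 1) a v), fun u v huv heq => ?_⟩
  rw [decide_eq_decide] at heq
  by_cases hu : ∃ n, Wk A (2 * n + 1) a u
  · obtain ⟨n, hn⟩ := hu
    obtain ⟨m, hm⟩ := heq.1 ⟨n, hn⟩
    apply hno
    refine ⟨n + m + 1, ?_⟩
    have := (hn.append (Wk.cons huv (Wk.nil v))).append (hm.rev hA)
    have e : 2 * n + 1 + (0 + 1) + (2 * m + 1) = 2 * (n + m + 1) + 1 := by ring
    rwa [e] at this
  · obtain ⟨k, hk⟩ := exists_wk hc a u
    obtain ⟨j, hj | hj⟩ := k.even_or_odd'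
    · subst hj
      exact hu (heq.2 ⟨j, hk.append (Wk.cons huv (Wk.nil v))⟩)
    · subst hj
      exact hu ⟨j, hk⟩

private theorem even_closed {a b : V} (h : A a b) (h' : A b a) (k : ℕ) : Wk A (2 * k) a a := by
  induction k with
  | zero => exact Wk.nil a
  | succ k ih => exact Wk.cons h (Wk.cons h' ih)

private theorem closed_ge {a b : V} (h : A a b) (h' : A b a) {o : ℕ} (ho : Wk A (2 * o + 1) a a)
    {n : ℕ} (hn : 2 * o + 1 ≤ n) : Wk A n a a := by
  obtain ⟨j, hj | hj⟩ := n.even_or_odd'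
  · subst hj
    exact even_closed h h' j
  · subst hj
    have := (even_closed h h' (j - o)).append ho
    have e : 2 * (j - o) + (2 * o + 1) = 2 * j + 1 := by omega
    rwa [e] at this

/-- `a` has a closed walk of length 2 and one of odd length `o`, so closed walks of all lengths `≥ o`. -/
theorem exists_all [Finite V] (hA : ∀ a b, A a b → A b a)
    (hc : ∀ a b, Relation.ReflTransGen A a b)
    (hb : ¬ ∃ c : V → Bool, ∀ a b, A a b → c a ≠ c b) : ∃ N, ∀ a b, Wk A N a b := by
  have key : ∀ p : V × V, ∃ N, ∀ n, N ≤ n → Wk A n p.1 p.2 := by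
    rintro ⟨a, b⟩
    obtain ⟨o, ho⟩ := exists_odd hA hc hb a
    obtain ⟨m, hm⟩ := exists_wk hc a b
    have hnb : ∃ c, A a c := by
      cases ho with
      | cons h1 _ => exact ⟨_, h1⟩
    obtain ⟨c, hac⟩ := hnb
    refine ⟨2 * o + 1 + m, fun n hn => ?_⟩
    have := (closed_ge hac (hA _ _ hac) ho (n := n - m) (by omega)).append hm
    have e : n - m + m = n := by omega
    rwa [e] at this
  choose N hN using key
  obtain ⟨M, hM⟩ := (Set.finite_range N).bddAbove
  exact ⟨M, fun a b => hN (a, b) M (hM ⟨(a, b), rfl⟩)⟩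

private theorem AO_it_nonneg [Fintype V] (n : ℕ) {x : V → ℝ} (hx : ∀ u, 0 ≤ x u) (v : V) :
    0 ≤ (AO A)^[n] x v := by
  induction n generalizing v with
  | zero => exact hx v
  | succ n ih =>
    rw [Function.iterate_succ_apply']
    exact AO_nonneg ih v

/-- a walk of length `n` from `v` to `w` and `x w > 0` give `(AO A)^[n] x v > 0` (for `x ≥ 0`) -/
theorem AO_wk [Fintype V] {n : ℕ} {v w : V} (h : Wk A n v w) {x : V → ℝ} (hx : ∀ u, 0 ≤ x u)
    (hw : 0 < x w) : 0 < (AO A)^[n] x v := by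
  classical
  induction h with
  | nil a => exact hw
  | @cons a b c n h1 _ ih =>
    rw [Function.iterate_succ_apply']
    unfold AO
    refine Finset.sum_pos' (fun u _ => ?_) ⟨b, Finset.mem_univ b, ?_⟩
    · split_ifs
      · exact AO_it_nonneg n hx u
      · exact le_rfl
    · rw [if_pos h1]
      exact ih hw

theorem prim_of [Fintype V] (hA : ∀ a b, A a b → A b a)
    (hc : ∀ a b, Relation.ReflTransGen A a b)
    (hb : ¬ ∃ c : V → Bool, ∀ a b, A a b → c a ≠ c b) :
    ∃ N : ℕ, ∀ x : V → ℝ, (∀ v, 0 ≤ x v) → (∃ v, 0 < x v) → ∀ v, 0 < (AO A)^[N] x v := by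
  obtain ⟨N, hN⟩ := exists_all hA hc hb
  exact ⟨N, fun x hx ⟨w, hw⟩ v => AO_wk (hN v w) hx hw⟩

end Pool.Agent.Lib.MP_dbb03c_co.Gen
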