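import Pool.Agent.Lib.MP_dbb03c_co.Gen.CMV
import Pool.Agent.Lib.MP_dbb03c_co.Gen.CConv

/-! # Realisation of a hub with long legs by finite trees -/

set_option autoImplicit false

namespace Pool.Agent.Lib.MP_dbb03c_co.Gen

variable {V : Type} [Fintype V] {A : V → V → Prop} {l : ℝ} {φ : V → ℝ}

/-- a path with `m` vertices above the end `t0` -/
def legT (t0 : RT) : ℕ → RT
  | 0 => t0
  | m + 1 => .gr .one (legT t0 m)

private theorem vG_gr_one (t : RT) : vG A l (RT.gr RT.one t) = bG A l (vG A l t) := by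
  have h1 : vG A l (RT.gr RT.one t) = vG A l RT.one * bG A l (vG A l t) := rfl
  rw [h1]
  funext i
  simp [vG]

theorem legT_vG (t0 : RT) (m : ℕ) : vG A l (legT t0 m) = (bG A l)^[m] (vG A l t0) := by
  induction m with
  | zero => rfl
  | succ m ih => rw [legT, vG_gr_one, ih, Function.iterate_succ_apply']

theorem legT_sz (t0 : RT) (m : ℕ) : (legT t0 m).sz = m + t0.sz := by
  induction m with
  | zero => simp [legT]
  | succ m ih =>
    simp only [legT, RT.sz, ih]
    omega

theorem legT_dep (t0 : RT) (m : ℕ) : (legT t0 m).dep = m + t0.dep := by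
  induction m with
  | zero => simp [legT]
  | succ m ih =>
    simp only [legT, RT.dep, ih]
    omega

/-- Induction on `MV`: `one`: `τ [] = one`; `leg`: `τ [m] = gr one (legT t0 m)`; `mul`:
`τ L = mrg (τ₁ (L.take a)) (τ₂ (L.drop a))`; `step`: `gr one (τ L)`. The estimate: for `leg` from `conv`;
for `mul` choose `δ` with `(1 + δ) ^ 2 ≤ 1 + ε`. -/
theorem realize (h : PD A l φ) (t0 : RT) {k : ℕ} {x : V → ℝ} (hx : MV A l φ k x) :
    ∃ (a b : ℕ) (τ : List ℕ → RT),
      (∀ L : List ℕ, L.length = k → (τ L).sz = a + L.sum ∧ k ≤ (τ L).lv ∧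
        ∀ m, (∀ i ∈ L, i ≤ m) → (τ L).dep ≤ b + m) ∧
      ∀ ε : ℝ, 0 < ε → ∃ m0 : ℕ, ∀ L : List ℕ, L.length = k → (∀ i ∈ L, m0 ≤ i) →
        ∀ v, vG A l (τ L) v ≤ (1 + ε) * iP φ (vG A l t0) ^ k * x v := by
  have hc : 0 ≤ iP φ (vG A l t0) :=
    Finset.sum_nonneg fun v _ => mul_nonneg (h.pos v).le (vG_pos h t0 v).le
  induction hx with
  | one =>
    refine ⟨1, 0, fun _ => RT.one, ?_, ?_⟩
    · intro L hL
      rw [List.length_eq_zero_iff] at hL
      subst hL
      refine ⟨rfl, Nat.zero_le _, fun m _ => ?_⟩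
      simp [RT.dep]
    · intro ε hε
      refine ⟨0, fun L _ _ v => ?_⟩
      have : vG A l RT.one v = 1 := rfl
      rw [this]
      simp only [pow_zero, mul_one]
      linarith
  | leg =>
    refine ⟨1 + t0.sz, t0.dep + 1, fun L => RT.gr RT.one (legT t0 L.sum), ?_, ?_⟩
    · intro L hL
      rw [List.length_eq_one_iff] at hL
      obtain ⟨m, rfl⟩ := hL
      refine ⟨?_, ?_, fun m' hm' => ?_⟩
      · simp only [RT.sz, legT_sz, List.sum_singleton]
        omega
      · simp only [RT.lv]
        omega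
      · have := hm' m (by simp)
        simp only [RT.dep, legT_dep, List.sum_singleton]
        omega
    · intro ε hε
      obtain ⟨M0, hM0⟩ := conv h ε hε
      refine ⟨M0, fun L hL hm v => ?_⟩
      rw [List.length_eq_one_iff] at hL
      obtain ⟨m, rfl⟩ := hL
      have hmm := hm m (by simp)
      have h1 := (hM0 (m + 1) (by omega) (vG A l t0) (fun v => (vG_pos h t0 v).le) v).2
      rw [vG_gr_one, legT_vG, List.sum_singleton]
      rw [Function.iterate_succ_apply'] at h1
      rw [pow_one]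
      exact h1
  | @mul a b x y hx hy ihx ihy =>
    obtain ⟨a1, b1, τ1, hτ1, hε1⟩ := ihx
    obtain ⟨a2, b2, τ2, hτ2, hε2⟩ := ihy
    have ha1 : 1 ≤ a1 := by
      have h1 := (hτ1 (List.replicate a 0) (by simp)).1
      have h2 := RT.sz_pos (τ1 (List.replicate a 0))
      rw [h1, List.sum_replicate, smul_zero] at h2
      omega
    refine ⟨a1 + a2 - 1, max b1 b2, fun L => mrg (τ1 (L.take a)) (τ2 (L.drop a)), ?_, ?_⟩
    · intro L hL
      have l1 : (L.take a).length = a := by simp [hL]
      have l2 : (L.drop a).length = b := by simp [hL]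
      obtain ⟨s1, v1, d1⟩ := hτ1 _ l1
      obtain ⟨s2, v2, d2⟩ := hτ2 _ l2
      refine ⟨?_, ?_, fun m hm => ?_⟩
      · have h1 := mrg_sz (τ1 (L.take a)) (τ2 (L.drop a))
        have h2 := List.sum_take_add_sum_drop L a
        simp only
        omega
      · simp only [mrg_lv]
        omega
      · have e1 := d1 m (fun i hi => hm i (List.mem_of_mem_take hi))
        have e2 := d2 m (fun i hi => hm i (List.mem_of_mem_drop hi))
        simp only [mrg_dep]
        omega
    · intro ε hε
      set δ : ℝ := min 1 (ε / 3) with hδ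
      have hδ0 : 0 < δ := lt_min one_pos (by positivity)
      have hδ1 : δ ≤ 1 := min_le_left _ _
      have hδ3 : δ ≤ ε / 3 := min_le_right _ _
      obtain ⟨m1, hm1⟩ := hε1 δ hδ0
      obtain ⟨m2, hm2⟩ := hε2 δ hδ0
      refine ⟨max m1 m2, fun L hL hm v => ?_⟩
      have l1 : (L.take a).length = a := by simp [hL]
      have l2 : (L.drop a).length = b := by simp [hL]
      have e1 := hm1 _ l1
        (fun i hi => le_trans (le_max_left _ _) (hm i (List.mem_of_mem_take hi))) v
      have e2 := hm2 _ l2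
        (fun i hi => le_trans (le_max_right _ _) (hm i (List.mem_of_mem_drop hi))) v
      have px := (MV.pos h hx v).le
      have py := (MV.pos h hy v).le
      simp only [mrg_vG, Pi.mul_apply]
      calc vG A l (τ1 (L.take a)) v * vG A l (τ2 (L.drop a)) v
          ≤ ((1 + δ) * iP φ (vG A l t0) ^ a * x v) * ((1 + δ) * iP φ (vG A l t0) ^ b * y v) :=
            mul_le_mul e1 e2 (vG_pos h _ v).le (by positivity)
        _ = (1 + δ) ^ 2 * (iP φ (vG A l t0) ^ (a + b) * (x v * y v)) := by ring
        _ ≤ (1 + ε) * (iP φ (vG A l t0) ^ (a + b) * (x v * y v)) := by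
            apply mul_le_mul_of_nonneg_right _ (by positivity)
            nlinarith
        _ = (1 + ε) * iP φ (vG A l t0) ^ (a + b) * (x v * y v) := by ring
  | @step a x hx ih =>
    obtain ⟨a1, b1, τ1, hτ1, hε1⟩ := ih
    refine ⟨a1 + 1, b1 + 1, fun L => RT.gr RT.one (τ1 L), ?_, ?_⟩
    · intro L hL
      obtain ⟨s1, v1, d1⟩ := hτ1 L hL
      refine ⟨?_, ?_, fun m hm => ?_⟩
      · simp only [RT.sz, s1]
        omega
      · simp only [RT.lv]
        omega
      · have := d1 m hm
        simp only [RT.dep]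
        omega
    · intro ε hε
      obtain ⟨m0, hm0⟩ := hε1 ε hε
      refine ⟨m0, fun L hL hm v => ?_⟩
      have e1 := hm0 L hL hm
      rw [vG_gr_one]
      have h2 : bG A l ((((1 + ε) * iP φ (vG A l t0) ^ a)) • x) v =
          (1 + ε) * iP φ (vG A l t0) ^ a * (AO A x v / l) := by
        rw [bG_smul]
        rfl
      rw [← h2]
      exact bG_mono h (fun w => e1 w) v

end Pool.Agent.Lib.MP_dbb03c_co.Gen
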