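import Pool.Agent.Lib.MP_dbb03c_co.Gen.CDef

/-! # Arbitrary targets: rooted trees with infinitely long legs, with parities -/

set_option autoImplicit false

namespace Pool.Agent.Lib.MP_dbb03c_co.Gen

open Filter Topology

variable {V : Type} [Fintype V]

variable {A : V → V → Prop} {l : ℝ}

theorem bN_mono (hl : 0 < l) {x y : V → ℝ} (hxy : ∀ v, x v ≤ y v) (v : V) :
    bG A l x v ≤ bG A l y v :=
  div_le_div_of_nonneg_right (AO_mono hxy v) hl.le

theorem bN_nonneg (hl : 0 < l) {x : V → ℝ} (hx : ∀ v, 0 ≤ x v) (v : V) : 0 ≤ bG A l x v :=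
  div_nonneg (AO_nonneg hx v) hl.le

theorem itN_mono (hl : 0 < l) (n : ℕ) {x y : V → ℝ} (hxy : ∀ v, x v ≤ y v) (v : V) :
    (bG A l)^[n] x v ≤ (bG A l)^[n] y v := by
  induction n generalizing v with
  | zero => exact hxy v
  | succ n ih =>
    rw [Function.iterate_succ_apply', Function.iterate_succ_apply']
    exact bN_mono hl ih v

theorem itN_nonneg (hl : 0 < l) (n : ℕ) {x : V → ℝ} (hx : ∀ v, 0 ≤ x v) (v : V) :
    0 ≤ (bG A l)^[n] x v := by
  induction n generalizing v with
  | zero => exact hx v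
  | succ n ih =>
    rw [Function.iterate_succ_apply']
    exact bN_nonneg hl ih v

theorem vN_nonneg (hl : 0 < l) (t : RT) (v : V) : 0 ≤ vG A l t v := by
  induction t generalizing v with
  | one => exact zero_le_one
  | gr s t ihs iht => exact mul_nonneg (ihs v) (bN_nonneg hl iht v)

theorem hv_vN (hl : 0 < l) (t : RT) : hv A t = l ^ (t.sz - 1) • vG A l t := by
  induction t with
  | one =>
    funext v
    simp [hv, vG, RT.sz]
  | gr s t ihs iht =>
    have h1 := RT.sz_pos s
    have h2 := RT.sz_pos t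
    have e : (RT.gr s t).sz - 1 = (s.sz - 1) + ((t.sz - 1) + 1) := by
      simp only [RT.sz]
      omega
    have hl' := hl.ne'
    funext v
    rw [hv, vG, ihs, iht, AO_smul, e, pow_add, pow_succ]
    simp only [Pi.mul_apply, Pi.smul_apply, smul_eq_mul, bG]
    field_simp

theorem sum_hvN (hl : 0 < l) (t : RT) :
    ∑ v, hv A t v = l ^ (t.sz - 1) * ∑ v, vG A l t v := by
  rw [hv_vN hl, Finset.mul_sum]
  rfl

/-- the data of a target: the spectral radius, a nonnegative eigenvector, convergence of the powers of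
fixed parity -/
structure SD (A : V → V → Prop) (l : ℝ) : Prop where
  symm : ∀ a b, A a b → A b a
  lpos : 0 < l
  vec : ∃ φ : V → ℝ, (∀ v, 0 ≤ φ v) ∧ (∃ v, 0 < φ v) ∧ bG A l φ = φ
  lim : ∀ (s : ℕ) (y : V → ℝ), ∃ z, limV A l s y z

end Pool.Agent.Lib.MP_dbb03c_co.Gen
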