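import Pool.Agent.Lib.MP_dbb03c_co.Gen.DLow
import Pool.Agent.Lib.MP_dbb03c_co.Gen.AClosed
import Pool.Agent.Lib.MP_dbb03c_co.Gen.SCen
import Pool.Agent.Lib.MP_dbb03c_co.Gr2
import Pool.Agent.Lib.MP_dbb03c_co.Gr4
import Pool.Agent.Lib.MP_dbb03c_co.Rep4

/-! # Trees of small diameter are at least the path -/

set_option autoImplicit false

namespace Pool.Agent.Lib.MP_dbb03c_co.Gen

open Filter Topology

variable {V : Type} [Fintype V] {A : V → V → Prop} {l : ℝ}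

/-- finitely many `j` with `k < j ≤ L`, each by continuity at `c = 1` -/
theorem exists_cP {k p : ℕ} {P : ℝ} (hP0 : 0 < P)
    (hk : ∀ j, k < j → P < thrP A l j p) (L : ℕ) :
    ∃ c : ℝ, 0 < c ∧ c < 1 ∧ ∀ j, k < j → j ≤ L → P < c ^ j * thrP A l j p := by
  have h1 : ∀ j ∈ Finset.Ioc k L, ∀ᶠ c : ℝ in 𝓝[<] 1, P < c ^ j * thrP A l j p := by
    intro j hj
    rw [Finset.mem_Ioc] at hj
    have h2 : Tendsto (fun c : ℝ => c ^ j * thrP A l j p) (𝓝[<] 1) (𝓝 (1 ^ j * thrP A l j p)) :=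
      ((continuous_id.pow j).mul continuous_const).continuousAt.tendsto.mono_left
        nhdsWithin_le_nhds
    have h3 : P < 1 ^ j * thrP A l j p := by
      rw [one_pow, one_mul]
      exact hk j hj.1
    exact h2.eventually_const_lt h3
  have h2 : ∀ᶠ c : ℝ in 𝓝[<] 1, ∀ j ∈ Finset.Ioc k L, P < c ^ j * thrP A l j p :=
    (Filter.eventually_all_finset _).2 h1
  have h3 : ∀ᶠ c : ℝ in 𝓝[<] 1, c ∈ Set.Ioo (0 : ℝ) 1 :=
    Ioo_mem_nhdsLT zero_lt_one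
  obtain ⟨c, hc1, hc2⟩ := (h2.and h3).exists
  exact ⟨c, hc2.1, hc2.2, fun j hj1 hj2 => hc1 j (Finset.mem_Ioc.2 ⟨hj1, hj2⟩)⟩

/-- Rooted trees with more than `k` deep branches: `exists_cP`, `cut`, `tree_lowP`, `thrP_le`, `BtK_le_lv`,
`sum_hvN`, `vG_pt`, and `hP` for the path (finitely many strict inequalities hold for all large `n`). -/
theorem rooted_geP (h : SD A l) {k p : ℕ} {P : ℝ} (hP0 : 0 < P)
    (hP : Tendsto (fun m : ℕ => ∑ v, (bG A l)^[2 * m + p] (fun _ => 1) v) atTop (𝓝 P))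
    (hk : ∀ j, k < j → P < thrP A l j p) (L : ℕ) (hL : 1 ≤ L) :
    ∃ K N : ℕ, ∀ t : RT, N ≤ t.sz → (t.sz - 1) % 2 = p % 2 → t.lv ≤ L → k < BtK K t →
      ∑ v, hv A (pt (t.sz - 1)) v ≤ ∑ v, hv A t v := by
  obtain ⟨c, hc0, hc1, hcj⟩ := exists_cP hP0 hk L
  obtain ⟨M0, hM1, hM⟩ := cut h hc0.le hc1
  have h2 : ∀ᶠ n : ℕ in atTop, ∀ j ∈ Finset.Ioc k L,
      ∑ v, (bG A l)^[2 * n + p] (fun _ => 1) v < c ^ j * thrP A l j p := by
    refine (Filter.eventually_all_finset _).2 fun j hj => ?_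
    rw [Finset.mem_Ioc] at hj
    exact hP.eventually_lt_const (hcj j hj.1 hj.2)
  obtain ⟨N, hN⟩ := Filter.eventually_atTop.1 h2
  refine ⟨M0 * L, 2 * N + p + 1, fun t ht hpar hlv hb => ?_⟩
  obtain ⟨e, x, hx, he, hxv⟩ := tree_lowP h hc0.le hM1 hM L hL t hlv
  have hjL : BtK (M0 * L) t ≤ L := (BtK_le_lv _ t).trans hlv
  obtain ⟨m, hm, hNm⟩ : ∃ m, t.sz - 1 = 2 * m + p ∧ N ≤ m :=
    ⟨(t.sz - 1 - p) / 2, by omega, by omega⟩
  have h3 := hN m hNm (BtK (M0 * L) t) (Finset.mem_Ioc.2 ⟨hb, hjL⟩)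
  rw [← hm] at h3
  have h4 : c ^ (BtK (M0 * L) t) * thrP A l (BtK (M0 * L) t) p ≤ ∑ v, vG A l t v := by
    have h5 := thrP_le h.lpos hx (he.trans hpar)
    have h6 : 0 ≤ c ^ (BtK (M0 * L) t) := pow_nonneg hc0.le _
    calc c ^ (BtK (M0 * L) t) * thrP A l (BtK (M0 * L) t) p
        ≤ c ^ (BtK (M0 * L) t) * ∑ v, x v := mul_le_mul_of_nonneg_left h5 h6
      _ = ∑ v, c ^ (BtK (M0 * L) t) * x v := by rw [Finset.mul_sum]
      _ ≤ ∑ v, vG A l t v := Finset.sum_le_sum fun v _ => hxv v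
  have hsz := t.sz_pos
  rw [sum_hvN h.lpos, sum_hvN h.lpos, vG_pt, sz_pt]
  have e1 : t.sz - 1 + 1 - 1 = t.sz - 1 := by omega
  rw [e1]
  exact mul_le_mul_of_nonneg_left (h3.le.trans h4) (pow_pos h.lpos _).le

/-- `general`, `rooted_geP`, `sz_le_BtK`, rooting at a center (`exists_center`), as `SFin.tree_ge` -/
theorem trees_geP (h : SD A l) {k p : ℕ} {P : ℝ} (hP0 : 0 < P)
    (hP : Tendsto (fun m : ℕ => ∑ v, (bG A l)^[2 * m + p] (fun _ => 1) v) atTop (𝓝 P))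
    (hk : ∀ j, k < j → P < thrP A l j p) :
    ∃ C : ℕ, ∀ (n : ℕ) (T : SimpleGraph (Fin n)), (n - 1) % 2 = p % 2 → T.IsTree → ∀ d : ℕ,
      (∀ a b, T.dist a b ≤ d) → k * d + C < 2 * n →
      hom (SimpleGraph.pathGraph n) A ≤ hom T A := by
  obtain ⟨L0, hL0⟩ := general (V := V) h.symm
  obtain ⟨K, N, hKN⟩ := rooted_geP h hP0 hP hk (L0 + 1) (by omega)
  refine ⟨2 + 2 * ((K + 1) * (L0 + 1)) + k + 2 * N, fun n T hp hT d hd hn => ?_⟩
  haveI : Nonempty (Fin n) := hT.connected.nonempty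
  obtain ⟨t0, e0, he0, _⟩ := exists_rt n T hT (Fintype.card_fin n) (Classical.arbitrary _)
  obtain ⟨t, ⟨e1, he1⟩, hc⟩ := exists_center t0
  let e : Fin n ≃ t.V := e0.trans e1
  have he : ∀ a b, t.G.Adj (e a) (e b) ↔ T.Adj a b := fun a b => (he1 _ _).trans (he0 _ _)
  have hsz : t.sz = n := by
    rw [← RT.card_V, ← Fintype.card_congr e, Fintype.card_fin]
  have hrd : t.rd ≤ d := by
    obtain ⟨u, v, huv⟩ := t.exists_dist_rd
    have h2 := dist_congr e he (e.symm u) (e.symm v)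
    rw [e.apply_symm_apply, e.apply_symm_apply] at h2
    have := hd (e.symm u) (e.symm v)
    omega
  have key : ∑ v, hv A (pt (t.sz - 1)) v ≤ ∑ v, hv A t v := by
    rcases Nat.lt_or_ge t.lv L0 with hl | hl
    · rcases Nat.lt_or_ge k (BtK K t) with hb | hb
      · exact hKN t (by omega) (by rw [hsz]; exact hp) (by omega) hb
      · exfalso
        have h2 := sz_le_BtK K t
        have h3 : BtK K t * t.dep ≤ k * t.dep := Nat.mul_le_mul_right _ hb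
        have h4 : k * (2 * t.dep) ≤ k * (d + 1) := Nat.mul_le_mul_left _ (by omega)
        have h5 : 2 * (k * t.dep) = k * (2 * t.dep) := by ring
        have h6 : k * (d + 1) = k * d + k := by ring
        have h7 : (K + 1) * t.lv ≤ (K + 1) * (L0 + 1) := Nat.mul_le_mul_left _ (by omega)
        omega
    · exact hL0 t hl
  have h2 := hom_path h.symm (n - 1)
  have hn1 : n - 1 + 1 = n := by omega
  rw [hn1] at h2
  rw [hom_congr A e he]
  have h3 : (hom (SimpleGraph.pathGraph n) A : ℝ) ≤ hom t.G A := by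
    rw [h2, hom_eq h.symm t, ← hsz]
    exact key
  exact_mod_cast h3

end Pool.Agent.Lib.MP_dbb03c_co.Gen
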