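import Pool.Agent.Lib.MP_dbb03c_co.Gen.CBt
import Pool.Agent.Lib.MP_dbb03c_co.Gr2
import Pool.Agent.Lib.MP_dbb03c_co.Gr4

/-! # Lists of almost equal numbers -/

set_option autoImplicit false

namespace Pool.Agent.Lib.MP_dbb03c_co.Gen

/-- a list of `k` almost equal numbers with given sum: `s = k * m + r`, `r < k` -/
theorem exists_list {k : ℕ} (hk : 1 ≤ k) (s : ℕ) : ∃ L : List ℕ, L.length = k ∧ L.sum = s ∧
    (∀ i ∈ L, s / k ≤ i) ∧ ∀ i ∈ L, i ≤ s / k + 1 := by
  have hr : s % k < k := Nat.mod_lt _ hk
  have hs : k * (s / k) + s % k = s := Nat.div_add_mod s k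
  refine ⟨List.replicate (s % k) (s / k + 1) ++ List.replicate (k - s % k) (s / k), ?_, ?_, ?_, ?_⟩
  · rw [List.length_append, List.length_replicate, List.length_replicate]
    omega
  · rw [List.sum_append, List.sum_replicate, List.sum_replicate, smul_eq_mul, smul_eq_mul]
    have h1 : (s % k) * (s / k + 1) + (k - s % k) * (s / k) =
        ((s % k) + (k - s % k)) * (s / k) + s % k := by ring
    have h2 : (s % k) + (k - s % k) = k := by omega
    rw [h1, h2, hs]
  · intro i hi
    rcases List.mem_append.1 hi with h | h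
    · rw [List.eq_of_mem_replicate h]
      exact Nat.le_succ _
    · rw [List.eq_of_mem_replicate h]
  · intro i hi
    rcases List.mem_append.1 hi with h | h
    · rw [List.eq_of_mem_replicate h]
    · rw [List.eq_of_mem_replicate h]
      exact Nat.le_succ _

end Pool.Agent.Lib.MP_dbb03c_co.Gen
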