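import Pool.Agent.Lib.MP_dbb03c_co.Gen.DReal
import Pool.Agent.Lib.MP_dbb03c_co.Gen.DList

/-! # Spiders beat the path if the threshold number is small -/

set_option autoImplicit false

namespace Pool.Agent.Lib.MP_dbb03c_co.Gen

open Filter Topology

variable {V : Type} [Fintype V] {A : V → V → Prop} {l : ℝ}

/-- Rooted trees: `thrP_lt`, `realizeP`, `exists_list` with `s = (n - a) / 2` (note `n - a` is even). -/
theorem spidersR (h : SD A l) {k p : ℕ} (hk : 1 ≤ k) {P : ℝ}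
    (hP : Tendsto (fun m : ℕ => ∑ v, (bG A l)^[2 * m + p] (fun _ => 1) v) atTop (𝓝 P))
    (hlt : thrP A l k p < P) : ∃ N C : ℕ, ∀ n : ℕ, N ≤ n → (n - 1) % 2 = p % 2 →
    ∃ t : RT, t.sz = n ∧ k ≤ t.lv ∧ k * (2 * t.dep) ≤ 2 * n + C ∧
      ∑ v, hv A t v < ∑ v, hv A (pt (n - 1)) v := by
  obtain ⟨Q, hQ1, hQ2⟩ := exists_between hlt
  obtain ⟨e, x, hx, he, hxQ⟩ := thrP_lt h hk hQ1
  obtain ⟨a, b, τ, ha, hpa, hτ, hε⟩ := realizeP h.lpos hx
  set D : ℝ := (Fintype.card V : ℝ) + 1 with hD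
  have hD0 : 0 < D := by positivity
  set ε : ℝ := (Q - ∑ v, x v) / D with hεd
  have hε0 : 0 < ε := div_pos (by linarith) hD0
  obtain ⟨m0, hm0⟩ := hε ε hε0
  obtain ⟨M, hM⟩ := Filter.eventually_atTop.1 (hP.eventually_const_lt hQ2)
  refine ⟨a + 2 * (k * m0) + 2 * M + p + 2, 2 * k * b + 4 * k, fun n hn hp => ?_⟩
  obtain ⟨L, hL1, hL2, hL3, hL4⟩ := exists_list hk ((n - a) / 2)
  obtain ⟨hsz, hlv, hdep⟩ := hτ L hL1
  have hsz' : (τ L).sz = n := by
    rw [hsz, hL2]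
    omega
  have hdiv : m0 ≤ (n - a) / 2 / k := by
    rw [Nat.le_div_iff_mul_le (by omega)]
    have h1 : m0 * k = k * m0 := mul_comm _ _
    omega
  refine ⟨τ L, hsz', hlv, ?_, ?_⟩
  · have h1 := hdep _ hL4
    have h2 : k * (2 * (τ L).dep) ≤ k * (2 * (b + 2 * ((n - a) / 2 / k + 1))) :=
      Nat.mul_le_mul_left _ (Nat.mul_le_mul_left _ h1)
    have h3 : k * ((n - a) / 2 / k) ≤ (n - a) / 2 := Nat.mul_div_le _ _
    have h4 : k * (2 * (b + 2 * ((n - a) / 2 / k + 1))) =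
        2 * k * b + 4 * k + 4 * (k * ((n - a) / 2 / k)) := by ring
    omega
  · have h1 := hm0 L hL1 (fun i hi => hdiv.trans (hL3 i hi))
    have h2 : ∑ v, vG A l (τ L) v < Q := by
      have h3 : ∑ v, vG A l (τ L) v ≤ ∑ v, (x v + ε) := Finset.sum_le_sum fun v _ => h1 v
      have h4 : ∑ v, (x v + ε) = ∑ v, x v + (Fintype.card V : ℝ) * ε := by
        rw [Finset.sum_add_distrib, Finset.sum_const, Finset.card_univ, nsmul_eq_mul]
      have h5 : D * ε = Q - ∑ v, x v := by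
        rw [hεd]
        field_simp
      have h6 : D * ε = (Fintype.card V : ℝ) * ε + ε := by
        rw [hD]
        ring
      linarith
    obtain ⟨m, hm⟩ : ∃ m, n - 1 = 2 * m + p := ⟨(n - 1 - p) / 2, by omega⟩
    have h3 := hM m (by omega)
    rw [← hm] at h3
    rw [sum_hvN h.lpos, sum_hvN h.lpos, vG_pt, sz_pt, hsz']
    have e1 : n - 1 + 1 - 1 = n - 1 := by omega
    rw [e1]
    exact mul_lt_mul_of_pos_left (h2.trans h3) (pow_pos h.lpos _)

/-- the same on `Fin n` (as in `SFin.spider_lt`; `rd_le_dep`) -/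
theorem spidersP (h : SD A l) {k p : ℕ} (hk : 1 ≤ k) {P : ℝ}
    (hP : Tendsto (fun m : ℕ => ∑ v, (bG A l)^[2 * m + p] (fun _ => 1) v) atTop (𝓝 P))
    (hlt : thrP A l k p < P) : ∃ N C : ℕ, ∀ n : ℕ, N ≤ n → (n - 1) % 2 = p % 2 →
    ∃ (d : ℕ) (T : SimpleGraph (Fin n)), T.IsTree ∧ (∀ a b, T.dist a b ≤ d) ∧
      k * d ≤ 2 * n + C ∧ hom T A < hom (SimpleGraph.pathGraph n) A := by
  obtain ⟨N, C, hN⟩ := spidersR h hk hP hlt
  refine ⟨N + 1, C, fun n hn hp => ?_⟩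
  obtain ⟨t, hsz, _, hd, hlt'⟩ := hN n (by omega) hp
  have hcard : Fintype.card t.V = n := by rw [RT.card_V, hsz]
  let e : Fin n ≃ t.V := (Fintype.equivFinOfCardEq hcard).symm
  let T : SimpleGraph (Fin n) := t.G.comap e
  have he : ∀ a b, t.G.Adj (e a) (e b) ↔ T.Adj a b := fun a b => Iff.rfl
  refine ⟨2 * t.dep, T, (isTree_congr e he).2 t.isTree, fun a b => ?_, hd, ?_⟩
  · rw [← dist_congr e he a b]
    exact (t.dist_le (e a) (e b)).trans (rd_le_dep t)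
  · rw [hom_congr A e he]
    have h2 := hom_path h.symm (n - 1)
    have hn1 : n - 1 + 1 = n := by omega
    rw [hn1] at h2
    have h3 : (hom t.G A : ℝ) < hom (SimpleGraph.pathGraph n) A := by
      rw [h2, hom_eq h.symm t]
      exact hlt'
    exact_mod_cast h3

end Pool.Agent.Lib.MP_dbb03c_co.Gen
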