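import Pool.Agent.Lib.MP_dbb03c_co.Gen.DSD
import Pool.Agent.Lib.MP_dbb03c_co.Gen.DUp
import Pool.Agent.Lib.MP_dbb03c_co.Gen.DLo
import Pool.Agent.Lib.MP_dbb03c_co.Gen.DdH

/-! # The threshold of an arbitrary target without coincidences -/

set_option autoImplicit false

namespace Pool.Agent.Lib.MP_dbb03c_co.Gen

open Filter Topology

variable {V : Type} [Fintype V] {A : V → V → Prop} {l : ℝ}

theorem upper_kP (h : SD A l) {k p : ℕ} (hk : 2 ≤ k) {P : ℝ}
    (hP : Tendsto (fun m : ℕ => ∑ v, (bG A l)^[2 * m + p] (fun _ => 1) v) atTop (𝓝 P))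
    (h1 : k = 2 ∨ thrP A l k p < P) :
    ∃ C : ℕ, ∀ n : ℕ, 3 ≤ n → (n - 1) % 2 = p % 2 → k * dH A n ≤ 2 * n + C := by
  rcases h1 with rfl | h1
  · refine ⟨0, fun n hn _ => ?_⟩
    have := dH_le (A := A) n
    omega
  · obtain ⟨N, C, hNC⟩ := spidersP h (by omega) hP h1
    refine ⟨k * N + C, fun n hn hp => ?_⟩
    rcases Nat.lt_or_ge n N with hnN | hnN
    · have h2 := dH_le (A := A) n
      have h3 : k * dH A n ≤ k * N := Nat.mul_le_mul_left _ (by omega)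
      omega
    · obtain ⟨d, T, hT, hd, hkd, hlt⟩ := hNC n hnN hp
      have h3 : dH A n ≤ d := by
        unfold dH
        rcases Set.eq_empty_or_nonempty {d | 2 ≤ d ∧ d ≤ n - 1 ∧ ∀ T : SimpleGraph (Fin n),
            T.IsTree → (∀ a b, T.dist a b ≤ d) →
            hom (SimpleGraph.pathGraph n) A ≤ hom T A} with h0 | h0
        · rw [h0, csSup_empty]
          exact Nat.zero_le _
        · refine csSup_le h0 fun d' hd' => ?_
          by_contra hcon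
          push Not at hcon
          have := hd'.2.2 T hT (fun a b => (hd a b).trans hcon.le)
          omega
      have h4 : k * dH A n ≤ k * d := Nat.mul_le_mul_left _ h3
      have h5 : 0 ≤ k * N := Nat.zero_le _
      omega

theorem lower_kP (h : SD A l) {k p : ℕ} (hk : 2 ≤ k) {P : ℝ} (hP0 : 0 < P)
    (hP : Tendsto (fun m : ℕ => ∑ v, (bG A l)^[2 * m + p] (fun _ => 1) v) atTop (𝓝 P))
    (h2 : ∀ j, k < j → P < thrP A l j p) :
    ∃ C : ℕ, ∀ n : ℕ, 3 ≤ n → (n - 1) % 2 = p % 2 → 2 * n ≤ k * dH A n + C := by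
  obtain ⟨C, hC⟩ := trees_geP h hP0 hP h2
  refine ⟨C + 3 * k + 1, fun n hn hp => ?_⟩
  have hb : BddAbove {d | 2 ≤ d ∧ d ≤ n - 1 ∧ ∀ T : SimpleGraph (Fin n), T.IsTree →
      (∀ a b, T.dist a b ≤ d) → hom (SimpleGraph.pathGraph n) A ≤ hom T A} :=
    ⟨n - 1, fun d hd => hd.2.1⟩
  rcases Nat.lt_or_ge (2 * n) (3 * k + C + 1) with hnk | hnk
  · omega
  · have hk0 : 0 < k := by omega
    obtain ⟨d, hdef⟩ : ∃ d, d = (2 * n - C - 2) / k := ⟨_, rfl⟩
    have hd1 : k * d ≤ 2 * n - C - 2 := hdef ▸ Nat.mul_div_le _ _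
    have hd2 : 2 * n - C - 2 < k * d + k := by
      have h3 := Nat.div_add_mod (2 * n - C - 2) k
      have h4 := Nat.mod_lt (2 * n - C - 2) hk0
      rw [hdef]
      calc 2 * n - C - 2 = k * ((2 * n - C - 2) / k) + (2 * n - C - 2) % k := h3.symm
        _ < k * ((2 * n - C - 2) / k) + k := Nat.add_lt_add_left h4 _
    have hd3 : 2 ≤ d := by
      by_contra hcon
      push Not at hcon
      have : k * d ≤ k * 1 := Nat.mul_le_mul_left _ (by omega)
      omega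
    have hd4 : d ≤ n - 1 := by
      by_contra hcon
      push Not at hcon
      have h5 : 2 * d ≤ k * d := Nat.mul_le_mul_right _ hk
      omega
    have hmem : d ∈ {d | 2 ≤ d ∧ d ≤ n - 1 ∧ ∀ T : SimpleGraph (Fin n), T.IsTree →
        (∀ a b, T.dist a b ≤ d) → hom (SimpleGraph.pathGraph n) A ≤ hom T A} :=
      ⟨hd3, hd4, fun T hT hD => hC n T hp hT d hD (by omega)⟩
    have h6 : d ≤ dH A n := le_csSup hb hmem
    have h7 : k * d ≤ k * dH A n := Nat.mul_le_mul_left _ h6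
    omega

/-- only finitely many threshold numbers are below the path (`spidersR`, `general`) -/
theorem thrP_big (h : SD A l) {p : ℕ} {P : ℝ}
    (hP : Tendsto (fun m : ℕ => ∑ v, (bG A l)^[2 * m + p] (fun _ => 1) v) atTop (𝓝 P)) :
    ∃ J : ℕ, ∀ j : ℕ, J ≤ j → P ≤ thrP A l j p := by
  obtain ⟨L, hL⟩ := general (V := V) h.symm
  refine ⟨L + 1, fun j hj => ?_⟩
  by_contra hcon
  push Not at hcon
  obtain ⟨N, C, hN⟩ := spidersR h (by omega : 1 ≤ j) hP hcon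
  obtain ⟨t, hsz, hlv, _, hlt⟩ := hN (2 * N + p + 1) (by omega) (by omega)
  have h1 := hL t (by omega)
  rw [hsz] at h1
  linarith

theorem exists_kP (h : SD A l) {p : ℕ} {P : ℝ}
    (hP : Tendsto (fun m : ℕ => ∑ v, (bG A l)^[2 * m + p] (fun _ => 1) v) atTop (𝓝 P))
    (h3 : ∀ j, 3 ≤ j → thrP A l j p ≠ P) :
    ∃ k, 2 ≤ k ∧ (k = 2 ∨ thrP A l k p < P) ∧ ∀ j, k < j → P < thrP A l j p := by
  classical
  obtain ⟨J, hJ⟩ := thrP_big h hP
  let S : Finset ℕ := (Finset.range (J + 3)).filter fun j =>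
    j = 2 ∨ (3 ≤ j ∧ thrP A l j p < P)
  have h2S : 2 ∈ S := Finset.mem_filter.2 ⟨Finset.mem_range.2 (by omega), Or.inl rfl⟩
  have hne : S.Nonempty := ⟨2, h2S⟩
  refine ⟨S.max' hne, S.le_max' 2 h2S, ?_, fun j hj => ?_⟩
  · have := (Finset.mem_filter.1 (S.max'_mem hne)).2
    rcases this with h4 | ⟨_, h4⟩
    · exact Or.inl h4
    · exact Or.inr h4
  · have h5 : 2 ≤ S.max' hne := S.le_max' 2 h2S
    have h6 : 3 ≤ j := by omega
    rcases lt_trichotomy (thrP A l j p) P with h7 | h7 | h7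
    · exfalso
      rcases Nat.lt_or_ge j (J + 3) with h8 | h8
      · have : j ∈ S := Finset.mem_filter.2 ⟨Finset.mem_range.2 h8, Or.inr ⟨h6, h7⟩⟩
        have := S.le_max' j this
        omega
      · have := hJ j (by omega)
        linarith
    · exact absurd h7 (h3 j h6)
    · exact h7

theorem structure_all (hA : ∀ a b, A a b → A b a) (hE : ∃ a b, A a b) :
    ∃ (l : ℝ) (P : ℕ → ℝ), 0 < l ∧ (∀ p, 0 < P p) ∧
      (∀ p, Tendsto (fun m : ℕ => (hom (SimpleGraph.pathGraph (2 * m + p + 1)) A : ℝ) /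
        l ^ (2 * m + p)) atTop (𝓝 (P p))) ∧
      ∀ p, (∀ j, 3 ≤ j → thrP A l j p ≠ P p) →
        ∃ k, 2 ≤ k ∧ (k = 2 ∨ thrP A l k p < P p) ∧ (∀ j, k < j → P p < thrP A l j p) ∧
          ∃ C : ℕ, ∀ n : ℕ, 3 ≤ n → (n - 1) % 2 = p % 2 →
            k * dH A n ≤ 2 * n + C ∧ 2 * n ≤ k * dH A n + C := by
  obtain ⟨l, h⟩ := exists_SD hA hE
  obtain ⟨P, hP⟩ := exists_P h
  refine ⟨l, P, h.lpos, fun p => (hP p).1, fun p => ?_, fun p h3 => ?_⟩
  · refine (hP p).2.congr fun m => ?_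
    rw [hom_path hA, sum_hvN h.lpos, sz_pt, vG_pt, Nat.add_sub_cancel,
      mul_div_cancel_left₀ _ (pow_pos h.lpos _).ne']
  · obtain ⟨k, hk, h1, h2⟩ := exists_kP h (hP p).2 h3
    obtain ⟨C1, hC1⟩ := upper_kP h hk (hP p).2 h1
    obtain ⟨C2, hC2⟩ := lower_kP h hk (hP p).1 (hP p).2 h2
    refine ⟨k, hk, h1, h2, C1 + C2, fun n hn hp => ⟨?_, ?_⟩⟩
    · have := hC1 n hn hp
      omega
    · have := hC2 n hn hp
      omega

end Pool.Agent.Lib.MP_dbb03c_co.Gen
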