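import Pool.Agent.Lib.MP_dbb03c_co.Gen.DDef

/-! # Limits of the powers of fixed parity -/

set_option autoImplicit false

namespace Pool.Agent.Lib.MP_dbb03c_co.Gen

open Filter Topology

variable {V : Type} [Fintype V] {A : V → V → Prop} {l : ℝ}

theorem limV_unique {s : ℕ} {y z z' : V → ℝ} (h : limV A l s y z) (h' : limV A l s y z') :
    z = z' := by
  funext v
  exact tendsto_nhds_unique (h v) (h' v)

theorem limV_nonneg (hl : 0 < l) {s : ℕ} {y z : V → ℝ} (hy : ∀ v, 0 ≤ y v)
    (h : limV A l s y z) (v : V) : 0 ≤ z v :=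
  ge_of_tendsto' (h v) (fun _ => itN_nonneg hl _ hy v)

/-- only the parity of `s` matters -/
theorem limV_parity {s s' : ℕ} (hs : s % 2 = s' % 2) {y z : V → ℝ} (h : limV A l s y z) :
    limV A l s' y z := by
  intro v
  rcases le_total s s' with hle | hle
  · obtain ⟨d, hd⟩ : ∃ d, s' = s + 2 * d := ⟨(s' - s) / 2, by omega⟩
    have h1 := (tendsto_add_atTop_iff_nat d).2 (h v)
    refine h1.congr fun m => ?_
    rw [hd, show 2 * (m + d) + s = 2 * m + (s + 2 * d) by ring]
  · obtain ⟨d, hd⟩ : ∃ d, s = s' + 2 * d := ⟨(s - s') / 2, by omega⟩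
    refine (tendsto_add_atTop_iff_nat d).1 ((h v).congr fun m => ?_)
    rw [hd, show 2 * m + (s' + 2 * d) = 2 * (m + d) + s' by ring]

private theorem itN_fix {φ : V → ℝ} (h : bG A l φ = φ) (n : ℕ) : (bG A l)^[n] φ = φ := by
  induction n with
  | zero => rfl
  | succ n ih => rw [Function.iterate_succ_apply', ih, h]

/-- The limiting weight of the path: `1 ≥ c * φ`, so `bG^[n] 1 ≥ c * φ` for the nonnegative eigenvector. -/
theorem exists_P (h : SD A l) : ∃ P : ℕ → ℝ, ∀ p, 0 < P p ∧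
    Tendsto (fun m : ℕ => ∑ v, (bG A l)^[2 * m + p] (fun _ => 1) v) atTop (𝓝 (P p)) := by
  choose z hz using fun p => h.lim p (fun _ => (1 : ℝ))
  refine ⟨fun p => ∑ v, z p v, fun p => ⟨?_, ?_⟩⟩
  · obtain ⟨φ, hφ0, ⟨v0, hv0⟩, hφ⟩ := h.vec
    set S : ℝ := ∑ v, φ v with hS
    have hle : ∀ v, φ v ≤ S := fun v =>
      Finset.single_le_sum (f := φ) (fun i _ => hφ0 i) (Finset.mem_univ v)
    have hS0 : 0 < S := lt_of_lt_of_le hv0 (hle v0)
    have h1 : ∀ v, (S⁻¹ • φ) v ≤ (fun _ => (1 : ℝ)) v := by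
      intro v
      simp only [Pi.smul_apply, smul_eq_mul]
      rw [inv_mul_le_iff₀ hS0, mul_one]
      exact hle v
    have h2 : ∀ v, S⁻¹ * φ v ≤ z p v := by
      intro v
      refine ge_of_tendsto' (hz p v) (fun m => ?_)
      have h3 := itN_mono (A := A) h.lpos (2 * m + p) h1 v
      rw [itG_smul, itN_fix hφ] at h3
      exact h3
    have h3 : ∑ v, S⁻¹ * φ v ≤ ∑ v, z p v := Finset.sum_le_sum fun v _ => h2 v
    rw [← Finset.mul_sum, ← hS, inv_mul_cancel₀ hS0.ne'] at h3
    linarith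
  · exact tendsto_finsetSum _ (fun v _ => hz p v)

private theorem itN_sum {ι : Type} (n : ℕ) (s : Finset ι) (f : ι → V → ℝ) :
    (bG A l)^[n] (∑ i ∈ s, f i) = ∑ i ∈ s, (bG A l)^[n] (f i) := by
  classical
  induction s using Finset.induction_on with
  | empty =>
    have h := itG_smul (A := A) (l := l) n 0 (0 : V → ℝ)
    rw [zero_smul, zero_smul] at h
    simpa using h
  | insert a s ha ih => rw [Finset.sum_insert ha, Finset.sum_insert ha, itG_add, ih]

private theorem itN_expand [DecidableEq V] (n : ℕ) (y : V → ℝ) (v : V) :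
    (bG A l)^[n] y v = ∑ w, y w * (bG A l)^[n] (Pi.single w 1) v := by
  have h1 : y = ∑ w, y w • (Pi.single w 1 : V → ℝ) := by
    funext u
    simp [Finset.sum_apply, Pi.single_apply]
  conv_lhs => rw [h1]
  rw [itN_sum, Finset.sum_apply]
  refine Finset.sum_congr rfl fun w _ => ?_
  rw [itG_smul]
  rfl

/-- Cutting a long bare path: `bG^[m] y = ∑ w, y w • bG^[m] (indicator of w)`, and the limit vector `z`
is the corresponding combination of the limits `z_w`; for each of the finitely many `(s, v, w)` with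
`z_w v > 0` one has `bG^[m] (indicator of w) v ≥ c * z_w v` for all large `m ≡ s`. -/
theorem cut (h : SD A l) {c : ℝ} (hc0 : 0 ≤ c) (hc : c < 1) : ∃ M0 : ℕ, 1 ≤ M0 ∧ ∀ m, M0 ≤ m →
    ∀ y z : V → ℝ, (∀ v, 0 ≤ y v) → limV A l m y z → ∀ v, c * z v ≤ (bG A l)^[m] y v := by
  classical
  choose zz hzz using fun (s : ℕ) (w : V) => h.lim s (Pi.single w 1)
  have hpos : ∀ w : V, ∀ u, 0 ≤ (Pi.single w 1 : V → ℝ) u := by
    intro w u
    rw [Pi.single_apply]
    split_ifs <;> norm_num
  have hev : ∀ (s : Fin 2) (w v : V), ∀ᶠ m : ℕ in atTop,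
      c * zz s w v ≤ (bG A l)^[2 * m + s] (Pi.single w 1) v := by
    intro s w v
    have hz0 := limV_nonneg h.lpos (hpos w) (hzz s w) v
    rcases hz0.eq_or_lt with h0 | h0
    · refine Eventually.of_forall fun m => ?_
      rw [← h0, mul_zero]
      exact itN_nonneg h.lpos _ (hpos w) v
    · have h1 : c * zz s w v < zz s w v := by nlinarith
      exact ((hzz s w v).eventually (lt_mem_nhds h1)).mono fun m hm => hm.le
  have hev' : ∀ᶠ m : ℕ in atTop, ∀ (s : Fin 2) (w v : V),
      c * zz s w v ≤ (bG A l)^[2 * m + s] (Pi.single w 1) v := by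
    rw [eventually_all]
    intro s
    rw [eventually_all]
    intro w
    rw [eventually_all]
    intro v
    exact hev s w v
  obtain ⟨M1, hM1⟩ := eventually_atTop.1 hev'
  refine ⟨2 * M1 + 2, by omega, fun m hm y z hy hlim v => ?_⟩
  set s : Fin 2 := ⟨m % 2, Nat.mod_lt _ (by norm_num)⟩ with hs
  have hm2 : 2 * (m / 2) + (s : ℕ) = m := by
    show 2 * (m / 2) + m % 2 = m
    omega
  have hlim' : limV A l (s : ℕ) y z := limV_parity (by show m % 2 = m % 2 % 2; omega) hlim
  have hz : z v = ∑ w, y w * zz s w v := by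
    have h1 : Tendsto (fun n : ℕ => ∑ w, y w * (bG A l)^[2 * n + s] (Pi.single w 1) v) atTop
        (𝓝 (∑ w, y w * zz s w v)) :=
      tendsto_finsetSum _ fun w _ => (hzz s w v).const_mul _
    refine tendsto_nhds_unique ((hlim' v).congr fun n => ?_) h1
    exact itN_expand _ y v
  rw [hz, Finset.mul_sum, itN_expand m y v]
  refine Finset.sum_le_sum fun w _ => ?_
  have h2 := hM1 (m / 2) (by omega) s w v
  rw [hm2] at h2
  have h3 := mul_le_mul_of_nonneg_left h2 (hy w)
  linarith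

end Pool.Agent.Lib.MP_dbb03c_co.Gen
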