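import Pool.Agent.Lib.MP_dbb03c_co.Gen.DMV
import Pool.Agent.Lib.MP_dbb03c_co.Gen.CBt

/-! # Lower bound for the vector of a tree with few leaves by the vector of a hub with long legs -/

set_option autoImplicit false

namespace Pool.Agent.Lib.MP_dbb03c_co.Gen

variable {V : Type} [Fintype V] {A : V → V → Prop} {l : ℝ}

private theorem lv_posP {t : RT} (ht : t ≠ RT.one) : 1 ≤ t.lv := by
  cases t with
  | one => exact absurd rfl ht
  | gr s t =>
    have : 1 ≤ max 1 t.lv := le_max_left _ _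
    simp only [RT.lv]
    omega

private theorem MVp_it {k e : ℕ} {x : V → ℝ} (hx : MVp A l k e x) (j : ℕ) :
    MVp A l k (e + j) ((bG A l)^[j] x) := by
  induction j with
  | zero => exact hx
  | succ j ih =>
    rw [Function.iterate_succ_apply']
    exact MVp.step ih

private theorem it_lowP (h : SD A l) {c : ℝ} {x y : V → ℝ} (hxy : ∀ v, c * x v ≤ y v) (j : ℕ)
    (v : V) : c * (bG A l)^[j] x v ≤ (bG A l)^[j] y v := by
  have h1 := itN_mono (A := A) h.lpos j (x := c • x) (y := y) (fun v => by simpa using hxy v) v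
  rw [itG_smul] at h1
  simpa using h1

/-- cut a bare path above the root -/
private theorem path_lowP (h : SD A l) {c : ℝ} {M0 : ℕ}
    (hM : ∀ m, M0 ≤ m → ∀ y z : V → ℝ, (∀ v, 0 ≤ y v) → limV A l m y z →
      ∀ v, c * z v ≤ (bG A l)^[m] y v) (t : RT)
    (j : ℕ) (hj : M0 ≤ j) : ∃ e x, MVp A l 1 e x ∧
      e % 2 = (t.sz - 1 + j) % 2 ∧ ∀ v, c * x v ≤ (bG A l)^[j] (vG A l t) v := by
  obtain ⟨z, hz⟩ := h.lim j (vG A l t)
  exact ⟨t.sz - 1 + j, z, MVp.leg (tree_MVp t) hz, rfl,
    hM j hj _ _ (vN_nonneg h.lpos t) hz⟩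

/-- one step of the cutting argument -/
private theorem gr_lowP (h : SD A l) {c : ℝ} (s t : RT)
    (hst : (∃ e x, MVp A l 1 e x ∧ e % 2 = t.sz % 2 ∧ ∀ v, c * x v ≤ bG A l (vG A l t) v) ∨
      (∃ e x, MVp A l 1 e x ∧ e % 2 = (s.sz - 1) % 2 ∧ ∀ v, c * x v ≤ vG A l s v)) :
    ∃ e x, MVp A l 1 e x ∧ e % 2 = ((RT.gr s t).sz - 1) % 2 ∧
      ∀ v, c * x v ≤ vG A l (RT.gr s t) v := by
  have hs := RT.sz_pos s
  have ht := RT.sz_pos t
  rcases hst with ⟨e, x, hx, he, hxy⟩ | ⟨e, x, hx, he, hxy⟩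
  · refine ⟨(s.sz - 1) + e, vG A l s * x, ?_, ?_, fun v => ?_⟩
    · have h4 : MVp A l (0 + 1) ((s.sz - 1) + e) (vG A l s * x) := MVp.mul (tree_MVp s) hx
      simpa using h4
    · simp only [RT.sz]
      omega
    · have h1 : vG A l (RT.gr s t) v = vG A l s v * bG A l (vG A l t) v := rfl
      rw [h1, Pi.mul_apply]
      have h2 := mul_le_mul_of_nonneg_left (hxy v) (vN_nonneg (A := A) h.lpos s v)
      nlinarith [h2]
  · refine ⟨e + ((t.sz - 1) + 1), x * bG A l (vG A l t), ?_, ?_, fun v => ?_⟩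
    · have h4 : MVp A l (1 + 0) (e + ((t.sz - 1) + 1)) (x * bG A l (vG A l t)) :=
        MVp.mul hx (MVp.step (tree_MVp t))
      exact h4
    · simp only [RT.sz]
      omega
    · have h1 : vG A l (RT.gr s t) v = vG A l s v * bG A l (vG A l t) v := rfl
      rw [h1, Pi.mul_apply]
      have h2 := mul_le_mul_of_nonneg_right (hxy v)
        (bN_nonneg (A := A) h.lpos (vN_nonneg (A := A) h.lpos t) v)
      nlinarith [h2]

/-- A deep branch contains a bare path of length `M0`, which can be cut. Both claims together by induction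
on `t`. First claim, `M0 ≤ j`: `leg` for `vG t` and the parity `j` (`hM`, `tree_MVp`, `h.lim`). If `j < M0`
then `t = gr s t'`. If `s = one` use the first claim for `t'`, `j + 1`.
If `s ≠ one` then `1 ≤ s.lv`; if `s.dep ≤ t'.dep + 1` use the first claim for `t'` and `j = 1`, otherwise
the second claim for `s`; multiply and apply `bG^[j]`. The second claim in the same way. -/
theorem branch_lowP (h : SD A l) {c : ℝ} (hc0 : 0 ≤ c) {M0 : ℕ} (hM0 : 1 ≤ M0)
    (hM : ∀ m, M0 ≤ m → ∀ y z : V → ℝ, (∀ v, 0 ≤ y v) → limV A l m y z →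
      ∀ v, c * z v ≤ (bG A l)^[m] y v) (t : RT) :
    (∀ j, 1 ≤ j → M0 * max 1 t.lv ≤ t.dep + j → ∃ e x, MVp A l 1 e x ∧
      e % 2 = (t.sz - 1 + j) % 2 ∧ ∀ v, c * x v ≤ (bG A l)^[j] (vG A l t) v) ∧
    (1 ≤ t.lv → M0 * t.lv ≤ t.dep → ∃ e x, MVp A l 1 e x ∧
      e % 2 = (t.sz - 1) % 2 ∧ ∀ v, c * x v ≤ vG A l t v) := by
  induction t with
  | one =>
    refine ⟨fun j hj1 hj => path_lowP h hM _ j ?_, fun h1 => ?_⟩
    · simpa [RT.lv, RT.dep] using hj
    · simp [RT.lv] at h1
  | gr s t ihs iht =>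
    have iht1 := iht.1
    have ihs2 := ihs.2
    have hsz := RT.sz_pos s
    have htz := RT.sz_pos t
    have hm1 : 1 ≤ max 1 t.lv := le_max_left _ _
    have hmt : M0 ≤ M0 * max 1 t.lv := Nat.le_mul_of_pos_right _ hm1
    constructor
    · intro j hj1 hj
      rcases Nat.lt_or_ge j M0 with hjM | hjM
      · simp only [RT.lv, RT.dep] at hj
        have hmx : max 1 (s.lv + max 1 t.lv) = s.lv + max 1 t.lv := max_eq_right (by omega)
        rw [hmx, Nat.mul_add] at hj
        by_cases hs : s = RT.one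
        · subst hs
          simp only [RT.lv, RT.dep, Nat.mul_zero, Nat.zero_add, Nat.zero_max] at hj
          obtain ⟨e, x, hx, he, hxy⟩ := iht1 (j + 1) (by omega) (by omega)
          refine ⟨e, x, hx, ?_, fun v => ?_⟩
          · simp only [RT.sz]
            omega
          · have e : vG A l (RT.gr RT.one t) = bG A l (vG A l t) := by
              funext w
              simp [vG]
            rw [e, ← Function.iterate_succ_apply]
            exact hxy v
        · have hs1 := lv_posP hs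
          have hms : M0 ≤ M0 * s.lv := Nat.le_mul_of_pos_right _ hs1
          have hst : (∃ e x, MVp A l 1 e x ∧ e % 2 = t.sz % 2 ∧
                ∀ v, c * x v ≤ bG A l (vG A l t) v) ∨
              (∃ e x, MVp A l 1 e x ∧ e % 2 = (s.sz - 1) % 2 ∧ ∀ v, c * x v ≤ vG A l s v) := by
            rcases Nat.lt_or_ge (t.dep + 1) s.dep with hd | hd
            · rw [max_eq_left hd.le] at hj
              exact Or.inr (ihs2 hs1 (by omega))
            · rw [max_eq_right hd] at hj
              obtain ⟨e, x, hx, he, hxy⟩ := iht1 1 le_rfl (by omega)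
              exact Or.inl ⟨e, x, hx, by omega, hxy⟩
          obtain ⟨e, x, hx, he, hxy⟩ := gr_lowP h s t hst
          exact ⟨e + j, (bG A l)^[j] x, MVp_it hx j, by omega, it_lowP h hxy j⟩
      · exact path_lowP h hM _ j hjM
    · intro hl hd0
      simp only [RT.lv, RT.dep] at hd0
      rw [Nat.mul_add] at hd0
      refine gr_lowP h s t ?_
      by_cases hs : s = RT.one
      · subst hs
        simp only [RT.lv, RT.dep, Nat.mul_zero, Nat.zero_add, Nat.zero_max] at hd0
        obtain ⟨e, x, hx, he, hxy⟩ := iht1 1 le_rfl (by omega)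
        exact Or.inl ⟨e, x, hx, by omega, hxy⟩
      · have hs1 := lv_posP hs
        rcases Nat.lt_or_ge (t.dep + 1) s.dep with hd | hd
        · rw [max_eq_left hd.le] at hd0
          exact Or.inr (ihs2 hs1 (by omega))
        · rw [max_eq_right hd] at hd0
          obtain ⟨e, x, hx, he, hxy⟩ := iht1 1 le_rfl (by omega)
          exact Or.inl ⟨e, x, hx, by omega, hxy⟩

/-- induction on `t`, using the first claim of `branch_lowP` with `j = 1` for deep branches without a
deeper branch; `K = M0 * L` -/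
theorem tree_lowP (h : SD A l) {c : ℝ} (hc0 : 0 ≤ c) {M0 : ℕ} (hM0 : 1 ≤ M0)
    (hM : ∀ m, M0 ≤ m → ∀ y z : V → ℝ, (∀ v, 0 ≤ y v) → limV A l m y z →
      ∀ v, c * z v ≤ (bG A l)^[m] y v)
    (L : ℕ) (hL : 1 ≤ L) (t : RT) (ht : t.lv ≤ L) :
    ∃ e x, MVp A l (BtK (M0 * L) t) e x ∧ e % 2 = (t.sz - 1) % 2 ∧
      ∀ v, c ^ (BtK (M0 * L) t) * x v ≤ vG A l t v := by
  induction t with
  | one =>
    refine ⟨0, fun _ => 1, MVp.one, rfl, fun v => ?_⟩
    simp [BtK, vG]
  | gr s t ihs iht =>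
    have hsz := RT.sz_pos s
    have htz := RT.sz_pos t
    simp only [RT.lv] at ht
    have hm1 : 1 ≤ max 1 t.lv := le_max_left _ _
    have hm2 : t.lv ≤ max 1 t.lv := le_max_right _ _
    obtain ⟨e, x, hx, he, hxy⟩ := ihs (by omega)
    have hxp : ∀ v, 0 ≤ x v := fun v => MVp.nonneg h.lpos hx v
    have main : ∃ f y, MVp A l (max (BtK (M0 * L) t) (if M0 * L ≤ t.dep then 1 else 0)) f y ∧
        f % 2 = t.sz % 2 ∧
        ∀ v, c ^ (max (BtK (M0 * L) t) (if M0 * L ≤ t.dep then 1 else 0)) * y v ≤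
          bG A l (vG A l t) v := by
      by_cases hb : BtK (M0 * L) t = 0 ∧ M0 * L ≤ t.dep
      · have e : max (BtK (M0 * L) t) (if M0 * L ≤ t.dep then 1 else 0) = 1 := by
          rw [hb.1, if_pos hb.2]
          rfl
        rw [e]
        have h3 : M0 * max 1 t.lv ≤ M0 * L := Nat.mul_le_mul_left _ (by omega)
        obtain ⟨f, y, hy, hf, hyy⟩ := (branch_lowP h hc0 hM0 hM t).1 1 le_rfl (by omega)
        refine ⟨f, y, hy, by omega, fun v => ?_⟩
        rw [pow_one]
        exact hyy v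
      · have e : max (BtK (M0 * L) t) (if M0 * L ≤ t.dep then 1 else 0) = BtK (M0 * L) t := by
          split_ifs with h5
          · have : BtK (M0 * L) t ≠ 0 := fun h6 => hb ⟨h6, h5⟩
            exact max_eq_left (by omega)
          · exact max_eq_left (by omega)
        rw [e]
        obtain ⟨f, y, hy, hf, hyy⟩ := iht (by omega)
        refine ⟨f + 1, bG A l y, MVp.step hy, by omega, fun v => ?_⟩
        exact it_lowP h hyy 1 v
    obtain ⟨f, y, hy, hf, hyy⟩ := main
    refine ⟨e + f, x * y, MVp.mul hx hy, ?_, fun v => ?_⟩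
    · simp only [RT.sz]
      omega
    have h1 : vG A l (RT.gr s t) v = vG A l s v * bG A l (vG A l t) v := rfl
    have h2 : BtK (M0 * L) (RT.gr s t) =
        BtK (M0 * L) s + max (BtK (M0 * L) t) (if M0 * L ≤ t.dep then 1 else 0) := rfl
    rw [h1, h2, pow_add, Pi.mul_apply]
    have h3 := mul_le_mul (hxy v) (hyy v)
      (mul_nonneg (pow_nonneg hc0 _) (MVp.nonneg h.lpos hy v)) (vN_nonneg h.lpos s v)
    calc _ = (c ^ BtK (M0 * L) s * x v) *
          (c ^ (max (BtK (M0 * L) t) (if M0 * L ≤ t.dep then 1 else 0)) * y v) := by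
          ring
      _ ≤ _ := h3

end Pool.Agent.Lib.MP_dbb03c_co.Gen
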