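import Pool.Agent.Lib.MP_dbb03c_co.Gen.DLim
import Pool.Agent.Lib.MP_dbb03c_co.Gen.CMV

/-! # Basic facts on the vectors `MVp` and the threshold numbers -/

set_option autoImplicit false

namespace Pool.Agent.Lib.MP_dbb03c_co.Gen

variable {V : Type} [Fintype V] {A : V → V → Prop} {l : ℝ}

theorem MVp.nonneg (hl : 0 < l) {k e : ℕ} {x : V → ℝ} (hx : MVp A l k e x) (v : V) :
    0 ≤ x v := by
  induction hx generalizing v with
  | one => exact zero_le_one
  | leg _ hz ih => exact limV_nonneg hl ih hz v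
  | mul _ _ iha ihb => exact mul_nonneg (iha v) (ihb v)
  | step _ ih => exact bN_nonneg hl ih v

theorem tree_MVp (t : RT) : MVp A l 0 (t.sz - 1) (vG A l t) := by
  induction t with
  | one => exact MVp.one
  | gr s t ihs iht =>
    have h1 := RT.sz_pos s
    have h2 := RT.sz_pos t
    have e : (RT.gr s t).sz - 1 = (s.sz - 1) + ((t.sz - 1) + 1) := by
      simp only [RT.sz]
      omega
    rw [e]
    exact MVp.mul ihs (MVp.step iht)

private theorem MVp_tree_aux {k e : ℕ} {x : V → ℝ} (hx : MVp A l k e x) :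
    k = 0 → ∃ t : RT, vG A l t = x ∧ t.sz = e + 1 := by
  induction hx with
  | one => exact fun _ => ⟨RT.one, rfl, rfl⟩
  | leg => exact fun h => absurd h one_ne_zero
  | mul _ _ iha ihb =>
    intro h
    obtain ⟨s, hs, hs'⟩ := iha (by omega)
    obtain ⟨t, ht, ht'⟩ := ihb (by omega)
    refine ⟨mrg s t, by rw [mrg_vG, hs, ht], ?_⟩
    have := mrg_sz s t
    omega
  | step _ ih =>
    intro h
    obtain ⟨t, ht, ht'⟩ := ih h
    refine ⟨RT.gr RT.one t, ?_, ?_⟩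
    · funext v
      simp [vG, bG, ht]
    · simp only [RT.sz]
      omega

/-- induction on `MVp` for all `k` with `k = 0` (`mul`: `mrg`, `step`: `gr one _`) -/
theorem MVp_tree {e : ℕ} {x : V → ℝ} (hx : MVp A l 0 e x) :
    ∃ t : RT, vG A l t = x ∧ t.sz = e + 1 :=
  MVp_tree_aux hx rfl

theorem thrP_le (hl : 0 < l) {k e p : ℕ} {x : V → ℝ} (hx : MVp A l k e x)
    (hp : e % 2 = p % 2) : thrP A l k p ≤ ∑ v, x v := by
  refine csInf_le ⟨0, ?_⟩ ⟨e, x, hx, hp, rfl⟩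
  rintro _ ⟨f, y, hy, _, rfl⟩
  exact Finset.sum_nonneg fun v _ => hy.nonneg hl v

private theorem exists_legs (h : SD A l) (k : ℕ) : ∃ x, MVp A l k 0 x := by
  induction k with
  | zero => exact ⟨_, MVp.one⟩
  | succ k ih =>
    obtain ⟨x, hx⟩ := ih
    obtain ⟨z, hz⟩ := h.lim 0 (fun _ => 1)
    exact ⟨_, MVp.mul hx (MVp.leg MVp.one hz)⟩

/-- the set is not empty (`k` legs of suitable parities which end at single vertices) -/
theorem thrP_lt (h : SD A l) {k p : ℕ} (hk : 1 ≤ k) {Q : ℝ} (hQ : thrP A l k p < Q) :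
    ∃ (e : ℕ) (x : V → ℝ), MVp A l k e x ∧ e % 2 = p % 2 ∧ ∑ v, x v < Q := by
  obtain ⟨j, rfl⟩ : ∃ j, k = j + 1 := ⟨k - 1, by omega⟩
  obtain ⟨x0, hx0⟩ := exists_legs h j
  obtain ⟨z, hz⟩ := h.lim p (fun _ => 1)
  have h1 : MVp A l (j + 1) (0 + (0 + p)) (x0 * z) := MVp.mul hx0 (MVp.leg MVp.one hz)
  have hne : {s | ∃ (e : ℕ) (x : V → ℝ), MVp A l (j + 1) e x ∧ e % 2 = p % 2 ∧
      s = ∑ v, x v}.Nonempty := ⟨_, _, _, h1, by rw [zero_add, zero_add], rfl⟩
  obtain ⟨_, ⟨e, x, hx, he, rfl⟩, hlt⟩ := exists_lt_of_csInf_lt hne hQ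
  exact ⟨e, x, hx, he, hlt⟩

end Pool.Agent.Lib.MP_dbb03c_co.Gen
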