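import Pool.Agent.Lib.MP_dbb03c_co.Gen.DMV
import Pool.Agent.Lib.MP_dbb03c_co.Gen.CReal

/-! # Realisation of a hub with long legs by finite trees -/

set_option autoImplicit false

namespace Pool.Agent.Lib.MP_dbb03c_co.Gen

variable {V : Type} [Fintype V] {A : V → V → Prop} {l : ℝ}

private theorem vG_gr_one' (t : RT) : vG A l (RT.gr RT.one t) = bG A l (vG A l t) := by
  have h1 : vG A l (RT.gr RT.one t) = vG A l RT.one * bG A l (vG A l t) := rfl
  rw [h1]
  funext i
  simp [vG]

private theorem bound_nonneg {x : V → ℝ} (hx : ∀ v, 0 ≤ x v) :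
    ∃ C : ℝ, 0 < C ∧ ∀ v, x v ≤ C := by
  refine ⟨∑ v, x v + 1, ?_, fun v => ?_⟩
  · have := Finset.sum_nonneg fun v (_ : v ∈ Finset.univ) => hx v
    linarith
  · have := Finset.single_le_sum (f := x) (fun v _ => hx v) (Finset.mem_univ v)
    linarith

/-- Induction on `MVp`: `one`: `τ [] = one`; `leg`: `t0` from `MVp_tree`,
`τ [m] = gr one (legT t0 (2 * m + s + 1))`, with vector `bG^[2 * (m + 1) + s] (vG t0)`; `mul`:
`τ L = mrg (τ₁ (L.take a)) (τ₂ (L.drop a))`; `step`: `gr one (τ L)`. -/
theorem realizeP (hl : 0 < l) {k e : ℕ} {x : V → ℝ} (hx : MVp A l k e x) :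
    ∃ (a b : ℕ) (τ : List ℕ → RT), 1 ≤ a ∧ (a - 1) % 2 = e % 2 ∧
      (∀ L : List ℕ, L.length = k → (τ L).sz = a + 2 * L.sum ∧ k ≤ (τ L).lv ∧
        ∀ m, (∀ i ∈ L, i ≤ m) → (τ L).dep ≤ b + 2 * m) ∧
      ∀ ε : ℝ, 0 < ε → ∃ m0 : ℕ, ∀ L : List ℕ, L.length = k → (∀ i ∈ L, m0 ≤ i) →
        ∀ v, vG A l (τ L) v ≤ x v + ε := by
  induction hx with
  | one =>
    refine ⟨1, 0, fun _ => RT.one, le_rfl, rfl, ?_, ?_⟩
    · intro L hL
      rw [List.length_eq_zero_iff] at hL
      subst hL
      refine ⟨rfl, Nat.zero_le _, fun m _ => ?_⟩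
      simp [RT.dep]
    · intro ε hε
      refine ⟨0, fun L _ _ v => ?_⟩
      have : vG A l RT.one v = 1 := rfl
      rw [this]
      linarith
  | @leg e s y z hy hz ih =>
    obtain ⟨t0, ht0, hsz0⟩ := MVp_tree hy
    refine ⟨e + s + 3, s + 2 + t0.dep,
      fun L => RT.gr RT.one (legT t0 (2 * L.sum + s + 1)), by omega, by omega, ?_, ?_⟩
    · intro L hL
      rw [List.length_eq_one_iff] at hL
      obtain ⟨m, rfl⟩ := hL
      refine ⟨?_, ?_, fun m' hm' => ?_⟩
      · simp only [RT.sz, legT_sz, List.sum_singleton]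
        omega
      · simp only [RT.lv]
        omega
      · have := hm' m (by simp)
        simp only [RT.dep, legT_dep, List.sum_singleton]
        omega
    · intro ε hε
      have h1 : ∀ v, ∀ᶠ m : ℕ in Filter.atTop, (bG A l)^[2 * m + s] y v < z v + ε := fun v =>
        (hz v).eventually_lt_const (by linarith)
      have h2 : ∀ᶠ m : ℕ in Filter.atTop, ∀ v, (bG A l)^[2 * m + s] y v < z v + ε :=
        Filter.eventually_all.2 h1
      obtain ⟨M0, hM0⟩ := Filter.eventually_atTop.1 h2
      refine ⟨M0, fun L hL hm v => ?_⟩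
      rw [List.length_eq_one_iff] at hL
      obtain ⟨m, rfl⟩ := hL
      have hmm := hm m (by simp)
      have h3 := (hM0 (m + 1) (by omega) v).le
      have e1 : 2 * (m + 1) + s = (2 * m + s + 1) + 1 := by ring
      rw [e1, Function.iterate_succ_apply'] at h3
      rw [vG_gr_one', legT_vG, List.sum_singleton, ht0]
      exact h3
  | @mul a b e f x y hx hy ihx ihy =>
    obtain ⟨a1, b1, τ1, ha1, hp1, hτ1, hε1⟩ := ihx
    obtain ⟨a2, b2, τ2, ha2, hp2, hτ2, hε2⟩ := ihy
    refine ⟨a1 + a2 - 1, max b1 b2, fun L => mrg (τ1 (L.take a)) (τ2 (L.drop a)), by omega,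
      by omega, ?_, ?_⟩
    · intro L hL
      have l1 : (L.take a).length = a := by simp [hL]
      have l2 : (L.drop a).length = b := by simp [hL]
      obtain ⟨s1, v1, d1⟩ := hτ1 _ l1
      obtain ⟨s2, v2, d2⟩ := hτ2 _ l2
      refine ⟨?_, ?_, fun m hm => ?_⟩
      · have h1 := mrg_sz (τ1 (L.take a)) (τ2 (L.drop a))
        have h2 := List.sum_take_add_sum_drop L a
        simp only
        omega
      · simp only [mrg_lv]
        omega
      · have e1 := d1 m (fun i hi => hm i (List.mem_of_mem_take hi))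
        have e2 := d2 m (fun i hi => hm i (List.mem_of_mem_drop hi))
        simp only [mrg_dep]
        omega
    · intro ε hε
      obtain ⟨C, hC0, hC⟩ := bound_nonneg (x := fun v => x v + y v)
        (fun v => add_nonneg (hx.nonneg hl v) (hy.nonneg hl v))
      set δ : ℝ := min 1 (ε / (C + 1)) with hδ
      have hδ0 : 0 < δ := lt_min one_pos (by positivity)
      have hδ1 : δ ≤ 1 := min_le_left _ _
      have hδ3 : δ * (C + 1) ≤ ε := by
        have h1 : δ ≤ ε / (C + 1) := min_le_right _ _
        rwa [le_div_iff₀ (by positivity)] at h1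
      obtain ⟨m1, hm1⟩ := hε1 δ hδ0
      obtain ⟨m2, hm2⟩ := hε2 δ hδ0
      refine ⟨max m1 m2, fun L hL hm v => ?_⟩
      have l1 : (L.take a).length = a := by simp [hL]
      have l2 : (L.drop a).length = b := by simp [hL]
      have e1 := hm1 _ l1
        (fun i hi => le_trans (le_max_left _ _) (hm i (List.mem_of_mem_take hi))) v
      have e2 := hm2 _ l2
        (fun i hi => le_trans (le_max_right _ _) (hm i (List.mem_of_mem_drop hi))) v
      have px := hx.nonneg hl v
      have py := hy.nonneg hl v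
      have hCv : x v + y v ≤ C := hC v
      simp only [mrg_vG, Pi.mul_apply]
      calc vG A l (τ1 (L.take a)) v * vG A l (τ2 (L.drop a)) v
          ≤ (x v + δ) * (y v + δ) := mul_le_mul e1 e2 (vN_nonneg hl _ v) (by positivity)
        _ = x v * y v + δ * (x v + y v + δ) := by ring
        _ ≤ x v * y v + δ * (C + 1) := by
            have h1 : δ * (x v + y v + δ) ≤ δ * (C + 1) :=
              mul_le_mul_of_nonneg_left (by linarith) hδ0.le
            linarith
        _ ≤ x v * y v + ε := by linarith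
  | @step a e x hx ih =>
    obtain ⟨a1, b1, τ1, ha1, hp1, hτ1, hε1⟩ := ih
    refine ⟨a1 + 1, b1 + 1, fun L => RT.gr RT.one (τ1 L), by omega, by omega, ?_, ?_⟩
    · intro L hL
      obtain ⟨s1, v1, d1⟩ := hτ1 L hL
      refine ⟨?_, ?_, fun m hm => ?_⟩
      · simp only [RT.sz, s1]
        omega
      · simp only [RT.lv]
        omega
      · have := d1 m hm
        simp only [RT.dep]
        omega
    · intro ε hε
      obtain ⟨C, hC0, hC⟩ := bound_nonneg (x := bG A l (fun _ => 1))
        (fun v => bN_nonneg hl (fun _ => zero_le_one) v)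
      obtain ⟨m0, hm0⟩ := hε1 (ε / C) (by positivity)
      refine ⟨m0, fun L hL hm v => ?_⟩
      have e1 := hm0 L hL hm
      rw [vG_gr_one']
      have h2 : bG A l (x + (ε / C) • (fun _ => (1 : ℝ))) v =
          bG A l x v + ε / C * bG A l (fun _ => 1) v := by
        rw [bG_add, bG_smul]
        rfl
      calc bG A l (vG A l (τ1 L)) v ≤ bG A l (x + (ε / C) • (fun _ => (1 : ℝ))) v := by
            refine bN_mono hl (fun w => ?_) v
            have := e1 w
            simpa using this
        _ = bG A l x v + ε / C * bG A l (fun _ => 1) v := h2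
        _ ≤ bG A l x v + ε := by
            have h3 : ε / C * bG A l (fun _ => 1) v ≤ ε / C * C :=
              mul_le_mul_of_nonneg_left (hC v) (by positivity)
            rw [div_mul_cancel₀ _ hC0.ne'] at h3
            linarith

end Pool.Agent.Lib.MP_dbb03c_co.Gen
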