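import Pool.Agent.Lib.MP_dbb03c_co.Gen.DTop
import Pool.Agent.Lib.MP_dbb03c_co.Gen.DDef

/-! # Existence of the spectral data -/

set_option autoImplicit false

namespace Pool.Agent.Lib.MP_dbb03c_co.Gen

open Filter Topology

variable {V : Type} [Fintype V] {A : V → V → Prop}

private theorem AO_sum (s : V → V → ℝ) (c : V → ℝ) (v : V) :
    AO A (fun w => ∑ i, c i * s i w) v = ∑ i, c i * AO A (s i) v := by
  classical
  unfold AO
  simp only [Finset.mul_sum]
  rw [Finset.sum_comm]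
  refine Finset.sum_congr rfl fun w _ => ?_
  split_ifs
  · rfl
  · simp

private theorem it_formula {l : ℝ} {μ : V → ℝ} {u : V → V → ℝ}
    (h1 : ∀ i v, AO A (u i) v = μ i * u i v)
    (h2 : ∀ x : V → ℝ, ∀ v, x v = ∑ i, (∑ w, u i w * x w) * u i v) (y : V → ℝ) (n : ℕ) (v : V) :
    (bG A l)^[n] y v = ∑ i, (μ i / l) ^ n * ((∑ w, u i w * y w) * u i v) := by
  induction n generalizing v with
  | zero =>
    simp only [Function.iterate_zero, id_eq, pow_zero, one_mul]
    exact h2 y v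
  | succ n ih =>
    rw [Function.iterate_succ_apply']
    have e : (bG A l)^[n] y =
        fun v => ∑ i, ((μ i / l) ^ n * (∑ w, u i w * y w)) * u i v := by
      funext v
      rw [ih v]
      exact Finset.sum_congr rfl fun i _ => by ring
    rw [e, bG, AO_sum, Finset.sum_div]
    refine Finset.sum_congr rfl fun i _ => ?_
    rw [h1, pow_succ]
    ring

private theorem pow_lim {a : ℝ} (ha : |a| ≤ 1) (s : ℕ) :
    ∃ z, Tendsto (fun m : ℕ => a ^ (2 * m + s)) atTop (𝓝 z) := by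
  have e : ∀ m : ℕ, a ^ (2 * m + s) = (a ^ 2) ^ m * a ^ s := fun m => by
    rw [pow_add, pow_mul]
  simp only [e]
  have h0 : 0 ≤ a ^ 2 := sq_nonneg a
  have h1 : a ^ 2 ≤ 1 := by
    rw [← sq_abs]
    exact pow_le_one₀ (abs_nonneg a) ha
  rcases h1.lt_or_eq with h | h
  · exact ⟨0 * a ^ s, (tendsto_pow_atTop_nhds_zero_of_lt_one h0 h).mul_const _⟩
  · refine ⟨a ^ s, ?_⟩
    simp only [h, one_pow, one_mul]
    exact tendsto_const_nhds

/-- `bG^[n] y v = ∑ i, (μ i / l) ^ n * (∑ w, u i w * y w) * u i v`, and `(μ i / l) ^ (2 * m + s)`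
converges because `|μ i / l| ≤ 1` -/
theorem exists_SD (hA : ∀ a b, A a b → A b a) (hE : ∃ a b, A a b) : ∃ l : ℝ, SD A l := by
  obtain ⟨μ, u, h1, h2, h3⟩ := exists_basis A hA
  obtain ⟨l, hl, hμ, φ, hφ0, hφ1, hφ⟩ := exists_top A hA hE h1 h2 h3
  refine ⟨l, hA, hl, ⟨φ, hφ0, hφ1, ?_⟩, ?_⟩
  · funext v
    rw [bG, hφ, mul_div_cancel_left₀ _ hl.ne']
  · intro s y
    have h4 : ∀ i, ∃ z, Tendsto (fun m : ℕ => (μ i / l) ^ (2 * m + s)) atTop (𝓝 z) := by
      intro i
      apply pow_lim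
      rw [abs_div, abs_of_pos hl, div_le_one hl]
      exact hμ i
    choose z hz using h4
    refine ⟨fun v => ∑ i, z i * ((∑ w, u i w * y w) * u i v), fun v => ?_⟩
    simp only [it_formula h1 h2]
    exact tendsto_finsetSum _ fun i _ => (hz i).mul_const _

end Pool.Agent.Lib.MP_dbb03c_co.Gen
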