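import Pool.Agent.Lib.MP_dbb03c_co.Gen.PFa

/-! # The spectral decomposition of the adjacency operator -/

set_option autoImplicit false

namespace Pool.Agent.Lib.MP_dbb03c_co.Gen

variable {V : Type} [Fintype V]

/-- The spectral theorem (for example `Matrix.IsHermitian.eigenvectorBasis` of `adjM A`), in coordinates:
`u i` is an orthonormal basis of eigenvectors, `μ i` the eigenvalues. -/
theorem exists_basis (A : V → V → Prop) (hA : ∀ a b, A a b → A b a) :
    ∃ (μ : V → ℝ) (u : V → V → ℝ), (∀ i v, AO A (u i) v = μ i * u i v) ∧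
      (∀ x : V → ℝ, ∀ v, x v = ∑ i, (∑ w, u i w * x w) * u i v) ∧
      (∀ i, ∑ v, u i v ^ 2 = 1) := by
  classical
  have hM : (adjM A).IsHermitian := by
    ext a b
    simp only [Matrix.conjTranspose_apply, adjM, star_trivial]
    by_cases h : A a b
    · rw [if_pos (hA _ _ h), if_pos h]
    · rw [if_neg h, if_neg (fun h' => h (hA _ _ h'))]
  refine ⟨hM.eigenvalues, fun i v => hM.eigenvectorBasis i v, fun i v => ?_, fun x v => ?_,
    fun i => ?_⟩
  · have h := congrFun (hM.mulVec_eigenvectorBasis i) v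
    have e : AO A (fun v => hM.eigenvectorBasis i v) v
        = (adjM A).mulVec (⇑(hM.eigenvectorBasis i)) v := by
      unfold AO
      rw [Matrix.mulVec, dotProduct]
      refine Finset.sum_congr rfl fun w _ => ?_
      unfold adjM
      split_ifs <;> simp
    rw [e, h]
    simp
  · have h := hM.eigenvectorBasis.sum_repr' (WithLp.toLp 2 x)
    have h' := congrArg (fun y : EuclideanSpace ℝ V => y v) h
    simp only at h'
    rw [← h']
    simp only [PiLp.inner_apply, WithLp.ofLp_sum, WithLp.ofLp_smul, Finset.sum_apply,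
      Pi.smul_apply, smul_eq_mul]
    refine Finset.sum_congr rfl fun i _ => ?_
    congr 1
    refine Finset.sum_congr rfl fun w _ => ?_
    simp [mul_comm]
  · have h := hM.eigenvectorBasis.orthonormal.1 i
    have h2 := EuclideanSpace.real_norm_sq_eq (hM.eigenvectorBasis i)
    rw [h] at h2
    simpa using h2.symm

private theorem AO_expand (A : V → V → Prop) {μ : V → ℝ} {u : V → V → ℝ}
    (h1 : ∀ i v, AO A (u i) v = μ i * u i v)
    (h2 : ∀ x : V → ℝ, ∀ v, x v = ∑ i, (∑ w, u i w * x w) * u i v) (x : V → ℝ) (v : V) :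
    AO A x v = ∑ i, (∑ w, u i w * x w) * (μ i * u i v) := by
  classical
  have e : AO A x v = ∑ i, (∑ w, u i w * x w) * AO A (u i) v := by
    unfold AO
    simp only [Finset.mul_sum]
    rw [Finset.sum_comm]
    refine Finset.sum_congr rfl fun w _ => ?_
    split_ifs
    · exact h2 x w
    · simp
  rw [e]
  exact Finset.sum_congr rfl fun i _ => by rw [h1]

/-- Let `l = max |μ i|`, attained at `i`; `l > 0` because there is an edge. With `y = |u i|` one has
`∑ v, y v * AO A y v ≥ |∑ v, u i v * AO A (u i) v| = l`, and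
`∑ v, y v * AO A y v = ∑ j, μ j * (∑ w, u j w * y w) ^ 2`, `∑ j, (∑ w, u j w * y w) ^ 2 = 1`; so the
coefficients with `μ j ≠ l` vanish and `AO A y = l • y`. -/
theorem exists_top (A : V → V → Prop) (hA : ∀ a b, A a b → A b a) (hE : ∃ a b, A a b)
    {μ : V → ℝ} {u : V → V → ℝ} (h1 : ∀ i v, AO A (u i) v = μ i * u i v)
    (h2 : ∀ x : V → ℝ, ∀ v, x v = ∑ i, (∑ w, u i w * x w) * u i v)
    (h3 : ∀ i, ∑ v, u i v ^ 2 = 1) :
    ∃ l : ℝ, 0 < l ∧ (∀ i, |μ i| ≤ l) ∧ ∃ φ : V → ℝ, (∀ v, 0 ≤ φ v) ∧ (∃ v, 0 < φ v) ∧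
      ∀ v, AO A φ v = l * φ v := by
  classical
  obtain ⟨a, b, hab⟩ := hE
  have hne : (Finset.univ : Finset V).Nonempty := ⟨a, Finset.mem_univ a⟩
  obtain ⟨i, -, hi⟩ := Finset.exists_max_image Finset.univ (fun i => |μ i|) hne
  have hi' : ∀ j, |μ j| ≤ |μ i| := fun j => hi j (Finset.mem_univ j)
  set y : V → ℝ := fun v => |u i v| with hy
  set c : V → ℝ := fun j => ∑ w, u j w * y w with hc
  have hAy : ∀ v, AO A y v = ∑ j, c j * (μ j * u j v) := fun v => AO_expand A h1 h2 y v
  have hyy : ∀ v, y v = ∑ j, c j * u j v := fun v => h2 y v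
  -- the sum of squares
  have hc1 : ∑ j, c j ^ 2 = 1 := by
    have e : ∑ v, y v * y v = ∑ j, c j ^ 2 := by
      have : ∀ v, y v * y v = ∑ j, c j * (u j v * y v) := by
        intro v
        conv_lhs => rw [show y v * y v = (∑ j, c j * u j v) * y v by rw [← hyy v]]
        rw [Finset.sum_mul]
        exact Finset.sum_congr rfl fun j _ => by ring
      rw [Finset.sum_congr rfl fun v _ => this v, Finset.sum_comm]
      refine Finset.sum_congr rfl fun j _ => ?_
      rw [← Finset.mul_sum, sq]
    rw [← e, ← h3 i]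
    refine Finset.sum_congr rfl fun v _ => ?_
    simp [hy, sq]
  have hq : ∑ v, y v * AO A y v = ∑ j, μ j * c j ^ 2 := by
    have : ∀ v, y v * AO A y v = ∑ j, μ j * c j * (u j v * y v) := by
      intro v
      rw [hAy v, Finset.mul_sum]
      exact Finset.sum_congr rfl fun j _ => by ring
    rw [Finset.sum_congr rfl fun v _ => this v, Finset.sum_comm]
    refine Finset.sum_congr rfl fun j _ => ?_
    rw [← Finset.mul_sum]
    ring
  -- the lower bound
  have hlow : |μ i| ≤ ∑ v, y v * AO A y v := by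
    have e : ∑ v, u i v * AO A (u i) v = μ i := by
      have : ∀ v, u i v * AO A (u i) v = μ i * u i v ^ 2 := fun v => by rw [h1]; ring
      rw [Finset.sum_congr rfl fun v _ => this v, ← Finset.mul_sum, h3, mul_one]
    rw [← e]
    refine (Finset.abs_sum_le_sum_abs _ _).trans (Finset.sum_le_sum fun v _ => ?_)
    rw [abs_mul]
    refine mul_le_mul_of_nonneg_left ?_ (abs_nonneg _)
    unfold AO
    refine (Finset.abs_sum_le_sum_abs _ _).trans (Finset.sum_le_sum fun w _ => ?_)
    split_ifs
    · exact le_rfl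
    · simp
  have hzero : ∀ j, (|μ i| - μ j) * c j ^ 2 = 0 := by
    have hs : ∑ j, (|μ i| - μ j) * c j ^ 2 ≤ 0 := by
      have : ∑ j, (|μ i| - μ j) * c j ^ 2 = |μ i| * ∑ j, c j ^ 2 - ∑ j, μ j * c j ^ 2 := by
        rw [Finset.mul_sum, ← Finset.sum_sub_distrib]
        exact Finset.sum_congr rfl fun j _ => by ring
      rw [this, hc1, ← hq]
      linarith
    have hn : ∀ j ∈ Finset.univ, 0 ≤ (|μ i| - μ j) * c j ^ 2 := fun j _ =>
      mul_nonneg (by linarith [hi' j, le_abs_self (μ j)]) (sq_nonneg _)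
    have h0 := (Finset.sum_eq_zero_iff_of_nonneg hn).1
      (le_antisymm hs (Finset.sum_nonneg hn))
    exact fun j => h0 j (Finset.mem_univ j)
  refine ⟨|μ i|, ?_, hi', y, fun v => abs_nonneg _, ?_, fun v => ?_⟩
  · rcases (abs_nonneg (μ i)).lt_or_eq with h | h
    · exact h
    · exfalso
      have hμ : ∀ j, μ j = 0 := fun j => abs_eq_zero.1 (le_antisymm (h ▸ hi' j) (abs_nonneg _))
      have e := AO_expand A h1 h2 (fun _ => 1) a
      have e0 : AO A (fun _ => (1 : ℝ)) a = 0 := by
        rw [e]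
        exact Finset.sum_eq_zero fun j _ => by rw [hμ j]; ring
      have e1 : 0 < AO A (fun _ => (1 : ℝ)) a := by
        unfold AO
        refine Finset.sum_pos' (fun w _ => ?_) ⟨b, Finset.mem_univ b, ?_⟩
        · split_ifs <;> norm_num
        · rw [if_pos hab]
          norm_num
      linarith
  · by_contra hcon
    push Not at hcon
    have : ∀ v, u i v = 0 := fun v => abs_eq_zero.1 (le_antisymm (hcon v) (abs_nonneg _))
    have h4 := h3 i
    simp [this] at h4
  · rw [hAy v, hyy v, Finset.mul_sum]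
    refine Finset.sum_congr rfl fun j _ => ?_
    have h5 : (|μ i| - μ j) * c j = 0 := by
      rcases mul_eq_zero.1 (hzero j) with h | h
      · rw [h, zero_mul]
      · rw [pow_eq_zero_iff two_ne_zero] at h
        rw [h, mul_zero]
    have h6 : c j * μ j = |μ i| * c j := by linarith
    calc c j * (μ j * u j v) = c j * μ j * u j v := by ring
      _ = |μ i| * (c j * u j v) := by rw [h6]; ring

end Pool.Agent.Lib.MP_dbb03c_co.Gen
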