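import Pool.Agent.Lib.MP_dbb03c_co.Gen.AO
import Pool.Agent.Lib.MP_dbb03c_co.Hom1
import Pool.Agent.Lib.MP_dbb03c_co.Hom4
import Pool.Agent.Lib.MP_dbb03c_co.Hom5

/-! # Numbers of colourings of rooted trees (any target) -/

set_option autoImplicit false

namespace Pool.Agent.Lib.MP_dbb03c_co.Gen

variable {V : Type} [Fintype V] {A : V → V → Prop}

/-- as `homR_hat` in `Hom3` (induction, `homR_one`, `homR_gr`) -/
theorem homR_eq (hA : ∀ a b, A a b → A b a) (t : RT) (c : V) :
    (Nat.card {f : t.V → V // (∀ a b, t.G.Adj a b → A (f a) (f b)) ∧ f t.root = c} : ℝ) =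
      hv A t c := by
  classical
  induction t generalizing c with
  | one =>
    rw [homR_one]
    simp [hv]
  | gr s t ihs iht =>
    rw [homR_gr A hA s t c]
    rw [Nat.cast_mul, Nat.cast_sum, ihs c]
    have h : ∀ d : V, ((if A c d then
        Nat.card {f : t.V → V // (∀ a b, t.G.Adj a b → A (f a) (f b)) ∧ f t.root = d}
          else 0 : ℕ) : ℝ) = if A c d then hv A t d else 0 := by
      intro d
      split_ifs with hd
      · exact iht d
      · simp
    rw [Finset.sum_congr rfl (fun d _ => h d)]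
    rfl

theorem hom_eq (hA : ∀ a b, A a b → A b a) (t : RT) : (hom t.G A : ℝ) = ∑ v, hv A t v := by
  classical
  have e : {f : t.V → V // ∀ a b, t.G.Adj a b → A (f a) (f b)} ≃
      Σ c : V, {f : t.V → V // (∀ a b, t.G.Adj a b → A (f a) (f b)) ∧ f t.root = c} :=
    { toFun := fun f => ⟨f.1 t.root, f.1, f.2, rfl⟩
      invFun := fun x => ⟨x.2.1, x.2.2.1⟩
      left_inv := fun f => rfl
      right_inv := by
        rintro ⟨c, f, hf, rfl⟩
        rfl }
  have h1 : hom t.G A = ∑ c : V,
      Nat.card {f : t.V → V // (∀ a b, t.G.Adj a b → A (f a) (f b)) ∧ f t.root = c} := by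
    unfold hom
    rw [Nat.card_congr e, Nat.card_sigma]
  rw [h1, Nat.cast_sum]
  exact Finset.sum_congr rfl (fun c _ => homR_eq hA t c)

theorem sz_pt (n : ℕ) : (pt n).sz = n + 1 := by
  induction n with
  | zero => rfl
  | succ n ih =>
    have h3 : (pt (n + 1)).sz = 1 + (pt n).sz := rfl
    rw [h3, ih]
    ring

theorem hv_pt (n : ℕ) : hv A (pt n) = (AO A)^[n] (fun _ => 1) := by
  induction n with
  | zero => rfl
  | succ n ih =>
    rw [Function.iterate_succ_apply', ← ih]
    have h1 : hv A (pt (n + 1)) = hv A RT.one * AO A (hv A (pt n)) := rfl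
    rw [h1]
    funext i
    simp [hv]

theorem hom_path (hA : ∀ a b, A a b → A b a) (n : ℕ) :
    (hom (SimpleGraph.pathGraph (n + 1)) A : ℝ) = ∑ v, hv A (pt n) v := by
  obtain ⟨e, he, _⟩ := pt_equiv n
  have h1 : hom (SimpleGraph.pathGraph (n + 1)) A = hom (pt n).G A := hom_congr _ e he
  rw [h1, hom_eq hA]

end Pool.Agent.Lib.MP_dbb03c_co.Gen
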