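import Mathlib

/-! # Jensen's inequality for a symmetrizable nonnegative matrix with a positive eigenvector -/

set_option autoImplicit false

namespace Pool.Agent.Lib.MP_dbb03c_co.Gen

open Real

/-- Row `i`: the numbers `p j = m i j * φ j / (l * φ i)` sum to 1, and
`∑ j, m i j * x j = ∑ j, p j * (l * φ i * x j / φ j)`; by the concavity of the logarithm the logarithm is
at least `log l + ∑ j, p j * (log (φ i) - log (φ j) + log (x j))`. Multiply by `r i * φ i ^ 2`, sum over
`i` and exchange the sums (`r i * φ i ^ 2 * p j = r i * m i j * φ i * φ j / l` is symmetric). -/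
theorem jensen {ι : Type} [Fintype ι] (m : ι → ι → ℝ) (r φ : ι → ℝ) (l : ℝ)
    (hm : ∀ i j, 0 ≤ m i j) (hr : ∀ i, 0 < r i) (hs : ∀ i j, r i * m i j = r j * m j i)
    (hφ : ∀ i, 0 < φ i) (hl : 0 < l) (he : ∀ i, ∑ j, m i j * φ j = l * φ i)
    (x : ι → ℝ) (hx : ∀ i, 0 < x i) :
    (∑ i, r i * φ i ^ 2) * log l + ∑ i, r i * φ i ^ 2 * log (x i) ≤
      ∑ i, r i * φ i ^ 2 * log (∑ j, m i j * x j) := by
  classical
  have hl0 : l ≠ 0 := hl.ne'
  have hφ0 : ∀ i, φ i ≠ 0 := fun i => (hφ i).ne'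
  obtain ⟨W, hW⟩ : ∃ W : ι → ι → ℝ, ∀ i j, W i j = r i * m i j * φ i * φ j / l := ⟨_, fun _ _ => rfl⟩
  have hsym : ∀ i j, W i j = W j i := by
    intro i j
    rw [hW, hW]
    have := hs i j
    calc r i * m i j * φ i * φ j / l = (r i * m i j) * (φ i * φ j) / l := by ring
      _ = (r j * m j i) * (φ i * φ j) / l := by rw [this]
      _ = _ := by ring
  have hsum : ∀ i, ∑ j, W i j = r i * φ i ^ 2 := by
    intro i
    calc ∑ j, W i j = ∑ j, (r i * φ i / l) * (m i j * φ j) := by
          refine Finset.sum_congr rfl fun j _ => ?_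
          rw [hW]; ring
      _ = (r i * φ i / l) * (l * φ i) := by rw [← Finset.mul_sum, he i]
      _ = r i * φ i ^ 2 := by field_simp
  have hrow : ∀ i, ∑ j, W i j * (log l + (log (φ i) - log (φ j)) + log (x j)) ≤
      r i * φ i ^ 2 * log (∑ j, m i j * x j) := by
    intro i
    have hp0 : ∀ j ∈ (Finset.univ : Finset ι), 0 ≤ m i j * φ j / (l * φ i) := fun j _ =>
      div_nonneg (mul_nonneg (hm i j) (hφ j).le) (mul_pos hl (hφ i)).le
    have hp1 : ∑ j, m i j * φ j / (l * φ i) = 1 := by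
      rw [← Finset.sum_div, he i]
      exact div_self (mul_pos hl (hφ i)).ne'
    have hy : ∀ j ∈ (Finset.univ : Finset ι), l * φ i * x j / φ j ∈ Set.Ioi (0 : ℝ) := fun j _ =>
      div_pos (mul_pos (mul_pos hl (hφ i)) (hx j)) (hφ j)
    have key := strictConcaveOn_log_Ioi.concaveOn.le_map_sum hp0 hp1 hy
    simp only [smul_eq_mul] at key
    have h1 : ∑ j, m i j * φ j / (l * φ i) * (l * φ i * x j / φ j) = ∑ j, m i j * x j := by
      refine Finset.sum_congr rfl fun j _ => ?_
      have := hφ0 i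
      have := hφ0 j
      field_simp
    rw [h1] at key
    have h2 : ∑ j, W i j * (log l + (log (φ i) - log (φ j)) + log (x j)) =
        r i * φ i ^ 2 * ∑ j, m i j * φ j / (l * φ i) * log (l * φ i * x j / φ j) := by
      rw [Finset.mul_sum]
      refine Finset.sum_congr rfl fun j _ => ?_
      have h3 : log (l * φ i * x j / φ j) = log l + (log (φ i) - log (φ j)) + log (x j) := by
        rw [Real.log_div (mul_pos (mul_pos hl (hφ i)) (hx j)).ne' (hφ0 j),
          Real.log_mul (mul_pos hl (hφ i)).ne' (hx j).ne', Real.log_mul hl0 (hφ0 i)]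
        ring
      rw [h3, hW]
      have := hφ0 i
      field_simp
    rw [h2]
    exact mul_le_mul_of_nonneg_left key (mul_nonneg (hr i).le (sq_nonneg _))
  have htot := Finset.sum_le_sum fun i (_ : i ∈ (Finset.univ : Finset ι)) => hrow i
  refine le_trans (le_of_eq ?_) htot
  have e1 : ∑ i, ∑ j, W i j * (log l + (log (φ i) - log (φ j)) + log (x j)) =
      ∑ i, (∑ j, W i j) * log l + ((∑ i, (∑ j, W i j) * log (φ i)) -
        ∑ i, ∑ j, W i j * log (φ j)) + ∑ i, ∑ j, W i j * log (x j) := by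
    rw [← Finset.sum_sub_distrib, ← Finset.sum_add_distrib, ← Finset.sum_add_distrib]
    refine Finset.sum_congr rfl fun i _ => ?_
    rw [Finset.sum_mul, Finset.sum_mul, ← Finset.sum_sub_distrib, ← Finset.sum_add_distrib,
      ← Finset.sum_add_distrib]
    refine Finset.sum_congr rfl fun j _ => ?_
    ring
  have e2 : ∀ f : ι → ℝ, ∑ i, ∑ j, W i j * f j = ∑ j, r j * φ j ^ 2 * f j := by
    intro f
    rw [Finset.sum_comm]
    refine Finset.sum_congr rfl fun j _ => ?_
    rw [← hsum j, Finset.sum_mul]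
    exact Finset.sum_congr rfl fun i _ => by rw [hsym i j]
  rw [e1, e2 (fun j => log (φ j)), e2 (fun j => log (x j))]
  simp only [hsum]
  rw [← Finset.sum_mul, sub_self, add_zero]

/-- Jensen's inequality once more: a mean against a logarithmic mean -/
theorem exp_le_mean {ι : Type} [Fintype ι] [Nonempty ι] (w x : ι → ℝ) (hw : ∀ i, 0 < w i)
    (hx : ∀ i, 0 < x i) :
    (∑ i, w i) * exp ((∑ i, w i * log (x i)) / ∑ i, w i) ≤ ∑ i, w i * x i := by
  have hS : 0 < ∑ i, w i := Finset.sum_pos (fun i _ => hw i) Finset.univ_nonempty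
  have hp0 : ∀ j ∈ (Finset.univ : Finset ι), 0 ≤ w j / ∑ i, w i := fun j _ =>
    div_nonneg (hw j).le hS.le
  have hp1 : ∑ j, w j / ∑ i, w i = 1 := by
    rw [← Finset.sum_div]
    exact div_self hS.ne'
  have hy : ∀ j ∈ (Finset.univ : Finset ι), x j ∈ Set.Ioi (0 : ℝ) := fun j _ => hx j
  have key := strictConcaveOn_log_Ioi.concaveOn.le_map_sum hp0 hp1 hy
  simp only [smul_eq_mul] at key
  have hpos : 0 < ∑ j, w j / (∑ i, w i) * x j :=
    Finset.sum_pos (fun j _ => mul_pos (div_pos (hw j) hS) (hx j)) Finset.univ_nonempty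
  have h1 : (∑ i, w i * log (x i)) / ∑ i, w i = ∑ j, w j / (∑ i, w i) * log (x j) := by
    rw [Finset.sum_div]
    exact Finset.sum_congr rfl fun j _ => by ring
  have h2 : ∑ i, w i * x i = (∑ i, w i) * ∑ j, w j / (∑ i, w i) * x j := by
    rw [Finset.mul_sum]
    refine Finset.sum_congr rfl fun j _ => ?_
    have := hS.ne'
    field_simp
  rw [h1, h2]
  refine mul_le_mul_of_nonneg_left ?_ hS.le
  calc exp (∑ j, w j / (∑ i, w i) * log (x j)) ≤ exp (log (∑ j, w j / (∑ i, w i) * x j)) :=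
        Real.exp_le_exp.2 key
    _ = _ := Real.exp_log hpos

end Pool.Agent.Lib.MP_dbb03c_co.Gen
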