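import Pool.Agent.Lib.MP_dbb03c_co.Gen.AO

/-! # A power of `1 + adjM A` is positive -/

set_option autoImplicit false

namespace Pool.Agent.Lib.MP_dbb03c_co.Gen

variable {V : Type} [Fintype V] {A : V → V → Prop}

open Classical in
/-- the adjacency matrix -/
noncomputable def adjM (A : V → V → Prop) : Matrix V V ℝ := fun a b => if A a b then 1 else 0

omit [Fintype V] in
open Classical in
private theorem base_nonneg (A : V → V → Prop) (a b : V) : 0 ≤ (1 + adjM A : Matrix V V ℝ) a b := by
  rw [Matrix.add_apply, Matrix.one_apply]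
  unfold adjM
  split_ifs <;> norm_num

omit [Fintype V] in
open Classical in
private theorem base_diag (A : V → V → Prop) (a : V) : 0 < (1 + adjM A : Matrix V V ℝ) a a := by
  rw [Matrix.add_apply, Matrix.one_apply_eq]
  unfold adjM
  split_ifs <;> norm_num

omit [Fintype V] in
open Classical in
private theorem base_adj (A : V → V → Prop) {a b : V} (h : A a b) :
    0 < (1 + adjM A : Matrix V V ℝ) a b := by
  rw [Matrix.add_apply, Matrix.one_apply]
  unfold adjM
  rw [if_pos h]
  split_ifs <;> norm_num

open Classical in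
private theorem pow_nonneg_entry (A : V → V → Prop) (n : ℕ) (a b : V) :
    0 ≤ ((1 + adjM A) ^ n : Matrix V V ℝ) a b := by
  induction n generalizing a b with
  | zero =>
    rw [pow_zero, Matrix.one_apply]
    split_ifs <;> norm_num
  | succ n ih =>
    rw [pow_succ, Matrix.mul_apply]
    exact Finset.sum_nonneg fun c _ => mul_nonneg (ih a c) (base_nonneg A c b)

open Classical in
private theorem pow_step (A : V → V → Prop) (n : ℕ) {a b c : V}
    (h : 0 < ((1 + adjM A) ^ n : Matrix V V ℝ) a b)
    (h2 : 0 < (1 + adjM A : Matrix V V ℝ) b c) :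
    0 < ((1 + adjM A) ^ (n + 1) : Matrix V V ℝ) a c := by
  rw [pow_succ, Matrix.mul_apply]
  exact Finset.sum_pos' (fun d _ => mul_nonneg (pow_nonneg_entry A n a d) (base_nonneg A d c))
    ⟨b, Finset.mem_univ b, mul_pos h h2⟩

open Classical in
private theorem pow_mono_entry (A : V → V → Prop) {n m : ℕ} (hnm : n ≤ m) {a b : V}
    (h : 0 < ((1 + adjM A) ^ n : Matrix V V ℝ) a b) :
    0 < ((1 + adjM A) ^ m : Matrix V V ℝ) a b := by
  induction hnm with
  | refl => exact h
  | step _ ih => exact pow_step A _ ih (base_diag A b)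

open Classical in
private theorem exists_pos_entry (A : V → V → Prop) {a b : V} (h : Relation.ReflTransGen A a b) :
    ∃ n : ℕ, 0 < ((1 + adjM A) ^ n : Matrix V V ℝ) a b := by
  induction h with
  | refl =>
    refine ⟨0, ?_⟩
    rw [pow_zero, Matrix.one_apply_eq]
    norm_num
  | tail _ hbc ih =>
    obtain ⟨n, hn⟩ := ih
    exact ⟨n + 1, pow_step A n hn (base_adj A hbc)⟩

open Classical in
/-- For each pair `(a, b)` the entry of `(1 + adjM A) ^ n` is positive for all `n` which are at least the
length of a walk from `a` to `b` (induction on `ReflTransGen`; the diagonal keeps entries positive). -/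
theorem exists_pos_pow (hc : ∀ a b, Relation.ReflTransGen A a b) :
    ∃ N : ℕ, ∀ a b, 0 < ((1 + adjM A) ^ N : Matrix V V ℝ) a b := by
  choose f hf using fun p : V × V => exists_pos_entry A (hc p.1 p.2)
  refine ⟨Finset.univ.sup f, fun a b => ?_⟩
  exact pow_mono_entry A (Finset.le_sup (f := f) (Finset.mem_univ (a, b))) (hf (a, b))

end Pool.Agent.Lib.MP_dbb03c_co.Gen
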