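import Pool.Agent.Lib.MP_dbb03c_co.RT

/-! # Deep branches -/

set_option autoImplicit false

namespace Pool.Agent.Lib.MP_dbb03c_co.Gen

/-- the maximal number of disjoint branches of depth at least 2 -/
def Bt : RT → ℕ
  | .one => 0
  | .gr s t => Bt s + max (Bt t) (if 2 ≤ t.dep then 1 else 0)

/-- a star -/
theorem sz_star (t : RT) (h : t.dep ≤ 1) : t.sz ≤ 1 + t.lv := by
  induction t with
  | one => simp [RT.sz, RT.lv]
  | gr s t ihs iht =>
    simp only [RT.dep] at h
    have hs : s.dep ≤ 1 := le_trans (le_max_left _ _) h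
    have ht : t.dep = 0 := by
      have := le_trans (le_max_right _ _) h
      omega
    have ht1 : t.sz = 1 := by
      cases t with
      | one => rfl
      | gr a b =>
        simp only [RT.dep] at ht
        have := le_max_right a.dep (b.dep + 1)
        omega
    have h1 := ihs hs
    simp only [RT.sz, RT.lv]
    have := le_max_left 1 t.lv
    omega

/-- Induction. For `gr s t`: if `2 ≤ t.dep`, let `b = max (Bt t) 1`; then
`b * max s.dep (t.dep + 1) ≥ b * t.dep + 1`. If `t.dep ≤ 1` then `Bt t = 0` may be used only through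
`0 ≤ Bt t * t.dep`; use `sz_star`: `1 + t.lv ≤ 2 * max 1 t.lv`. -/
theorem sz_le_Bt (t : RT) : t.sz ≤ 1 + 2 * t.lv + Bt t * t.dep := by
  induction t with
  | one => simp [RT.sz, RT.lv, Bt]
  | gr s t ihs iht =>
    simp only [RT.sz, RT.lv, RT.dep, Bt]
    have hm := le_max_left 1 t.lv
    have hm' := le_max_right 1 t.lv
    have hd := le_max_left s.dep (t.dep + 1)
    have hd' := le_max_right s.dep (t.dep + 1)
    by_cases h : 2 ≤ t.dep
    · rw [if_pos h]
      have hb := le_max_left (Bt t) 1
      have hb' := le_max_right (Bt t) 1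
      generalize max (Bt t) 1 = b at hb hb' ⊢
      generalize max s.dep (t.dep + 1) = d at hd hd' ⊢
      generalize max 1 t.lv = l at hm hm' ⊢
      have h1 : Bt s * s.dep ≤ Bt s * d := Nat.mul_le_mul_left _ hd
      have h2 : Bt t * t.dep ≤ b * t.dep := Nat.mul_le_mul_right _ hb
      have h3 : b * (t.dep + 1) ≤ b * d := Nat.mul_le_mul_left _ hd'
      have h4 : b * (t.dep + 1) = b * t.dep + b := by ring
      have h5 : (Bt s + b) * d = Bt s * d + b * d := by ring
      omega
    · rw [if_neg h]
      have hs := sz_star t (by omega)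
      generalize max s.dep (t.dep + 1) = d at hd hd' ⊢
      generalize max 1 t.lv = l at hm hm' ⊢
      have h1 : Bt s * s.dep ≤ (Bt s + max (Bt t) 0) * d :=
        Nat.mul_le_mul (Nat.le_add_right _ _) hd
      omega

end Pool.Agent.Lib.MP_dbb03c_co.Gen
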