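import Pool.Agent.Lib.MP_dbb03c_co.Gr1

/-! # Isomorphisms of rooted trees -/

set_option autoImplicit false

namespace Pool.Agent.Lib.MP_dbb03c_co.Gen

/-- isomorphic graphs -/
def Iso (t t' : RT) : Prop := ∃ e : t.V ≃ t'.V, ∀ a b, t'.G.Adj (e a) (e b) ↔ t.G.Adj a b

/-- isomorphic as rooted trees -/
def RIso (t t' : RT) : Prop := ∃ e : t.V ≃ t'.V,
  (∀ a b, t'.G.Adj (e a) (e b) ↔ t.G.Adj a b) ∧ e t.root = t'.root

theorem RIso.iso {t t' : RT} (h : RIso t t') : Iso t t' := by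
  obtain ⟨e, he, _⟩ := h
  exact ⟨e, he⟩

theorem Iso.refl (t : RT) : Iso t t := ⟨Equiv.refl _, fun _ _ => Iff.rfl⟩

theorem Iso.trans {t t' t'' : RT} (h : Iso t t') (h' : Iso t' t'') : Iso t t'' := by
  obtain ⟨e, he⟩ := h
  obtain ⟨f, hf⟩ := h'
  exact ⟨e.trans f, fun a b => (hf _ _).trans (he _ _)⟩

theorem RIso.refl (t : RT) : RIso t t := ⟨Equiv.refl _, fun _ _ => Iff.rfl, rfl⟩

theorem RIso.trans {t t' t'' : RT} (h : RIso t t') (h' : RIso t' t'') : RIso t t'' := by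
  obtain ⟨e, he, h1⟩ := h
  obtain ⟨f, hf, h2⟩ := h'
  exact ⟨e.trans f, fun a b => (hf _ _).trans (he _ _), by rw [Equiv.trans_apply, h1, h2]⟩

/-- move the root to the other end of the last edge -/
theorem Iso.swap (s t : RT) : Iso (.gr s t) (.gr t s) := by
  refine ⟨Equiv.sumComm s.V t.V, ?_⟩
  rintro (a | a) (b | b)
  · exact Iff.rfl
  · exact and_comm
  · exact and_comm
  · exact Iff.rfl

/-- `(gr s t).G` depends on `s` only up to rooted isomorphism -/
theorem RIso.congr {s s' : RT} (h : RIso s s') (t : RT) : RIso (.gr s t) (.gr s' t) := by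
  obtain ⟨e, he, h1⟩ := h
  have h2 : ∀ a, e a = s'.root ↔ a = s.root := fun a => by
    rw [← h1]
    exact e.injective.eq_iff
  refine ⟨Equiv.sumCongr e (Equiv.refl t.V), ?_, ?_⟩
  · rintro (a | a) (b | b)
    · exact he a b
    · exact and_congr (h2 a) Iff.rfl
    · exact and_congr (h2 b) Iff.rfl
    · exact Iff.rfl
  · change (Sum.inl (e s.root) : s'.V ⊕ t.V) = Sum.inl s'.root
    rw [h1]

/-- exchange two branches -/
theorem RIso.comm (s t t' : RT) : RIso (.gr (.gr s t) t') (.gr (.gr s t') t) := by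
  refine ⟨((Equiv.sumAssoc s.V t.V t'.V).trans
    ((Equiv.sumCongr (Equiv.refl s.V) (Equiv.sumComm t.V t'.V)).trans
      (Equiv.sumAssoc s.V t'.V t.V).symm)), ?_, ?_⟩
  · rintro ((a | a) | a) ((b | b) | b)
    · exact Iff.rfl
    · change ((Sum.inl a : s.V ⊕ t'.V) = Sum.inl s.root ∧ b = t.root) ↔
        (a = s.root ∧ b = t.root)
      rw [Sum.inl.injEq]
    · change (a = s.root ∧ b = t'.root) ↔
        ((Sum.inl a : s.V ⊕ t.V) = Sum.inl s.root ∧ b = t'.root)
      rw [Sum.inl.injEq]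
    · change ((Sum.inl b : s.V ⊕ t'.V) = Sum.inl s.root ∧ a = t.root) ↔
        (b = s.root ∧ a = t.root)
      rw [Sum.inl.injEq]
    · exact Iff.rfl
    · change ((Sum.inr b : s.V ⊕ t'.V) = Sum.inl s.root ∧ a = t.root) ↔
        ((Sum.inr a : s.V ⊕ t.V) = Sum.inl s.root ∧ b = t'.root)
      simp
    · change (b = s.root ∧ a = t'.root) ↔
        ((Sum.inl b : s.V ⊕ t.V) = Sum.inl s.root ∧ a = t'.root)
      rw [Sum.inl.injEq]
    · change ((Sum.inr a : s.V ⊕ t'.V) = Sum.inl s.root ∧ b = t.root) ↔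
        ((Sum.inr b : s.V ⊕ t.V) = Sum.inl s.root ∧ a = t'.root)
      simp
    · exact Iff.rfl
  · rfl

/-- Bring a deepest branch to the last place. Induction on `t = gr s t'`: if `s.dep ≤ t'.dep + 1` nothing is
to be done; otherwise `s ≠ one`, `s ~ gr s1 t1` with `s.dep = t1.dep + 1`, and
`gr s t' ~ gr (gr s1 t1) t' ~ gr (gr s1 t') t1`. -/
theorem reorder (t : RT) (h : t ≠ RT.one) : ∃ s t' : RT, RIso t (.gr s t') ∧
    s.dep ≤ t'.dep + 1 ∧ t.dep = t'.dep + 1 := by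
  induction t with
  | one => exact absurd rfl h
  | gr s t' ihs _ =>
    have hd : (RT.gr s t').dep = max s.dep (t'.dep + 1) := rfl
    by_cases hc : s.dep ≤ t'.dep + 1
    · refine ⟨s, t', RIso.refl _, hc, ?_⟩
      rw [hd]
      exact max_eq_right hc
    · have hs : s ≠ RT.one := by
        rintro rfl
        simp [RT.dep] at hc
      obtain ⟨s1, t1, h1, h2, h3⟩ := ihs hs
      refine ⟨.gr s1 t', t1, (h1.congr t').trans (RIso.comm s1 t1 t'), ?_, ?_⟩
      · have hd1 : (RT.gr s1 t').dep = max s1.dep (t'.dep + 1) := rfl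
        rw [hd1]
        omega
      · rw [hd]
        omega

end Pool.Agent.Lib.MP_dbb03c_co.Gen
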