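import Pool.Agent.Lib.MP_dbb03c_co.Gen.SStep

/-! # Upper bound for the vector of the end `E` -/

set_option autoImplicit false

namespace Pool.Agent.Lib.MP_dbb03c_co.Gen

variable {M R l p q : ℝ}

private theorem tiny (h : Par M R l p q) {t : ℝ} (ht : t ≤ 3 * M ^ 8) : t / R ≤ 0.1 / M := by
  have hM := h.hM
  have hM0 : 0 < M := by linarith
  have hR0 := h.R_pos
  rw [div_le_div_iff₀ hR0 hM0]
  have h1 : (8 : ℝ) ^ 11 ≤ M ^ 11 := pow_le_pow_left₀ (by norm_num) hM 11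
  have h2 : M ^ 20 = M ^ 11 * M ^ 9 := by ring
  have h3 : 30 * M ^ 9 ≤ M ^ 20 := by
    rw [h2]
    refine mul_le_mul_of_nonneg_right ?_ (by positivity)
    norm_num at h1
    linarith
  have h4 := h.hR
  have h5 : t * M ≤ 3 * M ^ 8 * M := mul_le_mul_of_nonneg_right ht hM0.le
  have h6 : 3 * M ^ 8 * M = 3 * M ^ 9 := by ring
  rw [h6] at h5
  have h7 : 0.1 * R = R / 10 := by norm_num; ring
  rw [h7]
  linarith

private theorem big8 (h : Par M R l p q) {k : ℕ} (hk : k ≤ 8) : M ^ k ≤ M ^ 8 :=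
  pow_le_pow_right₀ (by have := h.hM; linarith) hk

private theorem z_init (h : Par M R l p q) :
    ∀ i : Fin 4, zS M R l i * l ^ (i : ℕ) ≤
      (![4 + 2 / M + 2 / R, R + M + 1, 2 * M ^ 4 * R, 2 * M ^ 2 * R] : Fin 4 → ℝ) i := by
  have hM := h.hM
  have hM0 : 0 < M := by linarith
  have hR0 := h.R_pos
  have hl0 := h.l_pos
  have hRl := h.hl
  have hR8 := h.R_big
  have hMi : 1 / M ≤ 1 / 8 := one_div_le_one_div_of_le (by norm_num) hM
  have hMi0 : 0 < 1 / M := by positivity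
  have hRi : 1 / R ≤ 1 / 8 := by
    refine one_div_le_one_div_of_le (by norm_num) (le_trans ?_ hR8)
    norm_num
  have hRi0 : 0 < 1 / R := by positivity
  have hli : 1 / l ≤ 1 / R := one_div_le_one_div_of_le hR0 hRl.le
  -- the entries of `a`
  have a0 : bS M R l oS 0 = (R * 1 + R * 1) / l := rfl
  have a1 : bS M R l oS 1 = (1 + R / M * 1) / l := rfl
  have a2 : bS M R l oS 2 = (1 + M ^ 2 * R * 1) / l := rfl
  have a3 : bS M R l oS 3 = 1 / l := rfl
  have b0 : bS M R l (bS M R l oS) 0 = (R * bS M R l oS 0 + R * bS M R l oS 1) / l := rfl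
  have b1 : bS M R l (bS M R l oS) 1 = (bS M R l oS 0 + R / M * bS M R l oS 2) / l := rfl
  have b2 : bS M R l (bS M R l oS) 2 = (bS M R l oS 1 + M ^ 2 * R * bS M R l oS 3) / l := rfl
  have b3 : bS M R l (bS M R l oS) 3 = bS M R l oS 2 / l := rfl
  have ha0 : bS M R l oS 0 ≤ 2 := by
    rw [a0, div_le_iff₀ hl0]; linarith
  have ha0' : 0 ≤ bS M R l oS 0 := by rw [a0]; positivity
  have ha1' : 0 ≤ bS M R l oS 1 := by rw [a1]; positivity
  have ha2' : 0 ≤ bS M R l oS 2 := by rw [a2]; positivity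
  have ha3' : 0 ≤ bS M R l oS 3 := by rw [a3]; positivity
  have ha1 : bS M R l oS 1 ≤ 1 / M + 1 / R := by
    rw [a1, div_le_iff₀ hl0]
    have : (1 / M + 1 / R) * R ≤ (1 / M + 1 / R) * l :=
      mul_le_mul_of_nonneg_left hRl.le (by positivity)
    have h2 : (1 / M + 1 / R) * R = 1 + R / M * 1 := by field_simp; ring
    linarith
  have ha2 : bS M R l oS 2 ≤ M ^ 2 + 1 / R := by
    rw [a2, div_le_iff₀ hl0]
    have : (M ^ 2 + 1 / R) * R ≤ (M ^ 2 + 1 / R) * l :=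
      mul_le_mul_of_nonneg_left hRl.le (by positivity)
    have h2 : (M ^ 2 + 1 / R) * R = 1 + M ^ 2 * R * 1 := by field_simp; ring
    linarith
  have hb0 : bS M R l (bS M R l oS) 0 ≤ 2 + 1 / M + 1 / R := by
    rw [b0, div_le_iff₀ hl0]
    have h1 : R * bS M R l oS 0 + R * bS M R l oS 1 ≤ R * (2 + 1 / M + 1 / R) := by
      rw [← mul_add]
      exact mul_le_mul_of_nonneg_left (by linarith) hR0.le
    have h2 : R * (2 + 1 / M + 1 / R) ≤ l * (2 + 1 / M + 1 / R) :=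
      mul_le_mul_of_nonneg_right hRl.le (by positivity)
    linarith
  have hb1 : bS M R l (bS M R l oS) 1 ≤ M + 3 / R := by
    rw [b1, div_le_iff₀ hl0]
    have h1 : R / M * bS M R l oS 2 ≤ R / M * (M ^ 2 + 1 / R) :=
      mul_le_mul_of_nonneg_left ha2 (by positivity)
    have h2 : R / M * (M ^ 2 + 1 / R) = M * R + 1 / M := by field_simp
    have h3 : (M + 3 / R) * R ≤ (M + 3 / R) * l :=
      mul_le_mul_of_nonneg_left hRl.le (by positivity)
    have h4 : (M + 3 / R) * R = M * R + 3 := by field_simp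
    linarith
  have hb2 : bS M R l (bS M R l oS) 2 * l ≤ M ^ 2 + 1 := by
    rw [b2, div_mul_cancel₀ _ hl0.ne', a3]
    have h1 : M ^ 2 * R * (1 / l) ≤ M ^ 2 * R * (1 / R) :=
      mul_le_mul_of_nonneg_left hli (by positivity)
    have h2 : M ^ 2 * R * (1 / R) = M ^ 2 := by field_simp
    linarith
  have hb3 : bS M R l (bS M R l oS) 3 * l ^ 2 = 1 + M ^ 2 * R := by
    rw [b3, a2]; field_simp
  have hMsq : (8 : ℝ) ^ 2 ≤ M ^ 2 := pow_le_pow_left₀ (by norm_num) hM 2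
  have hMR : 1 ≤ M ^ 2 * R := by
    have h1 : (1 : ℝ) ≤ R := le_trans (by norm_num) hR8
    nlinarith
  intro i
  fin_cases i
  · show bS M R l oS 0 * bS M R l (bS M R l oS) 0 * l ^ 0 ≤ 4 + 2 / M + 2 / R
    rw [pow_zero, mul_one]
    calc bS M R l oS 0 * bS M R l (bS M R l oS) 0
        ≤ 2 * bS M R l (bS M R l oS) 0 := by
          refine mul_le_mul_of_nonneg_right ha0 ?_
          rw [b0]; positivity
      _ ≤ 2 * (2 + 1 / M + 1 / R) := by linarith
      _ = 4 + 2 / M + 2 / R := by ring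
  · show bS M R l oS 1 * bS M R l (bS M R l oS) 1 * l ^ 1 ≤ R + M + 1
    have h1 : bS M R l oS 1 * bS M R l (bS M R l oS) 1 * l ^ 1 =
        (1 + R / M) * bS M R l (bS M R l oS) 1 := by
      rw [a1]; field_simp
    rw [h1]
    have h2 : (1 + R / M) * bS M R l (bS M R l oS) 1 ≤ (1 + R / M) * (M + 3 / R) :=
      mul_le_mul_of_nonneg_left hb1 (by positivity)
    have h3 : (1 + R / M) * (M + 3 / R) = R + M + 3 * (1 / M) + 3 * (1 / R) := by
      field_simp; ring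
    linarith
  · show bS M R l oS 2 * bS M R l (bS M R l oS) 2 * l ^ 2 ≤ 2 * M ^ 4 * R
    have h1 : bS M R l oS 2 * bS M R l (bS M R l oS) 2 * l ^ 2 =
        (1 + M ^ 2 * R) * (bS M R l (bS M R l oS) 2 * l) := by
      rw [a2]; field_simp
    rw [h1]
    have h2 : (1 + M ^ 2 * R) * (bS M R l (bS M R l oS) 2 * l) ≤ (1 + M ^ 2 * R) * (M ^ 2 + 1) :=
      mul_le_mul_of_nonneg_left hb2 (by positivity)
    have hR1 : (64 : ℝ) ≤ R := le_trans (by norm_num) hR8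
    norm_num at hMsq
    have h4 : 64 * (M ^ 2 * R) ≤ M ^ 2 * (M ^ 2 * R) :=
      mul_le_mul_of_nonneg_right hMsq (by positivity)
    have h5 : M ^ 2 * 64 ≤ M ^ 2 * R := mul_le_mul_of_nonneg_left hR1 (by positivity)
    have h6 : 2 * M ^ 4 * R = 2 * (M ^ 2 * (M ^ 2 * R)) := by ring
    have h7 : (1 + M ^ 2 * R) * (M ^ 2 + 1) = M ^ 2 * (M ^ 2 * R) + M ^ 2 * R + M ^ 2 + 1 := by ring
    linarith
  · show bS M R l oS 3 * bS M R l (bS M R l oS) 3 * l ^ 3 ≤ 2 * M ^ 2 * R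
    have h1 : bS M R l oS 3 * bS M R l (bS M R l oS) 3 * l ^ 3 =
        bS M R l (bS M R l oS) 3 * l ^ 2 := by
      rw [a3]; field_simp
    rw [h1, hb3]
    linarith

/-- Five times `step_le`, then `le_phS`, `it_le_phS`. Scaled bounds:
Z0 = (4+2/M+2/R, R+M+1, 2M⁴R, 2M²R) (with `a = bS oS`, `b = bS a`: `a 0 ≤ 2`, `a 1 * l = 1 + R/M`,
`a 2 * l = 1 + M²R`, `a 3 * l = 1`, `b 0 ≤ 2 + 1/M + 1/R`, `b 1 * l ≤ 2 + 1/M + MR`, `b 2 * l ≤ M²+1`,
`b 3 * l² ≤ 1 + M²R`),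
Z1 = (5+2.1/M, 3M³, 2R, 2M⁴R), Z2 = (5+2.2/M, 6, 3M⁶, 2R), Z3 = (5+2.3/M, 5+2.3/M, 3M², 3M⁶),
Z4 = (5+2.4/M, 5+2.4/M, 5+2.4/M, 3M²), Z5 = (5+2.5/M, 5+2.5/M, 5+2.5/M, 5+2.5/M). -/
theorem zS_le (h : Par M R l p q) (n : ℕ) (hn : 5 ≤ n) (i : Fin 4) :
    (bS M R l)^[n] (zS M R l) i ≤ (5 + 3 / M) * phS l p q i := by
  have hM := h.hM
  have hM0 : 0 < M := by linarith
  have hR0 := h.R_pos
  have hMi : 1 / M ≤ 1 / 8 := one_div_le_one_div_of_le (by norm_num) hM
  have hMi0 : 0 < 1 / M := by positivity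
  have d1 : (0.1 : ℝ) / M = 0.1 * (1 / M) := by ring
  have d2 : (2 : ℝ) / M = 2 * (1 / M) := by ring
  have d21 : (2.1 : ℝ) / M = 2.1 * (1 / M) := by ring
  have d22 : (2.2 : ℝ) / M = 2.2 * (1 / M) := by ring
  have d23 : (2.3 : ℝ) / M = 2.3 * (1 / M) := by ring
  have d24 : (2.4 : ℝ) / M = 2.4 * (1 / M) := by ring
  have d25 : (2.5 : ℝ) / M = 2.5 * (1 / M) := by ring
  have m8 : (8 : ℝ) ^ 8 ≤ M ^ 8 := pow_le_pow_left₀ (by norm_num) hM 8
  have m1 : M ≤ M ^ 8 := by simpa using big8 h (k := 1) (by norm_num)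
  have m2 := big8 h (k := 2) (by norm_num)
  have m3 := big8 h (k := 3) (by norm_num)
  have m5 := big8 h (k := 5) (by norm_num)
  have m20 : (8 : ℝ) ^ 12 * M ^ 8 ≤ R := by
    have h1 : (8 : ℝ) ^ 12 ≤ M ^ 12 := pow_le_pow_left₀ (by norm_num) hM 12
    have h2 : M ^ 12 * M ^ 8 = M ^ 20 := by ring
    calc (8 : ℝ) ^ 12 * M ^ 8 ≤ M ^ 12 * M ^ 8 := mul_le_mul_of_nonneg_right h1 (by positivity)
      _ = M ^ 20 := h2
      _ ≤ R := h.hR
  norm_num at m8 m20
  -- step 1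
  have z1 := step_le h (z_init h)
    (y' := ![5 + 2.1 / M, 3 * M ^ 3, 2 * R, 2 * M ^ 4 * R])
    (by intro i; fin_cases i <;> simp <;> positivity)
    (by
      show 4 + 2 / M + 2 / R + (R + M + 1) / R ≤ 5 + 2.1 / M
      have t := tiny h (t := M + 3) (by linarith)
      have e : 4 + 2 / M + 2 / R + (R + M + 1) / R = 5 + 2 / M + (M + 3) / R := by
        field_simp; ring
      rw [e]; linarith)
    (by
      show 4 + 2 / M + 2 / R + 2 * M ^ 4 * R / (M * R) ≤ 3 * M ^ 3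
      have t := tiny h (t := 2) (by linarith)
      have e : 2 * M ^ 4 * R / (M * R) = 2 * M ^ 3 := by field_simp
      have m : (8 : ℝ) ^ 3 ≤ M ^ 3 := pow_le_pow_left₀ (by norm_num) hM 3
      norm_num at m
      rw [e]; linarith)
    (by
      show R + M + 1 + M ^ 2 / R * (2 * M ^ 2 * R) ≤ 2 * R
      have e : M ^ 2 / R * (2 * M ^ 2 * R) = 2 * M ^ 4 := by field_simp
      have m4 := big8 h (k := 4) (by norm_num)
      rw [e]; linarith)
    (by
      show 2 * M ^ 4 * R ≤ 2 * M ^ 4 * R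
      exact le_rfl)
  -- step 2
  have z2 := step_le h z1
    (y' := ![5 + 2.2 / M, 6, 3 * M ^ 6, 2 * R])
    (by intro i; fin_cases i <;> simp <;> positivity)
    (by
      show 5 + 2.1 / M + 3 * M ^ 3 / R ≤ 5 + 2.2 / M
      have t := tiny h (t := 3 * M ^ 3) (by linarith)
      linarith)
    (by
      show 5 + 2.1 / M + 2 * R / (M * R) ≤ 6
      have e : 2 * R / (M * R) = 2 / M := by field_simp
      rw [e]; linarith)
    (by
      show 3 * M ^ 3 + M ^ 2 / R * (2 * M ^ 4 * R) ≤ 3 * M ^ 6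
      have e : M ^ 2 / R * (2 * M ^ 4 * R) = 2 * M ^ 6 := by field_simp
      have m : (8 : ℝ) ^ 3 ≤ M ^ 3 := pow_le_pow_left₀ (by norm_num) hM 3
      have e2 : M ^ 6 = M ^ 3 * M ^ 3 := by ring
      have m3' : 8 ^ 3 * M ^ 3 ≤ M ^ 3 * M ^ 3 := mul_le_mul_of_nonneg_right m (by positivity)
      norm_num at m3'
      rw [e, e2]; linarith)
    (by
      show 2 * R ≤ 2 * R
      exact le_rfl)
  -- step 3
  have z3 := step_le h z2
    (y' := ![5 + 2.3 / M, 5 + 2.3 / M, 3 * M ^ 2, 3 * M ^ 6])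
    (by intro i; fin_cases i <;> simp <;> positivity)
    (by
      show 5 + 2.2 / M + 6 / R ≤ 5 + 2.3 / M
      have t := tiny h (t := 6) (by linarith)
      linarith)
    (by
      show 5 + 2.2 / M + 3 * M ^ 6 / (M * R) ≤ 5 + 2.3 / M
      have t := tiny h (t := 3 * M ^ 5) (by linarith)
      have e : 3 * M ^ 6 / (M * R) = 3 * M ^ 5 / R := by field_simp
      rw [e]; linarith)
    (by
      show 6 + M ^ 2 / R * (2 * R) ≤ 3 * M ^ 2
      have e : M ^ 2 / R * (2 * R) = 2 * M ^ 2 := by field_simp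
      have m : (8 : ℝ) ^ 2 ≤ M ^ 2 := pow_le_pow_left₀ (by norm_num) hM 2
      norm_num at m
      rw [e]; linarith)
    (by
      show 3 * M ^ 6 ≤ 3 * M ^ 6
      exact le_rfl)
  -- step 4
  have z4 := step_le h z3
    (y' := ![5 + 2.4 / M, 5 + 2.4 / M, 5 + 2.4 / M, 3 * M ^ 2])
    (by intro i; fin_cases i <;> simp <;> positivity)
    (by
      show 5 + 2.3 / M + (5 + 2.3 / M) / R ≤ 5 + 2.4 / M
      have t := tiny h (t := 5 + 2.3 / M) (by linarith)
      linarith)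
    (by
      show 5 + 2.3 / M + 3 * M ^ 2 / (M * R) ≤ 5 + 2.4 / M
      have t := tiny h (t := 3 * M) (by linarith)
      have e : 3 * M ^ 2 / (M * R) = 3 * M / R := by field_simp
      rw [e]; linarith)
    (by
      show 5 + 2.3 / M + M ^ 2 / R * (3 * M ^ 6) ≤ 5 + 2.4 / M
      have t := tiny h (t := 3 * M ^ 8) le_rfl
      have e : M ^ 2 / R * (3 * M ^ 6) = 3 * M ^ 8 / R := by field_simp
      rw [e]; linarith)
    (by
      show 3 * M ^ 2 ≤ 3 * M ^ 2
      exact le_rfl)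
  -- step 5
  have z5 := step_le h z4
    (y' := ![5 + 2.5 / M, 5 + 2.5 / M, 5 + 2.5 / M, 5 + 2.5 / M])
    (by intro i; fin_cases i <;> simp <;> positivity)
    (by
      show 5 + 2.4 / M + (5 + 2.4 / M) / R ≤ 5 + 2.5 / M
      have t := tiny h (t := 5 + 2.4 / M) (by linarith)
      linarith)
    (by
      show 5 + 2.4 / M + (5 + 2.4 / M) / (M * R) ≤ 5 + 2.5 / M
      have t := tiny h (t := 5 + 2.4 / M) (by linarith)
      have e : (5 + 2.4 / M) / (M * R) ≤ (5 + 2.4 / M) / R := by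
        refine div_le_div_of_nonneg_left (by positivity) hR0 ?_
        nlinarith
      linarith)
    (by
      show 5 + 2.4 / M + M ^ 2 / R * (3 * M ^ 2) ≤ 5 + 2.5 / M
      have m4 := big8 h (k := 4) (by norm_num)
      have t := tiny h (t := 3 * M ^ 4) (by linarith)
      have e : M ^ 2 / R * (3 * M ^ 2) = 3 * M ^ 4 / R := by field_simp
      rw [e]; linarith)
    (by
      show 5 + 2.4 / M ≤ 5 + 2.5 / M
      linarith)
  have z6 : ∀ i : Fin 4, (bS M R l)^[5] (zS M R l) i ≤ (5 + 3 / M) * phS l p q i := by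
    refine le_phS h (by positivity) fun i => (z5 i).trans ?_
    have d3 : (3 : ℝ) / M = 3 * (1 / M) := by ring
    have e : 5 + 2.5 / M ≤ 5 + 3 / M := by linarith
    fin_cases i <;> exact e
  obtain ⟨j, rfl⟩ : ∃ j, n = j + 5 := ⟨n - 5, by omega⟩
  rw [Function.iterate_add_apply]
  exact it_le_phS h z6 j i

end Pool.Agent.Lib.MP_dbb03c_co.Gen
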