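import Pool.Agent.Lib.MP_dbb03c_co.Gen.SVal
import Pool.Agent.Lib.MP_dbb03c_co.Gen.SBt

/-! # Lower bounds for all rooted trees -/

set_option autoImplicit false

namespace Pool.Agent.Lib.MP_dbb03c_co.Gen

open Real

variable {M R l p q : ℝ}

private theorem inv_M (h : Par M R l p q) : 1 / M ^ 3 ≤ 1 / 512 := by
  have h1 : (8 : ℝ) ^ 3 ≤ M ^ 3 := pow_le_pow_left₀ (by norm_num) h.hM 3
  have h2 : (1 : ℝ) / M ^ 3 ≤ 1 / 8 ^ 3 := one_div_le_one_div_of_le (by norm_num) h1
  norm_num at h2 ⊢
  exact h2

private theorem inv_M_pos (h : Par M R l p q) : 0 < 1 / M ^ 3 := by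
  have h1 := h.hM
  positivity

theorem log5_le (h : Par M R l p q) : log 5 ≤ 3 * (log 2 - 1 / M ^ 3) := by
  have h1 := inv_M h
  have h2 : log (8 : ℝ) = 3 * log 2 := by
    rw [show (8 : ℝ) = 2 ^ 3 by norm_num, log_pow]
    norm_num
  have h3 : log (8 / 5 : ℝ) = log 8 - log 5 := log_div (by norm_num) (by norm_num)
  have h4 : 1 - (8 / 5 : ℝ)⁻¹ ≤ log (8 / 5) := one_sub_inv_le_log_of_pos (by norm_num)
  norm_num at h4
  linarith

private theorem c2_pos (h : Par M R l p q) : 0 ≤ log 2 - 1 / M ^ 3 := by
  have h1 := log5_le h
  have h2 : (0 : ℝ) ≤ log 5 := log_nonneg (by norm_num)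
  linarith

/-- every leaf contributes at least `log 2 - 1 / M ^ 3` (as `LP_vec` in `Pi4`) -/
theorem LS_leaves (h : Par M R l p q) (t : RT) :
    (log 2 - 1 / M ^ 3) * (t.lv : ℝ) ≤ LS M R l p q (vS M R l t) := by
  induction t with
  | one => simp [RT.lv, vS, LS_one]
  | gr s t hs ht =>
    have h1 : LS M R l p q (vS M R l (.gr s t))
        = LS M R l p q (vS M R l s) + LS M R l p q (bS M R l (vS M R l t)) :=
      LS_mul h (vS_pos h s) (bS_pos h (vS_pos h t))
    have h2 : (log 2 - 1 / M ^ 3) * ((max 1 t.lv : ℕ) : ℝ)
        ≤ LS M R l p q (bS M R l (vS M R l t)) := by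
      cases t with
      | one =>
        have := val_leaf h
        simpa [RT.lv, vS] using this
      | gr a b =>
        have h3 : max 1 (RT.gr a b).lv = (RT.gr a b).lv := by
          simp only [RT.lv]
          omega
        rw [h3]
        exact ht.trans (LS_bS h (vS_pos h _))
    rw [h1]
    simp only [RT.lv, Nat.cast_add]
    rw [mul_add]
    exact add_le_add hs h2

theorem eq_one_of_lv {t : RT} (h : t.lv = 0) : t = RT.one := by
  cases t with
  | one => rfl
  | gr s t =>
    exfalso
    simp only [RT.lv] at h
    omega

private theorem eq_one_of_dep {t : RT} (h : t.dep = 0) : t = RT.one := by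
  cases t with
  | one => rfl
  | gr s t =>
    exfalso
    simp only [RT.dep] at h
    omega

private theorem oS_mul (x : V4) : oS * x = x := by
  funext i
  simp [oS]

/-- a tree with at most one leaf (apart from the root) is a path -/
theorem vS_of_lv_one {t : RT} (h : t.lv ≤ 1) : vS M R l t = (bS M R l)^[t.dep] oS := by
  induction t with
  | one => rfl
  | gr s t hs ht =>
    simp only [RT.lv] at h
    have h1 : s = RT.one := eq_one_of_lv (by omega)
    subst h1
    have h2 := ht (by omega)
    have h3 : (RT.gr RT.one t).dep = t.dep + 1 := by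
      simp only [RT.dep]
      omega
    rw [h3, Function.iterate_succ_apply', ← h2]
    exact oS_mul _

private theorem one_pos' (i : Fin 4) : 0 < oS i := by
  simp [oS]

private theorem LS_it_nonneg (h : Par M R l p q) (n : ℕ) :
    0 ≤ LS M R l p q ((bS M R l)^[n] oS) := by
  induction n with
  | zero =>
    simp [LS_one]
  | succ n ih =>
    rw [Function.iterate_succ_apply']
    exact ih.trans (LS_bS h (itS_pos h n one_pos'))

private theorem LS_it_three (h : Par M R l p q) (n : ℕ) :
    log 5 ≤ LS M R l p q ((bS M R l)^[n + 3] oS) := by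
  induction n with
  | zero => exact val_path h
  | succ n ih =>
    rw [show n + 1 + 3 = (n + 3) + 1 by ring, Function.iterate_succ_apply']
    exact ih.trans (LS_bS h (itS_pos h _ one_pos'))

/-- Main step: a branch of depth at least 2 contributes at least `log 5 - 1 / M ^ 3`.
Induction on `t`. If `3 ≤ t.lv` use `LS_bS`, `LS_leaves`, `log5_le`. Otherwise `t = gr s t'` and
(a) `s.lv = 0`: `vS t = oS * bS (vS t')`; if `2 ≤ t'.dep` use the induction hypothesis and `LS_bS`; if
`t'.dep = 1` then `t'` is `gr one one` (`val_path`) or has two leaves and `vS t' = bS oS * bS oS`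
(`val_11`); (b) `s.lv = 1`, `t'.lv ≤ 1`: `s = gr one s'` with `s'.lv ≤ 1`, so
`vS t = bS^[a + 1] oS * bS^[b + 1] oS`, `a = s'.dep`, `b = t'.dep`, `max a b ≥ 1`: if `max a b ≥ 2` use
`val_path`, `LS_mul`, `LS_bS`; `{a, b} = {0, 1}` is `val_E`, `a = b = 1` is `val_22`. -/
theorem LS_branch (h : Par M R l p q) (t : RT) (ht : 2 ≤ t.dep) :
    log 5 - 1 / M ^ 3 ≤ LS M R l p q (bS M R l (vS M R l t)) := by
  have hM := inv_M_pos h
  induction t with
  | one => simp [RT.dep] at ht
  | gr s t ihs iht =>
    rcases Nat.lt_or_ge 2 (RT.gr s t).lv with h3 | h3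
    · have h1 := LS_leaves h (RT.gr s t)
      have h2 := LS_bS h (vS_pos h (RT.gr s t))
      have h4 : (3 : ℝ) ≤ ((RT.gr s t).lv : ℝ) := by exact_mod_cast h3
      have h5 := mul_le_mul_of_nonneg_left h4 (c2_pos h)
      have h6 := log5_le h
      linarith
    · simp only [RT.lv] at h3
      simp only [RT.dep] at ht
      rcases Nat.eq_zero_or_pos s.lv with h0 | h0
      · have h1 := eq_one_of_lv h0
        subst h1
        have h2 : vS M R l (RT.gr RT.one t) = bS M R l (vS M R l t) := oS_mul _
        rw [h2]
        simp only [RT.dep] at ht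
        rcases Nat.lt_or_ge t.dep 2 with hd | hd
        · cases t with
          | one => simp [RT.dep] at ht
          | gr a b =>
            simp only [RT.lv] at h3
            simp only [RT.dep] at hd
            have hb : b = RT.one := eq_one_of_dep (by omega)
            subst hb
            have ha := vS_of_lv_one (M := M) (R := R) (l := l) (t := a) (by omega)
            have hv : vS M R l (RT.gr a RT.one) = vS M R l a * bS M R l oS := rfl
            have hda : a.dep = 0 ∨ a.dep = 1 := by omega
            rcases hda with hda | hda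
            · rw [hda] at ha
              rw [hv, ha]
              have e1 : (bS M R l)^[0] oS * bS M R l oS = bS M R l oS := oS_mul _
              rw [e1]
              have := val_path h
              have e2 : (bS M R l)^[3] oS = bS M R l (bS M R l (bS M R l oS)) := rfl
              rw [e2] at this
              linarith
            · rw [hda] at ha
              rw [hv, ha]
              have := val_11 h
              have e1 : (bS M R l)^[1] oS = bS M R l oS := rfl
              rw [e1]
              linarith
        · exact (iht hd).trans (LS_bS h (bS_pos h (vS_pos h t)))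
      · have ha := vS_of_lv_one (M := M) (R := R) (l := l) (t := s) (by omega)
        have hb := vS_of_lv_one (M := M) (R := R) (l := l) (t := t) (by omega)
        have hsd : 1 ≤ s.dep := by
          rcases Nat.eq_zero_or_pos s.dep with h1 | h1
          · rw [eq_one_of_dep h1] at h0
            simp [RT.lv] at h0
          · exact h1
        have hv : vS M R l (RT.gr s t) = (bS M R l)^[s.dep] oS * (bS M R l)^[t.dep + 1] oS := by
          rw [Function.iterate_succ_apply', ← ha, ← hb]
          rfl
        rw [hv]
        have hp1 : ∀ i, 0 < ((bS M R l)^[s.dep] oS) i := itS_pos h _ one_pos'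
        have hp2 : ∀ i, 0 < ((bS M R l)^[t.dep + 1] oS) i := itS_pos h _ one_pos'
        have hm := LS_mul h hp1 hp2
        have hbb := LS_bS h (x := (bS M R l)^[s.dep] oS * (bS M R l)^[t.dep + 1] oS)
          (fun i => mul_pos (hp1 i) (hp2 i))
        have hn1 := LS_it_nonneg h s.dep
        have hn2 := LS_it_nonneg h (t.dep + 1)
        by_cases hs3 : 3 ≤ s.dep
        · obtain ⟨n, hn⟩ := Nat.exists_eq_add_of_le hs3
          have h5 := LS_it_three h n
          rw [show n + 3 = s.dep by omega] at h5
          linarith
        · by_cases ht3 : 3 ≤ t.dep + 1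
          · obtain ⟨n, hn⟩ := Nat.exists_eq_add_of_le ht3
            have h5 := LS_it_three h n
            rw [show n + 3 = t.dep + 1 by omega] at h5
            linarith
          · have hc : (s.dep = 1 ∧ t.dep = 1) ∨ (s.dep = 2 ∧ t.dep = 0) ∨
                (s.dep = 2 ∧ t.dep = 1) := by omega
            rcases hc with ⟨e1, e2⟩ | ⟨e1, e2⟩ | ⟨e1, e2⟩
            · rw [e1, e2]
              exact val_E h
            · rw [e1, e2, mul_comm]
              exact val_E h
            · rw [e1, e2]
              have := val_22 h
              have e3 : (bS M R l)^[1 + 1] oS = (bS M R l)^[2] oS := rfl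
              rw [e3]
              linarith

/-- induction -/
theorem LS_Bt (h : Par M R l p q) (t : RT) :
    (log 5 - 1 / M ^ 3) * (Bt t : ℝ) ≤ LS M R l p q (vS M R l t) := by
  induction t with
  | one => simp [Bt, vS, LS_one]
  | gr s t hs ht =>
    have h1 : LS M R l p q (vS M R l (.gr s t))
        = LS M R l p q (vS M R l s) + LS M R l p q (bS M R l (vS M R l t)) :=
      LS_mul h (vS_pos h s) (bS_pos h (vS_pos h t))
    have h2 : (log 5 - 1 / M ^ 3) * ((max (Bt t) (if 2 ≤ t.dep then 1 else 0) : ℕ) : ℝ)
        ≤ LS M R l p q (bS M R l (vS M R l t)) := by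
      rcases le_total (if 2 ≤ t.dep then 1 else 0) (Bt t) with h3 | h3
      · rw [max_eq_left h3]
        exact ht.trans (LS_bS h (vS_pos h _))
      · by_cases hd : 2 ≤ t.dep
        · rw [max_eq_right h3, if_pos hd]
          simpa using LS_branch h t hd
        · rw [if_neg hd] at h3
          rw [if_neg hd, max_eq_left (Nat.zero_le _)]
          exact ht.trans (LS_bS h (vS_pos h _))
    rw [h1]
    simp only [Bt, Nat.cast_add]
    rw [mul_add]
    exact add_le_add hs h2

end Pool.Agent.Lib.MP_dbb03c_co.Gen
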