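import Mathlib

/-! # The choice of `M` -/

set_option autoImplicit false

namespace Pool.Agent.Lib.MP_dbb03c_co.Gen

open Real

private theorem sq_le (k : ℕ) : k * k ≤ 3 * 5 ^ k := by
  induction k with
  | zero => norm_num
  | succ n ih =>
    rcases Nat.eq_zero_or_pos n with rfl | hn
    · norm_num
    · rw [pow_succ]
      nlinarith

/-- `M = Nat.sqrt (3 * 5 ^ k)` has `2 * 5 ^ k ≤ M ^ 2 ≤ 3 * 5 ^ k` and `(M + 3) ^ 2 ≤ 0.78 * 5 ^ (k + 1)`.
Then `(5 + 3 / M) ^ k ≤ 5 ^ k * exp (0.6 * k / M) < 2 * 5 ^ k` (`k ≤ M`), and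
`2 * log (M + 3) ≤ (k + 1) * log 5 + log 0.78 ≤ (k + 1) * log 5 - 0.2`, `(k + 1) / M ^ 3 ≤ 0.2`.
(For `k = 3`: `M = 19`, `22 ^ 2 = 484 ≤ 487.5`.) -/
theorem exists_M (k : ℕ) (hk : 3 ≤ k) : ∃ M : ℕ, 8 ≤ M ∧ (5 + 3 / (M : ℝ)) ^ k < (M : ℝ) ^ 2 ∧
    2 * log ((M : ℝ) + 3) ≤ (k + 1) * (log 5 - 1 / (M : ℝ) ^ 3) := by
  set M : ℕ := Nat.sqrt (3 * 5 ^ k) with hM
  have h5 : 5 ^ 3 ≤ 5 ^ k := Nat.pow_le_pow_right (by norm_num) hk
  have hM19 : 19 ≤ M := Nat.le_sqrt.2 (by omega)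
  have hup : M * M ≤ 3 * 5 ^ k := Nat.sqrt_le _
  have hlo : 3 * 5 ^ k < (M + 1) * (M + 1) := Nat.lt_succ_sqrt _
  have hkM : k ≤ M := Nat.le_sqrt.2 (sq_le k)
  have hd : 50 * ((M + 3) * (M + 3)) ≤ 39 * 5 ^ (k + 1) := by
    rcases Nat.lt_or_ge k 4 with h4 | h4
    · have hk3 : k = 3 := by omega
      subst hk3
      have : M ≤ 19 := by nlinarith
      have : M = 19 := le_antisymm this hM19
      rw [this]
      norm_num
    · have h54 : 5 ^ 4 ≤ 5 ^ k := Nat.pow_le_pow_right (by norm_num) h4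
      have hM43 : 43 ≤ M := Nat.le_sqrt.2 (by omega)
      rw [pow_succ]
      nlinarith
  have hMr : (19 : ℝ) ≤ M := by exact_mod_cast hM19
  have hM0 : (0 : ℝ) < M := by linarith
  have hlor : 3 * (5 : ℝ) ^ k < ((M : ℝ) + 1) * (M + 1) := by exact_mod_cast hlo
  have hdr : 50 * (((M : ℝ) + 3) * (M + 3)) ≤ 39 * 5 ^ (k + 1) := by exact_mod_cast hd
  have hkr : (k : ℝ) ≤ M := by exact_mod_cast hkM
  have h5p : (0 : ℝ) < 5 ^ k := by positivity
  have h5q : (0 : ℝ) < 5 ^ (k + 1) := by positivity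
  refine ⟨M, by omega, ?_, ?_⟩
  · have h1 : (5 + 3 / (M : ℝ)) = 5 * (3 / (5 * M) + 1) := by
      field_simp
      ring
    have h2 : (3 / (5 * (M : ℝ)) + 1) ^ k ≤ 2 := by
      calc (3 / (5 * (M : ℝ)) + 1) ^ k ≤ (exp (3 / (5 * M))) ^ k :=
            pow_le_pow_left₀ (by positivity) (add_one_le_exp _) k
        _ = exp (k * (3 / (5 * M))) := by rw [← exp_nat_mul]
        _ ≤ exp (3 / 5) := by
            apply exp_le_exp.2
            rw [← mul_div_assoc, div_le_div_iff₀ (by positivity) (by norm_num)]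
            nlinarith
        _ ≤ 2 := by
            rw [← le_log_iff_exp_le (by norm_num)]
            have := Real.log_two_gt_d9
            linarith
    rw [h1, mul_pow]
    have h3 : (5 : ℝ) ^ k * (3 / (5 * (M : ℝ)) + 1) ^ k ≤ 5 ^ k * 2 :=
      mul_le_mul_of_nonneg_left h2 h5p.le
    nlinarith
  · have h1 : 2 * log ((M : ℝ) + 3) = log (((M : ℝ) + 3) * (M + 3)) := by
      rw [log_mul (by positivity) (by positivity)]
      ring
    have h2 : log (((M : ℝ) + 3) * (M + 3)) ≤ log ((39 / 50) * 5 ^ (k + 1)) :=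
      log_le_log (by positivity) (by linarith)
    have h3 : log ((39 / 50 : ℝ) * 5 ^ (k + 1)) = log (39 / 50) + (k + 1) * log 5 := by
      rw [log_mul (by norm_num) (by positivity), log_pow]
      push_cast
      ring
    have h4 : log (39 / 50 : ℝ) ≤ 39 / 50 - 1 := log_le_sub_one_of_pos (by norm_num)
    have h5 : ((k : ℝ) + 1) * (1 / (M : ℝ) ^ 3) ≤ 1 / 5 := by
      rw [← mul_div_assoc, mul_one, div_le_div_iff₀ (by positivity) (by norm_num)]
      have : (19 : ℝ) ^ 2 ≤ (M : ℝ) ^ 2 := pow_le_pow_left₀ (by norm_num) hMr 2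
      nlinarith
    rw [h1, mul_sub]
    linarith

end Pool.Agent.Lib.MP_dbb03c_co.Gen
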