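import Pool.Agent.Lib.MP_dbb03c_co.Gen.SOp
import Pool.Agent.Lib.MP_dbb03c_co.Gen.Jen

/-! # The logarithmic mean -/

set_option autoImplicit false

namespace Pool.Agent.Lib.MP_dbb03c_co.Gen

open Real

variable {M R l p q : ℝ}

/-- the squared norm of the eigenvector -/
noncomputable def nS (M R l p q : ℝ) : ℝ := ∑ i, wS M R i * phS l p q i ^ 2

/-- the logarithmic mean with the weights `wS * phS ^ 2` -/
noncomputable def LS (M R l p q : ℝ) (x : V4) : ℝ :=
  (∑ i, wS M R i * phS l p q i ^ 2 * log (x i)) / nS M R l p q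

private theorem nS_eq : nS M R l p q
    = 1 + R * p ^ 2 + R ^ 2 / M * q ^ 2 + M * R ^ 3 * (q / l) ^ 2 := by
  simp [nS, Fin.sum_univ_four, wS, phS]

/-- `nS = 1 + R * p ^ 2 + R ^ 2 / M * q ^ 2 + M * R ^ 3 * (q / l) ^ 2` -/
theorem nS_bd (h : Par M R l p q) : 1 ≤ nS M R l p q ∧ nS M R l p q ≤ 1 + 2 / R := by
  have hM := h.hM
  have hR := h.R_pos
  have hR8 := h.R_big
  have hl := h.l_pos
  have hp := h.hp
  have hq := h.hq
  have hM0 : 0 < M := by linarith
  rw [nS_eq]
  constructor
  · have h1 : 0 ≤ R * p ^ 2 := by positivity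
    have h2 : 0 ≤ R ^ 2 / M * q ^ 2 := by positivity
    have h3 : 0 ≤ M * R ^ 3 * (q / l) ^ 2 := by positivity
    linarith
  · have hM5 : 1 / M ^ 5 ≤ 1 / 10 := by
      have : (8 : ℝ) ^ 5 ≤ M ^ 5 := pow_le_pow_left₀ (by norm_num) hM 5
      apply one_div_le_one_div_of_le (by norm_num)
      linarith
    have hp1 : p ≤ (11 / 10) / R := h.p_hi.trans (by gcongr; linarith)
    have hq1 : q ≤ (11 / 10) / R ^ 2 := h.q_hi.trans (by gcongr; linarith)
    have hql : q / l ≤ (11 / 10) / R ^ 3 := by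
      calc q / l ≤ ((11 / 10) / R ^ 2) / R := by
            have := h.hl
            gcongr
        _ = _ := by field_simp
    have h1 : R * p ^ 2 ≤ (121 / 100) / R := by
      calc R * p ^ 2 ≤ R * ((11 / 10) / R) ^ 2 := by gcongr
        _ = _ := by field_simp; ring
    have h2 : R ^ 2 / M * q ^ 2 ≤ (1 / 10) / R := by
      calc R ^ 2 / M * q ^ 2 ≤ R ^ 2 / M * ((11 / 10) / R ^ 2) ^ 2 := by gcongr
        _ = (121 / 100 / M / R) / R := by field_simp; ring
        _ ≤ (1 / 10) / R := by
            have hR9 : (8 : ℝ) ^ 20 ≤ R := hR8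
            have h6 : 121 / 100 / M / R ≤ 1 / 10 := by
              rw [div_div, div_le_iff₀ (by positivity)]
              nlinarith
            exact div_le_div_of_nonneg_right h6 hR.le
    have h3 : M * R ^ 3 * (q / l) ^ 2 ≤ (1 / 10) / R := by
      have hMR : M ≤ R := by
        have h5 : M ^ 1 ≤ M ^ 20 := pow_le_pow_right₀ (by linarith) (by norm_num)
        have h6 := h.hR
        linarith
      calc M * R ^ 3 * (q / l) ^ 2 ≤ M * R ^ 3 * ((11 / 10) / R ^ 3) ^ 2 := by gcongr
        _ = (M * (121 / 100) / R ^ 2) / R := by field_simp; ring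
        _ ≤ (1 / 10) / R := by
            have h6 : M * (121 / 100) / R ^ 2 ≤ 1 / 10 := by
              rw [div_le_iff₀ (by positivity)]
              nlinarith
            exact div_le_div_of_nonneg_right h6 hR.le
    have h4 : (2 : ℝ) / R = (121 / 100) / R + (1 / 10) / R + (1 / 10) / R + (59 / 100) / R := by
      field_simp; norm_num
    have h5 : 0 ≤ (59 / 100) / R := by positivity
    linarith

theorem nS_pos (h : Par M R l p q) : 0 < nS M R l p q :=
  lt_of_lt_of_le one_pos (nS_bd h).1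

theorem LS_one : LS M R l p q oS = 0 := by
  simp [LS, oS]

theorem LS_mul (h : Par M R l p q) {x y : V4} (hx : ∀ i, 0 < x i) (hy : ∀ i, 0 < y i) :
    LS M R l p q (x * y) = LS M R l p q x + LS M R l p q y := by
  unfold LS
  rw [← add_div, ← Finset.sum_add_distrib]
  congr 1
  refine Finset.sum_congr rfl fun i _ => ?_
  rw [Pi.mul_apply, Real.log_mul (hx i).ne' (hy i).ne']
  ring

/-- the matrix of `opS` -/
private noncomputable def mS (M R : ℝ) : Fin 4 → Fin 4 → ℝ :=
  ![![R, R, 0, 0], ![1, 0, R / M, 0], ![0, 1, 0, M ^ 2 * R], ![0, 0, 1, 0]]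

private theorem mS_mul (x : V4) (i : Fin 4) : ∑ j, mS M R i j * x j = opS M R x i := by
  fin_cases i <;> simp [Fin.sum_univ_four, mS, opS]

/-- `jensen` for the 4x4 matrix of `opS`: no loss -/
theorem LS_bS (h : Par M R l p q) {x : V4} (hx : ∀ i, 0 < x i) :
    LS M R l p q x ≤ LS M R l p q (bS M R l x) := by
  have hM := h.hM
  have hR := h.R_pos
  have hl := h.l_pos
  have hM0 : 0 < M := by linarith
  have hn := nS_pos h
  have hs : ∀ i j, wS M R i * mS M R i j = wS M R j * mS M R j i := by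
    intro i j
    fin_cases i <;> fin_cases j <;> simp [wS, mS] <;> field_simp
  have he : ∀ i, ∑ j, mS M R i j * phS l p q j = l * phS l p q i := by
    intro i
    rw [mS_mul]
    have h0 := h.e0
    have h1 := h.e1
    have h2 := h.e2
    fin_cases i
    · simp [opS, phS]; linarith
    · simp [opS, phS]; linarith
    · simp [opS, phS]; linarith
    · simp [opS, phS]; field_simp
  have hm : ∀ i j, 0 ≤ mS M R i j := by
    intro i j
    fin_cases i <;> fin_cases j <;> simp [mS] <;> positivity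
  have key := jensen (mS M R) (wS M R) (phS l p q) l hm (wS_pos h) hs (phS_pos h) hl he x hx
  have hop : ∀ i, 0 < opS M R x i := by
    intro i
    have h1 := bS_pos h hx i
    unfold bS at h1
    have h2 := mul_pos h1 hl
    rwa [div_mul_cancel₀ _ hl.ne'] at h2
  unfold LS
  rw [div_le_div_iff_of_pos_right hn]
  have h1 : ∑ i, wS M R i * phS l p q i ^ 2 * log (bS M R l x i)
      = ∑ i, wS M R i * phS l p q i ^ 2 * log (∑ j, mS M R i j * x j)
        - (∑ i, wS M R i * phS l p q i ^ 2) * log l := by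
    rw [Finset.sum_mul, ← Finset.sum_sub_distrib]
    refine Finset.sum_congr rfl fun i _ => ?_
    rw [mS_mul]
    unfold bS
    rw [Real.log_div (hop i).ne' hl.ne']
    ring
  rw [h1]
  linarith

/-- `exp_le_mean` with `w = wS * phS ^ 2`, and `phS ≤ 1` -/
theorem ipS_ge (h : Par M R l p q) {x : V4} (hx : ∀ i, 0 < x i) :
    nS M R l p q * exp (LS M R l p q x) ≤ ipS M R oS x := by
  have key := exp_le_mean (fun i => wS M R i * phS l p q i ^ 2) x
    (fun i => mul_pos (wS_pos h i) (pow_pos (phS_pos h i) 2)) hx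
  refine key.trans ?_
  unfold ipS
  refine Finset.sum_le_sum fun i _ => ?_
  have h1 := wS_pos h i
  have h2 := phS_pos h i
  have h3 := phS_le_one h i
  have h4 : phS l p q i ^ 2 ≤ 1 := pow_le_one₀ h2.le h3
  have h5 := hx i
  calc wS M R i * phS l p q i ^ 2 * x i ≤ wS M R i * 1 * x i := by gcongr
    _ = _ := by simp [oS]

/-- The levels 1, 2, 3 have total weight at most `2 / R`, and there `log (x i) ≥ -6 * log R`:
`LS x ≥ (log c - 12 * log R / R) / nS ≥ log c - 14 * log R / R`, `log R ≤ 2 * √R`, `28 / √R ≤ 1 / M ^ 4`. -/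
theorem LS_low (h : Par M R l p q) {x : V4} {c : ℝ} (h1 : 1 ≤ c) (hc : c ≤ R) (h0 : c ≤ x 0)
    (hx : ∀ i, 1 / R ^ 6 ≤ x i) : log c - 1 / M ^ 4 ≤ LS M R l p q x := by
  have hM := h.hM
  have hR := h.R_pos
  have hM0 : 0 < M := by linarith
  have hn := nS_pos h
  obtain ⟨hn1, hn2⟩ := nS_bd h
  have hR1 : 1 ≤ R := h1.trans hc
  have hlR : 0 ≤ log R := Real.log_nonneg hR1
  have hlc : 0 ≤ log c := Real.log_nonneg h1
  have hlcR : log c ≤ log R := Real.log_le_log (by linarith) hc
  have hlx : ∀ i, -(6 * log R) ≤ log (x i) := by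
    intro i
    have h2 : log (1 / R ^ 6) ≤ log (x i) := Real.log_le_log (by positivity) (hx i)
    rw [one_div, Real.log_inv, Real.log_pow] at h2
    push_cast at h2
    exact h2
  have hlx0 : log c ≤ log (x 0) := Real.log_le_log (by linarith) h0
  -- the numerator
  have hnum : log c - (nS M R l p q - 1) * (6 * log R)
      ≤ ∑ i, wS M R i * phS l p q i ^ 2 * log (x i) := by
    have h3 : ∀ i, 0 ≤ wS M R i * phS l p q i ^ 2 := fun i =>
      mul_nonneg (wS_pos h i).le (sq_nonneg _)
    have h4 : wS M R 0 * phS l p q 0 ^ 2 = 1 := by simp [wS, phS]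
    have h5 : nS M R l p q = 1 + wS M R 1 * phS l p q 1 ^ 2 + wS M R 2 * phS l p q 2 ^ 2
        + wS M R 3 * phS l p q 3 ^ 2 := by
      unfold nS
      rw [Fin.sum_univ_four, h4]
    rw [Fin.sum_univ_four, h4, h5]
    have e1 := mul_le_mul_of_nonneg_left (hlx 1) (h3 1)
    have e2 := mul_le_mul_of_nonneg_left (hlx 2) (h3 2)
    have e3 := mul_le_mul_of_nonneg_left (hlx 3) (h3 3)
    linarith
  -- log R is small
  have hlog : 14 * log R / R ≤ 1 / M ^ 4 := by
    have hs0 : 0 < √R := Real.sqrt_pos.2 hR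
    have hss : √R * √R = R := Real.mul_self_sqrt hR.le
    have h6 : log R ≤ 2 * √R := by
      have h7 : log (√R) ≤ √R - 1 := Real.log_le_sub_one_of_pos hs0
      have h8 : log R = 2 * log (√R) := by
        rw [Real.log_sqrt hR.le]
        ring
      linarith
    have h9 : M ^ 10 ≤ √R := by
      apply Real.le_sqrt_of_sq_le
      have := h.hR
      calc (M ^ 10) ^ 2 = M ^ 20 := by ring
        _ ≤ R := this
    have h10 : 28 * M ^ 4 ≤ √R := by
      have h11 : (8 : ℝ) ^ 6 ≤ M ^ 6 := pow_le_pow_left₀ (by norm_num) hM 6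
      have h12 : M ^ 10 = M ^ 6 * M ^ 4 := by ring
      have h13 : 0 < M ^ 4 := by positivity
      nlinarith
    rw [div_le_div_iff₀ hR (by positivity)]
    have h14 : 0 < M ^ 4 := by positivity
    calc 14 * log R * M ^ 4 ≤ 14 * (2 * √R) * M ^ 4 := by gcongr
      _ = (28 * M ^ 4) * √R := by ring
      _ ≤ √R * √R := by gcongr
      _ = 1 * R := by rw [hss, one_mul]
  unfold LS
  rw [le_div_iff₀ hn]
  refine le_trans ?_ hnum
  have hM4 : 0 < 1 / M ^ 4 := by positivity
  have e1 : (nS M R l p q - 1) * (6 * log R) ≤ (2 / R) * (6 * log R) := by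
    gcongr
    linarith
  have e2 : (nS M R l p q - 1) * log c ≤ (2 / R) * log R := by
    have : nS M R l p q - 1 ≤ 2 / R := by linarith
    have h0' : 0 ≤ nS M R l p q - 1 := by linarith
    gcongr
  have e3 : 1 / M ^ 4 ≤ 1 / M ^ 4 * nS M R l p q := by nlinarith
  have e4 : 14 * log R / R = (2 / R) * (6 * log R) + (2 / R) * log R := by ring
  nlinarith

end Pool.Agent.Lib.MP_dbb03c_co.Gen
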