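import Pool.Agent.Lib.MP_dbb03c_co.Gen.SStep

/-! # Lower bound for the path vector -/

set_option autoImplicit false

namespace Pool.Agent.Lib.MP_dbb03c_co.Gen

variable {M R l p q : ℝ}

private theorem bS_vec (a b c d : ℝ) : bS M R l ![a, b, c, d] =
    ![(R * a + R * b) / l, (a + R / M * c) / l, (b + M ^ 2 * R * d) / l, c / l] := by
  funext i
  fin_cases i <;> rfl

private theorem oS_vec : oS = ![1, 1, 1, 1] := by
  funext i
  fin_cases i <;> rfl

private theorem three (h : Par M R l p q) (i : Fin 4) : M * phS l p q i ≤ (bS M R l)^[3] oS i := by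
  have hM := h.hM
  have hM0 : 0 < M := lt_of_lt_of_le (by norm_num) hM
  have hR := h.R_pos
  have hl := h.l_pos
  have hp := h.hp
  have hq := h.hq
  have hR1 : 1 ≤ R := le_trans (by norm_num) h.R_big
  have hl3 := h.l_pow (k := 3) (by norm_num)
  have hl2 := h.l_pow (k := 2) (by norm_num)
  have hph := h.p_hi
  have hqh := h.q_hi
  set e : ℝ := 1 / M ^ 5 with he
  have he0 : 0 ≤ e := by positivity
  have heM : M * e ≤ 1 / 4096 := by
    rw [he, mul_one_div, div_le_div_iff₀ (by positivity) (by norm_num)]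
    have h4 : (8 : ℝ) ^ 4 ≤ M ^ 4 := pow_le_pow_left₀ (by norm_num) hM 4
    nlinarith [mul_le_mul_of_nonneg_left h4 hM0.le]
  have he1 : e ≤ 1 / 4096 := by
    have : e ≤ M * e := by nlinarith
    linarith
  have hee : (1 + e) * (1 + e) ≤ 1 + 3 * e := by nlinarith
  have hvec : (bS M R l)^[3] oS = ![(R * ((R * ((R * 1 + R * 1) / l) + R * ((1 + R / M * 1) / l)) / l)
      + R * (((R * 1 + R * 1) / l + R / M * ((1 + M ^ 2 * R * 1) / l)) / l)) / l,
      ((R * ((R * 1 + R * 1) / l) + R * ((1 + R / M * 1) / l)) / l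
        + R / M * (((1 + R / M * 1) / l + M ^ 2 * R * (1 / l)) / l)) / l,
      (((R * 1 + R * 1) / l + R / M * ((1 + M ^ 2 * R * 1) / l)) / l
        + M ^ 2 * R * (((1 + M ^ 2 * R * 1) / l) / l)) / l,
      (((1 + R / M * 1) / l + M ^ 2 * R * (1 / l)) / l) / l] := by
    rw [Function.iterate_succ_apply', Function.iterate_succ_apply', Function.iterate_succ_apply',
      Function.iterate_zero_apply, oS_vec, bS_vec, bS_vec, bS_vec]
  have hRM : 0 < R / M := div_pos hR hM0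
  have hRM2 : R / M * (M ^ 2 * R) = M * R ^ 2 := by
    field_simp
  rw [hvec]
  fin_cases i
  · show M * 1 ≤ (R * ((R * ((R * 1 + R * 1) / l) + R * ((1 + R / M * 1) / l)) / l)
      + R * (((R * 1 + R * 1) / l + R / M * ((1 + M ^ 2 * R * 1) / l)) / l)) / l
    have e1 : (R * ((R * ((R * 1 + R * 1) / l) + R * ((1 + R / M * 1) / l)) / l)
      + R * (((R * 1 + R * 1) / l + R / M * ((1 + M ^ 2 * R * 1) / l)) / l)) / l
        = (R ^ 2 * (2 * R + 1 + R / M) + R * (2 * R + R / M + R / M * (M ^ 2 * R))) / l ^ 3 := by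
      field_simp
      ring
    rw [e1, hRM2, le_div_iff₀ (by positivity)]
    have a1 : M * l ^ 3 ≤ M * ((1 + e) * R ^ 3) := mul_le_mul_of_nonneg_left hl3 hM0.le
    have a2 : M * ((1 + e) * R ^ 3) ≤ (M + 2) * R ^ 3 := by
      have : M * e * R ^ 3 ≤ 2 * R ^ 3 := mul_le_mul_of_nonneg_right (by linarith) (by positivity)
      linarith
    have a3 : 0 ≤ R ^ 2 * (1 + R / M) + R * (2 * R + R / M) := by positivity
    have e3 : R ^ 2 * (2 * R + 1 + R / M) + R * (2 * R + R / M + M * R ^ 2)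
        = (M + 2) * R ^ 3 + (R ^ 2 * (1 + R / M) + R * (2 * R + R / M)) := by ring
    have e4 : M * 1 * l ^ 3 = M * l ^ 3 := by ring
    rw [e3, e4]
    linarith
  · show M * p ≤ ((R * ((R * 1 + R * 1) / l) + R * ((1 + R / M * 1) / l)) / l
        + R / M * (((1 + R / M * 1) / l + M ^ 2 * R * (1 / l)) / l)) / l
    have e1 : ((R * ((R * 1 + R * 1) / l) + R * ((1 + R / M * 1) / l)) / l
        + R / M * (((1 + R / M * 1) / l + M ^ 2 * R * (1 / l)) / l)) / l
        = (R * (2 * R + 1 + R / M) + R / M * (1 + R / M) + R / M * (M ^ 2 * R)) / l ^ 3 := by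
      field_simp
      ring
    rw [e1, hRM2, le_div_iff₀ (by positivity)]
    have a0 : p * l ^ 3 ≤ (1 + e) / R * ((1 + e) * R ^ 3) :=
      mul_le_mul hph hl3 (by positivity) (by positivity)
    have a0' : (1 + e) / R * ((1 + e) * R ^ 3) = (1 + e) * (1 + e) * R ^ 2 := by
      field_simp
    have a1 : p * l ^ 3 ≤ (1 + 3 * e) * R ^ 2 := by
      rw [a0'] at a0
      exact a0.trans (mul_le_mul_of_nonneg_right hee (by positivity))
    have a2 : M * (p * l ^ 3) ≤ M * ((1 + 3 * e) * R ^ 2) := mul_le_mul_of_nonneg_left a1 hM0.le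
    have a3 : M * e * R ^ 2 ≤ (1 / 4096) * R ^ 2 := mul_le_mul_of_nonneg_right heM (by positivity)
    have a4 : 0 ≤ R * (1 + R / M) + R / M * (1 + R / M) := by positivity
    have a5 : 0 ≤ R ^ 2 := by positivity
    have e3 : R * (2 * R + 1 + R / M) + R / M * (1 + R / M) + M * R ^ 2
        = M * R ^ 2 + 2 * R ^ 2 + (R * (1 + R / M) + R / M * (1 + R / M)) := by ring
    have e4 : M * p * l ^ 3 = M * (p * l ^ 3) := by ring
    have e5 : M * ((1 + 3 * e) * R ^ 2) = M * R ^ 2 + 3 * (M * e * R ^ 2) := by ring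
    rw [e3, e4]
    rw [e5] at a2
    linarith
  · show M * q ≤ (((R * 1 + R * 1) / l + R / M * ((1 + M ^ 2 * R * 1) / l)) / l
        + M ^ 2 * R * (((1 + M ^ 2 * R * 1) / l) / l)) / l
    have e1 : (((R * 1 + R * 1) / l + R / M * ((1 + M ^ 2 * R * 1) / l)) / l
        + M ^ 2 * R * (((1 + M ^ 2 * R * 1) / l) / l)) / l
        = (2 * R + R / M + R / M * (M ^ 2 * R) + M ^ 2 * R * (1 + M ^ 2 * R)) / l ^ 3 := by
      field_simp
      ring
    rw [e1, hRM2, le_div_iff₀ (by positivity)]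
    have a0 : q * l ^ 3 ≤ (1 + e) / R ^ 2 * ((1 + e) * R ^ 3) :=
      mul_le_mul hqh hl3 (by positivity) (by positivity)
    have a0' : (1 + e) / R ^ 2 * ((1 + e) * R ^ 3) = (1 + e) * (1 + e) * R := by
      field_simp
    have a1 : q * l ^ 3 ≤ 2 * R := by
      rw [a0'] at a0
      refine a0.trans (mul_le_mul_of_nonneg_right ?_ hR.le)
      linarith
    have a2 : M * (q * l ^ 3) ≤ M * (2 * R) := mul_le_mul_of_nonneg_left a1 hM0.le
    have a3 : M * (2 * R) ≤ M * R ^ 2 * 2 := by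
      have b1 : R ≤ R ^ 2 := by nlinarith
      have b2 : M * R ≤ M * R ^ 2 := mul_le_mul_of_nonneg_left b1 hM0.le
      linarith
    have a4 : M * R ^ 2 ≤ M ^ 2 * R * (M ^ 2 * R) := by
      have b1 : M ≤ M ^ 4 := by
        have : (1 : ℝ) ≤ M ^ 3 := one_le_pow₀ (by linarith)
        nlinarith
      have b2 : M * R ^ 2 ≤ M ^ 4 * R ^ 2 := mul_le_mul_of_nonneg_right b1 (by positivity)
      have b3 : M ^ 2 * R * (M ^ 2 * R) = M ^ 4 * R ^ 2 := by ring
      rw [b3]
      exact b2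
    have a5 : 0 ≤ 2 * R + R / M + M ^ 2 * R := by positivity
    have e3 : M ^ 2 * R * (1 + M ^ 2 * R) = M ^ 2 * R + M ^ 2 * R * (M ^ 2 * R) := by ring
    have e4 : M * q * l ^ 3 = M * (q * l ^ 3) := by ring
    rw [e3, e4]
    linarith
  · show M * (q / l) ≤ (((1 + R / M * 1) / l + M ^ 2 * R * (1 / l)) / l) / l
    have e1 : (((1 + R / M * 1) / l + M ^ 2 * R * (1 / l)) / l) / l
        = (1 + R / M + M ^ 2 * R) / l ^ 3 := by
      field_simp
    have e2 : M * (q / l) = M * (q * l ^ 2) / l ^ 3 := by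
      field_simp
    rw [e1, e2]
    refine div_le_div_of_nonneg_right ?_ (by positivity)
    have a0 : q * l ^ 2 ≤ (1 + e) / R ^ 2 * ((1 + e) * R ^ 2) :=
      mul_le_mul hqh hl2 (by positivity) (by positivity)
    have a0' : (1 + e) / R ^ 2 * ((1 + e) * R ^ 2) = (1 + e) * (1 + e) := by
      field_simp
    have a1 : q * l ^ 2 ≤ 2 := by
      rw [a0'] at a0
      linarith
    have a2 : M * (q * l ^ 2) ≤ M * 2 := mul_le_mul_of_nonneg_left a1 hM0.le
    have a3 : M * 2 ≤ M ^ 2 * R := by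
      have b1 : M * 2 ≤ M ^ 2 := by nlinarith
      have b2 : M ^ 2 * 1 ≤ M ^ 2 * R := mul_le_mul_of_nonneg_left hR1 (by positivity)
      linarith
    have a5 : 0 ≤ 1 + R / M := by positivity
    linarith

/-- With `x = opS^[3] 1`: `x 0 ≥ (M + 2) * R ^ 3`, `x 1 ≥ (M + 2) * R ^ 2`, `x 2 ≥ M ^ 4 * R ^ 2`,
`x 3 ≥ M ^ 2 * R`; compare with `M * l ^ 3 * phS` (`l_pow`, `p_hi`, `q_hi`); then `it_ge_phS`. -/
theorem oS_ge (h : Par M R l p q) (n : ℕ) (hn : 3 ≤ n) (i : Fin 4) :
    M * phS l p q i ≤ (bS M R l)^[n] oS i := by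
  obtain ⟨m, rfl⟩ := Nat.exists_eq_add_of_le' hn
  rw [Function.iterate_add_apply]
  exact it_ge_phS h (three h) m i

end Pool.Agent.Lib.MP_dbb03c_co.Gen
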