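import Pool.Agent.Lib.MP_dbb03c_co.Gen.SPathUp
import Pool.Agent.Lib.MP_dbb03c_co.Gen.SPathLo
import Pool.Agent.Lib.MP_dbb03c_co.Gen.SLog

/-! # The path -/

set_option autoImplicit false

namespace Pool.Agent.Lib.MP_dbb03c_co.Gen

variable {M R l p q : ℝ}

private theorem ipS_split (h : Par M R l p q) {n a : ℕ} (hn : a ≤ n) :
    ipS M R oS ((bS M R l)^[n] oS) =
      ipS M R ((bS M R l)^[a] oS) ((bS M R l)^[n - a] oS) := by
  conv_lhs => rw [show n = a + (n - a) by omega, Function.iterate_add_apply]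
  exact ipS_it h a oS _

private theorem ipS_ph (c : ℝ) :
    ipS M R (fun i => c * phS l p q i) (fun i => c * phS l p q i) = c ^ 2 * nS M R l p q := by
  unfold ipS nS
  rw [Finset.mul_sum]
  refine Finset.sum_congr rfl fun i _ => ?_
  ring

private theorem oS_pos (i : Fin 4) : 0 < oS i := one_pos

/-- `bS^[n] oS` against `oS` is `bS^[a] oS` against `bS^[n - a] oS` (`ipS_it`) -/
theorem path_le (h : Par M R l p q) (n : ℕ) (hn : 14 ≤ n) :
    ipS M R oS ((bS M R l)^[n] oS) ≤ (M + 3) ^ 2 * nS M R l p q := by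
  rw [ipS_split h (show 7 ≤ n by omega), ← ipS_ph (M := M) (R := R) (M + 3)]
  exact ipS_mono h (fun i => (itS_pos h _ oS_pos i).le) (fun i => (itS_pos h _ oS_pos i).le)
    (fun i => oS_le h 7 le_rfl i) (fun i => oS_le h (n - 7) (by omega) i)

theorem path_ge (h : Par M R l p q) (n : ℕ) (hn : 6 ≤ n) :
    M ^ 2 * nS M R l p q ≤ ipS M R oS ((bS M R l)^[n] oS) := by
  have hM := h.hM
  rw [ipS_split h (show 3 ≤ n by omega), ← ipS_ph (M := M) (R := R) M]
  have h0 : ∀ i, 0 ≤ M * phS l p q i := fun i => mul_nonneg (by linarith) (phS_pos h i).le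
  exact ipS_mono h h0 h0 (fun i => oS_ge h 3 le_rfl i) (fun i => oS_ge h (n - 3) (by omega) i)

end Pool.Agent.Lib.MP_dbb03c_co.Gen
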