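import Pool.Agent.Lib.MP_dbb03c_co.Gen.SEndUp
import Pool.Agent.Lib.MP_dbb03c_co.Gen.SLog

/-! # Spiders whose legs end in `E` -/

set_option autoImplicit false

namespace Pool.Agent.Lib.MP_dbb03c_co.Gen

variable {M R l p q : ℝ}

/-- a path with `m` vertices above the end `E` -/
def leg : ℕ → RT
  | 0 => .gr (.gr .one .one) (.gr .one .one)
  | m + 1 => .gr .one (leg m)

/-- the spider with the given legs -/
def sp : List ℕ → RT
  | [] => .one
  | m :: L => .gr (sp L) (leg m)

theorem sz_leg (m : ℕ) : (leg m).sz = m + 4 := by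
  induction m with
  | zero => simp only [leg, RT.sz]
  | succ m ih => simp only [leg, RT.sz, ih]; omega

theorem sz_sp (L : List ℕ) : (sp L).sz = 1 + (L.map (· + 4)).sum := by
  induction L with
  | nil => simp [sp, RT.sz]
  | cons a L ih => simp only [sp, RT.sz, ih, sz_leg, List.map_cons, List.sum_cons]; omega

private theorem dep_leg (m : ℕ) : (leg m).dep = m + 2 := by
  induction m with
  | zero => simp only [leg, RT.dep]; omega
  | succ m ih => simp only [leg, RT.dep, ih]; omega

private theorem rd_leg (m : ℕ) : (leg m).rd ≤ m + 3 := by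
  induction m with
  | zero => simp only [leg, RT.rd, RT.dep]; omega
  | succ m ih =>
    have h := dep_leg m
    simp only [leg, RT.rd, RT.dep]
    omega

/-- `(leg m).dep = m + 2`, `(leg m).rd ≤ m + 3` -/
theorem rd_sp (m : ℕ) (L : List ℕ) (hL : ∀ a ∈ L, a ≤ m) :
    (sp L).dep ≤ m + 3 ∧ (sp L).rd ≤ 2 * (m + 3) := by
  induction L with
  | nil => simp [sp, RT.dep, RT.rd]
  | cons a L ih =>
    obtain ⟨h1, h2⟩ := ih fun b hb => hL b (List.mem_cons_of_mem _ hb)
    have h3 := hL a List.mem_cons_self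
    have h4 := dep_leg a
    have h5 := rd_leg a
    simp only [sp, RT.dep, RT.rd]
    omega

theorem vS_leg (m : ℕ) : vS M R l (leg m) = (bS M R l)^[m] (zS M R l) := by
  have h1 : ∀ x : V4, oS * x = x := by
    intro x
    funext i
    simp [oS]
  induction m with
  | zero => simp only [leg, vS, h1, zS, Function.iterate_zero, id_eq]
  | succ m ih => rw [leg, vS, vS, h1, ih, Function.iterate_succ_apply']

/-- `zS_le` -/
theorem vS_sp_le (h : Par M R l p q) (L : List ℕ) (hL : ∀ a ∈ L, 5 ≤ a) (i : Fin 4) :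
    vS M R l (sp L) i ≤ (5 + 3 / M) ^ L.length * phS l p q i ^ L.length := by
  have hM := h.hM
  have hM0 : 0 < M := by linarith
  have hc : 0 < 5 + 3 / M := by positivity
  have hp := phS_pos h i
  induction L with
  | nil => simp [sp, vS, oS]
  | cons a L ih =>
    have h1 := ih fun b hb => hL b (List.mem_cons_of_mem _ hb)
    have h2 := hL a List.mem_cons_self
    have h3 := zS_le h (a + 1) (by omega) i
    have e1 : vS M R l (sp (a :: L)) i = vS M R l (sp L) i * (bS M R l)^[a + 1] (zS M R l) i := by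
      rw [sp, vS, vS_leg, Pi.mul_apply, Function.iterate_succ_apply']
    rw [e1, List.length_cons]
    have h4 : 0 ≤ (bS M R l)^[a + 1] (zS M R l) i := by
      have h5 := vS_pos h (leg (a + 1)) i
      rw [vS_leg] at h5
      exact h5.le
    calc vS M R l (sp L) i * (bS M R l)^[a + 1] (zS M R l) i
        ≤ ((5 + 3 / M) ^ L.length * phS l p q i ^ L.length) * ((5 + 3 / M) * phS l p q i) :=
          mul_le_mul h1 h3 h4 (by positivity)
      _ = (5 + 3 / M) ^ (L.length + 1) * phS l p q i ^ (L.length + 1) := by ring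

/-- `phS ≤ 1`, so `phS ^ L.length ≤ phS ^ 2` -/
theorem ipS_sp_le (h : Par M R l p q) (L : List ℕ) (hL : ∀ a ∈ L, 5 ≤ a) (h2 : 2 ≤ L.length) :
    ipS M R oS (vS M R l (sp L)) ≤ (5 + 3 / M) ^ L.length * nS M R l p q := by
  have hM := h.hM
  have hM0 : 0 < M := by linarith
  have hc : 0 < 5 + 3 / M := by positivity
  unfold ipS nS
  rw [Finset.mul_sum]
  refine Finset.sum_le_sum fun i _ => ?_
  have h1 := vS_sp_le h L hL i
  have h3 : phS l p q i ^ L.length ≤ phS l p q i ^ 2 :=
    pow_le_pow_of_le_one (phS_pos h i).le (phS_le_one h i) h2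
  have h4 : vS M R l (sp L) i ≤ (5 + 3 / M) ^ L.length * phS l p q i ^ 2 :=
    h1.trans (mul_le_mul_of_nonneg_left h3 (by positivity))
  have h5 := mul_le_mul_of_nonneg_left h4 (wS_pos h i).le
  have e : oS i * vS M R l (sp L) i = vS M R l (sp L) i := by simp [oS]
  rw [e]
  calc wS M R i * vS M R l (sp L) i
      ≤ wS M R i * ((5 + 3 / M) ^ L.length * phS l p q i ^ 2) := h5
    _ = (5 + 3 / M) ^ L.length * (wS M R i * phS l p q i ^ 2) := by ring

/-- `k` legs of almost equal lengths: `n - 1 = k * (m + 4) + r`, `r < k`; `r` legs `m + 1`, the others `m` -/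
theorem exists_legs (k : ℕ) (hk : 2 ≤ k) (n : ℕ) (hn : 10 * k ≤ n) :
    ∃ (m : ℕ) (L : List ℕ), L.length = k ∧ (∀ a ∈ L, 5 ≤ a) ∧ (∀ a ∈ L, a ≤ m) ∧
      (sp L).sz = n ∧ k * (m + 3) ≤ n := by
  obtain ⟨c, r, hr, hc⟩ : ∃ c r : ℕ, r < k ∧ n - 1 = k * c + r :=
    ⟨(n - 1) / k, (n - 1) % k, Nat.mod_lt _ (by omega), (Nat.div_add_mod _ _).symm⟩
  have hc9 : 9 ≤ c := by
    by_contra hlt
    have h1 : c ≤ 8 := by omega
    have h2 : k * c ≤ k * 8 := Nat.mul_le_mul_left k h1
    omega
  obtain ⟨m0, rfl⟩ : ∃ m0, c = m0 + 4 := ⟨c - 4, by omega⟩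
  have hm0 : 5 ≤ m0 := by omega
  refine ⟨m0 + 1, List.replicate r (m0 + 1) ++ List.replicate (k - r) m0, ?_, ?_, ?_, ?_, ?_⟩
  · rw [List.length_append, List.length_replicate, List.length_replicate]
    omega
  · intro a ha
    rw [List.mem_append, List.mem_replicate, List.mem_replicate] at ha
    omega
  · intro a ha
    rw [List.mem_append, List.mem_replicate, List.mem_replicate] at ha
    omega
  · rw [sz_sp]
    simp only [List.map_append, List.map_replicate, List.sum_append, List.sum_replicate,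
      smul_eq_mul]
    obtain ⟨k', rfl⟩ : ∃ k', k = r + k' := ⟨k - r, by omega⟩
    have e : r + k' - r = k' := by omega
    rw [e]
    have e2 : r * (m0 + 1 + 4) + k' * (m0 + 4) = (r + k') * (m0 + 4) + r := by ring
    omega
  · have e3 : k * (m0 + 1 + 3) = k * (m0 + 4) := by ring
    omega

end Pool.Agent.Lib.MP_dbb03c_co.Gen
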