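import Pool.Agent.Lib.MP_dbb03c_co.Gen.SHom
import Pool.Agent.Lib.MP_dbb03c_co.Gen.SNum
import Pool.Agent.Lib.MP_dbb03c_co.Gen.SPn
import Pool.Agent.Lib.MP_dbb03c_co.Gen.SInd
import Pool.Agent.Lib.MP_dbb03c_co.Gen.SCen
import Pool.Agent.Lib.MP_dbb03c_co.Gen.SSpi
import Pool.Agent.Lib.MP_dbb03c_co.Gr2
import Pool.Agent.Lib.MP_dbb03c_co.Gr4
import Pool.Agent.Lib.MP_dbb03c_co.Rep4

/-! # The slopes `2 / k` -/

set_option autoImplicit false

namespace Pool.Agent.Lib.MP_dbb03c_co.Gen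

open Real

/-- the spider beats the path -/
theorem spider_lt {M k : ℕ} (hM : 8 ≤ M) (hk : 2 ≤ k)
    (h1 : (5 + 3 / (M : ℝ)) ^ k < (M : ℝ) ^ 2) {n : ℕ} (hn : 10 * k ≤ n) :
    ∃ (d : ℕ) (T : SimpleGraph (Fin n)), T.IsTree ∧ (∀ a b, T.dist a b ≤ d) ∧ k * d ≤ 2 * n ∧
      hom T (TgM M).Adj < hom (SimpleGraph.pathGraph n) (TgM M).Adj := by
  have hM' : (8 : ℝ) ≤ M := by exact_mod_cast hM
  obtain ⟨l, p, q, h⟩ := exists_par hM' (le_refl ((M : ℝ) ^ 20))
  obtain ⟨m, L, hL, h5, hm, hsz, hkm⟩ := exists_legs k hk n hn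
  have hcard : Fintype.card (sp L).V = n := by rw [RT.card_V, hsz]
  let e : Fin n ≃ (sp L).V := (Fintype.equivFinOfCardEq hcard).symm
  let T : SimpleGraph (Fin n) := (sp L).G.comap e
  have he : ∀ a b, (sp L).G.Adj (e a) (e b) ↔ T.Adj a b := fun a b => Iff.rfl
  refine ⟨2 * (m + 3), T, (isTree_congr e he).2 (sp L).isTree, fun a b => ?_, ?_, ?_⟩
  · rw [← dist_congr e he a b]
    exact ((sp L).dist_le (e a) (e b)).trans (rd_sp m L hm).2
  · nlinarith
  · rw [hom_congr (TgM M).Adj e he]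
    have h7 := hom_tgt h (sp L)
    have h8 := hom_tgt_path h (n - 1)
    have hn1 : n - 1 + 1 = n := by omega
    rw [hn1] at h8
    rw [hsz] at h7
    have h9 := ipS_sp_le h L h5 (by omega)
    have h10 := path_ge h (n - 1) (by omega)
    rw [hL] at h9
    have h11 : (5 + 3 / (M : ℝ)) ^ k * nS (M : ℝ) ((M : ℝ) ^ 20) l p q <
        (M : ℝ) ^ 2 * nS (M : ℝ) ((M : ℝ) ^ 20) l p q :=
      mul_lt_mul_of_pos_right h1 (nS_pos h)
    have h12 : (hom (sp L).G (TgM M).Adj : ℝ) <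
        hom (SimpleGraph.pathGraph n) (TgM M).Adj := by
      rw [h7, h8]
      exact mul_lt_mul_of_pos_left (mul_lt_mul_of_pos_left (by linarith) (pow_pos h.l_pos _))
        (by positivity)
    exact_mod_cast h12

/-- every tree with many leaves or with more than `k` deep branches is at least the path -/
theorem tree_ge {M k : ℕ} (hM : 8 ≤ M)
    (h1 : 2 * log ((M : ℝ) + 3) ≤ (k + 1) * (log 5 - 1 / (M : ℝ) ^ 3)) :
    ∃ C : ℕ, ∀ (n : ℕ) (T : SimpleGraph (Fin n)), T.IsTree → ∀ d : ℕ, (∀ a b, T.dist a b ≤ d) →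
      k * d + C < 2 * n → hom (SimpleGraph.pathGraph n) (TgM M).Adj ≤ hom T (TgM M).Adj := by
  have hM' : (8 : ℝ) ≤ M := by exact_mod_cast hM
  obtain ⟨l, p, q, h⟩ := exists_par hM' (le_refl ((M : ℝ) ^ 20))
  -- the number of leaves which suffices
  have hg : 0 < log 2 - 1 / (M : ℝ) ^ 3 := by
    have h2 := log5_le h
    have h3 : 0 < log 5 := log_pos (by norm_num)
    linarith
  obtain ⟨L, hL⟩ := exists_nat_ge (2 * log ((M : ℝ) + 3) / (log 2 - 1 / (M : ℝ) ^ 3))
  rw [div_le_iff₀ hg] at hL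
  refine ⟨k + 4 * L + 2 + 30, fun n T hT d hd hn => ?_⟩
  haveI : Nonempty (Fin n) := hT.connected.nonempty
  obtain ⟨t0, e0, he0, _⟩ := exists_rt n T hT (Fintype.card_fin n) (Classical.arbitrary _)
  obtain ⟨t, ⟨e1, he1⟩, hc⟩ := exists_center t0
  let e : Fin n ≃ t.V := e0.trans e1
  have he : ∀ a b, t.G.Adj (e a) (e b) ↔ T.Adj a b := fun a b => (he1 _ _).trans (he0 _ _)
  have hsz : t.sz = n := by
    rw [← RT.card_V, ← Fintype.card_congr e, Fintype.card_fin]
  have hrd : t.rd ≤ d := by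
    obtain ⟨u, v, huv⟩ := t.exists_dist_rd
    have h2 := dist_congr e he (e.symm u) (e.symm v)
    rw [e.apply_symm_apply, e.apply_symm_apply] at h2
    have := hd (e.symm u) (e.symm v)
    omega
  have key : 2 * log ((M : ℝ) + 3) ≤ LS (M : ℝ) ((M : ℝ) ^ 20) l p q
      (vS (M : ℝ) ((M : ℝ) ^ 20) l t) := by
    rcases Nat.lt_or_ge t.lv L with hl | hl
    · rcases Nat.lt_or_ge (Bt t) (k + 1) with hb | hb
      · exfalso
        have h2 := sz_le_Bt t
        have h3 : Bt t * t.dep ≤ k * t.dep := Nat.mul_le_mul_right _ (by omega)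
        have h4 : k * (2 * t.dep) ≤ k * (d + 1) := Nat.mul_le_mul_left _ (by omega)
        have h5 : 2 * (k * t.dep) = k * (2 * t.dep) := by ring
        have h6 : k * (d + 1) = k * d + k := by ring
        omega
      · have h2 := LS_Bt h t
        have h3 : ((k : ℝ) + 1) * (log 5 - 1 / (M : ℝ) ^ 3) ≤
            (log 5 - 1 / (M : ℝ) ^ 3) * (Bt t : ℝ) := by
          have h4 : (k : ℝ) + 1 ≤ Bt t := by exact_mod_cast hb
          have h5 : 0 ≤ log 5 - 1 / (M : ℝ) ^ 3 := by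
            have h6 : log 2 ≤ log 5 := log_le_log (by norm_num) (by norm_num)
            linarith
          nlinarith
        linarith
    · have h2 := LS_leaves h t
      have h3 : (L : ℝ) ≤ t.lv := by exact_mod_cast hl
      have h4 : (L : ℝ) * (log 2 - 1 / (M : ℝ) ^ 3) ≤
          (log 2 - 1 / (M : ℝ) ^ 3) * (t.lv : ℝ) := by nlinarith
      linarith
  have h2 : ((M : ℝ) + 3) ^ 2 * nS (M : ℝ) ((M : ℝ) ^ 20) l p q ≤
      ipS (M : ℝ) ((M : ℝ) ^ 20) oS (vS (M : ℝ) ((M : ℝ) ^ 20) l t) := by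
    refine le_trans ?_ (ipS_ge h (vS_pos h t))
    rw [mul_comm]
    refine mul_le_mul_of_nonneg_left ?_ (nS_pos h).le
    refine le_trans (le_of_eq ?_) (exp_le_exp.2 key)
    have h3 : (0 : ℝ) < M + 3 := by positivity
    rw [two_mul, exp_add, exp_log h3]
    ring
  have h7 := hom_tgt h t
  have h8 := hom_tgt_path h (n - 1)
  have hn1 : n - 1 + 1 = n := by omega
  rw [hn1] at h8
  rw [hsz] at h7
  have h10 := path_le h (n - 1) (by omega)
  rw [hom_congr (TgM M).Adj e he]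
  have h12 : (hom (SimpleGraph.pathGraph n) (TgM M).Adj : ℝ) ≤ hom t.G (TgM M).Adj := by
    rw [h7, h8]
    exact mul_le_mul_of_nonneg_left (mul_le_mul_of_nonneg_left (h10.trans h2)
      (pow_pos h.l_pos _).le) (by positivity)
  exact_mod_cast h12

/-- The threshold is `2 n / k` up to a bounded error. -/
theorem slope (k : ℕ) (hk : 3 ≤ k) : ∃ M : ℕ, ∃ C : ℕ, ∀ n : ℕ, 3 ≤ n →
    k * dH (TgM M).Adj n ≤ 2 * n + C ∧ 2 * n ≤ k * dH (TgM M).Adj n + C := by
  obtain ⟨M, hM, h1, h2⟩ := exists_M k hk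
  obtain ⟨C, hC⟩ := tree_ge hM h2
  refine ⟨M, 10 * k * k + C + 3 * k + 1, fun n hn => ?_⟩
  have hb : BddAbove {d | 2 ≤ d ∧ d ≤ n - 1 ∧ ∀ T : SimpleGraph (Fin n), T.IsTree →
      (∀ a b, T.dist a b ≤ d) → hom (SimpleGraph.pathGraph n) (TgM M).Adj ≤
        hom T (TgM M).Adj} := ⟨n - 1, fun d hd => hd.2.1⟩
  constructor
  · -- upper bound
    rcases Nat.lt_or_ge n (10 * k) with hnk | hnk
    · have h3 : dH (TgM M).Adj n ≤ n := by
        unfold dH
        rcases Set.eq_empty_or_nonempty {d | 2 ≤ d ∧ d ≤ n - 1 ∧ ∀ T : SimpleGraph (Fin n),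
            T.IsTree → (∀ a b, T.dist a b ≤ d) →
            hom (SimpleGraph.pathGraph n) (TgM M).Adj ≤ hom T (TgM M).Adj} with h0 | h0
        · rw [h0, csSup_empty]
          exact Nat.zero_le _
        · exact csSup_le h0 fun d hd => hd.2.1.trans (Nat.sub_le _ _)
      have h4 : k * dH (TgM M).Adj n ≤ k * (10 * k) := Nat.mul_le_mul_left _ (h3.trans hnk.le)
      nlinarith
    · obtain ⟨d, T, hT, hd, hkd, hlt⟩ := spider_lt hM (by omega) h1 hnk
      have h3 : dH (TgM M).Adj n ≤ d := by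
        unfold dH
        rcases Set.eq_empty_or_nonempty {d | 2 ≤ d ∧ d ≤ n - 1 ∧ ∀ T : SimpleGraph (Fin n),
            T.IsTree → (∀ a b, T.dist a b ≤ d) →
            hom (SimpleGraph.pathGraph n) (TgM M).Adj ≤ hom T (TgM M).Adj} with h0 | h0
        · rw [h0, csSup_empty]
          exact Nat.zero_le _
        · refine csSup_le h0 fun d' hd' => ?_
          by_contra hcon
          push Not at hcon
          have := hd'.2.2 T hT (fun a b => (hd a b).trans hcon.le)
          omega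
      have h4 : k * dH (TgM M).Adj n ≤ k * d := Nat.mul_le_mul_left _ h3
      omega
  · -- lower bound
    rcases Nat.lt_or_ge (2 * n) (3 * k + C + 1) with hnk | hnk
    · nlinarith
    · have hk0 : 0 < k := by omega
      set d := (2 * n - C - 1) / k with hdef
      have hd1 : k * d ≤ 2 * n - C - 1 := Nat.mul_div_le _ _
      have hd2 : 2 * n - C - 1 < k * d + k := by
        have h3 := Nat.div_add_mod (2 * n - C - 1) k
        have h4 := Nat.mod_lt (2 * n - C - 1) hk0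
        calc 2 * n - C - 1 = k * d + (2 * n - C - 1) % k := h3.symm
          _ < k * d + k := Nat.add_lt_add_left h4 _
      have hd3 : 2 ≤ d := by
        by_contra hcon
        push Not at hcon
        have : k * d ≤ k * 1 := Nat.mul_le_mul_left _ (by omega)
        omega
      have hd4 : d ≤ n - 1 := by
        by_contra hcon
        push Not at hcon
        have h5 : 3 * d ≤ k * d := Nat.mul_le_mul_right _ hk
        omega
      have hmem : d ∈ {d | 2 ≤ d ∧ d ≤ n - 1 ∧ ∀ T : SimpleGraph (Fin n), T.IsTree →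
          (∀ a b, T.dist a b ≤ d) → hom (SimpleGraph.pathGraph n) (TgM M).Adj ≤
            hom T (TgM M).Adj} :=
        ⟨hd3, hd4, fun T hT hD => hC n T hT d hD (by omega)⟩
      have h6 : d ≤ dH (TgM M).Adj n := le_csSup hb hmem
      have h7 : k * d ≤ k * dH (TgM M).Adj n := Nat.mul_le_mul_left _ h6
      have h8 : 0 ≤ 10 * k * k := Nat.zero_le _
      omega

end Pool.Agent.Lib.MP_dbb03c_co.Gen
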