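import Pool.Agent.Lib.MP_dbb03c_co.Gen.SPar
import Pool.Agent.Lib.MP_dbb03c_co.Vec

/-! # The normalised operator on functions of the level -/

set_option autoImplicit false

namespace Pool.Agent.Lib.MP_dbb03c_co.Gen

/-- the adjacency operator of `Tgt R (R / M) (M ^ 2 * R)` on functions of the level -/
noncomputable def opS (M R : ℝ) (x : V4) : V4 :=
  ![R * x 0 + R * x 1, x 0 + R / M * x 2, x 1 + M ^ 2 * R * x 3, x 2]

/-- divided by the spectral radius -/
noncomputable def bS (M R l : ℝ) (x : V4) : V4 := fun i => opS M R x i / l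

/-- the positive eigenvector -/
noncomputable def phS (l p q : ℝ) : V4 := ![1, p, q, q / l]

/-- the relative sizes of the levels -/
noncomputable def wS (M R : ℝ) : V4 := ![1, R, R ^ 2 / M, M * R ^ 3]

noncomputable def ipS (M R : ℝ) (x y : V4) : ℝ := ∑ i, wS M R i * (x i * y i)

/-- the constant function 1 -/
def oS : V4 := fun _ => 1

/-- the vector of the end `E`: a vertex with a leaf and a path with two vertices -/
noncomputable def zS (M R l : ℝ) : V4 := bS M R l oS * bS M R l (bS M R l oS)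

/-- numbers of colourings of a rooted tree, divided by `l ^ (sz - 1)` -/
noncomputable def vS (M R l : ℝ) : RT → V4
  | .one => oS
  | .gr s t => vS M R l s * bS M R l (vS M R l t)

variable {M R l p q : ℝ}

private theorem szpos : ∀ t : RT, 1 ≤ t.sz
  | .one => le_refl 1
  | .gr s t => le_trans (szpos s) (Nat.le_add_right s.sz t.sz)

private theorem M_pos (h : Par M R l p q) : 0 < M := lt_of_lt_of_le (by norm_num) h.hM

private theorem opS_mono (h : Par M R l p q) {x y : V4} (hxy : ∀ i, x i ≤ y i) (i : Fin 4) :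
    opS M R x i ≤ opS M R y i := by
  have hR := h.R_pos
  have hM := M_pos h
  have h0 := hxy 0
  have h1 := hxy 1
  have h2 := hxy 2
  have h3 := hxy 3
  fin_cases i
  · show R * x 0 + R * x 1 ≤ R * y 0 + R * y 1
    gcongr
  · show x 0 + R / M * x 2 ≤ y 0 + R / M * y 2
    gcongr
  · show x 1 + M ^ 2 * R * x 3 ≤ y 1 + M ^ 2 * R * y 3
    gcongr
  · show x 2 ≤ y 2
    exact h2

theorem bS_mono (h : Par M R l p q) {x y : V4} (hxy : ∀ i, x i ≤ y i) (i : Fin 4) :
    bS M R l x i ≤ bS M R l y i :=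
  div_le_div_of_nonneg_right (opS_mono h hxy i) h.l_pos.le

theorem bS_pos (h : Par M R l p q) {x : V4} (hx : ∀ i, 0 < x i) (i : Fin 4) :
    0 < bS M R l x i := by
  have hR := h.R_pos
  have hM := M_pos h
  have h0 := hx 0
  have h1 := hx 1
  have h2 := hx 2
  have h3 := hx 3
  refine div_pos ?_ h.l_pos
  fin_cases i
  · show 0 < R * x 0 + R * x 1
    positivity
  · show 0 < x 0 + R / M * x 2
    positivity
  · show 0 < x 1 + M ^ 2 * R * x 3
    positivity
  · show 0 < x 2
    exact h2

private theorem bS_eq (x : V4) : bS M R l x =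
    ![(R * x 0 + R * x 1) / l, (x 0 + R / M * x 2) / l, (x 1 + M ^ 2 * R * x 3) / l, x 2 / l] := by
  funext i
  fin_cases i <;> rfl

theorem bS_smul (c : ℝ) (x : V4) : bS M R l (c • x) = c • bS M R l x := by
  rw [bS_eq, bS_eq]
  funext i
  fin_cases i
  · show (R * (c * x 0) + R * (c * x 1)) / l = c * ((R * x 0 + R * x 1) / l)
    ring
  · show (c * x 0 + R / M * (c * x 2)) / l = c * ((x 0 + R / M * x 2) / l)
    ring
  · show (c * x 1 + M ^ 2 * R * (c * x 3)) / l = c * ((x 1 + M ^ 2 * R * x 3) / l)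
    ring
  · show (c * x 2) / l = c * (x 2 / l)
    ring

theorem bS_ph (h : Par M R l p q) : bS M R l (phS l p q) = phS l p q := by
  have hl := h.l_pos.ne'
  have e0 := h.e0
  have e1 := h.e1
  have e2 := h.e2
  rw [bS_eq]
  funext i
  fin_cases i
  · show (R * 1 + R * p) / l = 1
    rw [div_eq_one_iff_eq hl]
    linarith
  · show (1 + R / M * q) / l = p
    rw [div_eq_iff hl]
    linarith
  · show (p + M ^ 2 * R * (q / l)) / l = q
    rw [div_eq_iff hl]
    linarith
  · show q / l = q / l
    rfl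

theorem phS_pos (h : Par M R l p q) (i : Fin 4) : 0 < phS l p q i := by
  have hl := h.l_pos
  have hp := h.hp
  have hq := h.hq
  fin_cases i
  · show (0 : ℝ) < 1
    norm_num
  · exact hp
  · exact hq
  · show 0 < q / l
    positivity

theorem phS_le_one (h : Par M R l p q) (i : Fin 4) : phS l p q i ≤ 1 := by
  have hl := h.l_pos
  have hp := h.hp
  have hq := h.hq
  have hR := h.R_pos
  have hM := h.hM
  have hR2 : (2 : ℝ) ≤ R := le_trans (by norm_num) h.R_big
  have hMR : M ^ 2 + 1 ≤ R := by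
    have h1 : M ^ 2 + 1 ≤ M ^ 20 := by
      have h2 : (1 : ℝ) ≤ M ^ 2 := by nlinarith
      have h3 : M ^ 4 ≤ M ^ 20 := pow_le_pow_right₀ (by linarith) (by norm_num)
      nlinarith
    exact h1.trans h.hR
  have hp1 : p ≤ 1 := by
    have e0 := h.e0
    have hl' := h.hl'
    have : R * p < 2 := by linarith
    by_contra hc
    push Not at hc
    nlinarith
  have hq1 : q ≤ 1 := by
    have e2 := h.e2
    have hRl : R < l := h.hl
    have h1 : M ^ 2 * R * (q / l) ≤ M ^ 2 * q := by
      have : R * (q / l) ≤ q := by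
        rw [← mul_div_assoc, div_le_iff₀ hl]
        nlinarith
      calc M ^ 2 * R * (q / l) = M ^ 2 * (R * (q / l)) := by ring
        _ ≤ M ^ 2 * q := by gcongr
    have h2 : q * (l - M ^ 2) ≤ p := by nlinarith
    have h3 : 1 ≤ l - M ^ 2 := by linarith
    nlinarith
  fin_cases i
  · exact le_refl (1 : ℝ)
  · exact hp1
  · exact hq1
  · show q / l ≤ 1
    rw [div_le_one hl]
    have : R < l := h.hl
    linarith

theorem wS_pos (h : Par M R l p q) (i : Fin 4) : 0 < wS M R i := by
  have hR := h.R_pos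
  have hM := M_pos h
  fin_cases i
  · show (0 : ℝ) < 1
    norm_num
  · exact hR
  · show 0 < R ^ 2 / M
    positivity
  · show 0 < M * R ^ 3
    positivity

theorem itS_mono (h : Par M R l p q) (n : ℕ) {x y : V4} (hxy : ∀ i, x i ≤ y i) (i : Fin 4) :
    (bS M R l)^[n] x i ≤ (bS M R l)^[n] y i := by
  induction n generalizing i with
  | zero => exact hxy i
  | succ n ih =>
    rw [Function.iterate_succ_apply', Function.iterate_succ_apply']
    exact bS_mono h ih i

theorem itS_pos (h : Par M R l p q) (n : ℕ) {x : V4} (hx : ∀ i, 0 < x i) (i : Fin 4) :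
    0 < (bS M R l)^[n] x i := by
  induction n generalizing i with
  | zero => exact hx i
  | succ n ih =>
    rw [Function.iterate_succ_apply']
    exact bS_pos h ih i

theorem itS_smul_ph (h : Par M R l p q) (n : ℕ) (c : ℝ) :
    (bS M R l)^[n] (c • phS l p q) = c • phS l p q := by
  induction n with
  | zero => rfl
  | succ n ih => rw [Function.iterate_succ_apply', ih, bS_smul, bS_ph h]

private theorem ipS_eq (x y : V4) : ipS M R x y =
    x 0 * y 0 + R * (x 1 * y 1) + R ^ 2 / M * (x 2 * y 2) + M * R ^ 3 * (x 3 * y 3) := by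
  rw [ipS, Fin.sum_univ_four]
  show 1 * (x 0 * y 0) + R * (x 1 * y 1) + R ^ 2 / M * (x 2 * y 2) + M * R ^ 3 * (x 3 * y 3) = _
  ring

private theorem ipS_b (h : Par M R l p q) (x y : V4) :
    ipS M R x (bS M R l y) = ipS M R (bS M R l x) y := by
  have hM := (M_pos h).ne'
  have hl := h.l_pos.ne'
  rw [ipS_eq, ipS_eq, bS_eq, bS_eq]
  show x 0 * ((R * y 0 + R * y 1) / l) + R * (x 1 * ((y 0 + R / M * y 2) / l)) +
      R ^ 2 / M * (x 2 * ((y 1 + M ^ 2 * R * y 3) / l)) + M * R ^ 3 * (x 3 * (y 2 / l)) =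
    (R * x 0 + R * x 1) / l * y 0 + R * ((x 0 + R / M * x 2) / l * y 1) +
      R ^ 2 / M * ((x 1 + M ^ 2 * R * x 3) / l * y 2) + M * R ^ 3 * (x 2 / l * y 3)
  field_simp
  ring

/-- self-adjointness -/
theorem ipS_it (h : Par M R l p q) (n : ℕ) (x y : V4) :
    ipS M R x ((bS M R l)^[n] y) = ipS M R ((bS M R l)^[n] x) y := by
  induction n generalizing x with
  | zero => rfl
  | succ n ih =>
    rw [Function.iterate_succ_apply', ipS_b h, ih, ← Function.iterate_succ_apply]

theorem ipS_mono (h : Par M R l p q) {x y x' y' : V4} (hx : ∀ i, 0 ≤ x i) (hy : ∀ i, 0 ≤ y i)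
    (h1 : ∀ i, x i ≤ x' i) (h2 : ∀ i, y i ≤ y' i) : ipS M R x y ≤ ipS M R x' y' := by
  refine Finset.sum_le_sum fun i _ => ?_
  refine mul_le_mul_of_nonneg_left ?_ (wS_pos h i).le
  exact mul_le_mul (h1 i) (h2 i) (hy i) ((hx i).trans (h1 i))

theorem vS_pos (h : Par M R l p q) (t : RT) (i : Fin 4) : 0 < vS M R l t i := by
  induction t generalizing i with
  | one => exact one_pos
  | gr s t ihs iht => exact mul_pos (ihs i) (bS_pos h iht i)

/-- the entries are at least `l ^ (-(sz - 1))` (the numbers of colourings are at least 1): prove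
`1 ≤ l ^ (sz - 1) * vS t i` by induction, using that each row of `opS` maps `x ≥ 1` to a vector `≥ 1` -/
theorem vS_lo (h : Par M R l p q) (t : RT) (i : Fin 4) : 1 / l ^ (t.sz - 1) ≤ vS M R l t i := by
  have hl := h.l_pos
  have hR := h.R_pos
  have hM := M_pos h
  have hR2 : (2 : ℝ) ≤ R := le_trans (by norm_num) h.R_big
  have hrow : ∀ (c : ℝ), 0 ≤ c → ∀ i, c / l ≤ bS M R l (fun _ => c) i := by
    intro c hc i
    refine div_le_div_of_nonneg_right ?_ hl.le
    fin_cases i
    · show c ≤ R * c + R * c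
      nlinarith
    · show c ≤ c + R / M * c
      have : 0 ≤ R / M * c := by positivity
      linarith
    · show c ≤ c + M ^ 2 * R * c
      have : 0 ≤ M ^ 2 * R * c := by positivity
      linarith
    · exact le_refl c
  induction t generalizing i with
  | one =>
    show 1 / l ^ (1 - 1) ≤ 1
    simp
  | gr s t ihs iht =>
    have hs : 1 ≤ s.sz := szpos s
    have ht : 1 ≤ t.sz := szpos t
    have e : (RT.gr s t).sz - 1 = (s.sz - 1) + ((t.sz - 1) + 1) := by
      show s.sz + t.sz - 1 = _
      omega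
    have h1 : 1 / l ^ (t.sz - 1) / l ≤ bS M R l (vS M R l t) i :=
      (hrow (1 / l ^ (t.sz - 1)) (by positivity) i).trans (bS_mono h (fun j => iht j) i)
    show 1 / l ^ ((RT.gr s t).sz - 1) ≤ vS M R l s i * bS M R l (vS M R l t) i
    rw [e]
    calc 1 / l ^ ((s.sz - 1) + ((t.sz - 1) + 1)) = 1 / l ^ (s.sz - 1) * (1 / l ^ (t.sz - 1) / l) := by
          rw [pow_add, pow_add, pow_one]
          field_simp
      _ ≤ _ := mul_le_mul (ihs i) h1 (by positivity) (vS_pos h s i).le

end Pool.Agent.Lib.MP_dbb03c_co.Gen
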