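import Pool.Agent.Lib.MP_dbb03c_co.Gen.SLev
import Pool.Agent.Lib.MP_dbb03c_co.Gen.SOp
import Pool.Agent.Lib.MP_dbb03c_co.Gen.HomG

/-! # Numbers of colourings in terms of the level vectors -/

set_option autoImplicit false

namespace Pool.Agent.Lib.MP_dbb03c_co.Gen

/-- the target for the parameter `M`: `R = M ^ 20`, `R / M = M ^ 19`, `M ^ 2 * R = M ^ 22` -/
abbrev TgM (M : ℕ) : SimpleGraph (Fin (M ^ 20 + 1) × TV (M ^ 20) (M ^ 19) (M ^ 22)) :=
  Tgt (M ^ 20) (M ^ 19) (M ^ 22)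

private theorem szp (t : RT) : 1 ≤ t.sz := by
  induction t with
  | one => exact le_rfl
  | gr s t ihs iht =>
    have h1 : (RT.gr s t).sz = s.sz + t.sz := rfl
    omega

private theorem opN_eq {M : ℝ} (hM : M ≠ 0) (c : ℝ) (x : V4) (i : Fin 4) :
    opN (M ^ 20) (M ^ 19) (M ^ 22) (fun j => c * x j) i = c * opS M (M ^ 20) x i := by
  have h1 : M ^ 20 / M = M ^ 19 := by
    field_simp
  have h2 : M ^ 2 * M ^ 20 = M ^ 22 := by ring
  unfold opN opS
  rw [h1, h2]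
  fin_cases i
  · simp
    ring
  · simp
    ring
  · simp
    ring
  · simp

/-- induction on the tree: `AO_lev`; `opN R S Z = opS M R` for these parameters, `opS = l • bS` -/
theorem hv_lev {M : ℕ} {l p q : ℝ} (h : Par (M : ℝ) ((M : ℝ) ^ 20) l p q)
    [Fintype (Fin (M ^ 20 + 1) × TV (M ^ 20) (M ^ 19) (M ^ 22))] (t : RT) :
    hv (TgM M).Adj t = fun a => l ^ (t.sz - 1) * vS (M : ℝ) ((M : ℝ) ^ 20) l t a.2.lev := by
  have hM0 : (M : ℝ) ≠ 0 := by
    have := h.hM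
    intro h0
    rw [h0] at this
    norm_num at this
  have hl0 : l ≠ 0 := h.l_pos.ne'
  induction t with
  | one =>
    funext a
    change (1 : ℝ) = l ^ (1 - 1) * oS a.2.lev
    simp [oS]
  | gr s t ihs iht =>
    have h1 : AO (TgM M).Adj (hv (TgM M).Adj t) =
        fun a => l ^ (t.sz - 1) * opS (M : ℝ) ((M : ℝ) ^ 20) (vS (M : ℝ) ((M : ℝ) ^ 20) l t) a.2.lev := by
      rw [iht]
      have h2 := AO_lev (M ^ 20) (M ^ 19) (M ^ 22)
        (fun i => l ^ (t.sz - 1) * vS (M : ℝ) ((M : ℝ) ^ 20) l t i)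
      refine h2.trans ?_
      funext a
      rw [← opN_eq hM0]
      push_cast
      rfl
    funext a
    change hv (TgM M).Adj s a * AO (TgM M).Adj (hv (TgM M).Adj t) a = _
    rw [h1, ihs]
    have h3 : (RT.gr s t).sz - 1 = (s.sz - 1) + 1 + (t.sz - 1) := by
      have e1 : (RT.gr s t).sz = s.sz + t.sz := rfl
      have e2 := szp s
      have e3 := szp t
      omega
    have h4 : vS (M : ℝ) ((M : ℝ) ^ 20) l (RT.gr s t) a.2.lev =
        vS (M : ℝ) ((M : ℝ) ^ 20) l s a.2.lev *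
          (opS (M : ℝ) ((M : ℝ) ^ 20) (vS (M : ℝ) ((M : ℝ) ^ 20) l t) a.2.lev / l) := rfl
    rw [h3, h4, pow_add, pow_add, pow_one]
    field_simp

/-- `hom_eq`, `hv_lev`, `sum_lev`; `wS = (1, R, R * S, R * S * Z)` for these parameters -/
theorem hom_tgt {M : ℕ} {l p q : ℝ} (h : Par (M : ℝ) ((M : ℝ) ^ 20) l p q) (t : RT) :
    (hom t.G (TgM M).Adj : ℝ) = ((M : ℝ) ^ 20 + 1) *
      (l ^ (t.sz - 1) * ipS (M : ℝ) ((M : ℝ) ^ 20) oS (vS (M : ℝ) ((M : ℝ) ^ 20) l t)) := by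
  have hM0 : (M : ℝ) ≠ 0 := by
    have := h.hM
    intro h0
    rw [h0] at this
    norm_num at this
  have hfin : Fintype (Fin (M ^ 20 + 1) × TV (M ^ 20) (M ^ 19) (M ^ 22)) := Fintype.ofFinite _
  rw [hom_eq (fun a b hab => SimpleGraph.Adj.symm hab) t, hv_lev h t]
  have h2 := sum_lev (M ^ 20) (M ^ 19) (M ^ 22)
    (fun i => l ^ (t.sz - 1) * vS (M : ℝ) ((M : ℝ) ^ 20) l t i)
  refine h2.trans ?_
  push_cast
  unfold ipS wS oS
  simp only [Fin.sum_univ_four]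
  simp only [Matrix.cons_val_zero, Matrix.cons_val_one, Matrix.cons_val]
  field_simp

private theorem vS_pt (M R l : ℝ) (n : ℕ) : vS M R l (pt n) = (bS M R l)^[n] oS := by
  induction n with
  | zero => rfl
  | succ n ih =>
    rw [Function.iterate_succ_apply', ← ih]
    have h1 : vS M R l (pt (n + 1)) = vS M R l RT.one * bS M R l (vS M R l (pt n)) := rfl
    rw [h1]
    funext i
    simp [vS, oS]

/-- `pt_equiv`, `hom_congr`, `hom_tgt`; `vS (pt n) = bS^[n] oS` -/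
theorem hom_tgt_path {M : ℕ} {l p q : ℝ} (h : Par (M : ℝ) ((M : ℝ) ^ 20) l p q) (n : ℕ) :
    (hom (SimpleGraph.pathGraph (n + 1)) (TgM M).Adj : ℝ) = ((M : ℝ) ^ 20 + 1) *
      (l ^ n * ipS (M : ℝ) ((M : ℝ) ^ 20) oS ((bS (M : ℝ) ((M : ℝ) ^ 20) l)^[n] oS)) := by
  obtain ⟨e, he, _⟩ := pt_equiv n
  have h1 : hom (SimpleGraph.pathGraph (n + 1)) (TgM M).Adj = hom (pt n).G (TgM M).Adj :=
    hom_congr _ e he
  rw [h1, hom_tgt h, sz_pt, vS_pt]
  simp

end Pool.Agent.Lib.MP_dbb03c_co.Gen
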