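import Pool.Agent.Lib.MP_dbb03c_co.Gen.STgt
import Pool.Agent.Lib.MP_dbb03c_co.Gen.AO

/-! # Sums over the vertices and over the neighbours of a vertex in `Tgt R S Z` -/

set_option autoImplicit false

namespace Pool.Agent.Lib.MP_dbb03c_co.Gen

/-- the adjacency operator on functions of the level -/
def opN (R S Z : ℝ) (x : V4) : V4 := ![R * x 0 + R * x 1, x 0 + S * x 2, x 1 + Z * x 3, x 2]

/-- `T(x,y,z)` as a disjoint union -/
private def eqv (x y z : ℕ) :
    (Unit ⊕ (Fin x ⊕ ((Fin x × Fin y) ⊕ (Fin x × Fin y × Fin z)))) ≃ TV x y z where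
  toFun := fun a => match a with
    | .inl _ => .d0
    | .inr (.inl i) => .d1 i
    | .inr (.inr (.inl (i, j))) => .d2 i j
    | .inr (.inr (.inr (i, j, k))) => .d3 i j k
  invFun := fun a => match a with
    | .d0 => .inl ()
    | .d1 i => .inr (.inl i)
    | .d2 i j => .inr (.inr (.inl (i, j)))
    | .d3 i j k => .inr (.inr (.inr (i, j, k)))
  left_inv := by
    rintro (_ | _ | ⟨_, _⟩ | ⟨_, _, _⟩) <;> rfl
  right_inv := by
    rintro (_ | _ | _ | _) <;> rfl

private theorem sum_TV {x y z : ℕ} [Fintype (TV x y z)] (g : TV x y z → ℝ) :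
    (∑ d : TV x y z, g d) = g .d0 + (∑ i : Fin x, g (.d1 i)) +
      (∑ i : Fin x, ∑ j : Fin y, g (.d2 i j)) +
      (∑ i : Fin x, ∑ j : Fin y, ∑ k : Fin z, g (.d3 i j k)) := by
  rw [← Equiv.sum_comp (eqv x y z) g]
  rw [Fintype.sum_sum_type, Fintype.sum_sum_type, Fintype.sum_sum_type]
  rw [Fintype.sum_prod_type, Fintype.sum_prod_type]
  have h : ∀ i : Fin x, (∑ q : Fin y × Fin z, g (eqv x y z (.inr (.inr (.inr (i, q)))))) =
      ∑ j : Fin y, ∑ k : Fin z, g (.d3 i j k) := by
    intro i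
    rw [Fintype.sum_prod_type]
    rfl
  rw [Finset.sum_congr rfl (fun i _ => h i)]
  simp only [Finset.univ_unique, Finset.sum_singleton]
  simp only [eqv, Equiv.coe_fn_mk]
  ring

/-- sums over the vertices of the target -/
private theorem sum_Tgt {R S Z : ℕ} [Fintype (Fin (R + 1) × TV R S Z)]
    (g : Fin (R + 1) × TV R S Z → ℝ) :
    (∑ a, g a) = ∑ c : Fin (R + 1), (g (c, .d0) + (∑ i : Fin R, g (c, .d1 i)) +
      (∑ i : Fin R, ∑ j : Fin S, g (c, .d2 i j)) +
      (∑ i : Fin R, ∑ j : Fin S, ∑ k : Fin Z, g (c, .d3 i j k))) := by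
  classical
  letI : Fintype (TV R S Z) := Fintype.ofFinite _
  have h : (∑ a, g a) =
      ∑ a ∈ (@Finset.univ (Fin (R + 1) × TV R S Z) (instFintypeProd _ _)), g a := by
    refine Finset.sum_congr ?_ fun _ _ => rfl
    ext a
    simp only [Finset.mem_univ]
  rw [h, Fintype.sum_prod_type]
  exact Finset.sum_congr rfl fun c _ => sum_TV _

section adj

variable {R S Z : ℕ} (c c' : Fin (R + 1))

private theorem adj00 : (Tgt R S Z).Adj (c, .d0) (c', .d0) ↔ c ≠ c' := by
  constructor
  · rintro (⟨_, h | h⟩ | ⟨h, _⟩)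
    · cases h
    · cases h
    · exact h
  · intro h; exact Or.inr ⟨h, rfl, rfl⟩

private theorem adj01 (i : Fin R) : (Tgt R S Z).Adj (c, .d0) (c', .d1 i) ↔ c' = c := by
  constructor
  · rintro (⟨h, _⟩ | ⟨_, _, h⟩)
    · exact h.symm
    · cases h
  · rintro rfl; exact Or.inl ⟨rfl, Or.inl (Child.c1 i)⟩

private theorem adj02 (i : Fin R) (j : Fin S) :
    (Tgt R S Z).Adj (c, .d0) (c', .d2 i j) ↔ False := by
  constructor
  · rintro (⟨_, h | h⟩ | ⟨_, _, h⟩) <;> cases h
  · intro h; exact h.elim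

private theorem adj03 (i : Fin R) (j : Fin S) (k : Fin Z) :
    (Tgt R S Z).Adj (c, .d0) (c', .d3 i j k) ↔ False := by
  constructor
  · rintro (⟨_, h | h⟩ | ⟨_, _, h⟩) <;> cases h
  · intro h; exact h.elim

private theorem adj10 (i : Fin R) : (Tgt R S Z).Adj (c, .d1 i) (c', .d0) ↔ c' = c := by
  constructor
  · rintro (⟨h, _⟩ | ⟨_, h, _⟩)
    · exact h.symm
    · cases h
  · rintro rfl; exact Or.inl ⟨rfl, Or.inr (Child.c1 i)⟩

private theorem adj11 (i i' : Fin R) : (Tgt R S Z).Adj (c, .d1 i) (c', .d1 i') ↔ False := by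
  constructor
  · rintro (⟨_, h | h⟩ | ⟨_, h, _⟩) <;> cases h
  · intro h; exact h.elim

private theorem adj12 (i i' : Fin R) (j : Fin S) :
    (Tgt R S Z).Adj (c, .d1 i) (c', .d2 i' j) ↔ c' = c ∧ i' = i := by
  constructor
  · rintro (⟨h0, h | h⟩ | ⟨_, h, _⟩)
    · cases h; exact ⟨h0.symm, rfl⟩
    · cases h
    · cases h
  · rintro ⟨rfl, rfl⟩; exact Or.inl ⟨rfl, Or.inl (Child.c2 _ _)⟩

private theorem adj13 (i i' : Fin R) (j : Fin S) (k : Fin Z) :
    (Tgt R S Z).Adj (c, .d1 i) (c', .d3 i' j k) ↔ False := by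
  constructor
  · rintro (⟨_, h | h⟩ | ⟨_, h, _⟩) <;> cases h
  · intro h; exact h.elim

private theorem adj20 (i : Fin R) (j : Fin S) :
    (Tgt R S Z).Adj (c, .d2 i j) (c', .d0) ↔ False := by
  constructor
  · rintro (⟨_, h | h⟩ | ⟨_, h, _⟩) <;> cases h
  · intro h; exact h.elim

private theorem adj21 (i i' : Fin R) (j : Fin S) :
    (Tgt R S Z).Adj (c, .d2 i j) (c', .d1 i') ↔ c' = c ∧ i' = i := by
  constructor
  · rintro (⟨h0, h | h⟩ | ⟨_, h, _⟩)
    · cases h
    · cases h; exact ⟨h0.symm, rfl⟩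
    · cases h
  · rintro ⟨rfl, rfl⟩; exact Or.inl ⟨rfl, Or.inr (Child.c2 _ _)⟩

private theorem adj22 (i i' : Fin R) (j j' : Fin S) :
    (Tgt R S Z).Adj (c, .d2 i j) (c', .d2 i' j') ↔ False := by
  constructor
  · rintro (⟨_, h | h⟩ | ⟨_, h, _⟩) <;> cases h
  · intro h; exact h.elim

private theorem adj23 (i i' : Fin R) (j j' : Fin S) (k : Fin Z) :
    (Tgt R S Z).Adj (c, .d2 i j) (c', .d3 i' j' k) ↔ c' = c ∧ i' = i ∧ j' = j := by
  constructor
  · rintro (⟨h0, h | h⟩ | ⟨_, h, _⟩)
    · cases h; exact ⟨h0.symm, rfl, rfl⟩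
    · cases h
    · cases h
  · rintro ⟨rfl, rfl, rfl⟩; exact Or.inl ⟨rfl, Or.inl (Child.c3 _ _ _)⟩

private theorem adj30 (i : Fin R) (j : Fin S) (k : Fin Z) :
    (Tgt R S Z).Adj (c, .d3 i j k) (c', .d0) ↔ False := by
  constructor
  · rintro (⟨_, h | h⟩ | ⟨_, h, _⟩) <;> cases h
  · intro h; exact h.elim

private theorem adj31 (i i' : Fin R) (j : Fin S) (k : Fin Z) :
    (Tgt R S Z).Adj (c, .d3 i j k) (c', .d1 i') ↔ False := by
  constructor
  · rintro (⟨_, h | h⟩ | ⟨_, h, _⟩) <;> cases h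
  · intro h; exact h.elim

private theorem adj32 (i i' : Fin R) (j j' : Fin S) (k : Fin Z) :
    (Tgt R S Z).Adj (c, .d3 i j k) (c', .d2 i' j') ↔ c' = c ∧ i' = i ∧ j' = j := by
  constructor
  · rintro (⟨h0, h | h⟩ | ⟨_, h, _⟩)
    · cases h
    · cases h; exact ⟨h0.symm, rfl, rfl⟩
    · cases h
  · rintro ⟨rfl, rfl, rfl⟩; exact Or.inl ⟨rfl, Or.inr (Child.c3 _ _ _)⟩

private theorem adj33 (i i' : Fin R) (j j' : Fin S) (k k' : Fin Z) :
    (Tgt R S Z).Adj (c, .d3 i j k) (c', .d3 i' j' k') ↔ False := by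
  constructor
  · rintro (⟨_, h | h⟩ | ⟨_, h, _⟩) <;> cases h
  · intro h; exact h.elim

end adj

/-- as `sum_nbr` in `Hom2` -/
theorem AO_lev (R S Z : ℕ) [Fintype (Fin (R + 1) × TV R S Z)] (F : V4) :
    AO (Tgt R S Z).Adj (fun a => F a.2.lev) = fun a => opN R S Z F a.2.lev := by
  classical
  funext a
  obtain ⟨c, u⟩ := a
  unfold AO
  rw [sum_Tgt]
  cases u with
  | d0 =>
    have h0 : ∀ x : ℝ, (∑ c' : Fin (R + 1), if c ≠ c' then x else 0) = R * x := by
      intro x
      have h1 : (∑ c' : Fin (R + 1), if c ≠ c' then x else 0) =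
          (∑ c' : Fin (R + 1), x) - ∑ c' : Fin (R + 1), if c' = c then x else 0 := by
        rw [← Finset.sum_sub_distrib]
        refine Finset.sum_congr rfl fun c' _ => ?_
        by_cases h : c' = c
        · subst h; simp
        · rw [if_pos (Ne.symm h), if_neg h]; ring
      rw [h1]
      simp only [Finset.sum_const, Finset.card_univ, Fintype.card_fin, nsmul_eq_mul,
        Finset.sum_ite_eq', Finset.mem_univ, if_true]
      push_cast
      ring
    simp only [adj00, adj01, adj02, adj03, if_false, TV.lev, Finset.sum_const_zero,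
      Finset.sum_const, Finset.card_univ, Fintype.card_fin, nsmul_eq_mul, mul_ite, mul_zero,
      add_zero, Finset.sum_add_distrib, h0, Finset.sum_ite_eq', Finset.mem_univ, if_true]
    simp [opN]
  | d1 i =>
    simp only [adj10, adj11, adj12, adj13, if_false, TV.lev, Finset.sum_const_zero,
      Finset.sum_const, Finset.card_univ, Fintype.card_fin, nsmul_eq_mul, mul_ite, mul_zero,
      add_zero, Finset.sum_add_distrib, ite_and, Finset.sum_ite_eq', Finset.mem_univ, if_true]
    have h : ∀ x : ℝ, (∑ c' : Fin (R + 1), ∑ i' : Fin R, if c' = c then (if i' = i then x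
        else 0) else 0) = x := by
      intro x
      rw [Finset.sum_eq_single c]
      · simp
      · intro b _ hb
        simp [hb]
      · intro hh; exact absurd (Finset.mem_univ c) hh
    rw [h]
    simp [opN]
  | d2 i j =>
    simp only [adj20, adj21, adj22, adj23, if_false, TV.lev, Finset.sum_const_zero,
      Finset.sum_const, Finset.card_univ, Fintype.card_fin, nsmul_eq_mul, mul_ite, mul_zero,
      add_zero, zero_add, Finset.sum_add_distrib, ite_and]
    have h : ∀ x : ℝ, (∑ c' : Fin (R + 1), ∑ i' : Fin R, if c' = c then (if i' = i then x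
        else 0) else 0) = x := by
      intro x
      rw [Finset.sum_eq_single c]
      · simp
      · intro b _ hb
        simp [hb]
      · intro hh; exact absurd (Finset.mem_univ c) hh
    have h2 : ∀ x : ℝ, (∑ c' : Fin (R + 1), ∑ i' : Fin R, ∑ j' : Fin S, if c' = c then
        (if i' = i then (if j' = j then x else 0) else 0) else 0) = x := by
      intro x
      rw [Finset.sum_eq_single c]
      · rw [Finset.sum_eq_single i]
        · simp
        · intro b _ hb
          simp [hb]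
        · intro hh; exact absurd (Finset.mem_univ i) hh
      · intro b _ hb
        simp [hb]
      · intro hh; exact absurd (Finset.mem_univ c) hh
    rw [h, h2]
    simp [opN]
  | d3 i j k =>
    simp only [adj30, adj31, adj32, adj33, if_false, TV.lev, Finset.sum_const_zero,
      Finset.sum_const, Finset.card_univ, Fintype.card_fin, nsmul_eq_mul, mul_ite, mul_zero,
      add_zero, zero_add, Finset.sum_add_distrib, ite_and]
    have h2 : ∀ x : ℝ, (∑ c' : Fin (R + 1), ∑ i' : Fin R, ∑ j' : Fin S, if c' = c then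
        (if i' = i then (if j' = j then x else 0) else 0) else 0) = x := by
      intro x
      rw [Finset.sum_eq_single c]
      · rw [Finset.sum_eq_single i]
        · simp
        · intro b _ hb
          simp [hb]
        · intro hh; exact absurd (Finset.mem_univ i) hh
      · intro b _ hb
        simp [hb]
      · intro hh; exact absurd (Finset.mem_univ c) hh
    rw [h2]
    simp [opN]

theorem sum_lev (R S Z : ℕ) [Fintype (Fin (R + 1) × TV R S Z)] (F : V4) :
    ∑ a : Fin (R + 1) × TV R S Z, F a.2.lev =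
      (R + 1) * (F 0 + R * F 1 + R * S * F 2 + R * S * Z * F 3) := by
  rw [sum_Tgt]
  simp only [TV.lev, Finset.sum_const, Finset.card_univ, Fintype.card_fin, nsmul_eq_mul]
  push_cast
  ring

end Pool.Agent.Lib.MP_dbb03c_co.Gen
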