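import Mathlib

/-! # The parameters and the eigenvector

`R` is a huge multiple of `M`; the target is `Tgt R (R / M) (M ^ 2 * R)`; `l = R + 1 + O(1/R)` is its
spectral radius, `(1, p, q, q / l)` is the eigenvector by levels, `p ≈ 1 / R`, `q ≈ 1 / R ^ 2`. -/

set_option autoImplicit false

namespace Pool.Agent.Lib.MP_dbb03c_co.Gen

structure Par (M R l p q : ℝ) : Prop where
  hM : 8 ≤ M
  hR : M ^ 20 ≤ R
  hl : R < l
  hl' : l < R + 2
  hp : 0 < p
  hq : 0 < q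
  e0 : l = R + R * p
  e1 : l * p = 1 + R / M * q
  e2 : l * q = p + M ^ 2 * R * (q / l)

/-- `M ^ 2 * R` is small compared to `R ^ 2` -/
private theorem small_aux {M R : ℝ} (hM : 8 ≤ M) (hR : M ^ 20 ≤ R) : 8 * (M ^ 2 * R) ≤ R ^ 2 := by
  have hR0 : 0 < R := lt_of_lt_of_le (by positivity) hR
  have h1 : 8 * M ^ 2 ≤ M ^ 20 := by
    have h2 : (8 : ℝ) ^ 1 ≤ M ^ 18 := by
      calc (8 : ℝ) ^ 1 ≤ 8 ^ 18 := by norm_num
        _ ≤ M ^ 18 := pow_le_pow_left₀ (by norm_num) hM 18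
    have h3 : M ^ 20 = M ^ 18 * M ^ 2 := by ring
    rw [h3]
    have h4 : 0 ≤ M ^ 2 := by positivity
    nlinarith
  nlinarith

/-- Intermediate value theorem on `[R, R + 2]` for
`F l = (l - R) * l / R - 1 - (l - R) * l / (M * (l ^ 2 - M ^ 2 * R))`: `F R = -1`, `F (R + 2) > 0`;
`p = (l - R) / R`, `q = p * l / (l ^ 2 - M ^ 2 * R)`. -/
theorem exists_par {M R : ℝ} (hM : 8 ≤ M) (hR : M ^ 20 ≤ R) : ∃ l p q : ℝ, Par M R l p q := by
  have hM0 : 0 < M := by linarith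
  have hR0 : 0 < R := lt_of_lt_of_le (by positivity) hR
  have hR8 : (8 : ℝ) ≤ R := by
    refine le_trans ?_ hR
    calc (8 : ℝ) ≤ 8 ^ 20 := by norm_num
      _ ≤ M ^ 20 := pow_le_pow_left₀ (by norm_num) hM 20
  have hs := small_aux hM hR
  have hD : ∀ l : ℝ, R ≤ l → 0 < l ^ 2 - M ^ 2 * R := by
    intro l hl
    have h1 : R ^ 2 ≤ l ^ 2 := pow_le_pow_left₀ hR0.le hl 2
    nlinarith [mul_pos hR0 hR0]
  set F : ℝ → ℝ := fun l => (l - R) * l / R - 1 - (l - R) * l / (M * (l ^ 2 - M ^ 2 * R)) with hF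
  have hc : ContinuousOn F (Set.Icc R (R + 2)) := by
    rw [hF]
    refine ContinuousOn.sub (by fun_prop) ?_
    refine ContinuousOn.div (by fun_prop) (by fun_prop) ?_
    intro l hl
    exact (mul_pos hM0 (hD l hl.1)).ne'
  have h0 : F R < 0 := by
    simp [hF]
  have h2 : 0 < F (R + 2) := by
    have hD2 := hD (R + 2) (by linarith)
    have e1 : (R + 2 - R) * (R + 2) / R = 2 + 4 / R := by
      field_simp
      ring
    have e2 : (R + 2 - R) * (R + 2) / (M * ((R + 2) ^ 2 - M ^ 2 * R)) ≤ 1 / 2 := by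
      rw [div_le_div_iff₀ (mul_pos hM0 hD2) (by norm_num)]
      have h3 : 8 * ((R + 2) ^ 2 - M ^ 2 * R) ≤ M * ((R + 2) ^ 2 - M ^ 2 * R) :=
        mul_le_mul_of_nonneg_right hM hD2.le
      nlinarith
    have e3 : 0 < 4 / R := by positivity
    have e4 : F (R + 2) = (R + 2 - R) * (R + 2) / R - 1 -
        (R + 2 - R) * (R + 2) / (M * ((R + 2) ^ 2 - M ^ 2 * R)) := rfl
    rw [e4, e1]
    linarith
  obtain ⟨l, hl, hFl⟩ := intermediate_value_Ioo (by linarith) hc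
    (show (0 : ℝ) ∈ Set.Ioo (F R) (F (R + 2)) from ⟨h0, h2⟩)
  have hl0 : 0 < l := hR0.trans hl.1
  have hDl := hD l hl.1.le
  have hp : 0 < (l - R) / R := div_pos (by linarith [hl.1]) hR0
  refine ⟨l, (l - R) / R, (l - R) / R * l / (l ^ 2 - M ^ 2 * R), hM, hR, hl.1, hl.2, hp,
    div_pos (mul_pos hp hl0) hDl, ?_, ?_, ?_⟩
  · field_simp
    ring
  · have e5 : (l - R) * l / R - 1 - (l - R) * l / (M * (l ^ 2 - M ^ 2 * R)) = 0 := hFl
    have e6 : R / M * ((l - R) / R * l / (l ^ 2 - M ^ 2 * R)) =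
        (l - R) * l / (M * (l ^ 2 - M ^ 2 * R)) := by
      have := hDl.ne'
      field_simp
    have e7 : l * ((l - R) / R) = (l - R) * l / R := by ring
    rw [e6, e7]
    linarith
  · have hD0 := hDl.ne'
    have hl1 := hl0.ne'
    generalize hDd : l ^ 2 - M ^ 2 * R = D at hD0 ⊢
    generalize (l - R) / R = P
    have e8 : P * l / D / l = P / D := by field_simp
    have e9 : l * (P * l / D) = P * l ^ 2 / D := by ring
    have e10 : l ^ 2 = D + M ^ 2 * R := by linarith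
    rw [e8, e9, e10]
    field_simp

variable {M R l p q : ℝ}

theorem Par.R_pos (h : Par M R l p q) : 0 < R := by
  have h1 := h.hM
  exact lt_of_lt_of_le (by positivity) h.hR

theorem Par.R_big (h : Par M R l p q) : 8 ^ 20 ≤ R :=
  (pow_le_pow_left₀ (by norm_num) h.hM 20).trans h.hR

theorem Par.l_pos (h : Par M R l p q) : 0 < l := h.R_pos.trans h.hl

/-- from `e1` -/
theorem Par.p_lo (h : Par M R l p q) : 1 / l ≤ p := by
  have hl := h.l_pos
  have hM0 : 0 < M := by linarith [h.hM]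
  rw [div_le_iff₀ hl, mul_comm, h.e1]
  have : 0 < R / M * q := mul_pos (div_pos h.R_pos hM0) h.hq
  linarith

/-- from `e2` and `p_lo` -/
theorem Par.q_lo (h : Par M R l p q) : 1 / l ^ 2 ≤ q := by
  have hl := h.l_pos
  have h1 := h.p_lo
  rw [div_le_iff₀ hl] at h1
  rw [div_le_iff₀ (by positivity)]
  have h2 : 0 < M ^ 2 * R * (q / l) := by
    have hM0 : 0 < M := by linarith [h.hM]
    exact mul_pos (mul_pos (by positivity) h.R_pos) (div_pos h.hq hl)
  have h3 : p ≤ l * q := by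
    rw [h.e2]
    linarith
  nlinarith

/-- `q * (l ^ 2 - M ^ 2 * R) = p * l` -/
private theorem Par.q_eq (h : Par M R l p q) : q * (l ^ 2 - M ^ 2 * R) = p * l := by
  have hl := h.l_pos
  have h1 : l * q * l = (p + M ^ 2 * R * (q / l)) * l := by rw [h.e2]
  have h2 : (p + M ^ 2 * R * (q / l)) * l = p * l + M ^ 2 * R * q := by
    field_simp
  rw [h2] at h1
  linarith

private theorem Par.pl_hi (h : Par M R l p q) : p * l ≤ 1 + 3 / (M * R) := by
  have hl := h.l_pos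
  have hR0 := h.R_pos
  have hM0 : 0 < M := by linarith [h.hM]
  have hs := small_aux h.hM h.hR
  have h1 : R * p < 2 := by
    have := h.e0
    have := h.hl'
    linarith
  have h2 : R ^ 2 ≤ l ^ 2 := pow_le_pow_left₀ hR0.le h.hl.le 2
  have h3 := h.q_eq
  have hp := h.hp
  have hq := h.hq
  have hlR : l < R + 2 := h.hl'
  have hRb := h.R_big
  -- q * R ^ 2 ≤ 3
  have h4 : q * (7 / 8 * R ^ 2) ≤ p * l := by
    rw [← h3]
    apply mul_le_mul_of_nonneg_left _ hq.le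
    linarith
  have h5 : p * l ≤ 2.5 := by
    have h6 : p * l ≤ p * (R + 2) := mul_le_mul_of_nonneg_left hlR.le hp.le
    have h7 : p ≤ 0.1 := by
      by_contra hcon
      push Not at hcon
      have : R * 0.1 < R * p := mul_lt_mul_of_pos_left hcon hR0
      norm_num at hRb
      linarith
    linarith
  have h8 : q * R ^ 2 ≤ 3 := by linarith
  have h9 : R / M * q ≤ 3 / (M * R) := by
    rw [div_mul_eq_mul_div, div_le_div_iff₀ hM0 (by positivity)]
    have : R * q * (M * R) = M * (q * R ^ 2) := by ring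
    rw [this]
    nlinarith
  have h10 := h.e1
  linarith

/-- `p < 2 / R` by `e0`, `hl'`; `q * (l ^ 2 - M ^ 2 * R) = p * l` by `e2`, so `q ≤ 3 / R ^ 2`; then `e1` gives
`l * p ≤ 1 + 3 / (M * R)` -/
theorem Par.p_hi (h : Par M R l p q) : p ≤ (1 + 1 / M ^ 5) / R := by
  have hR0 := h.R_pos
  have hM0 : 0 < M := by linarith [h.hM]
  have h1 := h.pl_hi
  rw [le_div_iff₀ hR0]
  have h2 : p * R ≤ p * l := mul_le_mul_of_nonneg_left h.hl.le h.hp.le
  have h3 : 3 / (M * R) ≤ 1 / M ^ 5 := by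
    rw [div_le_div_iff₀ (by positivity) (by positivity)]
    have h4 : 3 * M ^ 4 ≤ R := by
      refine le_trans ?_ h.hR
      have h5 : (3 : ℝ) ≤ M ^ 16 := by
        calc (3 : ℝ) ≤ 8 ^ 16 := by norm_num
          _ ≤ M ^ 16 := pow_le_pow_left₀ (by norm_num) h.hM 16
      have h6 : M ^ 20 = M ^ 16 * M ^ 4 := by ring
      rw [h6]
      exact mul_le_mul_of_nonneg_right h5 (by positivity)
    nlinarith
  linarith

/-- `q = p * l / (l ^ 2 - M ^ 2 * R)` and `p * l ≤ 1 + 3 / (M * R)` -/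
theorem Par.q_hi (h : Par M R l p q) : q ≤ (1 + 1 / M ^ 5) / R ^ 2 := by
  have hR0 := h.R_pos
  have hM8 := h.hM
  have hM0 : 0 < M := by linarith
  have h1 := h.pl_hi
  have h3 := h.q_eq
  have h2 : R ^ 2 ≤ l ^ 2 := pow_le_pow_left₀ hR0.le h.hl.le 2
  have hs := small_aux hM8 h.hR
  have hD : 0 < R ^ 2 - M ^ 2 * R := by nlinarith [mul_pos hR0 hR0]
  have h4 : q * (R ^ 2 - M ^ 2 * R) ≤ 1 + 3 / (M * R) := by
    refine le_trans ?_ h1
    rw [← h3]
    exact mul_le_mul_of_nonneg_left (by linarith) h.hq.le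
  -- (1 + 3 / (M R)) R ^ 2 ≤ (1 + 1 / M ^ 5) (R ^ 2 - M ^ 2 R)
  have h5 : (1 + 3 / (M * R)) * R ^ 2 ≤ (1 + 1 / M ^ 5) * (R ^ 2 - M ^ 2 * R) := by
    have e1 : (1 + 3 / (M * R)) * R ^ 2 = R ^ 2 + 3 / M * R := by
      field_simp
    have e2 : (1 + 1 / M ^ 5) * (R ^ 2 - M ^ 2 * R) =
        R ^ 2 + (R / M ^ 5 - M ^ 2 - M ^ 2 / M ^ 5) * R := by
      field_simp
      ring
    rw [e1, e2]
    have h6 : M ^ 15 ≤ R / M ^ 5 := by
      rw [le_div_iff₀ (by positivity)]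
      calc M ^ 15 * M ^ 5 = M ^ 20 := by ring
        _ ≤ R := h.hR
    have h7 : 3 / M ≤ 1 := by
      rw [div_le_one hM0]
      linarith
    have h8 : M ^ 2 / M ^ 5 ≤ 1 := by
      rw [div_le_one (by positivity)]
      exact pow_le_pow_right₀ (by linarith) (by norm_num)
    have h9 : M ^ 2 + 2 ≤ M ^ 15 := by
      have h10 : (8 : ℝ) ≤ M ^ 13 := by
        calc (8 : ℝ) ≤ 8 ^ 13 := by norm_num
          _ ≤ M ^ 13 := pow_le_pow_left₀ (by norm_num) hM8 13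
      have h11 : M ^ 15 = M ^ 13 * M ^ 2 := by ring
      rw [h11]
      have h12 : (64 : ℝ) ≤ M ^ 2 := by nlinarith
      nlinarith
    have h13 : 3 / M ≤ R / M ^ 5 - M ^ 2 - M ^ 2 / M ^ 5 := by linarith
    have h14 := mul_le_mul_of_nonneg_right h13 hR0.le
    linarith
  rw [le_div_iff₀ (by positivity)]
  have h15 : q * (R ^ 2 - M ^ 2 * R) * R ^ 2 ≤ (1 + 1 / M ^ 5) * (R ^ 2 - M ^ 2 * R) := by
    refine le_trans ?_ h5
    exact mul_le_mul_of_nonneg_right h4 (by positivity)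
  have h16 : q * R ^ 2 * (R ^ 2 - M ^ 2 * R) ≤ (1 + 1 / M ^ 5) * (R ^ 2 - M ^ 2 * R) := by
    calc q * R ^ 2 * (R ^ 2 - M ^ 2 * R) = q * (R ^ 2 - M ^ 2 * R) * R ^ 2 := by ring
      _ ≤ _ := h15
  exact le_of_mul_le_mul_right h16 hD

private theorem pow8_aux {x : ℝ} (hx : 0 ≤ x) (hx1 : x ≤ 1) : (1 + x) ^ 8 ≤ 1 + 255 * x := by
  have h1 : (1 + x) ^ 2 ≤ 1 + 3 * x := by nlinarith
  have h2 : (1 + x) ^ 4 ≤ 1 + 15 * x := by
    calc (1 + x) ^ 4 = ((1 + x) ^ 2) ^ 2 := by ring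
      _ ≤ (1 + 3 * x) ^ 2 := pow_le_pow_left₀ (by positivity) h1 2
      _ ≤ 1 + 15 * x := by nlinarith
  calc (1 + x) ^ 8 = ((1 + x) ^ 4) ^ 2 := by ring
    _ ≤ (1 + 15 * x) ^ 2 := pow_le_pow_left₀ (by positivity) h2 2
    _ ≤ 1 + 255 * x := by nlinarith

/-- `l < R + 2` and `(1 + 2 / R) ^ 8 ≤ 1 + 1 / M ^ 5` -/
theorem Par.l_pow (h : Par M R l p q) {k : ℕ} (hk : k ≤ 8) : l ^ k ≤ (1 + 1 / M ^ 5) * R ^ k := by
  have hR0 := h.R_pos
  have hM0 : 0 < M := by linarith [h.hM]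
  have hl := h.l_pos
  have hRb := h.R_big
  norm_num at hRb
  have hx : 0 ≤ 2 / R := by positivity
  have hx1 : 2 / R ≤ 1 := by
    rw [div_le_one hR0]
    linarith
  have h1 : (1 + 2 / R) ^ 8 ≤ 1 + 1 / M ^ 5 := by
    refine (pow8_aux hx hx1).trans ?_
    have h2 : 255 * (2 / R) ≤ 1 / M ^ 5 := by
      rw [← mul_div_assoc, div_le_div_iff₀ hR0 (by positivity)]
      have h3 : (510 : ℝ) ≤ M ^ 15 := by
        calc (510 : ℝ) ≤ 8 ^ 15 := by norm_num
          _ ≤ M ^ 15 := pow_le_pow_left₀ (by norm_num) h.hM 15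
      calc 255 * 2 * M ^ 5 = 510 * M ^ 5 := by ring
        _ ≤ M ^ 15 * M ^ 5 := mul_le_mul_of_nonneg_right h3 (by positivity)
        _ = M ^ 20 := by ring
        _ ≤ R := h.hR
        _ = 1 * R := (one_mul R).symm
    linarith
  have h4 : l ≤ (1 + 2 / R) * R := by
    have : (1 + 2 / R) * R = R + 2 := by
      field_simp
    rw [this]
    exact h.hl'.le
  calc l ^ k ≤ ((1 + 2 / R) * R) ^ k := pow_le_pow_left₀ hl.le h4 k
    _ = (1 + 2 / R) ^ k * R ^ k := mul_pow _ _ _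
    _ ≤ (1 + 2 / R) ^ 8 * R ^ k := by
        apply mul_le_mul_of_nonneg_right _ (by positivity)
        exact pow_le_pow_right₀ (by linarith) hk
    _ ≤ (1 + 1 / M ^ 5) * R ^ k := mul_le_mul_of_nonneg_right h1 (by positivity)

end Pool.Agent.Lib.MP_dbb03c_co.Gen
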