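import Pool.Agent.Lib.MP_dbb03c_co.Gen.SStep

/-! # Upper bound for the path vector -/

set_option autoImplicit false

namespace Pool.Agent.Lib.MP_dbb03c_co.Gen

variable {M R l p q : ℝ}

private theorem step4 (h : Par M R l p q) {x : V4} {a b c d a' b' c' d' : ℝ}
    (hx : ∀ i : Fin 4, x i * l ^ (i : ℕ) ≤ (![a, b, c, d] : Fin 4 → ℝ) i)
    (ha : 0 ≤ a) (hb : 0 ≤ b) (hc : 0 ≤ c) (hd : 0 ≤ d)
    (h0 : a + b / R ≤ a') (h1 : a + c / (M * R) ≤ b')
    (h2 : b + M ^ 2 / R * d ≤ c') (h3 : c ≤ d') :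
    ∀ i : Fin 4, bS M R l x i * l ^ (i : ℕ) ≤ (![a', b', c', d'] : Fin 4 → ℝ) i :=
  step_le h hx (by intro i; fin_cases i <;> assumption) h0 h1 h2 h3

/-- Seven times `step_le`, then `le_phS`, `it_le_phS`. Scaled bounds (`e = 1 / M ^ 5`):
Y0 = (1, (1+e)R, (1+e)R², (1+e)R³) (`l_pow`),
Y1 = (2.01, 1.01R/M, M²R²+R²/M, 2R²), Y2 = (2.14, MR+0.1R, 3M²R, 2M²R²),
Y3 = (M+2.3, 4M, 3M⁴R, 3M²R), Y4 = (M+2.4, 4M³, 4M⁴, 3M⁴R), Y5 = (M+2.5, M+2.5, 4M⁶, 4M⁴),
Y6 = (M+2.6, M+2.6, M+2.6, 4M⁶), Y7 = (M+2.7, M+2.7, M+2.7, M+2.7). -/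
theorem oS_le (h : Par M R l p q) (n : ℕ) (hn : 7 ≤ n) (i : Fin 4) :
    (bS M R l)^[n] oS i ≤ (M + 3) * phS l p q i := by
  have hM := h.hM
  have hM0 : 0 < M := by linarith
  have hR0 : 0 < R := h.R_pos
  have hM' : M ≠ 0 := hM0.ne'
  have hR' : R ≠ 0 := hR0.ne'
  -- powers
  have hP : 64 * M ^ 8 * M ^ 8 ≤ R := by
    refine le_trans ?_ h.hR
    have h4 : (8 : ℝ) ^ 4 ≤ M ^ 4 := pow_le_pow_left₀ (by norm_num) hM 4
    have e : M ^ 20 = M ^ 4 * (M ^ 8 * M ^ 8) := by ring
    rw [e, mul_assoc]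
    exact mul_le_mul_of_nonneg_right (by norm_num at h4 ⊢; linarith) (by positivity)
  have hM1 : 1 ≤ M := by linarith
  have hM8 : 1 ≤ M ^ 8 := one_le_pow₀ hM1
  have hK : ∀ k ≤ 8, M ^ k ≤ M ^ 8 := fun k hk => pow_le_pow_right₀ hM1 hk
  have hR8 : 64 * M ^ 8 ≤ R := by nlinarith [mul_nonneg (by positivity : (0:ℝ) ≤ 64 * M ^ 8) (sub_nonneg.2 hM8)]
  have hsm : ∀ k ≤ 8, M ^ k / R ≤ 1 / 64 := fun k hk => by
    rw [div_le_div_iff₀ hR0 (by norm_num)]
    have := hK k hk
    linarith
  have hu : 1 / R ≤ 1 / 64 := by simpa using hsm 0 (by norm_num)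
  have hRM : 1000 ≤ R / M := by
    rw [le_div_iff₀ hM0]
    have h5 : (8 : ℝ) ^ 7 ≤ M ^ 7 := pow_le_pow_left₀ (by norm_num) hM 7
    have h6 : M ^ 8 = M ^ 7 * M := by ring
    have h7 : 1000 * M ≤ M ^ 7 * M := mul_le_mul_of_nonneg_right (by norm_num at h5 ⊢; linarith) hM0.le
    nlinarith
  set e : ℝ := 1 / M ^ 5 with he
  have he0 : 0 < e := by positivity
  have he1 : e ≤ 1 / 1000 := by
    have h5 : (8 : ℝ) ^ 5 ≤ M ^ 5 := pow_le_pow_left₀ (by norm_num) hM 5
    rw [he]
    exact one_div_le_one_div_of_le (by norm_num) (by norm_num at h5 ⊢; linarith)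
  -- Y0
  have H0 : ∀ i : Fin 4, oS i * l ^ (i : ℕ) ≤
      (![1, (1 + e) * R, (1 + e) * R ^ 2, (1 + e) * R ^ 3] : Fin 4 → ℝ) i := by
    intro i
    fin_cases i
    · simp [oS]
    · have := h.l_pow (k := 1) (by norm_num)
      rw [← he] at this
      simpa [oS] using this
    · have := h.l_pow (k := 2) (by norm_num)
      rw [← he] at this
      simpa [oS] using this
    · have := h.l_pow (k := 3) (by norm_num)
      rw [← he] at this
      simpa [oS] using this
  have H1 := step4 h H0 (a' := 2.01) (b' := 1.01 * R / M) (c' := M ^ 2 * R ^ 2 + R ^ 2 / M)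
    (d' := 2 * R ^ 2) (by norm_num) (by positivity) (by positivity) (by positivity)
    (by
      rw [mul_div_cancel_right₀ _ hR']
      norm_num
      linarith)
    (by
      have e1 : (1 + e) * R ^ 2 / (M * R) = (1 + e) * (R / M) := by field_simp
      have e2 : 1.01 * R / M = 1.01 * (R / M) := by ring
      rw [e1, e2]
      nlinarith)
    (by
      have e1 : M ^ 2 / R * ((1 + e) * R ^ 3) = M ^ 2 * R ^ 2 + R ^ 2 / M ^ 3 := by
        rw [he]
        field_simp
      rw [e1]
      have e2 : R ^ 2 / M ^ 3 = R * (R / M) / M ^ 2 := by field_simp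
      have e3 : R ^ 2 / M = R * (R / M) := by field_simp
      rw [e2, e3]
      have e4 : R * (R / M) / M ^ 2 ≤ R * (R / M) / 2 :=
        div_le_div_of_nonneg_left (by positivity) (by norm_num) (by nlinarith)
      nlinarith)
    (by nlinarith [sq_nonneg R])
  have H2 := step4 h H1 (a' := 2.14) (b' := M * R + 0.1 * R) (c' := 3 * M ^ 2 * R)
    (d' := 2 * M ^ 2 * R ^ 2) (by norm_num) (by positivity) (by positivity) (by positivity)
    (by
      have e1 : 1.01 * R / M / R = 1.01 / M := by field_simp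
      rw [e1]
      have e2 : 1.01 / M ≤ 1.01 / 8 := div_le_div_of_nonneg_left (by norm_num) (by norm_num) hM
      norm_num at e2 ⊢
      linarith)
    (by
      have e1 : (M ^ 2 * R ^ 2 + R ^ 2 / M) / (M * R) = M * R + R / M ^ 2 := by field_simp
      rw [e1]
      have e2 : R / M ^ 2 ≤ R / 64 :=
        div_le_div_of_nonneg_left hR0.le (by norm_num) (by nlinarith)
      nlinarith)
    (by
      have e1 : M ^ 2 / R * (2 * R ^ 2) = 2 * M ^ 2 * R := by field_simp
      rw [e1]
      have e2 : 1.01 * R / M ≤ 1.01 * R / 1 :=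
        div_le_div_of_nonneg_left (by positivity) (by norm_num) hM1
      have e3 : 1.01 * R ≤ M ^ 2 * R := mul_le_mul_of_nonneg_right (by nlinarith) hR0.le
      linarith)
    (by
      have e2 : R ^ 2 / M ≤ R ^ 2 / 1 :=
        div_le_div_of_nonneg_left (by positivity) (by norm_num) hM1
      have e3 : 1 * R ^ 2 ≤ M ^ 2 * R ^ 2 :=
        mul_le_mul_of_nonneg_right (by nlinarith) (by positivity)
      linarith)
  have H3 := step4 h H2 (a' := M + 2.3) (b' := 4 * M) (c' := 3 * M ^ 4 * R)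
    (d' := 3 * M ^ 2 * R) (by norm_num) (by positivity) (by positivity) (by positivity)
    (by
      have e1 : (M * R + 0.1 * R) / R = M + 0.1 := by field_simp
      rw [e1]
      norm_num
      linarith)
    (by
      have e1 : 3 * M ^ 2 * R / (M * R) = 3 * M := by field_simp
      rw [e1]
      norm_num
      linarith)
    (by
      have e1 : M ^ 2 / R * (2 * M ^ 2 * R ^ 2) = 2 * M ^ 4 * R := by field_simp
      rw [e1]
      have e2 : M + 0.1 ≤ M ^ 4 := by
        have : M * 8 ^ 3 ≤ M * M ^ 3 :=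
          mul_le_mul_of_nonneg_left (pow_le_pow_left₀ (by norm_num) hM 3) hM0.le
        have e5 : M ^ 4 = M * M ^ 3 := by ring
        norm_num at this ⊢
        rw [e5]
        linarith
      have e3 := mul_le_mul_of_nonneg_right e2 hR0.le
      linarith)
    (le_refl _)
  have hM3 : 64 * M ≤ M ^ 3 := by nlinarith [mul_nonneg hM0.le (by nlinarith : (0:ℝ) ≤ M ^ 2 - 64)]
  have hM4 : 8 * M ^ 3 ≤ M ^ 4 := by nlinarith [pow_pos hM0 3]
  have hM6 : 64 * M ^ 4 ≤ M ^ 6 := by
    nlinarith [mul_nonneg (pow_pos hM0 4).le (by nlinarith : (0:ℝ) ≤ M ^ 2 - 64)]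
  have H4 := step4 h H3 (a' := M + 2.4) (b' := 4 * M ^ 3) (c' := 4 * M ^ 4)
    (d' := 3 * M ^ 4 * R) (by positivity) (by positivity) (by positivity) (by positivity)
    (by
      have e1 : 4 * M / R = 4 * (M ^ 1 / R) := by ring
      rw [e1]
      have := hsm 1 (by norm_num)
      norm_num at this ⊢
      linarith)
    (by
      have e1 : 3 * M ^ 4 * R / (M * R) = 3 * M ^ 3 := by field_simp
      rw [e1]
      norm_num
      linarith)
    (by
      have e1 : M ^ 2 / R * (3 * M ^ 2 * R) = 3 * M ^ 4 := by field_simp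
      rw [e1]
      linarith)
    (le_refl _)
  have H5 := step4 h H4 (a' := M + 2.5) (b' := M + 2.5) (c' := 4 * M ^ 6)
    (d' := 4 * M ^ 4) (by positivity) (by positivity) (by positivity) (by positivity)
    (by
      have e1 : 4 * M ^ 3 / R = 4 * (M ^ 3 / R) := by ring
      rw [e1]
      have := hsm 3 (by norm_num)
      norm_num at this ⊢
      linarith)
    (by
      have e1 : 4 * M ^ 4 / (M * R) = 4 * (M ^ 3 / R) := by field_simp
      rw [e1]
      have := hsm 3 (by norm_num)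
      norm_num at this ⊢
      linarith)
    (by
      have e1 : M ^ 2 / R * (3 * M ^ 4 * R) = 3 * M ^ 6 := by field_simp
      rw [e1]
      linarith)
    (le_refl _)
  have H6 := step4 h H5 (a' := M + 2.6) (b' := M + 2.6) (c' := M + 2.6)
    (d' := 4 * M ^ 6) (by positivity) (by positivity) (by positivity) (by positivity)
    (by
      have e1 : (M + 2.5) / R = M ^ 1 / R + 2.5 * (1 / R) := by ring
      rw [e1]
      have := hsm 1 (by norm_num)
      norm_num at this hu ⊢
      linarith)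
    (by
      have e1 : 4 * M ^ 6 / (M * R) = 4 * (M ^ 5 / R) := by field_simp
      rw [e1]
      have := hsm 5 (by norm_num)
      norm_num at this ⊢
      linarith)
    (by
      have e1 : M ^ 2 / R * (4 * M ^ 4) = 4 * (M ^ 6 / R) := by ring
      rw [e1]
      have := hsm 6 (by norm_num)
      norm_num at this ⊢
      linarith)
    (le_refl _)
  have H7 := step4 h H6 (a' := M + 2.7) (b' := M + 2.7) (c' := M + 2.7)
    (d' := M + 2.7) (by positivity) (by positivity) (by positivity) (by positivity)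
    (by
      have e1 : (M + 2.6) / R = M ^ 1 / R + 2.6 * (1 / R) := by ring
      rw [e1]
      have := hsm 1 (by norm_num)
      norm_num at this hu ⊢
      linarith)
    (by
      have e1 : (M + 2.6) / (M * R) ≤ (M + 2.6) / (1 * R) :=
        div_le_div_of_nonneg_left (by positivity) (by positivity)
          (mul_le_mul_of_nonneg_right hM1 hR0.le)
      have e2 : (M + 2.6) / (1 * R) = M ^ 1 / R + 2.6 * (1 / R) := by ring
      rw [e2] at e1
      have := hsm 1 (by norm_num)
      norm_num at this hu e1 ⊢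
      linarith)
    (by
      have e1 : M ^ 2 / R * (4 * M ^ 6) = 4 * (M ^ 8 / R) := by ring
      rw [e1]
      have := hsm 8 (by norm_num)
      norm_num at this ⊢
      linarith)
    (by norm_num)
  have H8 : ∀ i : Fin 4, (bS M R l)^[7] oS i ≤ (M + 3) * phS l p q i := by
    intro i
    refine le_phS h (by positivity) (fun j => ?_) i
    refine (H7 j).trans ?_
    fin_cases j <;> (norm_num)
  obtain ⟨m, rfl⟩ : ∃ m, n = m + 7 := ⟨n - 7, by omega⟩
  rw [Function.iterate_add_apply]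
  exact it_le_phS h H8 m i

end Pool.Agent.Lib.MP_dbb03c_co.Gen
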