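import Pool.Agent.Lib.MP_dbb03c_co.Gen.SOp

/-! # One step of the operator in scaled coordinates -/

set_option autoImplicit false

namespace Pool.Agent.Lib.MP_dbb03c_co.Gen

variable {M R l p q : ℝ}

/-- Scaled coordinates `y i = x i * l ^ i`: the operator becomes (at most)
`y ↦ (y 0 + y 1 / R, y 0 + y 2 / (M * R), y 1 + M ^ 2 / R * y 3, y 2)` because `R ≤ l`. -/
theorem step_le (h : Par M R l p q) {x y y' : V4} (hx : ∀ i : Fin 4, x i * l ^ (i : ℕ) ≤ y i)
    (hy : ∀ i, 0 ≤ y i)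
    (h0 : y 0 + y 1 / R ≤ y' 0) (h1 : y 0 + y 2 / (M * R) ≤ y' 1)
    (h2 : y 1 + M ^ 2 / R * y 3 ≤ y' 2) (h3 : y 2 ≤ y' 3) :
    ∀ i : Fin 4, bS M R l x i * l ^ (i : ℕ) ≤ y' i := by
  have hR := h.R_pos
  have hl := h.l_pos
  have hRl : R ≤ l := h.hl.le
  have hM : 0 < M := lt_of_lt_of_le (by norm_num) h.hM
  have hRl2 : R ^ 2 ≤ l ^ 2 := pow_le_pow_left₀ hR.le hRl 2
  have x0 : x 0 ≤ y 0 := by simpa using hx 0
  have x1 : x 1 * l ≤ y 1 := by simpa using hx 1
  have x2 : x 2 * l ^ 2 ≤ y 2 := by simpa using hx 2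
  have x3 : x 3 * l ^ 3 ≤ y 3 := by simpa using hx 3
  have x1' : x 1 ≤ y 1 / l := by rwa [le_div_iff₀ hl]
  have x2' : x 2 ≤ y 2 / l ^ 2 := by rwa [le_div_iff₀ (by positivity)]
  have x3' : x 3 ≤ y 3 / l ^ 3 := by rwa [le_div_iff₀ (by positivity)]
  have y0 := hy 0
  have y1 := hy 1
  have y2 := hy 2
  have y3 := hy 3
  intro i
  fin_cases i
  · refine le_trans ?_ h0
    have e : bS M R l x 0 * l ^ ((0 : Fin 4) : ℕ) = (R * x 0 + R * x 1) / l := by
      simp [bS, opS]
    change bS M R l x 0 * l ^ ((0 : Fin 4) : ℕ) ≤ _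
    rw [e, div_le_iff₀ hl]
    have a1 : R * x 0 ≤ y 0 * l := by
      have := mul_le_mul_of_nonneg_left x0 hR.le
      have := mul_le_mul_of_nonneg_left hRl y0
      linarith
    have a2 : R * x 1 ≤ y 1 / R * l := by
      have b1 : R * x 1 ≤ R * (y 1 / l) := mul_le_mul_of_nonneg_left x1' hR.le
      have b2 : R * (y 1 / l) ≤ y 1 := by
        rw [mul_div_assoc', div_le_iff₀ hl]
        have := mul_le_mul_of_nonneg_left hRl y1
        linarith
      have b3 : y 1 ≤ y 1 / R * l := by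
        rw [div_mul_eq_mul_div, le_div_iff₀ hR]
        exact mul_le_mul_of_nonneg_left hRl y1
      linarith
    linarith
  · refine le_trans ?_ h1
    have e : bS M R l x 1 * l ^ ((1 : Fin 4) : ℕ) = x 0 + R / M * x 2 := by
      simp [bS, opS]
      field_simp
    change bS M R l x 1 * l ^ ((1 : Fin 4) : ℕ) ≤ _
    rw [e]
    have a2 : R / M * x 2 ≤ y 2 / (M * R) := by
      have b1 : R / M * x 2 ≤ R / M * (y 2 / l ^ 2) :=
        mul_le_mul_of_nonneg_left x2' (by positivity)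
      have b2 : R / M * (y 2 / l ^ 2) ≤ y 2 / (M * R) := by
        rw [div_mul_div_comm, div_le_div_iff₀ (by positivity) (by positivity)]
        have := mul_le_mul_of_nonneg_left hRl2 (mul_nonneg y2 hM.le)
        nlinarith
      linarith
    linarith
  · refine le_trans ?_ h2
    have e : bS M R l x 2 * l ^ ((2 : Fin 4) : ℕ) = x 1 * l + M ^ 2 * R * (x 3 * l) := by
      simp [bS, opS]
      field_simp
    change bS M R l x 2 * l ^ ((2 : Fin 4) : ℕ) ≤ _
    rw [e]
    have a2 : M ^ 2 * R * (x 3 * l) ≤ M ^ 2 / R * y 3 := by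
      have b0 : x 3 * l ≤ y 3 / l ^ 2 := by
        rw [le_div_iff₀ (by positivity)]
        calc x 3 * l * l ^ 2 = x 3 * l ^ 3 := by ring
          _ ≤ _ := x3
      have b1 : M ^ 2 * R * (x 3 * l) ≤ M ^ 2 * R * (y 3 / l ^ 2) :=
        mul_le_mul_of_nonneg_left b0 (by positivity)
      have b2 : M ^ 2 * R * (y 3 / l ^ 2) ≤ M ^ 2 / R * y 3 := by
        rw [mul_div_assoc', div_mul_eq_mul_div, div_le_div_iff₀ (by positivity) hR]
        have := mul_le_mul_of_nonneg_left hRl2 (mul_nonneg (sq_nonneg M) y3)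
        nlinarith
      linarith
    linarith
  · refine le_trans ?_ h3
    have e : bS M R l x 3 * l ^ ((3 : Fin 4) : ℕ) = x 2 * l ^ 2 := by
      simp [bS, opS]
      field_simp
    change bS M R l x 3 * l ^ ((3 : Fin 4) : ℕ) ≤ _
    rw [e]
    exact x2

/-- `1 ≤ l ^ i * phS i` (`p_lo`, `q_lo`) -/
theorem le_phS (h : Par M R l p q) {x : V4} {c : ℝ} (hc : 0 ≤ c)
    (hx : ∀ i : Fin 4, x i * l ^ (i : ℕ) ≤ c) (i : Fin 4) : x i ≤ c * phS l p q i := by
  have hl := h.l_pos
  have x0 : x 0 ≤ c := by simpa using hx 0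
  have x1 : x 1 * l ≤ c := by simpa using hx 1
  have x2 : x 2 * l ^ 2 ≤ c := by simpa using hx 2
  have x3 : x 3 * l ^ 3 ≤ c := by simpa using hx 3
  have hp := h.p_lo
  have hq := h.q_lo
  fin_cases i
  · change x 0 ≤ c * phS l p q 0
    have : phS l p q 0 = 1 := by simp [phS]
    rw [this]
    linarith
  · change x 1 ≤ c * phS l p q 1
    have : phS l p q 1 = p := by simp [phS]
    rw [this]
    have a : x 1 ≤ c * (1 / l) := by
      rw [mul_one_div, le_div_iff₀ hl]
      exact x1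
    exact a.trans (mul_le_mul_of_nonneg_left hp hc)
  · change x 2 ≤ c * phS l p q 2
    have : phS l p q 2 = q := by simp [phS]
    rw [this]
    have a : x 2 ≤ c * (1 / l ^ 2) := by
      rw [mul_one_div, le_div_iff₀ (by positivity)]
      exact x2
    exact a.trans (mul_le_mul_of_nonneg_left hq hc)
  · change x 3 ≤ c * phS l p q 3
    have : phS l p q 3 = q / l := by simp [phS]
    rw [this]
    have a : x 3 ≤ c * (1 / l ^ 2 / l) := by
      rw [div_div, mul_one_div, le_div_iff₀ (by positivity)]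
      calc x 3 * (l ^ 2 * l) = x 3 * l ^ 3 := by ring
        _ ≤ c := x3
    refine a.trans (mul_le_mul_of_nonneg_left ?_ hc)
    exact div_le_div_of_nonneg_right hq hl.le

/-- `bS (phS) = phS` and monotonicity -/
theorem it_le_phS (h : Par M R l p q) {x : V4} {c : ℝ} (hx : ∀ i, x i ≤ c * phS l p q i) (n : ℕ)
    (i : Fin 4) : (bS M R l)^[n] x i ≤ c * phS l p q i := by
  have := itS_mono h n (x := x) (y := c • phS l p q) (fun i => by simpa using hx i) i
  rw [itS_smul_ph h n c] at this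
  simpa using this

theorem it_ge_phS (h : Par M R l p q) {x : V4} {c : ℝ} (hx : ∀ i, c * phS l p q i ≤ x i) (n : ℕ)
    (i : Fin 4) : c * phS l p q i ≤ (bS M R l)^[n] x i := by
  have := itS_mono h n (x := c • phS l p q) (y := x) (fun i => by simpa using hx i) i
  rw [itS_smul_ph h n c] at this
  simpa using this

end Pool.Agent.Lib.MP_dbb03c_co.Gen
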