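import Pool.Agent.Lib.MP_dbb03c_co.Stmt
import Pool.Agent.Lib.MP_dbb03c_co.Hom2

/-! # The target graphs: a clique with a tree of depth 3 hung on every vertex -/

set_option autoImplicit false

namespace Pool.Agent.Lib.MP_dbb03c_co.Gen

theorem child_irrefl {x y z : ℕ} (u : TV x y z) : ¬ Child u u := by
  intro h
  cases h

/-- The graph `Tgt R S Z`: `R + 1` disjoint copies of the tree `T(R,S,Z)`, any two of the `R + 1` roots
joined by an edge. -/
def Tgt (R S Z : ℕ) : SimpleGraph (Fin (R + 1) × TV R S Z) where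
  Adj := fun a b => (a.1 = b.1 ∧ (Child a.2 b.2 ∨ Child b.2 a.2)) ∨
    (a.1 ≠ b.1 ∧ a.2 = .d0 ∧ b.2 = .d0)
  symm := ⟨fun a b h => by
    rcases h with ⟨h1, h2⟩ | ⟨h1, h2, h3⟩
    · exact Or.inl ⟨h1.symm, h2.symm⟩
    · exact Or.inr ⟨Ne.symm h1, h3, h2⟩⟩
  loopless := ⟨fun a h => by
    rcases h with ⟨_, h2 | h2⟩ | ⟨h1, _⟩
    · exact child_irrefl _ h2
    · exact child_irrefl _ h2
    · exact h1 rfl⟩

private theorem adj_child {R S Z : ℕ} (c : Fin (R + 1)) {u v : TV R S Z} (h : Child u v) :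
    (Tgt R S Z).Adj (c, u) (c, v) := Or.inl ⟨rfl, Or.inl h⟩

private theorem reach_root {R S Z : ℕ} (c : Fin (R + 1)) (u : TV R S Z) :
    (Tgt R S Z).Reachable (c, .d0) (c, u) := by
  have h1 : ∀ i, (Tgt R S Z).Reachable (c, .d0) (c, .d1 i) :=
    fun i => (adj_child c (Child.c1 i)).reachable
  have h2 : ∀ i j, (Tgt R S Z).Reachable (c, .d0) (c, .d2 i j) :=
    fun i j => (h1 i).trans (adj_child c (Child.c2 i j)).reachable
  have h3 : ∀ i j k, (Tgt R S Z).Reachable (c, .d0) (c, .d3 i j k) :=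
    fun i j k => (h2 i j).trans (adj_child c (Child.c3 i j k)).reachable
  cases u with
  | d0 => exact SimpleGraph.Reachable.refl _
  | d1 i => exact h1 i
  | d2 i j => exact h2 i j
  | d3 i j k => exact h3 i j k

theorem Tgt_connected (R S Z : ℕ) : (Tgt R S Z).Connected := by
  have hpre : (Tgt R S Z).Preconnected := by
    rintro ⟨c, u⟩ ⟨c', v⟩
    have h0 : (Tgt R S Z).Reachable (c, .d0) (c', .d0) := by
      by_cases h : c = c'
      · subst h
        exact SimpleGraph.Reachable.refl _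
      · have h1 : (Tgt R S Z).Adj (c, .d0) (c', .d0) := Or.inr ⟨h, rfl, rfl⟩
        exact h1.reachable
    exact (reach_root c u).symm.trans (h0.trans (reach_root c' v))
  haveI : Nonempty (Fin (R + 1) × TV R S Z) := ⟨(0, .d0)⟩
  exact ⟨hpre⟩

end Pool.Agent.Lib.MP_dbb03c_co.Gen
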