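import Pool.Agent.Lib.MP_dbb03c_co.Gen.SLog
import Pool.Agent.Lib.MP_dbb03c_co.Gen.SPathLo

/-! # Five values of the logarithmic mean

All of them from `LS_low`; the entries are at least `1 / R ^ 6` by `vS_lo` (write the vector as
`bS (vS t) = vS (gr one t)` for a tree with at most 6 vertices; `l ^ 5 ≤ 2 * R ^ 5 ≤ R ^ 6`);
the entry at level 0 is estimated by dropping nonnegative terms; `l ^ k ≤ (1 + 1 / M ^ 5) * R ^ k`. -/

set_option autoImplicit false

namespace Pool.Agent.Lib.MP_dbb03c_co.Gen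

open Real

variable {M R l p q : ℝ}

private theorem vS_gr_one (t : RT) : vS M R l (.gr .one t) = bS M R l (vS M R l t) := by
  funext i
  change oS i * bS M R l (vS M R l t) i = _
  simp [oS]

private theorem M_pos (h : Par M R l p q) : 0 < M := by
  have := h.hM
  linarith

private theorem M_le_R (h : Par M R l p q) : M ^ 3 ≤ R := by
  have hM := h.hM
  exact (pow_le_pow_right₀ (by linarith) (by norm_num)).trans h.hR

private theorem e_le (h : Par M R l p q) : 1 / M ^ 5 ≤ 1 / 1000 := by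
  have h5 : (8 : ℝ) ^ 5 ≤ M ^ 5 := pow_le_pow_left₀ (by norm_num) h.hM 5
  exact one_div_le_one_div_of_le (by norm_num) (by norm_num at h5 ⊢; linarith)

private theorem R_ge (h : Par M R l p q) : 500 ≤ R := by
  have h3 : (8 : ℝ) ^ 3 ≤ M ^ 3 := pow_le_pow_left₀ (by norm_num) h.hM 3
  have := M_le_R h
  norm_num at h3
  linarith

private theorem vS_lo6 (h : Par M R l p q) (t : RT) (ht : t.sz ≤ 6) (i : Fin 4) :
    1 / R ^ 6 ≤ vS M R l t i := by
  refine le_trans ?_ (vS_lo h t i)
  have hR := R_ge h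
  have hl := h.l_pos
  refine one_div_le_one_div_of_le (pow_pos hl _) ?_
  have h1 := h.l_pow (k := t.sz - 1) (by omega)
  have h2 : R ^ (t.sz - 1) ≤ R ^ 5 := pow_le_pow_right₀ (by linarith) (by omega)
  have h3 := e_le h
  have h5 : (0 : ℝ) ≤ R ^ 5 := by positivity
  calc l ^ (t.sz - 1) ≤ (1 + 1 / M ^ 5) * R ^ (t.sz - 1) := h1
    _ ≤ 2 * R ^ 5 := by
      refine mul_le_mul (by linarith) h2 (by positivity) (by norm_num)
    _ ≤ R * R ^ 5 := mul_le_mul_of_nonneg_right (by linarith) h5
    _ = R ^ 6 := by ring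

private theorem rho_lo (h : Par M R l p q) (k : ℕ) (hk : k ≤ 8) : 1 / 2 ≤ (R / l) ^ k := by
  have hl := h.l_pos
  rw [div_pow, div_le_div_iff₀ (by norm_num) (pow_pos hl k)]
  have h1 := h.l_pow hk
  have h3 := e_le h
  have h5 : (0 : ℝ) ≤ R ^ k := pow_nonneg h.R_pos.le k
  nlinarith

private theorem rho_hi (h : Par M R l p q) (k : ℕ) : (R / l) ^ k ≤ 1 := by
  have hl := h.l_pos
  exact pow_le_one₀ (div_nonneg h.R_pos.le hl.le) ((div_le_one hl).2 h.hl.le)

private theorem log_rho (h : Par M R l p q) : -(1 / M ^ 5) ≤ log (R / l) := by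
  have hl := h.l_pos
  have hR := h.R_pos
  have h1 : log (l / R) ≤ l / R - 1 := log_le_sub_one_of_pos (div_pos hl hR)
  have h2 : log (R / l) = - log (l / R) := by
    rw [← log_inv, inv_div]
  have h3 := h.l_pow (k := 1) (by norm_num)
  have h4 : l / R ≤ 1 + 1 / M ^ 5 := by
    rw [div_le_iff₀ hR]
    simpa using h3
  rw [h2]
  linarith

private theorem small_sum (h : Par M R l p q) : 4 * (1 / M ^ 5) + 1 / M ^ 4 ≤ 1 / M ^ 3 := by
  have hM := h.hM
  have hM0 := M_pos h
  have e1 : 1 / M ^ 3 = M ^ 2 / M ^ 5 := by field_simp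
  have e2 : 1 / M ^ 4 = M / M ^ 5 := by field_simp
  have e3 : 4 * (1 / M ^ 5) = 4 / M ^ 5 := by ring
  rw [e1, e2, e3, ← add_div]
  exact div_le_div_of_nonneg_right (by nlinarith) (by positivity)

private theorem five_le (h : Par M R l p q) {x : V4} (h0 : M ≤ x 0)
    (hx : ∀ i, 1 / R ^ 6 ≤ x i) : log 5 ≤ LS M R l p q x := by
  have hM := h.hM
  have hMR : M ≤ R := by
    have h1 := M_le_R h
    have h2 : M ≤ M ^ 3 := le_self_pow₀ (by linarith) (by norm_num)
    linarith
  have h1 := LS_low h (c := M) (by linarith) hMR h0 hx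
  have h2 : log 8 ≤ log M := log_le_log (by norm_num) hM
  have h3 : 1 / M ^ 4 ≤ 1 / 1000 := by
    have h5 : (8 : ℝ) ^ 4 ≤ M ^ 4 := pow_le_pow_left₀ (by norm_num) h.hM 4
    exact one_div_le_one_div_of_le (by norm_num) (by norm_num at h5 ⊢; linarith)
  have h4 : log 8 - log 5 = -log (5 / 8) := by
    rw [log_div (by norm_num) (by norm_num)]
    ring
  have h5 : log (5 / 8 : ℝ) ≤ 5 / 8 - 1 := log_le_sub_one_of_pos (by norm_num)
  linarith

/-- `bS 1` at level 0 is `2 * R / l` -/
theorem val_leaf (h : Par M R l p q) : log 2 - 1 / M ^ 3 ≤ LS M R l p q (bS M R l oS) := by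
  have hl := h.l_pos
  have hR := h.R_pos
  have hRl : 0 < R / l := div_pos hR hl
  have e0 : bS M R l oS 0 = 2 * (R / l) := by
    change (R * 1 + R * 1) / l = _
    ring
  have h1 := rho_lo h 1 (by norm_num)
  have h2 := rho_hi h 1
  rw [pow_one] at h1 h2
  have hRb := R_ge h
  have h3 := LS_low h (x := bS M R l oS) (c := 2 * (R / l)) (by linarith) (by linarith)
    e0.ge (fun i => by
      have := vS_lo6 h (.gr .one .one) (by simp [RT.sz]) i
      rwa [vS_gr_one] at this)
  rw [log_mul (by norm_num) hRl.ne'] at h3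
  have h4 := log_rho h
  have h5 := small_sum h
  have h6 : 0 ≤ 1 / M ^ 5 := by
    have := M_pos h
    positivity
  linarith

/-- at level 0 at least `M` (`oS_ge`) -/
theorem val_path (h : Par M R l p q) : log 5 ≤ LS M R l p q ((bS M R l)^[3] oS) := by
  refine five_le h ?_ (fun i => ?_)
  · have := oS_ge h 3 le_rfl 0
    simpa [phS] using this
  · have := vS_lo6 h (.gr .one (.gr .one (.gr .one .one))) (by simp [RT.sz]) i
    rwa [vS_gr_one, vS_gr_one, vS_gr_one] at this

private theorem bS0 (x : V4) : bS M R l x 0 = (R * x 0 + R * x 1) / l := rfl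
private theorem bS1 (x : V4) : bS M R l x 1 = (x 0 + R / M * x 2) / l := rfl
private theorem bS2 (x : V4) : bS M R l x 2 = (x 1 + M ^ 2 * R * x 3) / l := rfl
private theorem bS3 (x : V4) : bS M R l x 3 = x 2 / l := rfl

/-- at level 0 at least `5 * (R / l) ^ 4`: with `deg = opS 1`, `z = deg * opS deg`:
`z 0 ≥ 2 * R * (2 * R ^ 2)`, `z 1 ≥ (R / M) * (R / M * (M ^ 2 * R))` -/
theorem val_E (h : Par M R l p q) : log 5 - 1 / M ^ 3 ≤ LS M R l p q (bS M R l (zS M R l)) := by
  have hl := h.l_pos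
  have hR := h.R_pos
  have hM0 := M_pos h
  have hRl : 0 < R / l := div_pos hR hl
  have e0 : 5 * (R / l) ^ 4 ≤ bS M R l (zS M R l) 0 := by
    have e1 : bS M R l (zS M R l) 0 =
        (R * ((2 * R) * (R * (2 * R) + R * (1 + R / M))) +
          R * ((1 + R / M) * (2 * R + R / M * (1 + M ^ 2 * R)))) / l ^ 4 := by
      rw [bS0]
      have z0 : zS M R l 0 = bS M R l oS 0 * bS M R l (bS M R l oS) 0 := rfl
      have z1 : zS M R l 1 = bS M R l oS 1 * bS M R l (bS M R l oS) 1 := rfl
      have b0 : bS M R l oS 0 = 2 * R / l := by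
        rw [bS0]
        simp only [oS]
        ring
      have b1 : bS M R l oS 1 = (1 + R / M) / l := by
        rw [bS1]
        simp only [oS, mul_one]
      have b2 : bS M R l oS 2 = (1 + M ^ 2 * R) / l := by
        rw [bS2]
        simp only [oS, mul_one]
      have c0 : bS M R l (bS M R l oS) 0 = (R * (2 * R / l) + R * ((1 + R / M) / l)) / l := by
        rw [bS0, b0, b1]
      have c1 : bS M R l (bS M R l oS) 1 =
          (2 * R / l + R / M * ((1 + M ^ 2 * R) / l)) / l := by
        rw [bS1, b0, b2]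
      rw [z0, z1, c0, c1, b0, b1]
      field_simp
    rw [e1, div_pow, mul_div_assoc']
    refine div_le_div_of_nonneg_right ?_ (by positivity)
    have h1 : 0 ≤ R * (2 * R) * (R * (1 + R / M)) := by positivity
    have h2 : R * ((R / M) * (R / M * (M ^ 2 * R))) ≤
        R * ((1 + R / M) * (2 * R + R / M * (1 + M ^ 2 * R))) := by
      refine mul_le_mul_of_nonneg_left ?_ hR.le
      refine mul_le_mul (by linarith) ?_ (by positivity) (by positivity)
      have : R / M * (M ^ 2 * R) ≤ R / M * (1 + M ^ 2 * R) :=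
        mul_le_mul_of_nonneg_left (by linarith) (by positivity)
      linarith
    have h3 : R * ((R / M) * (R / M * (M ^ 2 * R))) = R ^ 4 := by field_simp
    rw [h3] at h2
    nlinarith
  have h1 := rho_lo h 4 (by norm_num)
  have h2 := rho_hi h 4
  have hRb := R_ge h
  have h3 := LS_low h (x := bS M R l (zS M R l)) (c := 5 * (R / l) ^ 4) (by linarith)
    (by linarith) e0 (fun i => by
      have := vS_lo6 h (.gr .one (.gr (.gr .one .one) (.gr .one .one))) (by simp [RT.sz]) i
      rw [vS_gr_one] at this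
      have e1 : vS M R l (.gr (.gr .one .one) (.gr .one .one)) = zS M R l := by
        change vS M R l (.gr .one .one) * bS M R l (vS M R l (.gr .one .one)) = _
        rw [vS_gr_one]
        rfl
      rwa [e1] at this)
  rw [log_mul (by norm_num) (by positivity), log_pow] at h3
  have h4 := log_rho h
  have h5 := small_sum h
  push_cast at h3
  linarith

/-- at level 0 at least `M ^ 2 * (R / l) ^ 5` (from `(opS^[2] 1) 1 ≥ M * R ^ 2`) -/
theorem val_22 (h : Par M R l p q) :
    log 5 ≤ LS M R l p q (bS M R l ((bS M R l)^[2] oS * (bS M R l)^[2] oS)) := by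
  have hl := h.l_pos
  have hR := h.R_pos
  have hM0 := M_pos h
  have hM := h.hM
  have hy : ∀ i, 0 < (bS M R l)^[2] oS i := itS_pos h 2 (fun _ => one_pos)
  refine five_le h ?_ (fun i => ?_)
  · have e1 : M * (R / l) ^ 2 ≤ (bS M R l)^[2] oS 1 := by
      have e2 : (bS M R l)^[2] oS 1 = (2 * R + R / M * (1 + M ^ 2 * R)) / l ^ 2 := by
        change bS M R l (bS M R l oS) 1 = _
        rw [bS1, bS0, bS2]
        simp only [oS]
        field_simp
        ring
      rw [e2, div_pow, mul_div_assoc']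
      refine div_le_div_of_nonneg_right ?_ (by positivity)
      have h3 : R / M * (1 + M ^ 2 * R) = R / M + M * R ^ 2 := by field_simp
      have h4 : 0 < R / M := by positivity
      rw [h3]
      linarith
    have e3 : (M * (R / l) ^ 2) ^ 2 ≤ (bS M R l)^[2] oS 1 ^ 2 := pow_le_pow_left₀ (by positivity) e1 2
    rw [bS0]
    have e4 : R / l * (bS M R l)^[2] oS 1 ^ 2 ≤ (R * ((bS M R l)^[2] oS * (bS M R l)^[2] oS) 0 +
        R * ((bS M R l)^[2] oS * (bS M R l)^[2] oS) 1) / l := by
      have e5 : ((bS M R l)^[2] oS * (bS M R l)^[2] oS) 1 = (bS M R l)^[2] oS 1 ^ 2 := by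
        rw [Pi.mul_apply, sq]
      have e6 : 0 ≤ ((bS M R l)^[2] oS * (bS M R l)^[2] oS) 0 := by
        rw [Pi.mul_apply]
        exact mul_nonneg (hy 0).le (hy 0).le
      rw [e5, add_div]
      have e7 : 0 ≤ R * ((bS M R l)^[2] oS * (bS M R l)^[2] oS) 0 / l := by positivity
      have e8 : R / l * (bS M R l)^[2] oS 1 ^ 2 = R * (bS M R l)^[2] oS 1 ^ 2 / l := by ring
      rw [e8]
      linarith
    refine le_trans ?_ e4
    refine le_trans ?_ (mul_le_mul_of_nonneg_left e3 (by positivity))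
    have e9 : R / l * (M * (R / l) ^ 2) ^ 2 = M * (M * (R / l) ^ 5) := by ring
    rw [e9]
    have h5 := rho_lo h 5 (by norm_num)
    have h6 : 1 ≤ M * (R / l) ^ 5 := by nlinarith
    nlinarith
  · have := vS_lo6 h (.gr .one (.gr (.gr .one (.gr .one .one)) (.gr .one .one)))
      (by simp [RT.sz]) i
    rw [vS_gr_one] at this
    have e1 : vS M R l (.gr (.gr .one (.gr .one .one)) (.gr .one .one)) =
        (bS M R l)^[2] oS * (bS M R l)^[2] oS := by
      change vS M R l (.gr .one (.gr .one .one)) * bS M R l (vS M R l (.gr .one .one)) = _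
      rw [vS_gr_one, vS_gr_one]
      rfl
    rwa [e1] at this

/-- at level 0 at least `M ^ 3 * (R / l) ^ 4` (from `(opS 1) 2 ≥ M ^ 2 * R`) -/
theorem val_11 (h : Par M R l p q) :
    log 5 ≤ LS M R l p q (bS M R l (bS M R l (bS M R l oS * bS M R l oS))) := by
  have hl := h.l_pos
  have hR := h.R_pos
  have hM0 := M_pos h
  have hM := h.hM
  refine five_le h ?_ (fun i => ?_)
  · have e1 : bS M R l (bS M R l (bS M R l oS * bS M R l oS)) 0 =
        (R * (R * (2 * R) ^ 2 + R * (1 + R / M) ^ 2) +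
          R * ((2 * R) ^ 2 + R / M * (1 + M ^ 2 * R) ^ 2)) / l ^ 4 := by
      rw [bS0, bS0, bS1]
      have y0 : (bS M R l oS * bS M R l oS) 0 = bS M R l oS 0 * bS M R l oS 0 := rfl
      have y1 : (bS M R l oS * bS M R l oS) 1 = bS M R l oS 1 * bS M R l oS 1 := rfl
      have y2 : (bS M R l oS * bS M R l oS) 2 = bS M R l oS 2 * bS M R l oS 2 := rfl
      rw [y0, y1, y2, bS0 oS, bS1 oS, bS2 oS]
      simp only [oS]
      field_simp
      ring
    rw [e1]
    have e2 : M * (M ^ 2 * (R / l) ^ 4) ≤ (R * (R * (2 * R) ^ 2 + R * (1 + R / M) ^ 2) +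
          R * ((2 * R) ^ 2 + R / M * (1 + M ^ 2 * R) ^ 2)) / l ^ 4 := by
      rw [div_pow, mul_div_assoc', mul_div_assoc']
      refine div_le_div_of_nonneg_right ?_ (by positivity)
      have h1 : 0 ≤ R * (R * (2 * R) ^ 2 + R * (1 + R / M) ^ 2) := by positivity
      have h2 : 0 ≤ R * (2 * R) ^ 2 := by positivity
      have h3 : R * (R / M * (M ^ 2 * R) ^ 2) ≤ R * (R / M * (1 + M ^ 2 * R) ^ 2) := by
        refine mul_le_mul_of_nonneg_left (mul_le_mul_of_nonneg_left ?_ (by positivity)) hR.le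
        exact pow_le_pow_left₀ (by positivity) (by linarith) 2
      have h4 : R * (R / M * (M ^ 2 * R) ^ 2) = M * (M ^ 2 * R ^ 4) := by field_simp
      rw [h4] at h3
      nlinarith
    refine le_trans ?_ e2
    have h5 := rho_lo h 4 (by norm_num)
    have h6 : 1 ≤ M ^ 2 * (R / l) ^ 4 := by nlinarith
    nlinarith
  · have := vS_lo6 h (.gr .one (.gr .one (.gr (.gr .one .one) .one)))
      (by simp [RT.sz]) i
    rw [vS_gr_one, vS_gr_one] at this
    have e1 : vS M R l (.gr (.gr .one .one) .one) = bS M R l oS * bS M R l oS := by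
      change vS M R l (.gr .one .one) * bS M R l (vS M R l .one) = _
      rw [vS_gr_one]
      rfl
    rwa [e1] at this

end Pool.Agent.Lib.MP_dbb03c_co.Gen
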